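import Mathlib

set_option autoImplicit false

namespace Pool.Agent.H7.Veto

/-- `a ↦ (l a, v a, r a)` is a veto interval representation of `G`. -/
def Rep {V : Type} (G : SimpleGraph V) (l v r : V → ℝ) : Prop :=
  (∀ a, l a < v a ∧ v a < r a) ∧ Function.Injective (fun a => (l a, v a, r a)) ∧
    ∀ a b, a ≠ b → (G.Adj a b ↔
      (v a < l b ∧ l b < r a ∧ r a < v b) ∨ (v b < l a ∧ l a < r b ∧ r b < v a))

/-- All intervals have the same length. -/
def Unit {V : Type} (l r : V → ℝ) : Prop := ∃ L : ℝ, ∀ a, r a - l a = L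

/-- No interval properly contains another. -/
def Proper {V : Type} (l r : V → ℝ) : Prop :=
  ∀ a b, ¬ Set.Icc (l a) (r a) ⊂ Set.Icc (l b) (r b)

/-- Every veto mark is the midpoint of its interval. -/
def Mid {V : Type} (l v r : V → ℝ) : Prop := ∀ a, v a = (l a + r a) / 2

/-- Veto interval graphs. -/
def VI {V : Type} (G : SimpleGraph V) : Prop := ∃ l v r, Rep G l v r

/-- Midpoint veto interval graphs. -/
def MVI {V : Type} (G : SimpleGraph V) : Prop := ∃ l v r, Rep G l v r ∧ Mid l v r

/-- Unit veto interval graphs. -/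
def UVI {V : Type} (G : SimpleGraph V) : Prop := ∃ l v r, Rep G l v r ∧ Unit l r

/-- Midpoint unit veto interval graphs. -/
def MUVI {V : Type} (G : SimpleGraph V) : Prop := ∃ l v r, Rep G l v r ∧ Mid l v r ∧ Unit l r

/-- Midpoint proper veto interval graphs. -/
def MPVI {V : Type} (G : SimpleGraph V) : Prop := ∃ l v r, Rep G l v r ∧ Mid l v r ∧ Proper l r

/-- Double veto interval graphs. -/
def DVI {V : Type} (G : SimpleGraph V) : Prop := ∃ l v w r : V → ℝ,
  (∀ a, l a < v a ∧ v a < w a ∧ w a < r a) ∧ Function.Injective (fun a => (l a, v a, w a, r a)) ∧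
    ∀ a b, a ≠ b → (G.Adj a b ↔
      (w a < l b ∧ l b < r a ∧ r a < v b) ∨ (w b < l a ∧ l a < r b ∧ r b < v a))

end Pool.Agent.H7.Veto
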