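import Mathlib
import Pool.Agent.H7.VetoDefs
import Pool.Agent.H31.HyperRamsey

set_option autoImplicit false

namespace Pool.Agent.H7.Veto

theorem hom (C : Type) [Fintype C] [Nonempty C] (n M : ℕ) : ∃ N : ℕ, ∀ χ : (Fin n → ℕ) → C,
    ∃ τ : ℕ → ℕ, (∀ i j, i < j → j < M → τ i < τ j) ∧ (∀ i < M, τ i < N) ∧
      ∀ φ ψ : Fin n → ℕ, StrictMono φ → StrictMono ψ → (∀ i, φ i < M) → (∀ i, ψ i < M) →
        χ (fun i => τ (φ i)) = χ (fun i => τ (ψ i)) := by
  obtain ⟨R, hR⟩ := Pool.Agent.H31.HyperRamsey.indisc C n M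
  refine ⟨R, fun χ => ?_⟩
  obtain ⟨τ, h1, h2, h3⟩ := hR ℕ (Finset.range R) χ (by simp)
  refine ⟨τ, fun i j a b => h1 (a.trans b) b a, fun i hi => by simpa using h2 i hi, ?_⟩
  have ext : ∀ φ : Fin n → ℕ, StrictMono φ → (∀ i, φ i < M) →
      StrictMono (fun i => if h : i < n then φ ⟨i, h⟩ else M + i) := by
    intro φ a b i j hij
    dsimp only
    split_ifs with c d d
    · exact a hij
    · have := b ⟨i, c⟩
      omega
    · omega
    · omega
  intro φ ψ a b c d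
  have := h3 _ _ (ext φ a c) (ext ψ b d) (fun i hi => by simpa [hi] using c ⟨i, hi⟩)
    (fun i hi => by simpa [hi] using d ⟨i, hi⟩)
  simpa using this

/-- The graph of a family of doubly marked intervals. -/
def gr {V : Type} (l v w r : V → ℝ) (h : ∀ a, l a < v a) (h' : ∀ a, v a ≤ w a) :
    SimpleGraph V where
  Adj a b := (w a < l b ∧ l b < r a ∧ r a < v b) ∨ (w b < l a ∧ l a < r b ∧ r b < v a)
  symm := ⟨fun _ _ h => h.symm⟩
  loopless := ⟨fun a k => by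
    rcases k with k | k <;> linarith [h a, h' a, k.1]⟩

/-- Increasing triples below `N`. -/
abbrev T3 (N : ℕ) : Type := {p : Fin N × Fin N × Fin N // p.1 < p.2.1 ∧ p.2.1 < p.2.2}

/-- The veto interval graph on all increasing triples. -/
def G3 (N : ℕ) : SimpleGraph (T3 N) :=
  gr (fun a => (a.1.1 : ℕ)) (fun a => (a.1.2.1 : ℕ)) (fun a => (a.1.2.1 : ℕ))
    (fun a => (a.1.2.2 : ℕ)) (fun a => by exact_mod_cast a.2.1) (fun _ => le_rfl)

theorem G3_vi (N : ℕ) : VI (G3 N) := by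
  refine ⟨fun a => (a.1.1 : ℕ), fun a => (a.1.2.1 : ℕ), fun a => (a.1.2.2 : ℕ),
    fun a => ⟨Nat.cast_lt.2 a.2.1, Nat.cast_lt.2 a.2.2⟩, fun a b h => ?_,
    fun _ _ _ => Iff.rfl⟩
  simp only [Prod.mk.injEq, Nat.cast_inj] at h
  exact Subtype.ext (Prod.ext (Fin.ext h.1) (Prod.ext (Fin.ext h.2.1) (Fin.ext h.2.2)))

/-- Extension of a vertex function to all triples of naturals. -/
def e3 {N : ℕ} {C : Type} (c0 : C) (f : T3 N → C) (i j k : ℕ) : C :=
  if h : i < j ∧ j < k ∧ k < N then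
    f ⟨(⟨i, by omega⟩, ⟨j, by omega⟩, ⟨k, by omega⟩), h.1, h.2.1⟩ else c0

theorem G3_col (k : ℕ) : ∃ N, ¬ (G3 N).Colorable (k + 1) := by
  obtain ⟨N, hN⟩ := hom (Fin (k + 1)) 3 6
  refine ⟨N, fun ⟨c⟩ => ?_⟩
  obtain ⟨τ, h1, h2, h3⟩ := hN (fun f => e3 0 c (f 0) (f 1) (f 2))
  have := h3 ![0, 1, 3] ![2, 4, 5] (by decide) (by decide) (by decide) (by decide)
  have a1 := h1 0 1 (by omega) (by omega)
  have a2 := h1 1 2 (by omega) (by omega)
  have a3 := h1 2 3 (by omega) (by omega)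
  have a4 := h1 3 4 (by omega) (by omega)
  have a5 := h1 4 5 (by omega) (by omega)
  have a6 := h2 5 (by omega)
  change e3 0 c (τ 0) (τ 1) (τ 3) = e3 0 c (τ 2) (τ 4) (τ 5) at this
  rw [e3, e3, dif_pos (by omega), dif_pos (by omega)] at this
  refine c.valid (Or.inl ⟨?_, ?_, ?_⟩) this
  · exact Nat.cast_lt.2 a2
  · exact Nat.cast_lt.2 a3
  · exact Nat.cast_lt.2 a4

theorem mid_fin (L V R : ℕ → ℕ → ℕ → ℝ)
    (E : ∀ a b c d e f, a < b → b < c → c < d → d < e → e < f → f < 18 →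
      V a b d < L c e f ∧ L c e f < R a b d ∧ R a b d < V c e f)
    (h1 : V 2 10 12 = (L 2 10 12 + R 2 10 12) / 2) (h2 : V 5 7 15 = (L 5 7 15 + R 5 7 15) / 2) :
    False := by
  have e1 := E 0 1 2 3 10 12
  have e2 := E 0 1 2 3 4 6
  have e3 := E 2 4 5 6 7 15
  have e4 := E 5 7 8 15 16 17
  have e5 := E 0 1 8 9 16 17
  have e6 := E 0 1 2 9 10 12
  have e7 := E 2 10 11 12 13 15
  have e8 := E 11 13 14 15 16 17
  have e9 := E 5 7 14 15 16 17
  norm_num at e1 e2 e3 e4 e5 e6 e7 e8 e9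
  linarith [e1.2.1, e2.2.2, e3.1, e4.1, e5.2.1, e6.2.2, e7.2.2, e8.1, e9.2.1]

theorem G3_mid : ∃ N, ¬ MVI (G3 N) := by
  classical
  obtain ⟨N, hN⟩ := hom Prop 6 18
  refine ⟨N, fun ⟨l, v, r, ⟨h0, _, hr⟩, hm⟩ => ?_⟩
  obtain ⟨τ, h1, h2, h3⟩ := hN (fun f => e3 0 v (f 0) (f 1) (f 3) < e3 0 v (f 2) (f 4) (f 5))
  let L : ℕ → ℕ → ℕ → ℝ := fun a b c => e3 0 l (τ a) (τ b) (τ c)
  let V : ℕ → ℕ → ℕ → ℝ := fun a b c => e3 0 v (τ a) (τ b) (τ c)
  let R : ℕ → ℕ → ℕ → ℝ := fun a b c => e3 0 r (τ a) (τ b) (τ c)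
  have hM : ∀ a b c, V a b c = (L a b c + R a b c) / 2 := by
    intro a b c
    simp only [L, V, R, e3]
    split_ifs
    · exact hm _
    · simp
  have E : ∀ a b c d e f, a < b → b < c → c < d → d < e → e < f → f < 18 →
      ((V a b d < L c e f ∧ L c e f < R a b d ∧ R a b d < V c e f) ∨
      (V c e f < L a b d ∧ L a b d < R c e f ∧ R c e f < V a b d)) ∧
      (V a b d < V c e f ↔ V 0 1 3 < V 2 4 5) := by
    intro a b c d e f a1 a2 a3 a4 a5 a6
    have b1 := h1 a b a1 (by omega)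
    have b2 := h1 b c a2 (by omega)
    have b3 := h1 c d a3 (by omega)
    have b4 := h1 d e a4 (by omega)
    have b5 := h1 e f a5 (by omega)
    have b6 := h2 f a6
    constructor
    · simp only [L, V, R, e3]
      rw [dif_pos (by omega), dif_pos (by omega), dif_pos (by omega), dif_pos (by omega),
        dif_pos (by omega), dif_pos (by omega)]
      refine (hr _ _ (fun h => ?_)).1 (Or.inl ⟨?_, ?_, ?_⟩)
      · simp at h
        omega
      · exact Nat.cast_lt.2 b2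
      · exact Nat.cast_lt.2 b3
      · exact Nat.cast_lt.2 b4
    · refine Iff.of_eq (h3 ![a, b, c, d, e, f] ![0, 1, 2, 3, 4, 5] ?_ (by decide) ?_ (by decide))
      · refine Fin.strictMono_iff_lt_succ.2 fun i => ?_
        fin_cases i <;> simpa
      · intro i
        fin_cases i <;> simp <;> omega
  by_cases hc : V 0 1 3 < V 2 4 5
  · refine mid_fin L V R (fun a b c d e f a1 a2 a3 a4 a5 a6 => ?_) (hM _ _ _) (hM _ _ _)
    obtain ⟨k1, k2⟩ := E a b c d e f a1 a2 a3 a4 a5 a6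
    refine k1.resolve_right fun k => ?_
    linarith [k2.2 hc, k.1, k.2.1, k.2.2]
  · refine mid_fin (fun a b c => -R a b c) (fun a b c => -V a b c) (fun a b c => -L a b c)
      (fun a b c d e f a1 a2 a3 a4 a5 a6 => ?_) (by linarith [hM 2 10 12])
      (by linarith [hM 5 7 15])
    obtain ⟨k1, k2⟩ := E a b c d e f a1 a2 a3 a4 a5 a6
    have k := k1.resolve_left fun k => hc (k2.1 (by linarith [k.1, k.2.1, k.2.2]))
    exact ⟨by linarith [k.2.2], by linarith [k.2.1], by linarith [k.1]⟩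

/-- Increasing quadruples below `N`. -/
abbrev T4 (N : ℕ) : Type :=
  {p : Fin N × Fin N × Fin N × Fin N // p.1 < p.2.1 ∧ p.2.1 < p.2.2.1 ∧ p.2.2.1 < p.2.2.2}

/-- The double veto interval graph on all increasing quadruples. -/
def G4 (N : ℕ) : SimpleGraph (T4 N) :=
  gr (fun a => (a.1.1 : ℕ)) (fun a => (a.1.2.1 : ℕ)) (fun a => (a.1.2.2.1 : ℕ))
    (fun a => (a.1.2.2.2 : ℕ)) (fun a => by exact_mod_cast a.2.1)
    (fun a => by exact_mod_cast a.2.2.1.le)

theorem G4_dvi (N : ℕ) : DVI (G4 N) := by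
  refine ⟨fun a => (a.1.1 : ℕ), fun a => (a.1.2.1 : ℕ), fun a => (a.1.2.2.1 : ℕ),
    fun a => (a.1.2.2.2 : ℕ),
    fun a => ⟨Nat.cast_lt.2 a.2.1, Nat.cast_lt.2 a.2.2.1, Nat.cast_lt.2 a.2.2.2⟩,
    fun a b h => ?_, fun _ _ _ => Iff.rfl⟩
  simp only [Prod.mk.injEq, Nat.cast_inj] at h
  exact Subtype.ext (Prod.ext (Fin.ext h.1) (Prod.ext (Fin.ext h.2.1)
    (Prod.ext (Fin.ext h.2.2.1) (Fin.ext h.2.2.2))))

/-- Extension of a vertex function to all quadruples of naturals. -/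
def e4 {N : ℕ} (f : T4 N → ℝ) (i j k m : ℕ) : ℝ :=
  if h : i < j ∧ j < k ∧ k < m ∧ m < N then
    f ⟨(⟨i, by omega⟩, ⟨j, by omega⟩, ⟨k, by omega⟩, ⟨m, by omega⟩), h.1, h.2.1, h.2.2.1⟩ else 0

theorem dbl_fin (L V R : ℕ → ℕ → ℕ → ℕ → ℝ)
    (E : ∀ a b c d e f g h, a < b → b < c → c < d → d < e → e < f → f < g → g < h → h < 28 →
      V a b c e < L d f g h ∧ L d f g h < R a b c e ∧ R a b c e < V d f g h)
    (h1 : ¬ (V 7 9 18 20 < L 15 25 26 27 ∧ L 15 25 26 27 < R 7 9 18 20 ∧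
      R 7 9 18 20 < V 15 25 26 27))
    (h2 : ¬ (V 0 1 2 12 < L 7 9 18 20 ∧ L 7 9 18 20 < R 0 1 2 12 ∧ R 0 1 2 12 < V 7 9 18 20)) :
    False := by
  have az := E 0 1 2 11 12 25 26 27
  have uz := E 7 9 10 11 12 25 26 27
  have ab := E 0 1 2 3 12 25 26 27
  have xb := E 0 1 2 3 4 25 26 27
  have xy := E 0 1 2 3 4 5 6 8
  have yc := E 3 5 6 7 8 9 18 20
  have yu := E 3 5 6 7 8 9 10 12
  have ay := E 0 1 2 3 12 13 14 16
  have yb := E 3 13 14 15 16 25 26 27
  have yw := E 3 13 14 15 16 17 18 20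
  have wy := E 15 17 18 19 20 21 22 24
  have cy := E 7 9 18 19 20 21 22 24
  have y3 := E 19 21 22 23 24 25 26 27
  have x3 := E 0 1 2 23 24 25 26 27
  have x4 := E 0 1 2 15 24 25 26 27
  norm_num at az uz ab xb xy yc yu ay yb yw wy cy y3 x3 x4
  refine h1 ⟨not_le.1 fun k => h2 ⟨?_, ?_, ?_⟩, ?_, ?_⟩
  · linarith [ab.1, xb.2.1, xy.2.2, yc.1]
  · linarith [yc.2.1, yu.2.2, uz.1, az.2.1]
  · linarith [ay.2.2, yb.1]
  · linarith [yb.2.1, yw.2.2, wy.1, cy.2.1]
  · linarith [cy.2.2, y3.1, x3.2.1, x4.2.2]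

theorem G4_not : ∃ N, ¬ VI (G4 N) := by
  classical
  obtain ⟨N, hN⟩ := hom Prop 8 28
  refine ⟨N, fun ⟨l, v, r, h0, _, hr⟩ => ?_⟩
  obtain ⟨τ, h1, h2, h3⟩ :=
    hN (fun f => e4 v (f 0) (f 1) (f 2) (f 4) < e4 v (f 3) (f 5) (f 6) (f 7))
  let L : ℕ → ℕ → ℕ → ℕ → ℝ := fun a b c d => e4 l (τ a) (τ b) (τ c) (τ d)
  let V : ℕ → ℕ → ℕ → ℕ → ℝ := fun a b c d => e4 v (τ a) (τ b) (τ c) (τ d)
  let R : ℕ → ℕ → ℕ → ℕ → ℝ := fun a b c d => e4 r (τ a) (τ b) (τ c) (τ d)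
  have A : ∀ a b c e d f g h, a < b → b < c → c < e → e < 28 → d < f → f < g → g < h → h < 28 →
      a < d → (((V a b c e < L d f g h ∧ L d f g h < R a b c e ∧ R a b c e < V d f g h) ∨
      (V d f g h < L a b c e ∧ L a b c e < R d f g h ∧ R d f g h < V a b c e)) ↔
      (τ c < τ d ∧ τ d < τ e ∧ τ e < τ f) ∨ (τ g < τ a ∧ τ a < τ h ∧ τ h < τ b)) := by
    intro a b c e d f g h a1 a2 a3 a4 a5 a6 a7 a8 a9
    have b1 := h1 a b a1 (by omega)
    have b2 := h1 b c a2 (by omega)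
    have b3 := h1 c e a3 (by omega)
    have b4 := h2 e a4
    have b5 := h1 d f a5 (by omega)
    have b6 := h1 f g a6 (by omega)
    have b7 := h1 g h a7 (by omega)
    have b8 := h2 h a8
    have b9 := h1 a d a9 (by omega)
    simp only [L, V, R, e4]
    rw [dif_pos (by omega), dif_pos (by omega), dif_pos (by omega), dif_pos (by omega),
      dif_pos (by omega), dif_pos (by omega), ← hr _ _ (fun h => by simp at h; omega)]
    simp only [G4, gr, Nat.cast_lt]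
  have E : ∀ a b c d e f g h, a < b → b < c → c < d → d < e → e < f → f < g → g < h → h < 28 →
      ((V a b c e < L d f g h ∧ L d f g h < R a b c e ∧ R a b c e < V d f g h) ∨
      (V d f g h < L a b c e ∧ L a b c e < R d f g h ∧ R d f g h < V a b c e)) ∧
      (V a b c e < V d f g h ↔ V 0 1 2 4 < V 3 5 6 7) := by
    intro a b c d e f g h a1 a2 a3 a4 a5 a6 a7 a8
    constructor
    · rw [A a b c e d f g h a1 a2 (by omega) (by omega) (by omega) a6 a7 a8 (by omega)]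
      exact Or.inl ⟨h1 _ _ a3 (by omega), h1 _ _ a4 (by omega), h1 _ _ a5 (by omega)⟩
    · refine Iff.of_eq (h3 ![a, b, c, d, e, f, g, h] ![0, 1, 2, 3, 4, 5, 6, 7] ?_ (by decide) ?_
        (by decide))
      · refine Fin.strictMono_iff_lt_succ.2 fun i => ?_
        fin_cases i <;> simpa
      · intro i
        fin_cases i <;> simp <;> omega
  have n1 := A 7 9 18 20 15 25 26 27
  have n2 := A 0 1 2 12 7 9 18 20
  have m1 := h1 15 18 (by omega) (by omega)
  have m2 := h1 7 26 (by omega) (by omega)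
  have m3 := h1 9 12 (by omega) (by omega)
  have m4 := h1 0 18 (by omega) (by omega)
  have n1 := mt (n1 (by omega) (by omega) (by omega) (by omega) (by omega) (by omega) (by omega)
    (by omega) (by omega)).1 (by omega)
  have n2 := mt (n2 (by omega) (by omega) (by omega) (by omega) (by omega) (by omega) (by omega)
    (by omega) (by omega)).1 (by omega)
  by_cases hc : V 0 1 2 4 < V 3 5 6 7
  · refine dbl_fin L V R (fun a b c d e f g h a1 a2 a3 a4 a5 a6 a7 a8 => ?_)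
      (fun k => n1 (Or.inl k)) (fun k => n2 (Or.inl k))
    obtain ⟨k1, k2⟩ := E a b c d e f g h a1 a2 a3 a4 a5 a6 a7 a8
    refine k1.resolve_right fun k => ?_
    linarith [k2.2 hc, k.1, k.2.1, k.2.2]
  · refine dbl_fin (fun a b c d => -R a b c d) (fun a b c d => -V a b c d)
      (fun a b c d => -L a b c d) (fun a b c d e f g h a1 a2 a3 a4 a5 a6 a7 a8 => ?_)
      (fun k => n1 (Or.inr ⟨by linarith [k.2.2], by linarith [k.2.1], by linarith [k.1]⟩))
      (fun k => n2 (Or.inr ⟨by linarith [k.2.2], by linarith [k.2.1], by linarith [k.1]⟩))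
    obtain ⟨k1, k2⟩ := E a b c d e f g h a1 a2 a3 a4 a5 a6 a7 a8
    have k := k1.resolve_left fun k => hc (k2.1 (by linarith [k.1, k.2.1, k.2.2]))
    exact ⟨by linarith [k.2.2], by linarith [k.2.1], by linarith [k.1]⟩

theorem rep_comp {V : Type} {G : SimpleGraph V} {l v r : V → ℝ} (h : Rep G l v r)
    (s : Set V) : Rep (G.induce s) (fun a => l a) (fun a => v a) (fun a => r a) :=
  ⟨fun a => h.1 a, fun _ _ e => Subtype.ext (h.2.1 e),
    fun a b e => h.2.2 a b (fun k => e (Subtype.ext k))⟩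

theorem exists_chi (k : ℕ) :
    ∃ (V : Type) (_ : Fintype V) (G : SimpleGraph V), VI G ∧ G.chromaticNumber = (k + 2 : ℕ) := by
  classical
  have hex : ∃ n, ∃ (V : Type) (_ : Fintype V) (G : SimpleGraph V), Fintype.card V = n ∧ VI G ∧
      ¬ G.Colorable (k + 1) := by
    obtain ⟨N, hN⟩ := G3_col k
    exact ⟨_, _, inferInstance, _, rfl, G3_vi N, hN⟩
  obtain ⟨V, _, G, h1, ⟨l, v, r, h2⟩, h3⟩ := Nat.find_spec hex
  refine ⟨V, inferInstance, G, ⟨l, v, r, h2⟩, ?_⟩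
  rcases isEmpty_or_nonempty V with hV | ⟨⟨o⟩⟩
  · exact absurd (SimpleGraph.Colorable.of_isEmpty _) h3
  have : (G.induce {x | x ≠ o}).Colorable (k + 1) := by
    by_contra hc
    refine Nat.find_min hex (m := Fintype.card {x | x ≠ o}) ?_
      ⟨_, inferInstance, _, rfl, ⟨_, _, _, rep_comp h2 _⟩, hc⟩
    rw [← h1]
    exact Fintype.card_subtype_lt (x := o) (by simp)
  obtain ⟨c⟩ := this
  have hc : G.Colorable (k + 2) := by
    refine ⟨SimpleGraph.Coloring.mk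
      (fun x => if h : x = o then Fin.last _ else (c ⟨x, h⟩).castSucc) fun {a b} e => ?_⟩
    split_ifs with p q q
    · exact absurd (p.trans q.symm) e.ne
    · exact (Fin.castSucc_lt_last _).ne'
    · exact (Fin.castSucc_lt_last _).ne
    · exact fun k => c.valid (show (G.induce {x | x ≠ o}).Adj ⟨a, p⟩ ⟨b, q⟩ from e)
        (Fin.castSucc_injective _ k)
  refine le_antisymm hc.chromaticNumber_le (not_lt.1 fun hl => h3 ?_)
  rw [← SimpleGraph.chromaticNumber_le_iff_colorable]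
  exact Order.le_of_lt_add_one (by simpa [add_assoc, one_add_one_eq_two] using hl)

theorem uvi_col {V : Type} {G : SimpleGraph V} (h : UVI G) : G.Colorable 4 := by
  classical
  obtain ⟨l, v, r, ⟨h0, -, h1⟩, L, hL⟩ := h
  have key : ∀ a b, v a < l b → l b < r a → r a < v b →
      ((⌈l a / L⌉ : ZMod 2), decide (v a < ⌈l a / L⌉ * L)) ≠
        ((⌈l b / L⌉ : ZMod 2), decide (v b < ⌈l b / L⌉ * L)) := by
    intro a b a1 a2 a3 e
    obtain ⟨e1, e2⟩ := Prod.mk.inj e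
    have p : 0 < L := by linarith [hL a, h0 a]
    have b1 := (div_le_iff₀ p).1 (Int.le_ceil (l a / L))
    have b2 := (div_le_iff₀ p).1 (Int.le_ceil (l b / L))
    have b3 := (lt_div_iff₀ p).1 (sub_lt_iff_lt_add.2 (Int.ceil_lt_add_one (l a / L)))
    have b4 := (lt_div_iff₀ p).1 (sub_lt_iff_lt_add.2 (Int.ceil_lt_add_one (l b / L)))
    have c1 : ⌈l b / L⌉ < ⌈l a / L⌉ + 2 := by
      have : (⌈l b / L⌉ : ℝ) < ⌈l a / L⌉ + 2 := lt_of_mul_lt_mul_right (by linarith [hL a]) p.le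
      exact_mod_cast this
    have c2 : ⌈l a / L⌉ < ⌈l b / L⌉ + 1 := by
      have : (⌈l a / L⌉ : ℝ) < ⌈l b / L⌉ + 1 := lt_of_mul_lt_mul_right (by linarith [h0 a]) p.le
      exact_mod_cast this
    have c3 := (ZMod.intCast_eq_intCast_iff_dvd_sub _ _ 2).1 e1
    have c4 : ⌈l a / L⌉ = ⌈l b / L⌉ := by omega
    rw [decide_eq_decide, c4] at e2
    rw [c4] at b3
    linarith [e2.1 (by linarith), hL a]
  have := (SimpleGraph.Coloring.mk (G := G) (fun a => ((⌈l a / L⌉ : ZMod 2),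
    decide (v a < ⌈l a / L⌉ * L))) fun {a b} e => by
      rcases (h1 a b e.ne).1 e with k | k
      · exact key a b k.1 k.2.1 k.2.2
      · exact (key b a k.1 k.2.1 k.2.2).symm).colorable
  simpa using this

theorem mpvi_col {V : Type} [Fintype V] {G : SimpleGraph V} (h : MPVI G) : G.Colorable 3 := by
  classical
  obtain ⟨l, v, r, ⟨h0, -, h1⟩, hm, hp⟩ := h
  have mono : ∀ a b, l a ≤ l b → r a ≤ r b := by
    intro a b k
    by_contra k'
    refine hp b a ⟨Set.Icc_subset_Icc k (not_le.1 k').le, fun s => k' ?_⟩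
    exact (s ⟨by linarith [h0 a], le_rfl⟩).2
  let P : ℕ → V → Prop := fun n => Nat.rec (fun _ => True)
    (fun _ Q b => ∃ a, r a < v b ∧ v a < l b ∧ Q a) n
  have bd : ∀ n b, P n b → n ≤ (Finset.univ.filter (fun a => l a < l b)).card := by
    intro n
    induction n with
    | zero => simp
    | succ n ih =>
      rintro b ⟨a, a1, a2, a3⟩
      refine (ih a a3).trans_lt (Finset.card_lt_card ⟨fun x hx => ?_, fun s => ?_⟩)
      · simp only [Finset.mem_filter, Finset.mem_univ, true_and] at hx ⊢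
        linarith [h0 a]
      · have := s (show a ∈ _ by
          simp only [Finset.mem_filter, Finset.mem_univ, true_and]
          linarith [h0 a])
        simp at this
  haveI dec : ∀ b, DecidablePred (fun n => P n b) := fun _ _ => Classical.propDecidable _
  let H : V → ℕ := fun b => @Nat.findGreatest (fun n => P n b) (dec b) (Fintype.card V)
  have s1 : ∀ b, P (H b) b := fun b =>
    @Nat.findGreatest_spec 0 (fun n => P n b) (dec b) _ (Nat.zero_le _) trivial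
  have s2 : ∀ n b, P n b → n ≤ H b := by
    intro n b k
    exact @Nat.le_findGreatest n (fun n => P n b) (dec b) _ ((bd n b k).trans (Finset.card_le_univ _)) k
  have up : ∀ n x y, l x ≤ l y → P n x → P n y := by
    rintro (_ | n) x y k
    · exact id
    · rintro ⟨a, a1, a2, a3⟩
      exact ⟨a, by linarith [mono x y k, hm x, hm y], by linarith, a3⟩
  have key : ∀ a b, v a < l b → l b < r a → r a < v b → (H a : ZMod 3) ≠ H b := by
    intro a b a1 a2 a3 e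
    have b1 := s2 (H a + 1) b ⟨a, a3, a1, s1 a⟩
    have b2 := (ZMod.natCast_eq_natCast_iff' _ _ 3).1 e
    obtain ⟨n, hn⟩ : ∃ n, H b = n + 2 := ⟨H b - 2, by omega⟩
    have b3 := s1 b
    rw [hn] at b3
    obtain ⟨z, -, z2, y, y1, -, y3⟩ := b3
    rcases le_total (l y) (l a) with k | k
    · have := s2 n a (up n y a k y3)
      omega
    · linarith [mono a y k]
  have := (SimpleGraph.Coloring.mk (G := G) (fun a => (H a : ZMod 3)) fun {a b} e => by
      rcases (h1 a b e.ne).1 e with k | k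
      · exact key a b k.1 k.2.1 k.2.2
      · exact (key b a k.1 k.2.1 k.2.2).symm).colorable
  simpa using this

theorem muvi_mpvi {V : Type} {G : SimpleGraph V} (h : MUVI G) : MPVI G := by
  obtain ⟨l, v, r, h0, hm, L, hL⟩ := h
  refine ⟨l, v, r, h0, hm, fun a b k => k.2 ?_⟩
  have := (Set.Icc_subset_Icc_iff (by linarith [h0.1 a])).1 k.1
  exact Set.Icc_subset_Icc (by linarith [hL a, hL b]) (by linarith [hL a, hL b])

/-- The unit veto graph with integer data: left ends `x`, marks `m`, length `L`. -/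
def gi {n : ℕ} (x m : Fin n → ℕ) (L : ℕ) (h : ∀ a, x a < m a) : SimpleGraph (Fin n) :=
  gr (fun a => x a) (fun a => m a) (fun a => m a) (fun a => (x a + L : ℕ))
    (fun a => Nat.cast_lt.2 (h a)) (fun _ => le_rfl)

theorem gi_rep {n : ℕ} (x m : Fin n → ℕ) (L : ℕ) (h : ∀ a, x a < m a) (h' : ∀ a, m a < x a + L)
    (hi : ∀ a b, x a = x b → m a = m b → a = b) :
    Rep (gi x m L h) (fun a => x a) (fun a => m a) (fun a => (x a + L : ℕ)) :=
  ⟨fun a => ⟨Nat.cast_lt.2 (h a), Nat.cast_lt.2 (h' a)⟩, fun a b e => by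
    simp only [Prod.mk.injEq, Nat.cast_inj] at e
    exact hi a b e.1 e.2.1, fun _ _ _ => Iff.rfl⟩

theorem gi_adj {n : ℕ} (x m : Fin n → ℕ) (L : ℕ) (h : ∀ a, x a < m a) (a b : Fin n)
    (k : m a < x b ∧ x b < x a + L ∧ x a + L < m b) : (gi x m L h).Adj a b :=
  Or.inl ⟨Nat.cast_lt.2 k.1, Nat.cast_lt.2 k.2.1, Nat.cast_lt.2 k.2.2⟩

theorem chi_eq {V : Type} {G : SimpleGraph V} {k : ℕ} (h1 : G.Colorable (k + 1))
    (h2 : ¬ G.Colorable k) : G.chromaticNumber = (k + 1 : ℕ) := by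
  refine le_antisymm h1.chromaticNumber_le (not_lt.1 fun hl => h2 ?_)
  rw [← SimpleGraph.chromaticNumber_le_iff_colorable]
  exact Order.le_of_lt_add_one (by simpa using hl)

theorem five : ∃ G : SimpleGraph (Fin 5), MUVI G ∧ ¬ G.Colorable 2 := by
  refine ⟨gi ![0, 22, 44, 66, 33] ![20, 42, 64, 86, 53] 40 (by decide),
    ⟨_, _, _, gi_rep _ _ _ _ (by decide) (by decide), fun a => ?_, 40, fun a => by simp⟩, ?_⟩
  · fin_cases a <;> norm_num
  · rintro ⟨c⟩
    have e1 := c.valid (gi_adj _ _ _ _ 0 1 (by decide))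
    have e2 := c.valid (gi_adj _ _ _ _ 1 2 (by decide))
    have e3 := c.valid (gi_adj _ _ _ _ 2 3 (by decide))
    have e4 := c.valid (gi_adj _ _ _ _ 0 4 (by decide))
    have e5 := c.valid (gi_adj _ _ _ _ 4 3 (by decide))
    omega

set_option synthInstance.maxSize 4000 in
theorem nocol : ∀ c0 : Fin 3, ∀ c2 : Fin 3, c0 ≠ c2 → 
    ∀ c4 : Fin 3, c0 ≠ c4 → ∀ c10 : Fin 3, c2 ≠ c10 → c4 ≠ c10 → 
    ∀ c1 : Fin 3, c1 ≠ c10 → ∀ c6 : Fin 3, c0 ≠ c6 → c1 ≠ c6 → 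
    ∀ c8 : Fin 3, c0 ≠ c8 → c1 ≠ c8 → ∀ c3 : Fin 3, c3 ≠ c8 → c3 ≠ c10 → 
    ∀ c11 : Fin 3, c3 ≠ c11 → c4 ≠ c11 → c6 ≠ c11 → ∀ c9 : Fin 3, c1 ≠ c9 → c2 ≠ c9 → c9 ≠ c11 → 
    ∀ c5 : Fin 3, c0 ≠ c5 → c3 ≠ c5 → ∀ c7 : Fin 3, c7 ≠ c8 → c7 ≠ c11 → 
    ∀ c13 : Fin 3, c7 ≠ c13 → c9 ≠ c13 → c10 ≠ c13 → ∀ c12 : Fin 3, c4 ≠ c12 → c5 ≠ c12 → c12 ≠ c13 → 
    False := by
  decide +kernel

theorem fourteen : ∃ G : SimpleGraph (Fin 14), UVI G ∧ ¬ G.Colorable 3 := by
  refine ⟨gi ![18, 22, 22, 26, 30, 34, 36, 38, 40, 44, 44, 48, 52, 60]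
    ![19, 35, 43, 33, 43, 51, 47, 39, 63, 47, 55, 69, 59, 83] 24 (by decide),
    ⟨_, _, _, gi_rep _ _ _ _ (by decide) (by decide), 24, fun a => by simp⟩, ?_⟩
  rintro ⟨c⟩
  have e0 := c.valid (gi_adj _ _ _ _ 0 2 (by decide))
  have e1 := c.valid (gi_adj _ _ _ _ 0 4 (by decide))
  have e2 := c.valid (gi_adj _ _ _ _ 0 5 (by decide))
  have e3 := c.valid (gi_adj _ _ _ _ 0 6 (by decide))
  have e4 := c.valid (gi_adj _ _ _ _ 0 8 (by decide))
  have e5 := c.valid (gi_adj _ _ _ _ 1 6 (by decide))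
  have e6 := c.valid (gi_adj _ _ _ _ 1 8 (by decide))
  have e7 := c.valid (gi_adj _ _ _ _ 1 9 (by decide))
  have e8 := c.valid (gi_adj _ _ _ _ 1 10 (by decide))
  have e9 := c.valid (gi_adj _ _ _ _ 2 9 (by decide))
  have e10 := c.valid (gi_adj _ _ _ _ 2 10 (by decide))
  have e11 := c.valid (gi_adj _ _ _ _ 3 5 (by decide))
  have e12 := c.valid (gi_adj _ _ _ _ 3 8 (by decide))
  have e13 := c.valid (gi_adj _ _ _ _ 3 10 (by decide))
  have e14 := c.valid (gi_adj _ _ _ _ 3 11 (by decide))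
  have e15 := c.valid (gi_adj _ _ _ _ 4 10 (by decide))
  have e16 := c.valid (gi_adj _ _ _ _ 4 11 (by decide))
  have e17 := c.valid (gi_adj _ _ _ _ 4 12 (by decide))
  have e18 := c.valid (gi_adj _ _ _ _ 5 12 (by decide))
  have e19 := c.valid (gi_adj _ _ _ _ 6 11 (by decide))
  have e20 := c.valid (gi_adj _ _ _ _ 7 8 (by decide))
  have e21 := c.valid (gi_adj _ _ _ _ 7 11 (by decide))
  have e22 := c.valid (gi_adj _ _ _ _ 7 13 (by decide))
  have e23 := c.valid (gi_adj _ _ _ _ 9 11 (by decide))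
  have e24 := c.valid (gi_adj _ _ _ _ 9 13 (by decide))
  have e25 := c.valid (gi_adj _ _ _ _ 10 13 (by decide))
  have e26 := c.valid (gi_adj _ _ _ _ 12 13 (by decide))
  exact nocol (c 0) (c 2) e0 (c 4) e1 (c 10) e10 e15 (c 1) e8 (c 6) e3 e5 (c 8) e4 e6 (c 3) e12 e13 (c 11) e14 e16 e19 (c 9) e7 e9 e23 (c 5) e2 e11 (c 7) e20 e21 (c 13) e22 e24 e25 (c 12) e17 e18 e26


end Pool.Agent.H7.Veto
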