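import Pool.Agent.H7.BookDefs

set_option autoImplicit false

namespace Pool.Agent.H7.Book

/-- Breakpoints of the tent from height `y` down to height `x` in direction `e`. -/
noncomputable def tq (e : ℝ × ℝ) (x y : ℝ) (i : ℕ) : Pt :=
  if i = 0 then (0, 0, y) else if i = 1 then
    ((y - x) ^ 2 * e.1, (y - x) ^ 2 * e.2, (x + y) / 2) else (0, 0, x)

/-- The tent. -/
def tent (e : ℝ × ℝ) (x y : ℝ) : Set Pt :=
  {p | ∃ i < 2, p ∈ segment ℝ (tq e x y i) (tq e x y (i + 1))}

theorem tent_arc (e : ℝ × ℝ) (x y : ℝ) (h : x < y) :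
    IsDownArc (tent e x y) (0, 0, y) (0, 0, x) := by
  refine ⟨2, tq e x y, by norm_num, by simp [tq], by simp [tq], ?_, rfl⟩
  intro i hi
  interval_cases i
  · simp [tq]; linarith
  · simp [tq]; linarith

theorem mem_tent {e : ℝ × ℝ} {x y : ℝ} (h : x < y) {p : Pt} (hp : p ∈ tent e x y) :
    x ≤ p.2.2 ∧ p.2.2 ≤ y ∧ p.1 = 2 * (y - x) * min (p.2.2 - x) (y - p.2.2) * e.1 ∧
      p.2.1 = 2 * (y - x) * min (p.2.2 - x) (y - p.2.2) * e.2 := by
  obtain ⟨i, hi, a, b, ha, hb, hab, rfl⟩ := hp
  have hb' : b = 1 - a := by linarith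
  subst hb'
  interval_cases i
  · simp only [tq, if_true, zero_add, one_ne_zero, if_false, Prod.smul_mk, smul_eq_mul,
      Prod.mk_add_mk, mul_zero]
    rw [min_eq_right (by nlinarith)]
    refine ⟨by nlinarith, by nlinarith, by ring, by ring⟩
  · simp only [tq, if_true, one_ne_zero, if_false, Prod.smul_mk, smul_eq_mul,
      Prod.mk_add_mk, mul_zero, Nat.reduceAdd, OfNat.ofNat_ne_zero, OfNat.ofNat_ne_one]
    rw [min_eq_left (by nlinarith)]
    refine ⟨by nlinarith, by nlinarith, by ring, by ring⟩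

theorem unit_eq {e e' : ℝ × ℝ} (he : e.1 ^ 2 + e.2 ^ 2 = 1) (he' : e'.1 ^ 2 + e'.2 ^ 2 = 1)
    {r r' : ℝ} (hr : 0 ≤ r) (hr' : 0 ≤ r') (h1 : r * e.1 = r' * e'.1) (h2 : r * e.2 = r' * e'.2) :
    r = r' ∧ (r = 0 ∨ e = e') := by
  have hsq : r ^ 2 = r' ^ 2 := by
    calc r ^ 2 = (r * e.1) ^ 2 + (r * e.2) ^ 2 := by rw [mul_pow, mul_pow, ← mul_add, he, mul_one]
      _ = (r' * e'.1) ^ 2 + (r' * e'.2) ^ 2 := by rw [h1, h2]
      _ = r' ^ 2 := by rw [mul_pow, mul_pow, ← mul_add, he', mul_one]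
  have hrr : r = r' := (pow_left_inj₀ hr hr' two_ne_zero).1 hsq
  subst hrr
  refine ⟨rfl, ?_⟩
  by_cases h0 : r = 0
  · exact Or.inl h0
  · exact Or.inr (Prod.ext (mul_left_cancel₀ h0 h1) (mul_left_cancel₀ h0 h2))

theorem width_zero {x y z : ℝ} (h : x < y) (h0 : 2 * (y - x) * min (z - x) (y - z) = 0) :
    z = x ∨ z = y := by
  have h1 : 2 * (y - x) ≠ 0 := by nlinarith
  have h2 := (mul_eq_zero.1 h0).resolve_left h1
  rcases min_choice (z - x) (y - z) with h3 | h3 <;> rw [h3] at h2
  · left; linarith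
  · right; linarith

theorem width_nested {x y x' y' z : ℝ} (h' : x' < y') (hx : x ≤ x') (hy : y' ≤ y)
    (hz : x' ≤ z) (hz' : z ≤ y') (hne : ¬ (x = x' ∧ y = y'))
    (h0 : 2 * (y - x) * min (z - x) (y - z) = 2 * (y' - x') * min (z - x') (y' - z)) :
    2 * (y' - x') * min (z - x') (y' - z) = 0 := by
  have h1 : y' - x' < y - x := by
    by_contra hc
    exact hne ⟨by linarith, by linarith⟩
  have h2 : min (z - x') (y' - z) ≤ min (z - x) (y - z) :=
    min_le_min (by linarith) (by linarith)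
  have h3 : 0 ≤ min (z - x') (y' - z) := le_min (by linarith) (by linarith)
  rcases h3.eq_or_lt with h4 | h4
  · rw [← h4, mul_zero]
  · exfalso
    nlinarith

theorem embeds_of_pages {V : Type} {n : ℕ} (d : Fin n → ℝ × ℝ) (hn : 0 < n)
    (hd : ∀ i, (d i).1 ^ 2 + (d i).2 ^ 2 = 1) (hinj : Function.Injective d)
    (E : V → V → Prop) (z : V → ℝ) (hz : Function.Injective z)
    (hE : ∀ b a, E b a → z a < z b) (pg : V → V → Fin n)
    (hpg : ∀ b a b' a', E b a → E b' a' → pg b a = pg b' a' →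
      ¬ (z a < z a' ∧ z a' < z b ∧ z b < z b')) :
    OrderEmbeds E (book d) := by
  have hw : ∀ {x y t : ℝ}, x < y → x ≤ t → t ≤ y → 0 ≤ 2 * (y - x) * min (t - x) (y - t) := by
    intro x y t h h1 h2
    exact mul_nonneg (by linarith) (le_min (by linarith) (by linarith))
  refine ⟨fun v => (0, 0, z v), fun b a => tent (d (pg b a)) (z a) (z b), ?_, ?_, ?_, ?_, ?_⟩
  · intro u v h
    exact hz (congrArg (fun p : Pt => p.2.2) h)
  · intro v
    exact ⟨⟨0, hn⟩, 0, le_rfl, by simp, by simp⟩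
  · intro b a h
    refine ⟨tent_arc _ _ _ (hE b a h), fun p hp => ?_⟩
    obtain ⟨h1, h2, h3, h4⟩ := mem_tent (hE b a h) hp
    exact ⟨pg b a, _, hw (hE b a h) h1 h2, h3, h4⟩
  · intro b a v h hp
    obtain ⟨h1, h2, h3, h4⟩ := mem_tent (hE b a h) hp
    have := (unit_eq (hd (pg b a)) (hd (pg b a)) le_rfl (hw (hE b a h) h1 h2)
      (by rw [← h3]; simp) (by rw [← h4]; simp)).1
    rcases width_zero (hE b a h) this.symm with h5 | h5
    · exact Or.inr (hz h5)
    · exact Or.inl (hz h5)
  · rintro b a b' a' h h' hne p ⟨hp, hp'⟩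
    have l := hE b a h
    have l' := hE b' a' h'
    obtain ⟨h1, h2, h3, h4⟩ := mem_tent l hp
    obtain ⟨h1', h2', h3', h4'⟩ := mem_tent l' hp'
    obtain ⟨e1, e2⟩ := unit_eq (hd (pg b a)) (hd (pg b' a')) (hw l h1 h2) (hw l' h1' h2')
      (by rw [← h3, ← h3']) (by rw [← h4, ← h4'])
    have hne' : ¬ (z a = z a' ∧ z b = z b') := by
      rintro ⟨c1, c2⟩
      exact hne (by rw [hz c1, hz c2])
    have h0 : 2 * (z b - z a) * min (p.2.2 - z a) (z b - p.2.2) = 0 := by
      rcases e2 with e2 | e2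
      · exact e2
      · have n1 := hpg b a b' a' h h' (hinj e2)
        have n2 := hpg b' a' b a h' h (hinj e2).symm
        by_cases c1 : z b ≤ z a'
        · rw [show p.2.2 = z b by linarith, sub_self, min_eq_right (by linarith), mul_zero]
        by_cases c2 : z b' ≤ z a
        · rw [show p.2.2 = z a by linarith, sub_self, min_eq_left (by linarith), mul_zero]
        push Not at c1 c2
        by_cases c3 : z a ≤ z a' ∧ z b' ≤ z b
        · rw [e1]
          exact width_nested l' c3.1 c3.2 h1' h2' hne' e1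
        · have c4 : z a' ≤ z a ∧ z b ≤ z b' := by
            by_contra c4
            rcases lt_trichotomy (z a) (z a') with c | c | c
            · exact n1 ⟨c, c1, by by_contra c5; exact c3 ⟨c.le, not_lt.1 c5⟩⟩
            · rcases le_total (z b) (z b') with c5 | c5
              · exact c4 ⟨c.ge, c5⟩
              · exact c3 ⟨c.le, c5⟩
            · exact n2 ⟨c, c2, by by_contra c5; exact c4 ⟨c.le, not_lt.1 c5⟩⟩
          exact width_nested l c4.1 c4.2 h1 h2 (fun c => hne' ⟨c.1.symm, c.2.symm⟩) e1.symm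
    have h0' := h0
    rw [e1] at h0'
    have hp0 : p = (0, 0, p.2.2) := by
      rw [h0] at h3 h4
      exact Prod.ext (by simpa using h3) (Prod.ext (by simpa using h4) rfl)
    rcases width_zero l h0 with c | c <;> rcases width_zero l' h0' with c' | c'
    · exact ⟨a, Or.inr rfl, Or.inr (hz (c.symm.trans c')), by rw [hp0, c]⟩
    · exact ⟨a, Or.inr rfl, Or.inl (hz (c.symm.trans c')), by rw [hp0, c]⟩
    · exact ⟨b, Or.inl rfl, Or.inr (hz (c.symm.trans c')), by rw [hp0, c]⟩
    · exact ⟨b, Or.inl rfl, Or.inl (hz (c.symm.trans c')), by rw [hp0, c]⟩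

/-- Edges of the first page (lower end `x`, upper end `y`). -/
def P1 (m x y : ℕ) : Prop :=
  (x % 2 = 1 ∧ x < 2 * m ∧ x + y = 4 * m + 1) ∨
  (x % 2 = 0 ∧ 2 * m + 2 ≤ x ∧ y = x + 2 ∧ y ≤ 4 * m)

/-- Edges of the second page. -/
def P2 (m x y : ℕ) : Prop :=
  (x % 2 = 0 ∧ 2 ≤ x ∧ x + 2 ≤ 2 * m ∧ x + y + 1 = 4 * m) ∨
  (x % 2 = 0 ∧ 2 ≤ x ∧ y = x + 2 ∧ y ≤ 2 * m)

/-- Edges of the third page. -/
def P3 (m x y : ℕ) : Prop :=
  (x = 0 ∧ y % 2 = 1 ∧ y < 2 * m) ∨ (y = 4 * m + 1 ∧ x % 2 = 1 ∧ 2 * m < x ∧ x < 4 * m) ∨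
  (x % 2 = 1 ∧ x < 2 * m ∧ y = x + 1) ∨ (x % 2 = 0 ∧ 2 * m + 2 ≤ x ∧ x ≤ 4 * m ∧ y = x + 1) ∨
  (x = 2 * m ∧ y = 4 * m + 1)

/-- Kelly's poset with a top and a bottom. -/
def K (m : ℕ) (b a : Fin (4 * m + 2)) : Prop := P1 m a b ∨ P2 m a b ∨ P3 m a b

theorem K_lt {m : ℕ} {b a : Fin (4 * m + 2)} (h : K m b a) : a.val < b.val := by
  unfold K P1 P2 P3 at h
  omega

theorem K_acyclic (m : ℕ) : Acyclic (K m) := by
  have : ∀ u v, Relation.TransGen (K m) u v → v.val < u.val := by
    intro u v h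
    induction h with
    | single h => exact K_lt h
    | tail _ h ih => exact (K_lt h).trans ih
  intro v h
  exact lt_irrefl _ (this v v h)

theorem K_up (m : ℕ) (v : Fin (4 * m + 2)) (hv : v.val < 4 * m + 1) (hm : 2 ≤ m) :
    ∃ u, K m u v := by
  by_cases h0 : v.val = 0
  · exact ⟨⟨1, by omega⟩, by first | exact Or.inl (by unfold P1; dsimp only; omega) | exact Or.inr (Or.inl (by unfold P2; dsimp only; omega)) | exact Or.inr (Or.inr (by unfold P3; dsimp only; omega))⟩
  by_cases h1 : v.val % 2 = 1 ∧ v.val < 2 * m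
  · exact ⟨⟨v.val + 1, by omega⟩, by first | exact Or.inl (by unfold P1; dsimp only; omega) | exact Or.inr (Or.inl (by unfold P2; dsimp only; omega)) | exact Or.inr (Or.inr (by unfold P3; dsimp only; omega))⟩
  by_cases h2 : v.val % 2 = 0 ∧ v.val < 2 * m
  · exact ⟨⟨v.val + 2, by omega⟩, by first | exact Or.inl (by unfold P1; dsimp only; omega) | exact Or.inr (Or.inl (by unfold P2; dsimp only; omega)) | exact Or.inr (Or.inr (by unfold P3; dsimp only; omega))⟩
  by_cases h3 : v.val % 2 = 0 ∧ 2 * m < v.val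
  · exact ⟨⟨v.val + 1, by omega⟩, by first | exact Or.inl (by unfold P1; dsimp only; omega) | exact Or.inr (Or.inl (by unfold P2; dsimp only; omega)) | exact Or.inr (Or.inr (by unfold P3; dsimp only; omega))⟩
  · exact ⟨⟨4 * m + 1, by omega⟩, Or.inr (Or.inr (by unfold P3; dsimp only; omega))⟩

theorem K_down (m : ℕ) (v : Fin (4 * m + 2)) (hv : 0 < v.val) (hm : 2 ≤ m) :
    ∃ u, K m v u := by
  have := v.2
  by_cases h1 : v.val % 2 = 1 ∧ v.val < 2 * m
  · exact ⟨⟨0, by omega⟩, by first | exact Or.inl (by unfold P1; dsimp only; omega) | exact Or.inr (Or.inl (by unfold P2; dsimp only; omega)) | exact Or.inr (Or.inr (by unfold P3; dsimp only; omega))⟩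
  by_cases h2 : v.val % 2 = 0 ∧ v.val ≤ 2 * m
  · exact ⟨⟨v.val - 1, by omega⟩, by first | exact Or.inl (by unfold P1; dsimp only; omega) | exact Or.inr (Or.inl (by unfold P2; dsimp only; omega)) | exact Or.inr (Or.inr (by unfold P3; dsimp only; omega))⟩
  by_cases h3 : v.val % 2 = 0
  · exact ⟨⟨4 * m + 1 - v.val, by omega⟩, by first | exact Or.inl (by unfold P1; dsimp only; omega) | exact Or.inr (Or.inl (by unfold P2; dsimp only; omega)) | exact Or.inr (Or.inr (by unfold P3; dsimp only; omega))⟩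
  by_cases h4 : v.val = 2 * m + 1
  · exact ⟨⟨2 * m - 2, by omega⟩, by first | exact Or.inl (by unfold P1; dsimp only; omega) | exact Or.inr (Or.inl (by unfold P2; dsimp only; omega)) | exact Or.inr (Or.inr (by unfold P3; dsimp only; omega))⟩
  · exact ⟨⟨v.val - 1, by omega⟩, by first | exact Or.inl (by unfold P1; dsimp only; omega) | exact Or.inr (Or.inl (by unfold P2; dsimp only; omega)) | exact Or.inr (Or.inr (by unfold P3; dsimp only; omega))⟩

theorem K_bounded (m : ℕ) (hm : 2 ≤ m) : Bounded (K m) := by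
  constructor
  · refine ⟨⟨4 * m + 1, by omega⟩, ?_⟩
    have : ∀ (k : ℕ) (v : Fin (4 * m + 2)), 4 * m + 1 - v.val = k →
        le (K m) v ⟨4 * m + 1, by omega⟩ := by
      intro k
      induction k using Nat.strong_induction_on with
      | _ k ih =>
        intro v hv
        by_cases h : v.val < 4 * m + 1
        · obtain ⟨u, hu⟩ := K_up m v h hm
          have := K_lt hu
          exact Relation.ReflTransGen.tail (ih _ (by omega) u rfl) hu
        · have := v.2
          rw [show v = ⟨4 * m + 1, by omega⟩ from Fin.ext (by dsimp only; omega)]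
          exact Relation.ReflTransGen.refl
    exact fun v => this _ v rfl
  · refine ⟨⟨0, by omega⟩, ?_⟩
    have : ∀ (k : ℕ) (v : Fin (4 * m + 2)), v.val = k → le (K m) ⟨0, by omega⟩ v := by
      intro k
      induction k using Nat.strong_induction_on with
      | _ k ih =>
        intro v hv
        by_cases h : 0 < v.val
        · obtain ⟨u, hu⟩ := K_down m v h hm
          have := K_lt hu
          exact Relation.ReflTransGen.head hu (ih _ (by omega) u rfl)
        · rw [show v = ⟨0, by omega⟩ from Fin.ext (by dsimp only; omega)]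
          exact Relation.ReflTransGen.refl
    exact fun v => this _ v rfl

/-- The minimal elements of the standard example. -/
def va (m : ℕ) (i : Fin m) : Fin (4 * m + 2) := ⟨2 * i.val + 1, by have := i.2; omega⟩

/-- The maximal elements of the standard example. -/
def vb (m : ℕ) (i : Fin m) : Fin (4 * m + 2) := ⟨4 * m - 1 - 2 * i.val, by omega⟩

theorem chain (m : ℕ) (x : Fin (4 * m + 2)) (hx : x.val % 2 = 0) (k : ℕ) :
    ∀ y : Fin (4 * m + 2), y.val = x.val + 2 * k →
      ((2 ≤ x.val ∧ y.val ≤ 2 * m) ∨ (2 * m + 2 ≤ x.val ∧ y.val ≤ 4 * m)) → le (K m) x y := by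
  induction k with
  | zero =>
    intro y hy _
    rw [show y = x from Fin.ext (by omega)]
    exact Relation.ReflTransGen.refl
  | succ k ih =>
    intro y hy h
    have h1 := ih ⟨x.val + 2 * k, by omega⟩ rfl (by dsimp only; omega)
    refine Relation.ReflTransGen.head ?_ h1
    rcases h with h | h
    · exact Or.inr (Or.inl (Or.inr (by dsimp only; omega)))
    · exact Or.inl (Or.inr (by dsimp only; omega))

theorem va_le_vb (m : ℕ) (i j : Fin m) (h : i ≠ j) : le (K m) (va m i) (vb m j) := by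
  have hi := i.2
  have hj := j.2
  have hij : i.val ≠ j.val := fun e => h (Fin.ext e)
  rcases lt_or_gt_of_ne hij with c | c
  · have h1 := chain m ⟨2 * i.val + 2, by omega⟩ (by dsimp only; omega) (j.val - i.val - 1)
      ⟨2 * j.val, by omega⟩ (by dsimp only; omega) (by dsimp only; omega)
    refine Relation.ReflTransGen.head ?_ (Relation.ReflTransGen.tail h1 ?_)
    · first | exact Or.inl (by unfold P1 vb; dsimp only; omega) | exact Or.inr (Or.inl (by unfold P2 vb; dsimp only; omega)) | exact Or.inr (Or.inr (by unfold P3 vb; dsimp only; omega))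
    · first | exact Or.inl (by unfold P1 va; dsimp only; omega) | exact Or.inr (Or.inl (by unfold P2 va; dsimp only; omega)) | exact Or.inr (Or.inr (by unfold P3 va; dsimp only; omega))
  · have h1 := chain m ⟨4 * m - 2 * i.val, by omega⟩ (by dsimp only; omega) (i.val - j.val - 1)
      ⟨4 * m - 2 - 2 * j.val, by omega⟩ (by dsimp only; omega) (by dsimp only; omega)
    refine Relation.ReflTransGen.head ?_ (Relation.ReflTransGen.tail h1 ?_)
    · first | exact Or.inl (by unfold P1 vb; dsimp only; omega) | exact Or.inr (Or.inl (by unfold P2 vb; dsimp only; omega)) | exact Or.inr (Or.inr (by unfold P3 vb; dsimp only; omega))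
    · first | exact Or.inl (by unfold P1 va; dsimp only; omega) | exact Or.inr (Or.inl (by unfold P2 va; dsimp only; omega)) | exact Or.inr (Or.inr (by unfold P3 va; dsimp only; omega))

theorem not_va_le_vb (m : ℕ) (i : Fin m) : ¬ le (K m) (va m i) (vb m i) := by
  have hi := i.2
  have key : ∀ y : Fin (4 * m + 2), le (K m) (va m i) y →
      y.val = 2 * i.val + 1 ∨ (y.val % 2 = 0 ∧ 2 * i.val + 2 ≤ y.val ∧ y.val ≤ 2 * m) ∨
      (y.val % 2 = 0 ∧ 4 * m ≤ y.val + 2 * i.val) ∨
      (y.val % 2 = 1 ∧ 2 * m < y.val ∧ y.val + 2 * i.val + 1 ≠ 4 * m) := by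
    intro y hy
    unfold le at hy
    induction hy using Relation.ReflTransGen.head_induction_on with
    | refl => left; rfl
    | head h _ ih =>
      unfold K P1 P2 P3 at h
      omega
  intro h
  have := key _ h
  unfold vb at this
  dsimp only at this
  omega

theorem K_dim (m t : ℕ) (h : HasRealizer (K m) t) : m ≤ t := by
  obtain ⟨L, hL⟩ := h
  have h1 : ∀ i : Fin m, ∃ s : Fin t, ¬ (L s).le (va m i) (vb m i) := by
    intro i
    by_contra hc
    push Not at hc
    exact not_va_le_vb m i ((hL _ _).2 hc)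
  choose f hf using h1
  have hinj : Function.Injective f := by
    intro i j e
    by_contra hne
    have a1 := (hL _ _).1 (va_le_vb m i j hne) (f i)
    have a2 := (hL _ _).1 (va_le_vb m j i (Ne.symm hne)) (f i)
    have a3 := hf i
    have a4 := hf j
    rw [← e] at a4
    have a5 := ((L (f i)).le_total (va m j) (vb m j)).resolve_left a4
    exact a3 ((L (f i)).le_trans _ _ _ a1 ((L (f i)).le_trans _ _ _ a5 a2))
  simpa using Fintype.card_le_of_injective f hinj

open Classical in
theorem K_embeds (m : ℕ) {n : ℕ} (hn : 3 ≤ n) (d : Fin n → ℝ × ℝ)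
    (hd : ∀ i, (d i).1 ^ 2 + (d i).2 ^ 2 = 1) (hinj : Function.Injective d) :
    OrderEmbeds (K m) (book d) := by
  refine embeds_of_pages d (by omega) hd hinj (K m) (fun v => (v.val : ℝ)) ?_ ?_
    (fun b a => if P1 m a b then ⟨0, by omega⟩ else if P2 m a b then ⟨1, by omega⟩
      else ⟨2, by omega⟩) ?_
  · intro u v h
    exact Fin.ext (Nat.cast_injective (R := ℝ) h)
  · intro b a h
    exact_mod_cast K_lt h
  · intro b a b' a' h h' e
    simp only [Nat.cast_lt]
    unfold K at h h'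
    split_ifs at e with c1 c2 c3 c4 c5 c6 c7 c8
    · unfold P1 at c1 c2; omega
    · simp at e
    · simp at e
    · simp at e
    · unfold P2 at c4 c6; omega
    · simp at e
    · simp at e
    · simp at e
    · have k1 : P3 m a b := (h.resolve_left c1).resolve_left c4
      have k2 : P3 m a' b' := (h'.resolve_left c7).resolve_left c8
      have := b'.2
      unfold P3 at k1 k2; omega

end Pool.Agent.H7.Book
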