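import Mathlib

set_option autoImplicit false

namespace Pool.Agent.H7.Book

/-- Points `(x, y, z)` of three-space. -/
abbrev Pt : Type := ℝ × ℝ × ℝ

/-- The book whose pages are the closed half-planes bounded by the `z`-axis
in the horizontal directions `d i`. -/
def book {n : ℕ} (d : Fin n → ℝ × ℝ) : Set Pt :=
  {p | ∃ (i : Fin n) (r : ℝ), 0 ≤ r ∧ p.1 = r * (d i).1 ∧ p.2.1 = r * (d i).2}

/-- `S` is a piecewise linear arc from `p` to `p'` along which `z` strictly decreases. -/
def IsDownArc (S : Set Pt) (p p' : Pt) : Prop :=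
  ∃ (k : ℕ) (q : ℕ → Pt), 0 < k ∧ q 0 = p ∧ q k = p' ∧
    (∀ i < k, (q (i + 1)).2.2 < (q i).2.2) ∧
    S = {x | ∃ i < k, x ∈ segment ℝ (q i) (q (i + 1))}

/-- Order-preserving embedding in `B` of the digraph with an edge from `b` to `a` iff `E b a`. -/
def OrderEmbeds {V : Type} (E : V → V → Prop) (B : Set Pt) : Prop :=
  ∃ (pos : V → Pt) (arc : V → V → Set Pt), Function.Injective pos ∧ (∀ v, pos v ∈ B) ∧
    (∀ b a, E b a → IsDownArc (arc b a) (pos b) (pos a) ∧ arc b a ⊆ B) ∧
    (∀ b a v, E b a → pos v ∈ arc b a → v = b ∨ v = a) ∧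
    (∀ b a b' a', E b a → E b' a' → (b, a) ≠ (b', a') →
      ∀ x ∈ arc b a ∩ arc b' a', ∃ v, (v = b ∨ v = a) ∧ (v = b' ∨ v = a') ∧ x = pos v)

/-- No directed cycle. -/
def Acyclic {V : Type} (E : V → V → Prop) : Prop := ∀ v, ¬ Relation.TransGen E v v

/-- The order `P(G)`: `a ≤ b` iff there is a directed path (possibly trivial) from `b` to `a`. -/
def le {V : Type} (E : V → V → Prop) (a b : V) : Prop := Relation.ReflTransGen E b a

/-- `P(G)` has a greatest and a least element. -/
def Bounded {V : Type} (E : V → V → Prop) : Prop :=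
  (∃ t, ∀ v, le E v t) ∧ (∃ s, ∀ v, le E s v)

/-- `P(G)` is the intersection of `t` linear orders on the vertex set. -/
def HasRealizer {V : Type} (E : V → V → Prop) (t : ℕ) : Prop :=
  ∃ L : Fin t → LinearOrder V, ∀ a b, le E a b ↔ ∀ i, (L i).le a b

end Pool.Agent.H7.Book
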