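import Mathlib

set_option autoImplicit false

namespace Pool.Agent.H7.Butterfly

open Finset

/-- Vertices. -/
abbrev W (d t : ℕ) : Type := Fin d ⊕ (Fin (t + 1) × (Fin t → Fin d))

/-- Arcs. -/
def adj (d t : ℕ) : W d t → W d t → Prop
  | Sum.inl _, Sum.inl _ => False
  | Sum.inl _, Sum.inr v => v.1.val = 0
  | Sum.inr u, Sum.inl _ => u.1.val = t
  | Sum.inr u, Sum.inr v => v.1.val = u.1.val + 1 ∧ ∀ e : Fin t, e.val ≠ u.1.val → u.2 e = v.2 e

theorem loopless (d t : ℕ) (v : W d t) : ¬ adj d t v v := by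
  rcases v with x | u
  · exact fun h => h
  · intro h
    have := h.1
    omega

theorem card_layer (d t : ℕ) (i : Fin (t + 1)) :
    {w : W d t | ∃ p, w = Sum.inr (i, p)}.ncard = d ^ t := by
  have : {w : W d t | ∃ p, w = Sum.inr (i, p)} =
      (fun p : Fin t → Fin d => (Sum.inr (i, p) : W d t)) '' Set.univ := by
    ext w; simp [eq_comm]
  rw [this, Set.ncard_image_of_injective _ (fun p q h => by simpa using h), Set.ncard_univ]
  simp

theorem card_left (d t : ℕ) : {w : W d t | ∃ x, w = Sum.inl x}.ncard = d := by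
  have : {w : W d t | ∃ x, w = Sum.inl x} = (fun x : Fin d => (Sum.inl x : W d t)) '' Set.univ := by
    ext w; simp [eq_comm]
  rw [this, Set.ncard_image_of_injective _ Sum.inl_injective, Set.ncard_univ]
  simp

theorem card_line (d t : ℕ) (i : Fin (t + 1)) (c : Fin t) (p : Fin t → Fin d) :
    {w : W d t | ∃ q, w = Sum.inr (i, q) ∧ ∀ e : Fin t, e ≠ c → p e = q e}.ncard = d := by
  have : {w : W d t | ∃ q, w = Sum.inr (i, q) ∧ ∀ e : Fin t, e ≠ c → p e = q e} =
      (fun a : Fin d => (Sum.inr (i, Function.update p c a) : W d t)) '' Set.univ := by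
    ext w
    simp only [Set.mem_ofPred_eq, Set.image_univ, Set.mem_range]
    constructor
    · rintro ⟨q, rfl, hq⟩
      refine ⟨q c, ?_⟩
      congr 2
      funext e
      by_cases he : e = c
      · subst he; simp
      · rw [Function.update_of_ne he, hq e he]
    · rintro ⟨a, rfl⟩
      exact ⟨_, rfl, fun e he => by rw [Function.update_of_ne he]⟩
  rw [this, Set.ncard_image_of_injective _ (fun a b h => by
    have h2 : Function.update p c a = Function.update p c b := by simpa using h
    simpa using congrFun h2 c), Set.ncard_univ]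
  simp

theorem out_inl (d t : ℕ) (x : Fin d) : {w | adj d t (Sum.inl x) w}.ncard = d ^ t := by
  rw [← card_layer d t 0]
  congr 1
  ext w
  rcases w with y | ⟨i, p⟩
  · simp [adj]
  · simp [adj]

theorem in_inl (d t : ℕ) (x : Fin d) : {w | adj d t w (Sum.inl x)}.ncard = d ^ t := by
  rw [← card_layer d t (Fin.last t)]
  congr 1
  ext w
  rcases w with y | ⟨i, p⟩
  · simp [adj]
  · simp only [adj, Set.mem_ofPred_eq, Sum.inr.injEq, Prod.mk.injEq, exists_eq_right_right',
      exists_eq_right', Fin.ext_iff, Fin.val_last]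

theorem out_inr (d t : ℕ) (u : Fin (t + 1) × (Fin t → Fin d)) :
    {w | adj d t (Sum.inr u) w}.ncard = d := by
  obtain ⟨i, p⟩ := u
  have hi := i.2
  by_cases h : i.val = t
  · refine Eq.trans ?_ (card_left d t)
    congr 1
    ext w
    rcases w with y | ⟨j, q⟩
    · simp [adj, h]
    · have := j.2
      simp only [adj, Set.mem_ofPred_eq, reduceCtorEq, exists_false, iff_false, not_and]
      omega
  · refine Eq.trans ?_ (card_line d t ⟨i.val + 1, by omega⟩ ⟨i.val, by omega⟩ p)
    congr 1
    ext w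
    rcases w with y | ⟨j, q⟩
    · simp [adj, h]
    · simp only [adj, Set.mem_ofPred_eq, Sum.inr.injEq, Prod.mk.injEq, Fin.ext_iff, ne_eq]
      constructor
      · rintro ⟨h1, h2⟩
        exact ⟨q, ⟨h1, rfl⟩, h2⟩
      · rintro ⟨q', ⟨h1, rfl⟩, h2⟩
        exact ⟨h1, h2⟩

theorem in_inr (d t : ℕ) (u : Fin (t + 1) × (Fin t → Fin d)) :
    {w | adj d t w (Sum.inr u)}.ncard = d := by
  obtain ⟨i, p⟩ := u
  have hi := i.2
  by_cases h : i.val = 0
  · refine Eq.trans ?_ (card_left d t)
    congr 1
    ext w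
    rcases w with y | ⟨j, q⟩
    · simpa [adj] using h
    · simp only [adj, Set.mem_ofPred_eq, reduceCtorEq, exists_false, iff_false, not_and]
      omega
  · refine Eq.trans ?_ (card_line d t ⟨i.val - 1, by omega⟩ ⟨i.val - 1, by omega⟩ p)
    congr 1
    ext w
    rcases w with y | ⟨j, q⟩
    · simpa [adj] using h
    · simp only [adj, Set.mem_ofPred_eq, Sum.inr.injEq, Prod.mk.injEq, Fin.ext_iff, ne_eq]
      constructor
      · rintro ⟨h1, h2⟩
        exact ⟨q, ⟨by omega, rfl⟩, fun e he => (h2 e (by omega)).symm⟩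
      · rintro ⟨q', ⟨h1, rfl⟩, h2⟩
        exact ⟨by omega, fun e he => (h2 e (by omega)).symm⟩

theorem eulerian (d t : ℕ) (v : W d t) : {w | adj d t v w}.ncard = {w | adj d t w v}.ncard := by
  rcases v with x | u
  · rw [out_inl, in_inl]
  · rw [out_inr, in_inr]

theorem outdeg (d t : ℕ) (ht : 0 < t) (v : W d t) : d ≤ {w | adj d t v w}.ncard := by
  rcases v with x | u
  · rw [out_inl]
    exact Nat.le_self_pow ht.ne' d
  · rw [out_inr]

theorem main (d t : ℕ) (ht : d * d < 2 ^ t) (S : Set (W d t)) (H : W d t → W d t → Prop)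
    (hS : S.Nonempty) (hH : ∀ u v, H u v → adj d t u v ∧ u ∈ S ∧ v ∈ S)
    (h2 : ∀ u ∈ S, ∃ v w, v ≠ w ∧ H u v ∧ H u w) :
    ∃ u u' v v', u ≠ u' ∧ v ≠ v' ∧ H u v ∧ H u v' ∧ H u' v ∧ H u' v' := by
  classical
  have hx : ∃ x, Sum.inl x ∈ S := by
    have down : ∀ (k : ℕ) (i : Fin (t + 1)) (p : Fin t → Fin d), i.val + k = t →
        Sum.inr (i, p) ∈ S → ∃ x, Sum.inl x ∈ S := by
      intro k
      induction k with
      | zero =>
        intro i p hi hp
        obtain ⟨v, _, _, hv, _⟩ := h2 _ hp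
        obtain ⟨a1, _, a2⟩ := hH _ _ hv
        rcases v with x | ⟨j, q⟩
        · exact ⟨x, a2⟩
        · have := a1.1
          have := j.2
          dsimp only at *
          omega
      | succ k ih =>
        intro i p hi hp
        obtain ⟨v, _, _, hv, _⟩ := h2 _ hp
        obtain ⟨a1, _, a2⟩ := hH _ _ hv
        rcases v with x | ⟨j, q⟩
        · exact ⟨x, a2⟩
        · have := a1.1
          dsimp only at this
          exact ih j q (by omega) a2
    obtain ⟨v, hv⟩ := hS
    rcases v with x | ⟨i, p⟩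
    · exact ⟨x, hv⟩
    · have := i.2
      exact down (t - i.val) i p (by omega) hv
  obtain ⟨x, hx⟩ := hx
  obtain ⟨v0, hv0⟩ : ∃ p, Sum.inr ((0 : Fin (t + 1)), p) ∈ S := by
    obtain ⟨v, _, _, hv, _⟩ := h2 _ hx
    obtain ⟨a1, _, a2⟩ := hH _ _ hv
    rcases v with y | ⟨j, q⟩
    · exact a1.elim
    · have : j = 0 := Fin.ext a1
      exact ⟨q, this ▸ a2⟩
  set T : Fin (t + 1) → Finset (Fin t → Fin d) := fun i =>
    univ.filter (fun p => Sum.inr (i, p) ∈ S ∧ ∀ e : Fin t, i.val ≤ e.val → p e = v0 e) with hT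
  have memT : ∀ i p, p ∈ T i ↔ Sum.inr (i, p) ∈ S ∧ ∀ e : Fin t, i.val ≤ e.val → p e = v0 e := by
    intro i p; simp [hT]
  have grow : ∀ (k : ℕ) (hk : k < t + 1), 2 ^ k ≤ (T ⟨k, hk⟩).card := by
    intro k
    induction k with
    | zero =>
      intro hk
      exact Finset.card_pos.2 ⟨v0, (memT _ _).2 ⟨hv0, fun _ _ => rfl⟩⟩
    | succ k ih =>
      intro hk
      have hk' : k < t := by omega
      set c : Fin t := ⟨k, hk'⟩
      have h3 := Finset.mul_card_image_le_card_of_maps_to
        (f := fun q : Fin t → Fin d => Function.update q c (v0 c))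
        (s := (T ⟨k + 1, hk⟩).filter (fun q => Function.update q c (v0 c) ∈ T ⟨k, by omega⟩))
        (t := T ⟨k, by omega⟩) (fun q hq => (mem_filter.1 hq).2) 2 (by
          intro p hp
          obtain ⟨hp1, hp2⟩ := (memT _ _).1 hp
          have step : ∀ v, H (Sum.inr (⟨k, by omega⟩, p)) v → ∃ q, v = Sum.inr (⟨k + 1, hk⟩, q) ∧
              q ∈ ((T ⟨k + 1, hk⟩).filter
                (fun q => Function.update q c (v0 c) ∈ T ⟨k, by omega⟩)).filter
                (fun q => Function.update q c (v0 c) = p) := by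
            intro v hv
            obtain ⟨a1, _, a2⟩ := hH _ _ hv
            rcases v with y | ⟨j, q⟩
            · have : k = t := a1
              omega
            · obtain ⟨b1, b2⟩ := a1
              dsimp only at b1 b2
              have hj : j = ⟨k + 1, hk⟩ := Fin.ext b1
              subst hj
              have hu : Function.update q c (v0 c) = p := by
                funext e
                by_cases he : e = c
                · rw [he, Function.update_self, hp2 c le_rfl]
                · rw [Function.update_of_ne he, b2 e (fun h => he (Fin.ext h))]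
              refine ⟨q, rfl, mem_filter.2 ⟨mem_filter.2 ⟨(memT _ _).2 ⟨a2, fun e he => ?_⟩,
                by rw [hu]; exact hp⟩, hu⟩⟩
              dsimp only at he
              rw [← b2 e (by omega), hp2 e (by dsimp only; omega)]
          obtain ⟨v, w, hvw, hv, hw⟩ := h2 _ hp1
          obtain ⟨q, rfl, hq⟩ := step v hv
          obtain ⟨q', rfl, hq'⟩ := step w hw
          exact Finset.one_lt_card.2 ⟨q, hq, q', hq', fun h => hvw (by rw [h])⟩)
      have h4 := ih (by omega)
      have h5 := Finset.card_filter_le (T ⟨k + 1, hk⟩)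
        (fun q => Function.update q c (v0 c) ∈ T ⟨k, by omega⟩)
      rw [pow_succ]
      omega
  have hl := grow t (by omega)
  have hpair : ∀ p ∈ T ⟨t, by omega⟩, ∃ z : Fin d × Fin d, z.1 ≠ z.2 ∧
      H (Sum.inr (⟨t, by omega⟩, p)) (Sum.inl z.1) ∧
      H (Sum.inr (⟨t, by omega⟩, p)) (Sum.inl z.2) := by
    intro p hp
    obtain ⟨v, w, hvw, hv, hw⟩ := h2 _ ((memT _ _).1 hp).1
    have step : ∀ v, H (Sum.inr (⟨t, by omega⟩, p)) v → ∃ y, v = Sum.inl y := by
      intro v hv
      rcases v with y | ⟨j, q⟩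
      · exact ⟨y, rfl⟩
      · have := (hH _ _ hv).1.1
        have := j.2
        dsimp only at *
        omega
    obtain ⟨y, rfl⟩ := step v hv
    obtain ⟨y', rfl⟩ := step w hw
    exact ⟨(y, y'), fun h => hvw (congrArg Sum.inl h), hv, hw⟩
  have : Nonempty (Fin d × Fin d) := ⟨(x, x)⟩
  choose! z hz using hpair
  obtain ⟨p, hp, p', hp', hne, e⟩ := Finset.exists_ne_map_eq_of_card_lt_of_maps_to
    (s := T ⟨t, by omega⟩) (t := (univ : Finset (Fin d × Fin d))) (f := z)
    (by simp only [card_univ, Fintype.card_prod, Fintype.card_fin]; omega)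
    (fun _ _ => mem_univ _)
  obtain ⟨a1, a2, a3⟩ := hz p hp
  obtain ⟨_, b2, b3⟩ := hz p' hp'
  rw [← e] at b2 b3
  exact ⟨_, _, _, _, fun h => hne (by simpa using h), fun h => a1 (Sum.inl_injective h),
    a2, a3, b2, b3⟩

end Pool.Agent.H7.Butterfly
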