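import Mathlib
import Pool.Agent.H29.SqFree

set_option autoImplicit false

namespace Pool.Agent.H7.Crit

open Pool.Agent.H29.SqFree

/-- base word of the cyclic 23-uniform substitution -/
def hb (k : ℕ) : ℕ := (6760700126756 / 4 ^ k) % 4

/-- the infinite ternary word -/
def w (n : ℕ) : ℕ := (hb (n % 23) + tern (n / 23)) % 3

theorem w_lt (n : ℕ) : w n < 3 := Nat.mod_lt _ (by norm_num)

/-- window of three letters -/
def win (x y z : ℕ) (m : ℕ) : ℕ :=
  (hb (m % 23) + (if m < 23 then x else if m < 46 then y else z)) % 3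

theorem w_win (q m : ℕ) (hm : m < 69) :
    w (23 * q + m) = win (tern q) (tern (q + 1)) (tern (q + 2)) m := by
  unfold w win
  have h1 : (23 * q + m) % 23 = m % 23 := by omega
  rw [h1]
  split_ifs with h2 h3
  · rw [show (23 * q + m) / 23 = q by omega]
  · rw [show (23 * q + m) / 23 = q + 1 by omega]
  · rw [show (23 * q + m) / 23 = q + 2 by omega]

/-- colour at depth `d` over spine position `i` -/
def gc (W : ℕ → ℕ) (i d : ℕ) : ℕ := (W (i + 1) + d * (W (i + 2) + 3 - W (i + 1))) % 3

/-- colour word of a path: `a` steps down, `s` steps right, then up -/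
def uw (W : ℕ → ℕ) (i s a : ℕ) (t : ℕ) : ℕ :=
  if t ≤ a then gc W i (a - t) else if t ≤ a + s then W (i + 1 + (t - a)) else gc W (i + s) (t - a - s)

def allLt (n : ℕ) (p : ℕ → Bool) : Bool := Nat.rec true (fun k ih => p k && ih) n

theorem allLt_iff (n : ℕ) (p : ℕ → Bool) : allLt n p = true ↔ ∀ k < n, p k = true := by
  induction n with
  | zero => simp [allLt]
  | succ n ih =>
    have : allLt (n + 1) p = (p n && allLt n p) := rfl
    rw [this, Bool.and_eq_true, ih]
    constructor
    · rintro ⟨h1, h2⟩ k hk
      rcases Nat.lt_succ_iff_lt_or_eq.mp hk with h | h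
      · exact h2 k h
      · exact h ▸ h1
    · intro h
      exact ⟨h n (by omega), fun k hk => h k (by omega)⟩

def chkShort (x y z : ℕ) : Bool :=
  allLt 23 fun r => allLt 5 fun a => (a == 0 || win x y z r == win x y z (r + 2)) ⇨
    allLt 22 fun n => allLt 5 fun b => (Nat.ble (a + b + 2) (2 * n)) ⇨
      ((b == 0 || win x y z (r + (2 * n - 1 - a - b)) == win x y z (r + (2 * n - 1 - a - b) + 2)) ⇨
        !(allLt n fun t => uw (win x y z) r (2 * n - 1 - a - b) a t ==
            uw (win x y z) r (2 * n - 1 - a - b) a (t + n)))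

theorem chkShort_all : (allLt 3 fun x => allLt 3 fun y => allLt 3 fun z =>
    (x == y || y == z || chkShort x y z)) = true := by decide +kernel

def chkSync (x y x' y' : ℕ) : Bool :=
  allLt 23 fun r => allLt 23 fun r' => r == r' ||
    !(allLt 14 fun t => win x y 0 (r + t) == win x' y' 0 (r' + t))

theorem chkSync_all : (allLt 3 fun x => allLt 3 fun y => allLt 3 fun x' => allLt 3 fun y' =>
    (x == y || x' == y' || chkSync x y x' y')) = true := by decide +kernel

end Pool.Agent.H7.Crit
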