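import Mathlib
import Pool.Agent.H7.Crit0

set_option autoImplicit false

namespace Pool.Agent.H7.Crit

open Pool.Agent.H29.SqFree

theorem uw_congr (W W' : ℕ → ℕ) (c r s a t : ℕ) (h : ∀ m ≤ r + s + 2, W (c + m) = W' m) :
    uw W (c + r) s a t = uw W' r s a t := by
  unfold uw gc
  have h1 := h (r + 1) (by omega)
  have h2 := h (r + 2) (by omega)
  have h3 := h (r + s + 1) (by omega)
  have h4 := h (r + s + 2) (by omega)
  simp only [← Nat.add_assoc] at h1 h2 h3 h4
  split_ifs with g1 g2
  · rw [h1, h2]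
  · have := h (r + 1 + (t - a)) (by omega)
    simp only [← Nat.add_assoc] at this
    exact this
  · rw [h3, h4]

theorem short (i s a b n : ℕ) (ha : a ≤ 4) (hb' : b ≤ 4) (hs : 1 ≤ s) (hn : a + s + b + 1 = 2 * n)
    (hn2 : n ≤ 21) (ja : 0 < a → w i = w (i + 2)) (jb : 0 < b → w (i + s) = w (i + s + 2)) :
    ¬ ∀ t < n, uw w i s a t = uw w i s a (t + n) := by
  intro H
  obtain ⟨q, r, hr, rfl⟩ : ∃ q r, r < 23 ∧ i = 23 * q + r :=
    ⟨i / 23, i % 23, Nat.mod_lt _ (by norm_num), by omega⟩
  have c0 := chkShort_all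
  simp only [allLt_iff] at c0
  have c1 := c0 (tern q) (tern_lt _) (tern (q + 1)) (tern_lt _) (tern (q + 2)) (tern_lt _)
  have n1 := tern_ne q
  have n2 := tern_ne (q + 1)
  simp only [Bool.or_eq_true, beq_iff_eq, n1, false_or] at c1
  replace c1 := c1.resolve_left n2
  unfold chkShort at c1
  simp only [allLt_iff] at c1
  have c2 := c1 r hr a (by omega)
  have hw : ∀ m ≤ r + s + 2, w (23 * q + m) = win (tern q) (tern (q + 1)) (tern (q + 2)) m :=
    fun m hm => w_win q m (by omega)
  have e1 : (a == 0 || win (tern q) (tern (q + 1)) (tern (q + 2)) r ==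
      win (tern q) (tern (q + 1)) (tern (q + 2)) (r + 2)) = true := by
    rcases Nat.eq_zero_or_pos a with h | h
    · simp [h]
    · have := ja h
      rw [hw r (by omega), Nat.add_assoc, hw (r + 2) (by omega)] at this
      simp [this]
  rw [e1, show ∀ b : Bool, (true ⇨ b) = b by decide, allLt_iff] at c2
  have c3 := c2 n (by omega)
  rw [allLt_iff] at c3
  have c4 := c3 b (by omega)
  have es : 2 * n - 1 - a - b = s := by omega
  rw [es] at c4
  have e2 : Nat.ble (a + b + 2) (2 * n) = true := by rw [Nat.ble_eq]; omega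
  have e3 : (b == 0 || win (tern q) (tern (q + 1)) (tern (q + 2)) (r + s) ==
      win (tern q) (tern (q + 1)) (tern (q + 2)) (r + s + 2)) = true := by
    rcases Nat.eq_zero_or_pos b with h | h
    · simp [h]
    · have := jb h
      rw [Nat.add_assoc, hw (r + s) (by omega), Nat.add_assoc, hw (r + s + 2) (by omega)] at this
      simp [this]
  have e4 : (allLt n fun t => uw (win (tern q) (tern (q + 1)) (tern (q + 2))) r s a t ==
      uw (win (tern q) (tern (q + 1)) (tern (q + 2))) r s a (t + n)) = true := by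
    rw [allLt_iff]
    intro t ht
    rw [← uw_congr w _ (23 * q) r s a t hw, ← uw_congr w _ (23 * q) r s a (t + n) hw, H t ht]
    simp
  rw [e2, e3, e4] at c4
  exact absurd c4 (by decide)

theorem sync (i j : ℕ) (h : ∀ t < 14, w (i + t) = w (j + t)) : i % 23 = j % 23 := by
  obtain ⟨q, r, hr, rfl⟩ : ∃ q r, r < 23 ∧ i = 23 * q + r :=
    ⟨i / 23, i % 23, Nat.mod_lt _ (by norm_num), by omega⟩
  obtain ⟨q', r', hr', rfl⟩ : ∃ q r, r < 23 ∧ j = 23 * q + r :=
    ⟨j / 23, j % 23, Nat.mod_lt _ (by norm_num), by omega⟩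
  have c0 := chkSync_all
  simp only [allLt_iff] at c0
  have c1 := c0 (tern q) (tern_lt _) (tern (q + 1)) (tern_lt _) (tern q') (tern_lt _)
    (tern (q' + 1)) (tern_lt _)
  have n1 := tern_ne q
  have n2 := tern_ne q'
  simp only [Bool.or_eq_true, beq_iff_eq, n1, false_or] at c1
  replace c1 := c1.resolve_left n2
  unfold chkSync at c1
  simp only [allLt_iff] at c1
  have c2 := c1 r hr r' hr'
  have e : (allLt 14 fun t => win (tern q) (tern (q + 1)) 0 (r + t) ==
      win (tern q') (tern (q' + 1)) 0 (r' + t)) = true := by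
    rw [allLt_iff]
    intro t ht
    have h1 := h t ht
    rw [Nat.add_assoc, Nat.add_assoc, w_win q _ (by omega), w_win q' _ (by omega)] at h1
    unfold win at h1 ⊢
    have g1 : r + t < 46 := by omega
    have g2 : r' + t < 46 := by omega
    simp only [g1, g2, if_true] at h1 ⊢
    simp [h1]
  rw [e] at c2
  have : r = r' := by simpa using c2
  omega

theorem long (i n L : ℕ) (hn : 22 ≤ n) (hL : n ≤ L + 8) :
    ¬ ∀ t < L, w (i + t) = w (i + t + n) := by
  intro H
  have s := sync i (i + n) (fun t ht => by rw [H t (by omega)]; congr 1; omega)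
  obtain ⟨k, rfl⟩ : ∃ k, n = 23 * k := ⟨n / 23, by omega⟩
  refine tern_sq (i / 23) k (by omega) fun j hj => ?_
  rcases Nat.eq_zero_or_pos j with h0 | h0
  · have h1 := H 0 (by omega)
    unfold w at h1
    rw [show (i + 0 + 23 * k) % 23 = (i + 0) % 23 by omega,
      show (i + 0 + 23 * k) / 23 = i / 23 + k + j by omega, show (i + 0) / 23 = i / 23 + j by omega] at h1
    have := tern_lt (i / 23 + j)
    have := tern_lt (i / 23 + k + j)
    omega
  · have h1 := H (23 * j - i % 23) (by omega)
    unfold w at h1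
    rw [show (i + (23 * j - i % 23) + 23 * k) % 23 = (i + (23 * j - i % 23)) % 23 by omega,
      show (i + (23 * j - i % 23) + 23 * k) / 23 = i / 23 + k + j by omega,
      show (i + (23 * j - i % 23)) / 23 = i / 23 + j by omega] at h1
    have := tern_lt (i / 23 + j)
    have := tern_lt (i / 23 + k + j)
    omega

theorem gc_zero (i : ℕ) : gc w i 0 = w (i + 1) := by
  unfold gc
  have := w_lt (i + 1)
  omega

theorem word (i s a b n : ℕ) (ha : a ≤ 4) (hb' : b ≤ 4) (hs : 1 ≤ s) (hn : a + s + b + 1 = 2 * n)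
    (ja : 0 < a → w i = w (i + 2)) (jb : 0 < b → w (i + s) = w (i + s + 2)) :
    ¬ ∀ t < n, uw w i s a t = uw w i s a (t + n) := by
  by_cases hn2 : n ≤ 21
  · exact short i s a b n ha hb' hs hn hn2 ja jb
  intro H
  refine long (i + 1) n (n - a - b) (by omega) (by omega) fun t ht => ?_
  have h1 := H (a + t) (by omega)
  unfold uw at h1
  rw [if_neg (show ¬ a + t + n ≤ a by omega), if_pos (show a + t + n ≤ a + s by omega),
    show i + 1 + (a + t + n - a) = i + 1 + t + n by omega] at h1
  rw [← h1]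
  split_ifs with g1 g2
  · rw [show a - (a + t) = 0 by omega, gc_zero, show t = 0 by omega]
  · congr 1; omega
  · omega

theorem w_sq (i n : ℕ) (hn : 1 ≤ n) : ¬ ∀ t < n, w (i + 1 + t) = w (i + 1 + (t + n)) := by
  intro H
  refine word i (2 * n - 1) 0 0 n (by omega) (by omega) (by omega) (by omega) (by omega) (by omega)
    fun t ht => ?_
  have e : ∀ t < 2 * n, uw w i (2 * n - 1) 0 t = w (i + 1 + t) := by
    intro t ht
    unfold uw
    split_ifs with g1 g2
    · rw [show 0 - t = 0 by omega, gc_zero, show t = 0 by omega]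
    · rfl
    · omega
  rw [e t (by omega), e (t + n) (by omega), H t ht]

theorem inner0 : (allLt 3 fun B => allLt 3 fun C => allLt 5 fun k => allLt 5 fun a => allLt 5 fun n =>
    (B == C || n == 0 || Nat.ble (2 * n) a || Nat.ble (a + 6) (2 * n) ||
      !(allLt n fun t => (B + (k + (a - t) + (t - a)) * (C + 3 - B)) % 3 ==
      (B + (k + (a - (t + n)) + (t + n - a)) * (C + 3 - B)) % 3))) = true := by
  decide +kernel

theorem inner (B C k a n : ℕ) (hB : B < 3) (hC : C < 3) (h : B ≠ C) (hk : k < 5) (ha : a < 5)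
    (hn : 0 < n) (h1 : a < 2 * n) (h2 : 2 * n ≤ a + 5) :
    ¬ ∀ t < n, (B + (k + (a - t) + (t - a)) * (C + 3 - B)) % 3 =
      (B + (k + (a - (t + n)) + (t + n - a)) * (C + 3 - B)) % 3 := by
  intro H
  have c0 := inner0
  simp only [allLt_iff] at c0
  have c1 := c0 B hB C hC k hk a ha n (by omega)
  have e : (allLt n fun t => (B + (k + (a - t) + (t - a)) * (C + 3 - B)) % 3 ==
      (B + (k + (a - (t + n)) + (t + n - a)) * (C + 3 - B)) % 3) = true := by
    rw [allLt_iff]
    intro t ht
    rw [H t ht]; simp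
  rw [e] at c1
  simp only [Bool.or_eq_true, beq_iff_eq, Nat.ble_eq, Bool.not_true, Bool.false_eq_true,
    or_false] at c1
  omega

end Pool.Agent.H7.Crit
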