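import Mathlib
import Pool.Agent.H7.Crit1

set_option autoImplicit false

namespace Pool.Agent.H7.Crit

abbrev VV := ℕ × ℕ

def par (g : ℕ) : ℕ := if g = 5 then 1 else if g = 6 then 2 else g - 1
def dep (g : ℕ) : ℕ := if g = 5 then 2 else if g = 6 then 3 else g

def Dn (W : ℕ → ℕ) (u v : VV) : Prop :=
  u.1 = v.1 ∧ W u.1 = W (u.1 + 2) ∧ 0 < u.2 ∧ u.2 ≤ 6 ∧ v.2 = par u.2
def Rt (u v : VV) : Prop := u.2 = 0 ∧ v.2 = 0 ∧ v.1 = u.1 + 1
def TT (W : ℕ → ℕ) (u v : VV) : Prop := Rt u v ∨ Rt v u ∨ Dn W u v ∨ Dn W v u

def NR {V C : Type} (R : V → V → Prop) (c : V → C) : Prop :=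
  ∀ n, 0 < n → ∀ f : ℕ → V, (∀ t, t + 1 < 2 * n → R (f t) (f (t + 1))) →
    (∀ s t, s < 2 * n → t < 2 * n → f s = f t → s = t) → ¬ ∀ t < n, c (f t) = c (f (t + n))

theorem Dn.dep_eq {W : ℕ → ℕ} {u v : VV} (h : Dn W u v) : dep u.2 = dep v.2 + 1 ∧ dep u.2 ≤ 4 := by
  obtain ⟨-, -, h1, h2, h3⟩ := h
  rw [h3]; unfold dep par
  split_ifs <;> omega

theorem Dn.uniq {W : ℕ → ℕ} {u v v' : VV} (h : Dn W u v) (h' : Dn W u v') : v = v' :=
  Prod.ext (h.1.symm.trans h'.1) (h.2.2.2.2.trans h'.2.2.2.2.symm)

theorem shape (W : ℕ → ℕ) (f : ℕ → VV) (l : ℕ) (h1 : ∀ t < l, TT W (f t) (f (t + 1)))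
    (h2 : ∀ t, t + 2 ≤ l → f t ≠ f (t + 2)) :
    ∃ a e, a ≤ e ∧ e ≤ l ∧ (∀ t < a, Dn W (f t) (f (t + 1))) ∧
      ((∀ t, a ≤ t → t < e → Rt (f t) (f (t + 1))) ∨ (∀ t, a ≤ t → t < e → Rt (f (t + 1)) (f t))) ∧
      (∀ t, e ≤ t → t < l → Dn W (f (t + 1)) (f t)) := by
  induction l with
  | zero => exact ⟨0, 0, le_rfl, le_rfl, by omega, Or.inl (by omega), by omega⟩
  | succ l ih =>
    obtain ⟨a, e, hae, hel, hD, hS, hU⟩ := ih (fun t ht => h1 t (by omega)) (fun t ht => h2 t (by omega))
    -- the previous step is an up step only if the new one is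
    have hup : e < l → Dn W (f (l + 1)) (f l) := by
      intro h
      obtain ⟨k, rfl⟩ : ∃ k, l = k + 1 := ⟨l - 1, by omega⟩
      have p := hU k (by omega) (by omega)
      rcases h1 (k + 1) (by omega) with q | q | q | q
      · have := p.2.2.1; have := q.1; omega
      · have := p.2.2.1; have := q.2.1; omega
      · exact absurd (p.uniq q) (h2 k (by omega))
      · exact q
    rcases h1 l (by omega) with q | q | q | q
    · have hel' : e = l := by
        by_contra hne
        have p := (hup (by omega)).2.2.1
        have := q.2.1; omega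
      subst hel'
      refine ⟨a, e + 1, by omega, le_rfl, hD, Or.inl fun t h3 h4 => ?_, by omega⟩
      rcases Nat.lt_succ_iff_lt_or_eq.mp h4 with h5 | rfl
      · rcases hS with hS | hS
        · exact hS t h3 h5
        · exfalso
          obtain ⟨k, rfl⟩ : ∃ k, e = k + 1 := ⟨e - 1, by omega⟩
          have p := hS k (by omega) (by omega)
          refine h2 k (by omega) (Prod.ext ?_ ?_)
          · have := p.2.2; have := q.2.2; rw [show k + 2 = k + 1 + 1 from rfl]; omega
          · have := p.2.1; have := q.2.1; rw [show k + 2 = k + 1 + 1 from rfl]; omega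
      · exact q
    · have hel' : e = l := by
        by_contra hne
        have p := (hup (by omega)).2.2.1
        have := q.1; omega
      subst hel'
      refine ⟨a, e + 1, by omega, le_rfl, hD, Or.inr fun t h3 h4 => ?_, by omega⟩
      rcases Nat.lt_succ_iff_lt_or_eq.mp h4 with h5 | rfl
      · rcases hS with hS | hS
        · exfalso
          obtain ⟨k, rfl⟩ : ∃ k, e = k + 1 := ⟨e - 1, by omega⟩
          have p := hS k (by omega) (by omega)
          refine h2 k (by omega) (Prod.ext ?_ ?_)
          · have := p.2.2; have := q.2.2; rw [show k + 2 = k + 1 + 1 from rfl]; omega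
          · have := p.1; have := q.1; rw [show k + 2 = k + 1 + 1 from rfl]; omega
        · exact hS t h3 h5
      · exact q
    · have hel' : e = l := by
        by_contra hne
        have p := (hup (by omega)).dep_eq.1
        have := q.dep_eq.1; omega
      subst hel'
      have hal : a = e := by
        by_contra hne
        obtain ⟨k, rfl⟩ : ∃ k, e = k + 1 := ⟨e - 1, by omega⟩
        have := q.2.2.1
        rcases hS with hS | hS
        · have := (hS k (by omega) (by omega)).2.1; omega
        · have := (hS k (by omega) (by omega)).1; omega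
      subst hal
      refine ⟨a + 1, a + 1, le_rfl, le_rfl, fun t ht => ?_, Or.inl (by omega), by omega⟩
      rcases Nat.lt_succ_iff_lt_or_eq.mp ht with h5 | rfl
      · exact hD t h5
      · exact q
    · refine ⟨a, e, hae, by omega, hD, hS, fun t h3 h4 => ?_⟩
      rcases Nat.lt_succ_iff_lt_or_eq.mp h4 with h5 | rfl
      · exact hU t h3 h5
      · exact q

/-- the colouring of the tree over `w` -/
def col (v : VV) : ℕ := gc w v.1 (dep v.2)

theorem core (f : ℕ → VV) (n a e : ℕ) (hn : 0 < n) (hae : a ≤ e) (hel : e ≤ 2 * n - 1)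
    (hD : ∀ t < a, Dn w (f t) (f (t + 1))) (hS : ∀ t, a ≤ t → t < e → Rt (f t) (f (t + 1)))
    (hU : ∀ t, e ≤ t → t < 2 * n - 1 → Dn w (f (t + 1)) (f t)) :
    ¬ ∀ t < n, col (f t) = col (f (t + n)) := by
  intro H
  have A : ∀ d ≤ a, (f (a - d)).1 = (f a).1 ∧ dep (f (a - d)).2 = dep (f a).2 + d := by
    intro d hd
    induction d with
    | zero => simp
    | succ d ih =>
      have p := hD (a - (d + 1)) (by omega)
      rw [show a - (d + 1) + 1 = a - d by omega] at p
      have := ih (by omega)
      have := p.1; have := p.dep_eq.1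
      omega
  have B : ∀ d, e + d ≤ 2 * n - 1 → (f (e + d)).1 = (f e).1 ∧ dep (f (e + d)).2 = dep (f e).2 + d := by
    intro d hd
    induction d with
    | zero => simp
    | succ d ih =>
      have p := hU (e + d) (by omega) (by omega)
      have := ih (by omega)
      have := p.1; have := p.dep_eq.1
      rw [← Nat.add_assoc]
      omega
  have a4 : 0 < a → dep (f a).2 + a ≤ 4 ∧ w (f a).1 = w ((f a).1 + 2) := by
    intro h
    have p := hD 0 h
    have q := A a le_rfl
    rw [Nat.sub_self] at q
    have := p.dep_eq.2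
    exact ⟨by omega, q.1 ▸ p.2.1⟩
  have b4 : e < 2 * n - 1 → dep (f e).2 + (2 * n - 1 - e) ≤ 4 ∧ w (f e).1 = w ((f e).1 + 2) := by
    intro h
    have p := hU (2 * n - 2) (by omega) (by omega)
    have q := B (2 * n - 1 - e) (by omega)
    rw [show e + (2 * n - 1 - e) = 2 * n - 2 + 1 by omega] at q
    have := p.dep_eq.2
    exact ⟨by omega, q.1 ▸ p.2.1⟩
  rcases Nat.eq_or_lt_of_le hae with rfl | hlt
  · have nb := w_sq (f a).1 1 le_rfl
    have hk : dep (f a).2 < 5 := by
      by_cases h : 0 < a
      · have := (a4 h).1; omega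
      · have := (b4 (by omega)).1; omega
    refine inner (w ((f a).1 + 1)) (w ((f a).1 + 2)) (dep (f a).2) a n (w_lt _) (w_lt _)
      (fun h => nb fun t ht => by rw [show t = 0 by omega]; exact h) hk
      (by by_cases h : 0 < a
          · have := (a4 h).1; omega
          · omega) hn (by omega)
      (by by_cases h : a < 2 * n - 1
          · have := (b4 h).1; omega
          · omega) fun t ht => ?_
    have E : ∀ t < 2 * n, col (f t) = (w ((f a).1 + 1) + (dep (f a).2 + (a - t) + (t - a)) *
        (w ((f a).1 + 2) + 3 - w ((f a).1 + 1))) % 3 := by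
      intro t ht
      unfold col gc
      by_cases h : t ≤ a
      · have q := A (a - t) (by omega)
        rw [show a - (a - t) = t by omega] at q
        rw [q.1, q.2, show t - a = 0 by omega]; rfl
      · have q := B (t - a) (by omega)
        rw [show a + (t - a) = t by omega] at q
        rw [q.1, q.2, show a - t = 0 by omega]; rfl
    rw [← E t (by omega), ← E (t + n) (by omega), H t ht]
  · have S : ∀ d, a + d ≤ e → (f (a + d)).1 = (f a).1 + d ∧ (f (a + d)).2 = 0 := by
      intro d hd
      induction d with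
      | zero => exact ⟨rfl, (hS a le_rfl hlt).1⟩
      | succ d ih =>
        have p := hS (a + d) (by omega) (by omega)
        have := ih (by omega)
        have := p.2.1; have := p.2.2
        rw [← Nat.add_assoc]
        omega
    have Se := S (e - a) (by omega)
    rw [show a + (e - a) = e by omega] at Se
    have S0 : (f a).2 = 0 := (S 0 (by omega)).2
    have d0 : dep 0 = 0 := rfl
    refine word (f a).1 (e - a) a (2 * n - 1 - e) n
      (by by_cases h : 0 < a
          · have := (a4 h).1; omega
          · omega)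
      (by by_cases h : e < 2 * n - 1
          · have := (b4 h).1; omega
          · omega) (by omega) (by omega) (fun h => (a4 h).2)
      (fun h => by rw [← Se.1]; exact (b4 (by omega)).2) fun t ht => ?_
    have E : ∀ t < 2 * n, col (f t) = uw w (f a).1 (e - a) a t := by
      intro t ht
      unfold col uw
      split_ifs with g1 g2
      · have q := A (a - t) (by omega)
        rw [show a - (a - t) = t by omega] at q
        rw [q.1, q.2, S0, d0, Nat.zero_add]
      · have q := S (t - a) (by omega)
        rw [show a + (t - a) = t by omega] at q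
        rw [q.1, q.2, d0, gc_zero]
        congr 1; omega
      · have q := B (t - e) (by omega)
        rw [show e + (t - e) = t by omega] at q
        rw [q.1, q.2, Se.1, Se.2, d0]
        congr 1; omega
    rw [← E t (by omega), ← E (t + n) (by omega), H t ht]

theorem nr_w : NR (TT w) col := by
  intro n hn f h1 h2 H
  obtain ⟨a, e, hae, hel, hD, hS, hU⟩ := shape w f (2 * n - 1) (fun t ht => h1 t (by omega))
    (fun t ht h => by have := h2 t (t + 2) (by omega) (by omega) h; omega)
  rcases hS with hS | hS
  · exact core f n a e hn hae hel hD hS hU H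
  · refine core (fun t => f (2 * n - 1 - t)) n (2 * n - 1 - e) (2 * n - 1 - a) hn (by omega) (by omega)
      (fun t ht => ?_) (fun t h3 h4 => ?_) (fun t h3 h4 => ?_) (fun t ht => ?_)
    · have := hU (2 * n - 1 - (t + 1)) (by omega) (by omega)
      rwa [show 2 * n - 1 - (t + 1) + 1 = 2 * n - 1 - t by omega] at this
    · have := hS (2 * n - 1 - (t + 1)) (by omega) (by omega)
      rwa [show 2 * n - 1 - (t + 1) + 1 = 2 * n - 1 - t by omega] at this
    · have := hD (2 * n - 1 - (t + 1)) (by omega)
      rwa [show 2 * n - 1 - (t + 1) + 1 = 2 * n - 1 - t by omega] at this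
    · have := H (n - 1 - t) (by omega)
      show col (f (2 * n - 1 - t)) = col (f (2 * n - 1 - (t + n)))
      rw [show 2 * n - 1 - t = n - 1 - t + n by omega, show 2 * n - 1 - (t + n) = n - 1 - t by omega, this]

end Pool.Agent.H7.Crit
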