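import Mathlib
import Pool.Agent.H7.Crit2

set_option autoImplicit false

namespace Pool.Agent.H7.Crit

theorem NR.list {V C : Type} {R : V → V → Prop} {c : V → C} (h : NR R c) (l : List V) (x : V) (n : ℕ)
    (hn : 0 < n) (hl : l.length = 2 * n) (h1 : l.IsChain R) (h2 : l.Nodup) :
    ¬ ∀ t < n, c (l.getD t x) = c (l.getD (t + n) x) := by
  refine h n hn (fun t => l.getD t x) (fun t ht => ?_) (fun s t hs ht e => ?_)
  · simp only [List.getD_eq_getElem _ _ (show t < l.length by omega),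
      List.getD_eq_getElem _ _ (show t + 1 < l.length by omega)]
    exact h1.getElem t (by omega)
  · simp only [List.getD_eq_getElem _ _ (show t < l.length by omega),
      List.getD_eq_getElem _ _ (show s < l.length by omega)] at e
    exact (List.Nodup.getElem_inj_iff h2).mp e

theorem NR.p2 {V C : Type} {R : V → V → Prop} {c : V → C} (h : NR R c) {a b : V} (r : R a b)
    (hd : [a, b].Nodup) : c a ≠ c b := by
  intro e
  refine h.list [a, b] a 1 one_pos rfl (by simp [r]) hd fun t ht => ?_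
  interval_cases t
  exact e

theorem NR.p4 {V C : Type} {R : V → V → Prop} {c : V → C} (h : NR R c) {a b d e : V} (r1 : R a b)
    (r2 : R b d) (r3 : R d e) (hd : [a, b, d, e].Nodup) : ¬ (c a = c d ∧ c b = c e) := by
  rintro ⟨e1, e2⟩
  refine h.list [a, b, d, e] a 2 two_pos rfl (by simp [r1, r2, r3]) hd fun t ht => ?_
  interval_cases t
  · exact e1
  · exact e2

theorem NR.p6 {V C : Type} {R : V → V → Prop} {c : V → C} (h : NR R c) {a b d e f g : V} (r1 : R a b)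
    (r2 : R b d) (r3 : R d e) (r4 : R e f) (r5 : R f g) (hd : [a, b, d, e, f, g].Nodup) :
    ¬ (c a = c e ∧ c b = c f ∧ c d = c g) := by
  rintro ⟨e1, e2, e3⟩
  refine h.list [a, b, d, e, f, g] a 3 three_pos rfl (by simp [r1, r2, r3, r4, r5]) hd fun t ht => ?_
  interval_cases t
  · exact e1
  · exact e2
  · exact e3

theorem third {a b x y : ℕ} (ha : a < 3) (hb : b < 3) (hx : x < 3) (hy : y < 3) (h : a ≠ b)
    (h1 : x ≠ a) (h2 : x ≠ b) (h3 : y ≠ a) (h4 : y ≠ b) : x = y := by omega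

theorem force0 {y b z x1 x2 x3 x4 x5 x6 : ℕ} (hy : y < 3) (hb : b < 3) (hz : z < 3) (h1 : x1 < 3)
    (h2 : x2 < 3) (h3 : x3 < 3) (h4 : x4 < 3) (h5 : x5 < 3) (h6 : x6 < 3)
    (e1 : x1 ≠ b) (e2 : x2 ≠ x1) (e3 : x3 ≠ x2) (e4 : x4 ≠ x3) (e5 : x5 ≠ x1) (e6 : x6 ≠ x2)
    (e7 : b ≠ y) (e8 : b ≠ z) (f1 : ¬ (x2 = b ∧ x1 = y)) (f2 : ¬ (x2 = b ∧ x1 = z))
    (f3 : ¬ (x5 = b ∧ x1 = y)) (f4 : ¬ (x5 = b ∧ x1 = z)) (f5 : ¬ (x3 = x1 ∧ x2 = x5))
    (f6 : ¬ (x6 = x1 ∧ x2 = x5)) (f7 : ¬ (x4 = x2 ∧ x3 = x6))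
    (g1 : ¬ (x4 = x1 ∧ x3 = b ∧ x2 = y)) (g2 : ¬ (x4 = x1 ∧ x3 = b ∧ x2 = z)) : y = z := by
  by_contra hne
  have a1 : x1 = y ∨ x1 = z := by
    by_contra hh
    exact hne (third hb h1 hy hz e1.symm e7.symm (fun h => hh (Or.inl h.symm)) e8.symm
      (fun h => hh (Or.inr h.symm)))
  have a2 : x2 ≠ b := fun h => a1.elim (fun g => f1 ⟨h, g⟩) (fun g => f2 ⟨h, g⟩)
  have a5 : x5 ≠ b := fun h => a1.elim (fun g => f3 ⟨h, g⟩) (fun g => f4 ⟨h, g⟩)
  have b1 : x2 = x5 := third h1 hb h2 h5 e1 e2 a2 e5 a5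
  have b3 : x3 = b := third h1 h2 h3 hb e2.symm (fun h => f5 ⟨h, b1⟩) e3 e1.symm a2.symm
  have b6 : x6 = b := third h1 h2 h6 hb e2.symm (fun h => f6 ⟨h, b1⟩) e6 e1.symm a2.symm
  have b4 : x4 = x1 := third h2 hb h4 h1 a2 (fun h => f7 ⟨h, b3.trans b6.symm⟩) (b3 ▸ e4) e2.symm e1
  exact hne (third h2 hb hy hz a2 (fun h => g1 ⟨b4, b3, h.symm⟩) e7.symm
    (fun h => g2 ⟨b4, b3, h.symm⟩) e8.symm)

theorem force {W : ℕ → ℕ} {R : VV → VV → Prop} {M : ℕ} {c : VV → ℕ} (hc : ∀ v, c v < 3)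
    (hR : ∀ u v, TT W u v → u.1 ≤ M → v.1 ≤ M → R u v) (h : NR R c) (i : ℕ) (hi : i + 2 ≤ M)
    (hj : W (i + 1) = W (i + 3)) : c (i, 0) = c (i + 2, 0) := by
  have dn : ∀ g, 0 < g → g ≤ 6 → R (i + 1, g) (i + 1, par g) ∧ R (i + 1, par g) (i + 1, g) := by
    intro g h1 h2
    have : Dn W (i + 1, g) (i + 1, par g) := ⟨rfl, hj, h1, h2, rfl⟩
    exact ⟨hR _ _ (Or.inr (Or.inr (Or.inl this))) (by simp; omega) (by simp; omega),
      hR _ _ (Or.inr (Or.inr (Or.inr this))) (by simp; omega) (by simp; omega)⟩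
  have d1 : R (i + 1, 1) (i + 1, 0) := (dn 1 (by omega) (by omega)).1
  have d2 : R (i + 1, 2) (i + 1, 1) := (dn 2 (by omega) (by omega)).1
  have d3 : R (i + 1, 3) (i + 1, 2) := (dn 3 (by omega) (by omega)).1
  have d4 : R (i + 1, 4) (i + 1, 3) := (dn 4 (by omega) (by omega)).1
  have d5 : R (i + 1, 5) (i + 1, 1) := (dn 5 (by omega) (by omega)).1
  have d6 : R (i + 1, 6) (i + 1, 2) := (dn 6 (by omega) (by omega)).1
  have u5 : R (i + 1, 1) (i + 1, 5) := (dn 5 (by omega) (by omega)).2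
  have u6 : R (i + 1, 2) (i + 1, 6) := (dn 6 (by omega) (by omega)).2
  have l : R (i + 1, 0) (i, 0) := hR _ _ (Or.inr (Or.inl ⟨rfl, rfl, rfl⟩)) (by simp; omega) (by simp; omega)
  have r : R (i + 1, 0) (i + 2, 0) := hR _ _ (Or.inl ⟨rfl, rfl, rfl⟩) (by simp; omega) (by simp; omega)
  have e1 := h.p2 d1 (by simp)
  have e2 := h.p2 d2 (by simp)
  have e3 := h.p2 d3 (by simp)
  have e4 := h.p2 d4 (by simp)
  have e5 := h.p2 d5 (by simp)
  have e6 := h.p2 d6 (by simp)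
  have e7 := h.p2 l (by simp)
  have e8 := h.p2 r (by simp)
  have f1 := h.p4 d2 d1 l (by simp)
  have f2 := h.p4 d2 d1 r (by simp)
  have f3 := h.p4 d5 d1 l (by simp)
  have f4 := h.p4 d5 d1 r (by simp)
  have f5 := h.p4 d3 d2 u5 (by simp)
  have f6 := h.p4 d6 d2 u5 (by simp)
  have f7 := h.p4 d4 d3 u6 (by simp)
  have g1 := h.p6 d4 d3 d2 d1 l (by simp)
  have g2 := h.p6 d4 d3 d2 d1 r (by simp)
  exact force0 (hc _) (hc _) (hc _) (hc _) (hc _) (hc _) (hc _) (hc _) (hc _) e1 e2 e3 e4 e5 e6 e7 e8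
    f1 f2 f3 f4 f5 f6 f7 g1 g2

theorem rigid {W : ℕ → ℕ} {R : VV → VV → Prop} {P : ℕ} (hP : 0 < P) (hW : ∀ k, W k < 3)
    (h1 : ∀ k, W k ≠ W (k + 1))
    (h3 : ∀ k, ¬ (W k = W (k + 3) ∧ W (k + 1) = W (k + 4) ∧ W (k + 2) = W (k + 5)))
    (hp : ∀ k, W (k + P) = W k) {c : VV → ℕ} (hc : ∀ v, c v < 3)
    (hR : ∀ u v, TT W u v → u.1 ≤ 2 * P + 20 → v.1 ≤ 2 * P + 20 → R u v) : ¬ NR R c := by
  intro h
  have sq : ∀ i n, 0 < n → i + 2 * n ≤ 2 * P + 20 → ¬ ∀ t < n, c (i + t, 0) = c (i + (t + n), 0) := by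
    intro i n hn hi
    refine h n hn (fun t => (i + t, 0)) (fun t ht => ?_) (fun s t _ _ e => ?_)
    · exact hR _ _ (Or.inl ⟨rfl, rfl, rfl⟩) (by simp; omega) (by simp; omega)
    · simpa using e
  have s1 : ∀ i, i + 2 ≤ 2 * P + 20 → c (i, 0) ≠ c (i + 1, 0) := fun i hi e =>
    sq i 1 one_pos hi fun t ht => by interval_cases t; exact e
  have s2 : ∀ i, i + 4 ≤ 2 * P + 20 →
      ¬ (c (i, 0) = c (i + 2, 0) ∧ c (i + 1, 0) = c (i + 3, 0)) := fun i hi e =>
    sq i 2 two_pos hi fun t ht => by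
      interval_cases t
      · exact e.1
      · exact e.2
  have s4 : ∀ i, i + 8 ≤ 2 * P + 20 →
      ¬ (c (i, 0) = c (i + 4, 0) ∧ c (i + 1, 0) = c (i + 5, 0) ∧ c (i + 2, 0) = c (i + 6, 0) ∧
        c (i + 3, 0) = c (i + 7, 0)) := fun i hi e =>
    sq i 4 four_pos hi fun t ht => by
      interval_cases t
      · exact e.1
      · exact e.2.1
      · exact e.2.2.1
      · exact e.2.2.2
  have fo := force hc hR h
  have nj : ∀ i, i + 8 ≤ 2 * P + 20 → W (i + 3) ≠ W (i + 5) → c (i + 2, 0) ≠ c (i + 4, 0) := by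
    intro i hi hne e
    by_cases a1 : W (i + 2) = W (i + 4)
    · exact s2 (i + 1) (by omega) ⟨fo (i + 1) (by omega) a1, e⟩
    by_cases a2 : W (i + 4) = W (i + 6)
    · exact s2 (i + 2) (by omega) ⟨e, fo (i + 3) (by omega) a2⟩
    have b1 : W (i + 1) = W (i + 3) := by
      have : ¬ (W (i + 1) = W (i + 4) ∧ W (i + 2) = W (i + 5) ∧ W (i + 3) = W (i + 6)) := h3 (i + 1)
      have : W (i + 1) ≠ W (i + 2) := h1 _
      have : W (i + 2) ≠ W (i + 3) := h1 _
      have : W (i + 3) ≠ W (i + 4) := h1 _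
      have : W (i + 4) ≠ W (i + 5) := h1 _
      have : W (i + 5) ≠ W (i + 6) := h1 _
      have := hW (i + 1); have := hW (i + 2); have := hW (i + 3); have := hW (i + 4)
      have := hW (i + 5); have := hW (i + 6)
      omega
    have b2 : W (i + 5) = W (i + 7) := by
      have : ¬ (W (i + 2) = W (i + 5) ∧ W (i + 3) = W (i + 6) ∧ W (i + 4) = W (i + 7)) := h3 (i + 2)
      have : W (i + 6) ≠ W (i + 7) := h1 _
      have : W (i + 2) ≠ W (i + 3) := h1 _
      have : W (i + 3) ≠ W (i + 4) := h1 _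
      have : W (i + 4) ≠ W (i + 5) := h1 _
      have : W (i + 5) ≠ W (i + 6) := h1 _
      have := hW (i + 7); have := hW (i + 2); have := hW (i + 3); have := hW (i + 4)
      have := hW (i + 5); have := hW (i + 6)
      omega
    have c1 : c (i, 0) = c (i + 2, 0) := fo i (by omega) b1
    have c2 : c (i + 4, 0) = c (i + 6, 0) := fo (i + 4) (by omega) b2
    have t1 := s2 i (by omega)
    have t2 : ¬ (c (i + 2, 0) = c (i + 4, 0) ∧ c (i + 3, 0) = c (i + 5, 0)) := s2 (i + 2) (by omega)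
    have t3 : ¬ (c (i + 4, 0) = c (i + 6, 0) ∧ c (i + 5, 0) = c (i + 7, 0)) := s2 (i + 4) (by omega)
    have t4 := s4 i hi
    have : c (i, 0) ≠ c (i + 1, 0) := s1 _ (by omega)
    have : c (i + 2, 0) ≠ c (i + 3, 0) := s1 _ (by omega)
    have : c (i + 4, 0) ≠ c (i + 5, 0) := s1 _ (by omega)
    have : c (i + 6, 0) ≠ c (i + 7, 0) := s1 _ (by omega)
    have := hc (i, 0); have := hc (i + 1, 0); have := hc (i + 3, 0); have := hc (i + 5, 0)
    have := hc (i + 7, 0)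
    omega
  obtain ⟨π, p1, p2, p3, p4⟩ : ∃ π : ℕ → ℕ, π (W 3) = c (2, 0) ∧ π (W 4) = c (3, 0) ∧
      (∀ x < 3, π x < 3) ∧ ∀ x < 3, ∀ y < 3, π x = π y → x = y := by
    have : W 3 ≠ W 4 := h1 3
    have : c (2, 0) ≠ c (3, 0) := s1 2 (by omega)
    have := hW 3; have := hW 4; have := hc (2, 0); have := hc (3, 0)
    refine ⟨fun x => if x = W 3 then c (2, 0) else if x = W 4 then c (3, 0) else 3 - c (2, 0) - c (3, 0),
      by simp, ?_, fun x hx => ?_, fun x hx y hy => ?_⟩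
    · simp only []
      split_ifs <;> omega
    · simp only []
      split_ifs <;> omega
    · simp only []
      split_ifs <;> omega
  have ind : ∀ k, k + 8 ≤ 2 * P + 20 →
      c (k + 2, 0) = π (W (k + 3)) ∧ c (k + 3, 0) = π (W (k + 4)) := by
    intro k hk
    induction k with
    | zero => exact ⟨p1.symm, p2.symm⟩
    | succ k ih =>
      obtain ⟨i1, i2⟩ := ih (by omega)
      refine ⟨i2, ?_⟩
      show c (k + 4, 0) = π (W (k + 5))
      by_cases a : W (k + 3) = W (k + 5)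
      · have : c (k + 2, 0) = c (k + 4, 0) := fo (k + 2) (by omega) a
        rw [← this, i1, a]
      · have := nj k (by omega) a
        have : c (k + 2, 0) ≠ c (k + 3, 0) := s1 _ (by omega)
        have : c (k + 3, 0) ≠ c (k + 4, 0) := s1 _ (by omega)
        have : W (k + 4) ≠ W (k + 5) := h1 _
        have := p4 _ (hW (k + 3)) _ (hW (k + 5))
        have := p4 _ (hW (k + 4)) _ (hW (k + 5))
        have := p3 _ (hW (k + 5))
        have := hc (k + 2, 0); have := hc (k + 3, 0); have := hc (k + 4, 0)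
        omega
  refine sq 2 P hP (by omega) fun t ht => ?_
  have a := (ind t (by omega)).1
  have b := (ind (t + P) (by omega)).1
  rw [show 2 + t = t + 2 by omega, show 2 + (t + P) = t + P + 2 by omega, a, b,
    show t + P + 3 = t + 3 + P by omega, hp]

/-- a periodic word all of whose windows of length `L` occur in `w` -/
theorem exists_periodic (L : ℕ) : ∃ (W : ℕ → ℕ) (P : ℕ), 0 < P ∧ (∀ k, W (k + P) = W k) ∧
    ∀ i, ∃ j, ∀ t < L, W (i + t) = w (j + 1 + t) := by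
  obtain ⟨a, b, hab, e⟩ : ∃ a b, a < b ∧ ∀ t < L, w (a + 1 + t) = w (b + 1 + t) := by
    obtain ⟨a, b, hne, e⟩ := Finite.exists_ne_map_eq_of_infinite
      (fun a : ℕ => fun t : Fin L => (⟨w (a + 1 + t), w_lt _⟩ : Fin 3))
    have e' : ∀ t < L, w (a + 1 + t) = w (b + 1 + t) := fun t ht => by
      simpa using congrFun e ⟨t, ht⟩
    rcases lt_or_gt_of_ne hne with h | h
    · exact ⟨a, b, h, e'⟩
    · exact ⟨b, a, h, fun t ht => (e' t ht).symm⟩
  obtain ⟨P, hP, rfl⟩ : ∃ P, 0 < P ∧ b = a + P := ⟨b - a, by omega, by omega⟩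
  have key : ∀ s, s < P + L → w (a + 1 + s % P) = w (a + 1 + s) := by
    intro s
    induction s using Nat.strong_induction_on with
    | _ s ih =>
      intro hs
      by_cases h : s < P
      · rw [Nat.mod_eq_of_lt h]
      · obtain ⟨s', rfl⟩ : ∃ s', s = s' + P := ⟨s - P, by omega⟩
        rw [Nat.add_mod_right, ih s' (by omega) (by omega), e s' (by omega)]
        congr 1; omega
  refine ⟨fun k => w (a + 1 + k % P), P, hP, fun k => by simp, fun i => ⟨a + i % P, fun t ht => ?_⟩⟩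
  have := key (i % P + t) (by have := Nat.mod_lt i hP; omega)
  simp only []
  rw [Nat.mod_add_mod] at this
  rw [this]
  congr 1; omega

end Pool.Agent.H7.Crit
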