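import Mathlib
import Pool.Agent.H7.Crit3

set_option autoImplicit false

namespace Pool.Agent.H7.Crit

theorem NR.pull {V C V' C' : Type} {R : V → V → Prop} {c : V → C} (h : NR R c) {R' : V' → V' → Prop}
    {c' : V' → C'} (S : V' → Prop) (φ : V' → V) (hS : ∀ u v, R' u v → S u ∧ S v)
    (hφ : ∀ u v, R' u v → R (φ u) (φ v)) (hi : ∀ u v, S u → S v → φ u = φ v → u = v)
    (hc : ∀ u v, S u → S v → c' u = c' v → c (φ u) = c (φ v)) : NR R' c' := by
  intro n hn f h1 h2 H
  have hs : ∀ t, t < 2 * n → S (f t) := by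
    intro t ht
    by_cases g : t + 1 < 2 * n
    · exact (hS _ _ (h1 t g)).1
    · have := (hS _ _ (h1 (t - 1) (by omega))).2
      rwa [show t - 1 + 1 = t by omega] at this
  exact h n hn (fun t => φ (f t)) (fun t ht => hφ _ _ (h1 t ht))
    (fun s t a b e => h2 s t a b (hi _ _ (hs s a) (hs t b) e))
    (fun t ht => hc _ _ (hs t (by omega)) (hs (t + n) (by omega)) (H t ht))

def WN {V C : Type} (G : SimpleGraph V) (c : V → C) : Prop :=
  ∀ (u v : V) (p : G.Walk u v), p.IsPath → ∀ n : ℕ, 0 < n → p.support.length = 2 * n →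
    (p.support.map c).take n ≠ (p.support.map c).drop n

theorem wn_of_nr {V C : Type} {G : SimpleGraph V} {c : V → C} (h : NR G.Adj c) : WN G c := by
  intro u v p hp n hn hl e
  have hl' : p.length + 1 = 2 * n := by rw [← hl, SimpleGraph.Walk.length_support]
  refine h n hn p.getVert (fun t ht => p.adj_getVert_succ (by omega))
    (fun s t a b e => hp.getVert_injOn (show s ≤ p.length by omega) (show t ≤ p.length by omega) e)
    fun t ht => ?_
  have := congrArg (fun l => l[t]?) e
  simp only [List.getElem?_take, ht, if_true, List.getElem?_drop, List.getElem?_map] at this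
  rw [← p.getVert_eq_support_getElem? (show t ≤ p.length by omega),
    ← p.getVert_eq_support_getElem? (show n + t ≤ p.length by omega)] at this
  rw [Nat.add_comm t n]
  simpa using this

theorem nr_of_wn {V C : Type} {G : SimpleGraph V} {c : V → C} (h : WN G c) : NR G.Adj c := by
  intro n hn f h1 h2 H
  have : ∀ l, l < 2 * n → ∃ p : G.Walk (f 0) (f l), p.support = (List.range (l + 1)).map f := by
    intro l hl
    induction l with
    | zero => exact ⟨.nil, rfl⟩
    | succ l ih =>
      obtain ⟨p, hp⟩ := ih (by omega)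
      refine ⟨p.concat (h1 l hl), ?_⟩
      rw [SimpleGraph.Walk.support_concat, hp, List.range_succ (n := l + 1)]
      simp
  obtain ⟨p, hp⟩ := this (2 * n - 1) (by omega)
  rw [show 2 * n - 1 + 1 = 2 * n by omega] at hp
  refine h _ _ p ?_ n hn (by simp [hp]) ?_
  · rw [SimpleGraph.Walk.isPath_def, hp]
    exact List.Nodup.map_on (fun s a t b e => h2 s t (by simpa using a) (by simpa using b) e)
      List.nodup_range
  · rw [hp]
    refine List.ext_getElem (by simp; omega) fun t a b => ?_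
    have ht : t < n := by simp at a; omega
    simp only [List.getElem_take, List.getElem_drop, List.getElem_map, List.getElem_range]
    rw [H t ht, Nat.add_comm]

theorem TT.symm {W : ℕ → ℕ} {u v : VV} (h : TT W u v) : TT W v u := by
  unfold TT at *; tauto

def rk (v : VV) : ℕ := v.1 + dep v.2

theorem TT.rank {W : ℕ → ℕ} {u v : VV} (h : TT W u v) : rk u ≠ rk v := by
  unfold rk
  have d0 : dep 0 = 0 := rfl
  rcases h with h | h | h | h
  · rw [h.1, h.2.1, h.2.2]; omega
  · rw [h.1, h.2.1, h.2.2]; omega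
  · have := h.1; have := h.dep_eq.1; omega
  · have := h.1; have := h.dep_eq.1; omega

theorem TT.parent {W : ℕ → ℕ} {u v v' : VV} (h : TT W u v) (h' : TT W u v') (a : rk v ≤ rk u)
    (b : rk v' ≤ rk u) : v = v' := by
  have k : ∀ v, TT W u v → rk v ≤ rk u → Rt v u ∨ Dn W u v := by
    intro v h a
    unfold rk at a
    rcases h with h | h | h | h
    · rw [h.1, h.2.1, h.2.2] at a; omega
    · exact Or.inl h
    · exact Or.inr h
    · have := h.1; have := h.dep_eq.1; omega
  rcases k v h a with p | p <;> rcases k v' h' b with q | q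
  · refine Prod.ext ?_ ?_
    · have := p.2.2; have := q.2.2; omega
    · rw [p.1, q.1]
  · have := p.2.1; have := q.2.2.1; omega
  · have := q.2.1; have := p.2.2.1; omega
  · exact p.uniq q

theorem TT.near {W : ℕ → ℕ} {u v : VV} (h : TT W u v) : v.1 ≤ u.1 + 1 ∧ u.2 < 7 ∧ v.2 < 7 := by
  rcases h with h | h | h | h
  · have := h.1; have := h.2.1; have := h.2.2; omega
  · have := h.1; have := h.2.1; have := h.2.2; omega
  · obtain ⟨a, -, b, c, d⟩ := h
    unfold par at d; split_ifs at d <;> omega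
  · obtain ⟨a, -, b, c, d⟩ := h
    unfold par at d; split_ifs at d <;> omega

theorem acyclic {V : Type} {G : SimpleGraph V} {W : ℕ → ℕ} (φ : V → VV) (hi : Function.Injective φ)
    (h : ∀ a b, G.Adj a b → TT W (φ a) (φ b)) : G.IsAcyclic := by
  classical
  intro v p hp
  obtain ⟨x, hx, hm⟩ := p.support.toFinset.exists_max_image (fun a => rk (φ a))
    ⟨v, by simp⟩
  have h2 := hp.ncard_neighborSet_toSubgraph_eq_two (List.mem_toFinset.mp hx)
  obtain ⟨a, b, hab, e⟩ := Set.ncard_eq_two.mp h2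
  have ha : p.toSubgraph.Adj x a := by
    have : a ∈ p.toSubgraph.neighborSet x := by rw [e]; simp
    exact this
  have hb : p.toSubgraph.Adj x b := by
    have : b ∈ p.toSubgraph.neighborSet x := by rw [e]; simp
    exact this
  exact hab (hi ((h _ _ ha.adj_sub).parent (h _ _ hb.adj_sub)
    (hm a (List.mem_toFinset.mpr (p.mem_verts_toSubgraph.mp ha.snd_mem)))
    (hm b (List.mem_toFinset.mpr (p.mem_verts_toSubgraph.mp hb.snd_mem)))))

def RE (W : ℕ → ℕ) (E : Finset (Sym2 VV)) (u v : VV) : Prop := TT W u v ∧ s(u, v) ∈ E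

theorem RE.symm {W : ℕ → ℕ} {E : Finset (Sym2 VV)} {u v : VV} (h : RE W E u v) : RE W E v u :=
  ⟨h.1.symm, Sym2.eq_swap ▸ h.2⟩

theorem exists_min (N : ℕ) : ∃ (W : ℕ → ℕ) (E : Finset (Sym2 VV)),
    (∀ i, ∃ j, ∀ t < N + 10, W (i + t) = w (j + 1 + t)) ∧ (¬ ∃ c : VV → Fin 3, NR (RE W E) c) ∧
    ∀ e ∈ E, ∃ c : VV → Fin 3, NR (RE W (E.erase e)) c := by
  classical
  obtain ⟨W, P, hP, hp, hw⟩ := exists_periodic (N + 10)
  have hW : ∀ k, W k < 3 := fun k => by
    obtain ⟨j, hj⟩ := hw k
    have := hj 0 (by omega)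
    rw [Nat.add_zero] at this
    rw [this]; exact w_lt _
  have h1 : ∀ k, W k ≠ W (k + 1) := fun k e => by
    obtain ⟨j, hj⟩ := hw k
    refine w_sq j 1 le_rfl fun t ht => ?_
    interval_cases t
    rw [← hj 0 (by omega), ← hj (0 + 1) (by omega)]; exact e
  have h3 : ∀ k, ¬ (W k = W (k + 3) ∧ W (k + 1) = W (k + 4) ∧ W (k + 2) = W (k + 5)) := fun k e => by
    obtain ⟨j, hj⟩ := hw k
    refine w_sq j 3 (by omega) fun t ht => ?_
    rw [← hj t (by omega), ← hj (t + 3) (by omega)]
    interval_cases t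
    · exact e.1
    · exact e.2.1
    · exact e.2.2
  have ex : ∃ k, ∃ E : Finset (Sym2 VV), E.card = k ∧ ¬ ∃ c : VV → Fin 3, NR (RE W E) c := by
    refine ⟨_, ((Finset.range (2 * P + 21) ×ˢ Finset.range 7) ×ˢ
      (Finset.range (2 * P + 21) ×ˢ Finset.range 7)).image (fun p => s(p.1, p.2)), rfl, ?_⟩
    rintro ⟨c, hc⟩
    refine rigid hP hW h1 h3 hp (c := fun v => (c v).val) (fun v => (c v).2) (R := RE W _)
      (fun u v h a b => ⟨h, Finset.mem_image.mpr ⟨(u, v), ?_, rfl⟩⟩)
      (hc.pull (fun _ => True) id (fun _ _ _ => ⟨trivial, trivial⟩) (fun _ _ h => h)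
        (fun _ _ _ _ h => h) (fun _ _ _ _ h => Fin.ext h))
    have := h.near
    simp only [Finset.mem_product, Finset.mem_range]
    omega
  obtain ⟨E, hE, hb⟩ := Nat.find_spec ex
  refine ⟨W, E, hw, hb, fun e he => ?_⟩
  by_contra hn
  exact Nat.find_min ex (m := (E.erase e).card) (by rw [← hE]; exact Finset.card_erase_lt_of_mem he)
    ⟨_, rfl, hn⟩

end Pool.Agent.H7.Crit
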