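import Mathlib

set_option autoImplicit false

namespace Pool.Agent.H7.Cross

noncomputable def gam : ℝ :=
  sSup ((fun α : ℝ => α ^ 3 * (1 - α) ^ 3 + 3 * α ^ 4 * (1 - α) ^ 2) '' Set.Icc (0 : ℝ) 1)

theorem h_le (α : ℝ) (h0 : 0 ≤ α) (h1 : α ≤ 1) :
    α ^ 3 * (1 - α) ^ 3 + 3 * α ^ 4 * (1 - α) ^ 2 ≤ 79 / 1000 := by
  have a : α * (1 + 2 * α) ≤ (353 / 240 * α + 4 / 15) ^ 2 := by nlinarith [sq_nonneg (15 / 8 * α - 8 / 15 * (1 + 2 * α))]
  have b : α * (1 - α) * (353 / 240 * α + 4 / 15) ≤ 281 / 1000 := by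
    nlinarith [mul_nonneg h0 (sq_nonneg (α - 16 / 25)), sq_nonneg (α - 16 / 25)]
  have c : 0 ≤ α * (1 - α) * (353 / 240 * α + 4 / 15) := by
    have : 0 ≤ 1 - α := by linarith
    positivity
  have d : (α * (1 - α)) ^ 2 * (α * (1 + 2 * α)) ≤ (α * (1 - α)) ^ 2 * (353 / 240 * α + 4 / 15) ^ 2 := by
    gcongr
  nlinarith

theorem le_gam (α : ℝ) (h0 : 0 ≤ α) (h1 : α ≤ 1) :
    α ^ 3 * (1 - α) ^ 3 + 3 * α ^ 4 * (1 - α) ^ 2 ≤ gam :=
  le_csSup ⟨79 / 1000, by rintro _ ⟨a, ⟨b, c⟩, rfl⟩; exact h_le a b c⟩ ⟨α, ⟨h0, h1⟩, rfl⟩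

theorem gam_up : gam ≤ 79 / 1000 :=
  csSup_le ⟨_, 0, ⟨le_rfl, zero_le_one⟩, rfl⟩ (by rintro _ ⟨a, ⟨b, c⟩, rfl⟩; exact h_le a b c)

theorem gam_low : 774 / 10000 ≤ gam := le_trans (by norm_num) (le_gam (16 / 25) (by norm_num) (by norm_num))

theorem hom (x y : ℝ) (hx : 0 ≤ x) (hy : 0 ≤ y) : x ^ 3 * (y ^ 3 + 3 * y ^ 2 * x) ≤ gam * (x + y) ^ 6 := by
  rcases (add_nonneg hx hy).eq_or_lt with h | h
  · have : x = 0 := by linarith
    subst this
    have : y = 0 := by linarith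
    subst this
    simp
  have := le_gam (x / (x + y)) (by positivity) (by rw [div_le_one h]; linarith)
  rw [show 1 - x / (x + y) = y / (x + y) by field_simp; ring] at this
  rw [← div_le_iff₀ (by positivity)]
  refine le_trans (le_of_eq ?_) this
  field_simp

def chk (i j : ℕ) : Bool :=
  decide (((i + 1) ^ 3 + 3 * (i + 1) ^ 2 * (j + 1)) * ((150 - i) ^ 3 + 3 * (150 - i - j) ^ 2 * (i + 1)) * 10000
      ≤ 774 * 150 ^ 6) ||
    decide (((i + 1) ^ 3 + 3 * (i + 1) ^ 2 * (j + 1)) * (3 * (150 - i - j) + (j + 1)) ≤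
      (3 * i + j) * ((148 - i - j) ^ 3 + 3 * (148 - i - j) ^ 2 * (i + j))) ||
    decide ((150 - i - j) * (i + 1) * ((i + 1) + 3 * (j + 1)) ≤ (149 - i) ^ 3)

theorem chk_all : (List.range 151).all (fun i => (List.range (151 - i)).all fun j => chk i j) = true := by
  decide +kernel

theorem tri (F d a : ℝ) (hF : 0 ≤ F) (hd : 0 ≤ d) (ha : 0 ≤ a) (hs : F + d + a = 150) :
    (F ^ 3 + 3 * F ^ 2 * d) * ((a + d) ^ 3 + 3 * a ^ 2 * F) ≤ 774 / 10000 * 150 ^ 6 ∨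
    (F ^ 3 + 3 * F ^ 2 * d) * (3 * a + d) ≤ (3 * F + d) * (a ^ 3 + 3 * a ^ 2 * (F + d)) ∨
    a * F * (F + 3 * d) ≤ (a + d) ^ 3 := by
  set i := ⌊F⌋₊
  set j := ⌊d⌋₊
  have i1 : (i : ℝ) ≤ F := Nat.floor_le hF
  have i2 : F ≤ i + 1 := (Nat.lt_floor_add_one F).le
  have j1 : (j : ℝ) ≤ d := Nat.floor_le hd
  have j2 : d ≤ j + 1 := (Nat.lt_floor_add_one d).le
  have ij : i + j ≤ 150 := by exact_mod_cast (by linarith : (i + j : ℝ) ≤ 150)
  have c := List.all_eq_true.mp (List.all_eq_true.mp chk_all i (List.mem_range.mpr (by omega))) j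
    (List.mem_range.mpr (by omega))
  have a1 : a ≤ ((150 - i - j : ℕ) : ℝ) := by
    rw [Nat.cast_sub (by omega), Nat.cast_sub (by omega)]; push_cast; linarith
  have a2 : a + d ≤ ((150 - i : ℕ) : ℝ) := by
    rw [Nat.cast_sub (by omega)]; push_cast; linarith
  have a3 : ((148 - i - j : ℕ) : ℝ) ≤ a := by
    rcases le_total (i + j) 148 with g | g
    · rw [Nat.cast_sub (by omega), Nat.cast_sub (by omega)]; push_cast; linarith
    · rw [show 148 - i - j = 0 by omega]; simpa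
  have a4 : ((149 - i : ℕ) : ℝ) ≤ a + d := by
    rcases le_total i 149 with g | g
    · rw [Nat.cast_sub (by omega)]; push_cast; linarith
    · rw [show 149 - i = 0 by omega]; simp; positivity
  simp only [chk, Bool.or_eq_true, decide_eq_true_eq] at c
  rcases c with (c | c) | c <;> have c := (Nat.cast_le (α := ℝ)).mpr c <;> push_cast at c
  · left
    have : (F ^ 3 + 3 * F ^ 2 * d) * ((a + d) ^ 3 + 3 * a ^ 2 * F) ≤
        ((i + 1) ^ 3 + 3 * (i + 1) ^ 2 * (j + 1)) * (((150 - i : ℕ) : ℝ) ^ 3 +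
          3 * ((150 - i - j : ℕ) : ℝ) ^ 2 * (i + 1)) := by gcongr
    linarith
  · right; left
    refine le_trans ?_ (c.trans ?_) <;> gcongr
  · right; right
    refine le_trans ?_ (c.trans ?_) <;> gcongr

theorem fin150 (F d a : ℝ) (hF : 0 ≤ F) (hd : 0 ≤ d) (ha : 0 ≤ a) (hs : F + d + a = 150) :
    (F ^ 3 + 3 * F ^ 2 * d) * ((a + d) ^ 3 + 3 * a ^ 2 * F) ≤ gam * 150 ^ 6 := by
  rcases tri F d a hF hd ha hs with h | h | h
  · have := gam_low
    nlinarith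
  · have := hom (F + d) a (by positivity) ha
    rw [hs] at this
    nlinarith [mul_le_mul_of_nonneg_left h (sq_nonneg d)]
  · have := hom (a + d) F (by positivity) hF
    rw [show a + d + F = 150 by linarith] at this
    nlinarith [mul_le_mul_of_nonneg_left h (mul_nonneg ha (sq_nonneg F))]

theorem fin1 (F d a : ℝ) (hF : 0 ≤ F) (hd : 0 ≤ d) (ha : 0 ≤ a) :
    (F ^ 3 + 3 * F ^ 2 * d) * ((a + d) ^ 3 + 3 * a ^ 2 * F) ≤ gam * (F + d + a) ^ 6 := by
  rcases (by positivity : 0 ≤ F + d + a).eq_or_lt with h | h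
  · have : F = 0 := by linarith
    rw [← h, this]; simp
  set t := 150 / (F + d + a)
  have ht : 0 < t := by positivity
  have e : t * (F + d + a) = 150 := by simp only [t]; field_simp
  have := fin150 (t * F) (t * d) (t * a) (by positivity) (by positivity) (by positivity) (by linarith)
  rw [← e] at this
  refine le_of_mul_le_mul_left ?_ (pow_pos ht 6)
  linarith

def Inv (F G X Y : ℝ) : Prop := (∃ a, 0 ≤ a ∧ a ≤ G ∧ X ≤ F ^ 2 * (G - a) ∧ Y ≤ a ^ 2 * F) ∨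
  (∃ a, 0 ≤ a ∧ a ≤ F ∧ Y ≤ G ^ 2 * (F - a) ∧ X ≤ a ^ 2 * G)

theorem Inv.symm {F G X Y : ℝ} (h : Inv F G X Y) : Inv G F Y X := Or.symm h

theorem Inv.bound {F G X Y : ℝ} (h : Inv F G X Y) (hF : 0 ≤ F) (hG : 0 ≤ G) (hX : 0 ≤ X) (hY : 0 ≤ Y) :
    (F ^ 3 + 3 * X) * (G ^ 3 + 3 * Y) ≤ gam * (F + G) ^ 6 := by
  rcases h with ⟨a, h0, h1, h2, h3⟩ | ⟨a, h0, h1, h2, h3⟩
  · have := fin1 F (G - a) a hF (by linarith) h0
    rw [show a + (G - a) = G by ring, show F + (G - a) + a = F + G by ring] at this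
    refine le_trans ?_ this
    refine mul_le_mul (by linarith) (by linarith) (by positivity) (by nlinarith [pow_nonneg hF 3])
  · have := fin1 G (F - a) a hG (by linarith) h0
    rw [show a + (F - a) = F by ring, show G + (F - a) + a = F + G by ring] at this
    refine le_trans ?_ this
    rw [mul_comm]
    refine mul_le_mul (by linarith) (by linarith) (by positivity) (by nlinarith [pow_nonneg hG 3])

theorem Inv.step {F G X Y : ℝ} (h : Inv F G X Y) (hF : 0 ≤ F) (hG : 0 ≤ G) :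
    Inv F (G + 1) (X + F ^ 2) Y := by
  rcases h with ⟨a, h0, h1, h2, h3⟩ | ⟨a, h0, h1, h2, h3⟩
  · exact Or.inl ⟨a, h0, by linarith, by linarith, h3⟩
  rcases hF.eq_or_lt with h | h
  · have : a = 0 := by linarith
    subst this; subst h
    exact Or.inl ⟨0, le_rfl, by linarith, by simpa using h3, by simpa using h2⟩
  rcases le_total (2 * a) F with g | g
  · set l := a / F
    have el : a = l * F := by simp only [l]; field_simp
    have l0 : 0 ≤ l := by positivity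
    have l1 : l ≤ 1 / 2 := by simp only [l]; rw [div_le_iff₀ h]; linarith
    clear_value l
    subst el
    refine Or.inl ⟨G * (1 - l ^ 2), mul_nonneg hG (by nlinarith), by nlinarith [sq_nonneg l], by linarith, ?_⟩
    have : 0 ≤ G ^ 2 * F * ((1 - l) * (l * (1 - l - l ^ 2))) :=
      mul_nonneg (by positivity) (mul_nonneg (by linarith) (mul_nonneg l0 (by nlinarith)))
    linarith
  · set b := G / (G + 1)
    have eb : G = b * (G + 1) := by simp only [b]; field_simp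
    have b0 : 0 ≤ b := by positivity
    have b1 : b ≤ 1 := by simp only [b]; rw [div_le_one (by linarith)]; linarith
    clear_value b
    have fa : 0 ≤ F - a := by linarith
    have b2 : b ^ 2 ≤ 1 := by nlinarith
    refine Or.inr ⟨F - (F - a) * b ^ 2, by nlinarith, by nlinarith [sq_nonneg b], ?_, ?_⟩
    · have : G ^ 2 = b ^ 2 * (G + 1) ^ 2 := by rw [← mul_pow, ← eb]
      rw [this] at h2; linarith
    · have k1 : 0 ≤ b ^ 3 - 3 * b + 2 := by nlinarith [mul_nonneg (sq_nonneg (b - 1)) (by linarith : 0 ≤ b + 2)]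
      have k2 : 0 ≤ (F + a) - 2 * F * b + (F - a) * b ^ 3 := by
        nlinarith [mul_nonneg fa k1, mul_nonneg (by linarith : 0 ≤ 3 * a - F) (by linarith : 0 ≤ 1 - b)]
      have k3 : 0 ≤ (G + 1) * (b * (F - a) * ((F + a) - 2 * F * b + (F - a) * b ^ 3)) := by positivity
      have k4 : (F ^ 2 - a ^ 2) * G = (F ^ 2 - a ^ 2) * (b * (G + 1)) := by rw [← eb]
      nlinarith

theorem final (n F G X Y e1 e2 P Q : ℝ) (hn : 1000 ≤ n) (hF : 0 ≤ F) (hG : 0 ≤ G) (hs : F + G = n)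
    (h1 : 0 ≤ e1) (h2 : 0 ≤ e2) (he : e1 + e2 = F * G) (hX : X ≤ F * e1) (hY : Y ≤ G * e2)
    (hP : P ≤ F ^ 3 + 3 * X - (3 * F ^ 2 - 2 * F + 3 * e1)) (hQ : Q ≤ G ^ 3 + 3 * Y - (3 * G ^ 2 - 2 * G + 3 * e2))
    (P0 : 0 ≤ P) (Q0 : 0 ≤ Q) (F2 : F ≤ F ^ 2) (G2 : G ≤ G ^ 2)
    (hb : (F ^ 3 + 3 * X) * (G ^ 3 + 3 * Y) ≤ gam * n ^ 6) : P * Q ≤ gam * (n * (n - 1) * (n - 2)) ^ 2 := by
  have gl := gam_low
  have gu := gam_up
  have n0 : 0 < n := by linarith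
  have base : gam * (n ^ 6 - 6 * n ^ 5) ≤ gam * (n * (n - 1) * (n - 2)) ^ 2 := by
    refine mul_le_mul_of_nonneg_left ?_ (by linarith)
    nlinarith [pow_pos n0 2, pow_pos n0 3, mul_nonneg (pow_pos n0 3).le (by linarith : 0 ≤ n - 1)]
  refine le_trans ?_ base
  have small : ∀ F G X Y e1 e2 P Q : ℝ, 0 ≤ F → 0 ≤ G → F + G = n → 0 ≤ e1 → 0 ≤ e2 → e1 + e2 = F * G →
      X ≤ F * e1 → Y ≤ G * e2 → P ≤ F ^ 3 + 3 * X - (3 * F ^ 2 - 2 * F + 3 * e1) →
      Q ≤ G ^ 3 + 3 * Y - (3 * G ^ 2 - 2 * G + 3 * e2) → 0 ≤ P → 0 ≤ Q → F ≤ F ^ 2 → G ≤ G ^ 2 →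
      3 * F ^ 2 - 2 * F + 3 * e1 ≤ 39 / 100 * n ^ 2 → P * Q ≤ gam * (n ^ 6 - 6 * n ^ 5) := by
    intro F G X Y e1 e2 P Q hF hG hs h1 h2 he hX hY hP hQ P0 Q0 F2 G2 hE
    have a1 : Q ≤ n ^ 3 := by
      have : G * e2 ≤ G * (F * G) := mul_le_mul_of_nonneg_left (by linarith) hG
      rw [← hs]
      nlinarith [pow_nonneg hF 3, mul_nonneg (sq_nonneg F) hG]
    have a2 : P ≤ 664 / 10000 * n ^ 3 + 2 * n ^ 2 := by
      have := mul_le_mul_of_nonneg_left hE hF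
      have k := mul_nonneg (sq_nonneg (F - 255 / 1000 * n)) (by positivity : 0 ≤ F + 51 / 100 * n)
      have : F ^ 2 ≤ n ^ 2 := by gcongr; linarith
      nlinarith [mul_nonneg hF (sq_nonneg n), pow_pos n0 3]
    have a3 : P * Q ≤ (664 / 10000 * n ^ 3 + 2 * n ^ 2) * n ^ 3 := by gcongr
    have a4 : 774 / 10000 * (n ^ 6 - 6 * n ^ 5) ≤ gam * (n ^ 6 - 6 * n ^ 5) :=
      mul_le_mul_of_nonneg_right gl (by nlinarith [pow_pos n0 5])
    nlinarith [mul_nonneg (pow_pos n0 5).le (by linarith : 0 ≤ n - 1000)]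
  rcases le_total (3 * F ^ 2 - 2 * F + 3 * e1) (39 / 100 * n ^ 2) with c1 | c1
  · exact small F G X Y e1 e2 P Q hF hG hs h1 h2 he hX hY hP hQ P0 Q0 F2 G2 c1
  rcases le_total (3 * G ^ 2 - 2 * G + 3 * e2) (39 / 100 * n ^ 2) with c2 | c2
  · rw [mul_comm]
    exact small G F Y X e2 e1 Q P hG hF (by linarith) h2 h1 (by linarith) hY hX hQ hP Q0 P0 G2 F2 c2
  have s : 224 / 100 * n ^ 2 ≤ (3 * F ^ 2 - 2 * F + 3 * e1) + (3 * G ^ 2 - 2 * G + 3 * e2) := by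
    have : n ^ 2 = (F + G) ^ 2 := by rw [hs]
    nlinarith [sq_nonneg (F - G)]
  generalize 3 * F ^ 2 - 2 * F + 3 * e1 = E1 at *
  generalize 3 * G ^ 2 - 2 * G + 3 * e2 = E2 at *
  have E10 : 0 ≤ E1 := le_trans (by positivity) c1
  have E20 : 0 ≤ E2 := le_trans (by positivity) c2
  have b1 : (P + E1) * (Q + E2) ≤ gam * n ^ 6 :=
    le_trans (mul_le_mul (by linarith) (by linarith) (by positivity) (by linarith)) hb
  have b2 : 7215 / 10000 * n ^ 4 ≤ E1 * E2 := by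
    nlinarith [mul_nonneg (sub_nonneg.mpr c1) (sub_nonneg.mpr c2), mul_le_mul_of_nonneg_left s (sq_nonneg n)]
  by_contra hc
  push Not at hc
  have b3 : P * E2 + Q * E1 ≤ 6 * gam * n ^ 5 := by nlinarith [mul_nonneg E10 E20]
  have b4 : (P * E2 + Q * E1) ^ 2 ≤ (6 * gam * n ^ 5) ^ 2 := by gcongr
  have p6 : 0 ≤ n ^ 6 - 6 * n ^ 5 := by nlinarith [pow_pos n0 5]
  have b5 : gam * (n ^ 6 - 6 * n ^ 5) * (7215 / 10000 * n ^ 4) ≤ P * Q * (E1 * E2) :=
    mul_le_mul hc.le b2 (by positivity) (by positivity)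
  have b6 : gam * (4 * ((n ^ 6 - 6 * n ^ 5) * (7215 / 10000 * n ^ 4))) ≤ gam * (36 * gam * n ^ 10) := by
    nlinarith [sq_nonneg (P * E2 - Q * E1)]
  have b7 := le_of_mul_le_mul_left b6 (by linarith)
  nlinarith [mul_le_mul_of_nonneg_right gu (pow_pos n0 10).le,
    mul_nonneg (pow_pos n0 9).le (by linarith : 0 ≤ n - 1000), pow_pos n0 9]

end Pool.Agent.H7.Cross
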