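import Mathlib
import Pool.Agent.H7.Cross1

set_option autoImplicit false

namespace Pool.Agent.H7.Cross

open Finset

variable {n : ℕ}

abbrev Rl (n : ℕ) := Fin n → Fin n → Prop

def K (c : Rl n) (T : Finset (Fin n)) : Prop := ∀ u ∈ T, ∀ v ∈ T, u ≠ v → c u v

open Classical in
noncomputable def cnt (c : Rl n) : ℕ := ((powersetCard 3 univ).filter (K c)).card

def sh (c : Rl n) (x y : Fin n) : Rl n := fun u v =>
  if (u = x ∧ v ≠ y) ∨ (v = x ∧ u ≠ y) then c u v ∨ c (Equiv.swap x y u) (Equiv.swap x y v)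
  else if (u = y ∧ v ≠ x) ∨ (v = y ∧ u ≠ x) then c u v ∧ c (Equiv.swap x y u) (Equiv.swap x y v)
  else c u v

theorem sh_symm {c : Rl n} (h : ∀ u v, c u v → c v u) (x y : Fin n) :
    ∀ u v, sh c x y u v → sh c x y v u := by
  intro u v
  have := h u v
  have := h (Equiv.swap x y u) (Equiv.swap x y v)
  unfold sh
  grind

theorem sh_not (c : Rl n) {x y : Fin n} (hxy : x ≠ y) :
    (fun u v => ¬ sh c x y u v) = sh (fun u v => ¬ c u v) y x := by
  funext u v
  unfold sh
  rw [Equiv.swap_comm y x]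
  grind

theorem cnt_sh (c : Rl n) {x y : Fin n} (hs : ∀ u v, c u v → c v u) (hxy : x ≠ y) :
    cnt c ≤ cnt (sh c x y) := by
  classical
  unfold cnt
  have both : ∀ T : Finset (Fin n), K c T → K c (T.map (Equiv.swap x y).toEmbedding) → K (sh c x y) T := by
    intro T h1 h2 u hu v hv huv
    have a := h1 u hu v hv huv
    have b := h2 _ (mem_map_of_mem _ hu) _ (mem_map_of_mem _ hv) (by simpa using huv)
    simp only [Equiv.coe_toEmbedding] at b
    unfold sh
    grind
  refine card_le_card_of_injOn (fun T => if K (sh c x y) T then T else T.map (Equiv.swap x y).toEmbedding)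
    (fun T hT => ?_) fun T hT T' hT' e => ?_
  · simp only [coe_filter, mem_powersetCard, subset_univ, true_and, Set.mem_ofPred_eq] at hT ⊢
    split_ifs with h
    · exact ⟨hT.1, h⟩
    refine ⟨by rw [card_map]; exact hT.1, ?_⟩
    have hx : x ∉ T := by
      intro hx
      apply h
      intro u hu v hv huv
      have a := hT.2 u hu v hv huv
      have b := hT.2 x hx v hv
      have d := hT.2 u hu x hx
      unfold sh
      grind
    intro u hu v hv huv
    obtain ⟨u, hu', rfl⟩ := mem_map.mp hu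
    obtain ⟨v, hv', rfl⟩ := mem_map.mp hv
    have a := hT.2 u hu' v hv' (fun z => huv (by rw [z]))
    have : u ≠ x := fun z => hx (z ▸ hu')
    have : v ≠ x := fun z => hx (z ▸ hv')
    simp only [Equiv.coe_toEmbedding] at huv ⊢
    unfold sh
    simp only [Equiv.swap_apply_self]
    grind
  · simp only [coe_filter, mem_powersetCard, subset_univ, true_and, Set.mem_ofPred_eq] at hT hT'
    simp only at e
    split_ifs at e with h1 h2 h2
    · exact e
    · exact absurd (both T' hT'.2 (e ▸ hT.2)) h2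
    · exact absurd (both T hT.2 (e ▸ hT'.2)) h1
    · exact map_injective _ e

open Classical in
noncomputable def pot (c : Rl n) : ℕ := ∑ p : Fin n × Fin n, if c p.1 p.2 then (p.1 : ℕ) + p.2 else 0

theorem pot_sh (c : Rl n) {x y z : Fin n} (hxy : x < y) (h1 : z ≠ x) (h2 : z ≠ y) (h3 : c y z)
    (h4 : ¬ c x z) : pot (sh c x y) < pot c := by
  classical
  have two : ∀ d : Rl n, 2 * pot d = ∑ p : Fin n × Fin n, ((if d p.1 p.2 then (p.1 : ℕ) + p.2 else 0) +
      if d (Equiv.swap x y p.1) (Equiv.swap x y p.2) then (Equiv.swap x y p.1 : ℕ) + Equiv.swap x y p.2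
        else 0) := by
    intro d
    rw [sum_add_distrib, two_mul]
    congr 1
    exact (Equiv.sum_comp ((Equiv.swap x y).prodCongr (Equiv.swap x y))
      (fun p : Fin n × Fin n => if d p.1 p.2 then (p.1 : ℕ) + p.2 else 0)).symm
  have : 2 * pot (sh c x y) < 2 * pot c := by
    rw [two, two]
    have hxy' : (x : ℕ) < y := hxy
    refine sum_lt_sum (fun p _ => ?_) ⟨(y, z), mem_univ _, ?_⟩
    · obtain ⟨u, v⟩ := p
      unfold sh
      simp only [Equiv.swap_apply_self]
      grind
    · unfold sh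
      simp only [Equiv.swap_apply_self]
      grind
  omega

theorem shifted (m : ℕ) : ∀ c : Rl n, pot c = m → (∀ u v, c u v → c v u) → ∃ d : Rl n,
    (∀ u v, d u v → d v u) ∧ cnt c ≤ cnt d ∧ cnt (fun u v => ¬ c u v) ≤ cnt (fun u v => ¬ d u v) ∧
      ∀ x y z, x < y → z ≠ x → z ≠ y → d y z → d x z := by
  induction m using Nat.strong_induction_on with
  | _ m ih =>
    intro c hm hs
    by_cases h : ∀ x y z, x < y → z ≠ x → z ≠ y → c y z → c x z
    · exact ⟨c, hs, le_rfl, le_rfl, h⟩
    push Not at h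
    obtain ⟨x, y, z, h0, h1, h2, h3, h4⟩ := h
    obtain ⟨d, a, b, e, f⟩ := ih _ (hm ▸ pot_sh c h0 h1 h2 h3 h4) _ rfl (sh_symm hs x y)
    refine ⟨d, a, (cnt_sh c hs h0.ne).trans b, le_trans ?_ e, f⟩
    rw [sh_not c h0.ne]
    exact cnt_sh _ (fun u v g g' => g (hs _ _ g')) h0.ne'

open Classical in
noncomputable def deg (c : Rl n) (R : Finset (Fin n)) (j : Fin n) : ℕ := (R.filter fun i => c i j).card

theorem deg_all {c : Rl n} {R : Finset (Fin n)} {j : Fin n} (h : ∀ i ∈ R, c i j) : deg c R j = R.card := by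
  classical
  unfold deg
  rw [filter_true_of_mem h]

theorem deg_ins {c : Rl n} {R : Finset (Fin n)} {i j : Fin n} (h : ¬ c i j) :
    deg c (insert i R) j = deg c R j := by
  unfold deg
  rw [filter_insert, if_neg h]

theorem inv_chain (c : Rl n) (hs : ∀ u v, c u v → c v u)
    (h : ∀ x y z, x < y → z ≠ x → z ≠ y → c y z → c x z) (m : ℕ) : ∀ R B : Finset (Fin n),
    R.card + B.card = m → Disjoint R B → Inv R.card B.card
      (∑ j ∈ B, (deg c R j : ℝ) ^ 2) (∑ i ∈ R, (deg (fun u v => ¬ c u v) B i : ℝ) ^ 2) := by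
  induction m with
  | zero =>
    intro R B h0 _
    rw [card_eq_zero.mp (by omega : R.card = 0), card_eq_zero.mp (by omega : B.card = 0)]
    exact Or.inl ⟨0, by simp⟩
  | succ m ih =>
    intro R B h0 hd
    rcases R.eq_empty_or_nonempty with rfl | hR
    · exact Or.inl ⟨0, by simp [deg]⟩
    rcases B.eq_empty_or_nonempty with rfl | hB
    · exact Or.inr ⟨0, by simp [deg]⟩
    have i0 := R.max'_mem hR
    have j0 := B.min'_mem hB
    have ne : ∀ i ∈ R, ∀ j ∈ B, i ≠ j := fun i hi j hj e => disjoint_left.mp hd hi (e ▸ hj)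
    by_cases g : c (R.max' hR) (B.min' hB)
    · have all : ∀ i ∈ R, c i (B.min' hB) := fun i hi => by
        rcases (R.le_max' i hi).eq_or_lt with e | e
        · rwa [e]
        · exact h _ _ _ e (ne _ hi _ j0).symm (ne _ i0 _ j0).symm g
      generalize B.min' hB = j at *
      obtain ⟨B', hj, rfl⟩ : ∃ B', j ∉ B' ∧ B = insert j B' :=
        ⟨B.erase j, notMem_erase _ _, (insert_erase j0).symm⟩
      rw [card_insert_of_notMem hj] at h0 ⊢
      have := (ih R B' (by omega) (hd.mono_right (subset_insert _ _))).step (by positivity) (by positivity)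
      rw [sum_insert hj, deg_all all, Nat.cast_succ, add_comm (_ ^ 2)]
      convert this using 1
      refine sum_congr rfl fun i hi => ?_
      rw [deg_ins (not_not.mpr (hs _ _ (all i hi)))]
    · have all : ∀ j ∈ B, ¬ c j (R.max' hR) := fun j hj => by
        rcases (B.min'_le j hj).eq_or_lt with e | e
        · rw [← e]; exact fun z => g (hs _ _ z)
        · exact fun z => g (hs _ _ (h _ _ _ e (ne _ i0 _ j0) (ne _ i0 _ hj) z))
      generalize R.max' hR = i at *
      obtain ⟨R', hi, rfl⟩ : ∃ R', i ∉ R' ∧ R = insert i R' :=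
        ⟨R.erase i, notMem_erase _ _, (insert_erase i0).symm⟩
      rw [card_insert_of_notMem hi] at h0 ⊢
      have := ((ih R' B (by omega) (hd.mono_left (subset_insert _ _))).symm.step (by positivity)
        (by positivity)).symm
      rw [sum_insert hi, deg_all (c := fun u v => ¬ c u v) all, Nat.cast_succ, add_comm (_ ^ 2)]
      convert this using 1
      refine sum_congr rfl fun j hj => ?_
      rw [deg_ins fun z => all j hj (hs _ _ z)]

theorem cnt_le (c : Rl n) (R : Finset (Fin n)) (h : ∀ u ∉ R, ∀ v ∉ R, u ≠ v → ¬ c u v) :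
    cnt c ≤ R.card.choose 3 + ∑ j ∈ Rᶜ, (deg c R j).choose 2 := by
  classical
  have sub : (powersetCard 3 univ).filter (K c) ⊆ powersetCard 3 R ∪
      Rᶜ.biUnion fun j => (powersetCard 2 (R.filter fun i => c i j)).image (insert j) := by
    intro T hT
    simp only [mem_filter, mem_powersetCard, subset_univ, true_and] at hT
    by_cases g : T ⊆ R
    · exact mem_union_left _ (mem_powersetCard.mpr ⟨g, hT.1⟩)
    obtain ⟨j, hj, hj'⟩ := not_subset.mp g
    refine mem_union_right _ (mem_biUnion.mpr ⟨j, mem_compl.mpr hj', mem_image.mpr ⟨T.erase j,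
      mem_powersetCard.mpr ⟨fun i hi => ?_, by rw [card_erase_of_mem hj, hT.1]⟩, insert_erase hj⟩⟩)
    obtain ⟨a, b⟩ := mem_erase.mp hi
    have := hT.2 i b j hj a
    exact mem_filter.mpr ⟨by_contra fun z => h i z j hj' a this, this⟩
  refine (card_le_card sub).trans ((card_union_le _ _).trans ?_)
  rw [card_powersetCard]
  refine Nat.add_le_add_left (card_biUnion_le.trans (sum_le_sum fun j _ => card_image_le.trans ?_)) _
  rw [card_powersetCard]
  rfl

theorem ch3 (m : ℕ) : (6 * m.choose 3 : ℝ) = m * (m - 1) * (m - 2) := by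
  induction m with
  | zero => simp
  | succ m ih =>
    rw [Nat.choose_succ_succ' m 2]
    push_cast
    rw [mul_add, ih, Nat.cast_choose_two]
    ring

theorem cnt_le' (c : Rl n) (R : Finset (Fin n)) (h : ∀ u ∉ R, ∀ v ∉ R, u ≠ v → ¬ c u v) :
    (6 * cnt c : ℝ) ≤ R.card ^ 3 + 3 * (∑ j ∈ Rᶜ, (deg c R j : ℝ) ^ 2) -
      (3 * R.card ^ 2 - 2 * R.card + 3 * ∑ j ∈ Rᶜ, (deg c R j : ℝ)) := by
  have := (Nat.cast_le (α := ℝ)).mpr (cnt_le c R h)
  push_cast at this
  simp only [Nat.cast_choose_two] at this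
  have e : ∑ j ∈ Rᶜ, (deg c R j : ℝ) * (deg c R j - 1) / 2 =
      ((∑ j ∈ Rᶜ, (deg c R j : ℝ) ^ 2) - ∑ j ∈ Rᶜ, (deg c R j : ℝ)) / 2 := by
    rw [← sum_sub_distrib, sum_div]
    exact sum_congr rfl fun j _ => by ring
  have := ch3 R.card
  linarith

theorem sq_le (c : Rl n) (R B : Finset (Fin n)) : ∑ j ∈ B, (deg c R j : ℝ) ^ 2 ≤
    R.card * ∑ j ∈ B, (deg c R j : ℝ) := by
  rw [mul_sum]
  refine sum_le_sum fun j _ => ?_
  rw [sq]
  gcongr
  classical exact card_filter_le _ _

theorem deg_sum (d : Rl n) (a : ∀ u v, d u v → d v u) (R B : Finset (Fin n)) :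
    ∑ j ∈ B, (deg d R j : ℝ) + ∑ i ∈ R, (deg (fun u v => ¬ d u v) B i : ℝ) = R.card * B.card := by
  simp only [deg, card_filter]
  push_cast
  rw [sum_comm, ← sum_add_distrib, ← nsmul_eq_mul, ← sum_const]
  refine sum_congr rfl fun i _ => ?_
  rw [← sum_add_distrib, card_eq_sum_ones]
  push_cast
  refine sum_congr rfl fun j _ => ?_
  by_cases g : d i j
  · simp [g, a _ _ g]
  · have : ¬ d j i := fun z => g (a _ _ z)
    simp [g, this]

theorem main (hn : 1000 ≤ n) (c : Rl n) (hs : ∀ u v, c u v → c v u) :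
    (cnt c * cnt (fun u v => ¬ c u v) : ℝ) ≤ gam * (n.choose 3 : ℝ) ^ 2 := by
  obtain ⟨d, a, b, e, f⟩ := shifted _ c rfl hs
  obtain ⟨R, hR⟩ : ∃ R : Finset (Fin n), ∀ v, v ∈ R ↔ ∀ u < v, d u v := by
    classical exact ⟨univ.filter fun v => ∀ u < v, d u v, by simp⟩
  have h1 : ∀ u ∉ R, ∀ v ∉ R, u ≠ v → ¬ d u v := by
    intro u hu v hv huv g
    simp only [hR, not_forall] at hu hv
    rcases lt_or_gt_of_ne huv with l | l
    · obtain ⟨w, l', z⟩ := hu
      exact z (f w v u (l'.trans l) l'.ne' huv (a _ _ g))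
    · obtain ⟨w, l', z⟩ := hv
      exact z (f w u v (l'.trans l) l'.ne' huv.symm g)
  have h2 : ∀ u ∉ Rᶜ, ∀ v ∉ Rᶜ, u ≠ v → ¬ ¬ d u v := by
    intro u hu v hv huv
    simp only [mem_compl, not_not, hR] at hu hv ⊢
    rcases lt_or_gt_of_ne huv with l | l
    · exact hv u l
    · exact a _ _ (hu v l)
  have p := cnt_le' d R h1
  have q := cnt_le' (fun u v => ¬ d u v) Rᶜ h2
  rw [compl_compl] at q
  have s : (R.card : ℝ) + (Rᶜ).card = n := by
    rw [← Nat.cast_add, card_add_card_compl, Fintype.card_fin]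
  have iv := (inv_chain d a f _ R Rᶜ rfl disjoint_compl_right).bound (by positivity) (by positivity)
    (by positivity) (by positivity)
  rw [s] at iv
  have nat : ∀ m : ℕ, (m : ℝ) ≤ m ^ 2 := fun m => by exact_mod_cast Nat.le_self_pow (by norm_num) m
  have := final n _ _ _ _ _ _ _ _ (by exact_mod_cast hn) (by positivity) (by positivity) s (by positivity)
    (by positivity) (deg_sum d a R Rᶜ) (sq_le d R Rᶜ) (sq_le (fun u v => ¬ d u v) Rᶜ R) p q (by positivity)
    (by positivity) (nat _) (nat _) iv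
  rw [← ch3] at this
  have m : (cnt c * cnt (fun u v => ¬ c u v) : ℝ) ≤ cnt d * cnt (fun u v => ¬ d u v) := by gcongr
  linarith

end Pool.Agent.H7.Cross
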