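import Mathlib

set_option autoImplicit false

namespace Pool.Agent.H7.CubeEmb

open Finset

theorem sum_choose_even (s e : ℕ) (h0 : 0 < e) (h1 : e < 2 * 2 ^ s) (h2 : e ≠ 2 ^ s) :
    ((∑ i ∈ range (2 ^ s), e.choose i : ℕ) : ZMod 2) = 0 := by
  have base : ∀ e, 0 < e → e < 2 ^ s → ((∑ i ∈ range (2 ^ s), e.choose i : ℕ) : ZMod 2) = 0 := by
    intro e h0 h1
    rw [← sum_subset (s₁ := range (e + 1)) (range_subset_range.2 (by omega))
      (fun i _ hi => Nat.choose_eq_zero_of_lt (by simpa using hi)), Nat.sum_range_choose]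
    obtain ⟨e, rfl⟩ : ∃ k, e = k + 1 := ⟨e - 1, by omega⟩
    rw [pow_succ]
    push_cast
    rw [show (2 : ZMod 2) = 0 from rfl, mul_zero]
  rcases lt_or_gt_of_ne h2 with h | h
  · exact base e h0 h
  · obtain ⟨e, rfl⟩ : ∃ k, e = 2 ^ s + k := ⟨e - 2 ^ s, by omega⟩
    rw [← base e (by omega) (by omega)]
    push_cast
    refine sum_congr rfl fun i hi => ?_
    have hi' := mem_range.1 hi
    rw [← Polynomial.coeff_one_add_X_pow (ZMod 2), ← Polynomial.coeff_one_add_X_pow (ZMod 2),
      pow_add, add_pow_char_pow, one_pow, add_mul, one_mul, Polynomial.coeff_add,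
      Polynomial.coeff_X_pow_mul', if_neg (by omega), add_zero]

theorem fw_layer {α : Type} [Fintype α] [DecidableEq α] (s : ℕ)
    (hm : Fintype.card α < 4 * 2 ^ s) (w : ℕ) (A : Finset (Finset α)) (hA : ∀ x ∈ A, x.card = w)
    (h : ∀ x ∈ A, ∀ y ∈ A, (x \ y).card ≠ 2 ^ s) :
    A.card ≤ (univ.filter (fun T : Finset α => T.card < 2 ^ s)).card := by
  set B := univ.filter (fun T : Finset α => T.card < 2 ^ s) with hB
  let P : Matrix A B (ZMod 2) := fun x T => if T.1 ⊆ x.1 then 1 else 0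
  let Q : Matrix B A (ZMod 2) := fun T y => if Disjoint T.1 y.1 then 1 else 0
  have hPQ : P * Q = 1 := by
    ext x y
    have e1 : (P * Q) x y = ((∑ i ∈ range (2 ^ s), (x.1 \ y.1).card.choose i : ℕ) : ZMod 2) := by
      rw [Matrix.mul_apply]
      have : ∀ T : B, P x T * Q T y = if T.1 ⊆ x.1 \ y.1 then 1 else 0 := by
        intro T
        simp only [P, Q, subset_sdiff]
        by_cases a : T.1 ⊆ x.1 <;> by_cases b : Disjoint T.1 y.1 <;> simp [a, b]
      simp only [this]
      rw [sum_coe_sort B (fun T => if T ⊆ x.1 \ y.1 then (1 : ZMod 2) else 0), sum_boole]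
      congr 1
      simp only [← card_powersetCard]
      rw [← card_biUnion]
      · congr 1
        ext T
        simp only [hB, mem_filter, mem_univ, true_and, mem_biUnion, mem_range, mem_powersetCard]
        constructor
        · rintro ⟨a, b⟩
          exact ⟨_, a, b, rfl⟩
        · rintro ⟨i, a, b, rfl⟩
          exact ⟨a, b⟩
      · intro i _ j _ hij
        refine disjoint_left.2 fun T a b => hij ?_
        rw [← (mem_powersetCard.1 a).2, ← (mem_powersetCard.1 b).2]
    rw [e1, Matrix.one_apply]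
    split_ifs with hxy
    · subst hxy
      rw [sdiff_self, bot_eq_empty, card_empty, sum_eq_single 0]
      · simp
      · intro i _ hi
        exact Nat.choose_eq_zero_of_lt (by omega)
      · intro hh
        exact absurd (mem_range.2 (by positivity)) hh
    · apply sum_choose_even s _ _ _ (h _ x.2 _ y.2)
      · rw [card_pos, sdiff_nonempty]
        intro hs
        exact hxy (Subtype.ext (eq_of_subset_of_card_le hs (by rw [hA _ x.2, hA _ y.2])))
      · have a1 : (x.1 \ y.1).card ≤ w := hA _ x.2 ▸ card_le_card sdiff_subset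
        have a2 := card_sdiff_add_card x.1 y.1
        have a3 := card_le_univ (x.1 ∪ y.1)
        rw [hA _ y.2] at a2
        omega
  have r1 := Matrix.rank_mul_le_left P Q
  rw [hPQ, Matrix.rank_one] at r1
  have r2 := Matrix.rank_le_card_width P
  simpa using r1.trans r2

theorem fw {α : Type} [Fintype α] [DecidableEq α] (s : ℕ)
    (hm : Fintype.card α < 4 * 2 ^ s) (A : Finset (Finset α))
    (h : (Fintype.card α + 1) * (univ.filter (fun T : Finset α => T.card < 2 ^ s)).card < A.card) :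
    ∃ x ∈ A, ∃ y ∈ A, (x \ y).card = 2 ^ s ∧ (y \ x).card = 2 ^ s := by
  obtain ⟨w, _, hw⟩ := exists_lt_card_fiber_of_mul_lt_card_of_maps_to (s := A)
    (t := range (Fintype.card α + 1)) (f := fun x => x.card)
    (fun x _ => mem_range.2 (Nat.lt_succ_of_le (card_le_univ x))) (by rwa [card_range])
  by_contra hc
  refine absurd (fw_layer s hm w _ (fun x hx => (mem_filter.1 hx).2) ?_) (not_le.2 hw)
  intro x hx y hy e
  obtain ⟨a1, a2⟩ := mem_filter.1 hx
  obtain ⟨b1, b2⟩ := mem_filter.1 hy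
  exact hc ⟨x, a1, y, b1, e, by rw [← e]; exact card_sdiff_comm (by rw [a2, b2])⟩

theorem num1 (h : ℕ) (hh : 16 ≤ h) : 4 * h * 512 ^ h ≤ 729 ^ h := by
  induction h, hh using Nat.le_induction with
  | base => norm_num
  | succ h hh ih =>
    rw [pow_succ, pow_succ]
    nlinarith [Nat.zero_le (512 ^ h), Nat.mul_le_mul_right (512 ^ h) hh]

theorem small (h m : ℕ) (hh : 16 ≤ h) (hm : m + 1 = 8 * h) :
    (m + 1) * (univ.filter (fun T : Finset (Fin m) => T.card < 2 * h)).card * 2 ^ h ≤ 2 ^ m := by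
  set T := (univ.filter (fun T : Finset (Fin m) => T.card < 2 * h)).card with hT
  have h1 : T * 3 ^ (6 * h) ≤ 4 ^ m := by
    have := Finset.sum_pow_mul_eq_add_pow (1 : ℕ) 3 (univ : Finset (Fin m))
    rw [card_univ, Fintype.card_fin, powerset_univ] at this
    rw [show 4 = 1 + 3 from rfl, ← this, hT, ← smul_eq_mul, ← sum_const]
    refine le_trans (sum_le_sum fun x hx => ?_) (sum_le_sum_of_subset (filter_subset _ _))
    have := (mem_filter.1 hx).2
    rw [one_pow, one_mul]
    exact Nat.pow_le_pow_right (by norm_num) (by omega)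
  have h2 := num1 h hh
  have e1 : 3 ^ (6 * h) = 729 ^ h := by rw [pow_mul]; norm_num
  have e2 : 4 ^ m * 4 = 256 ^ h * 256 ^ h := by
    rw [← pow_succ, hm, pow_mul, ← mul_pow]; norm_num
  have e3 : 2 ^ m * 2 = 256 ^ h := by rw [← pow_succ, hm, pow_mul]; norm_num
  have e4 : 512 ^ h = 2 ^ h * 256 ^ h := by rw [← mul_pow]; norm_num
  rw [e1] at h1
  rw [e4] at h2
  have p1 : 0 < 256 ^ h := by positivity
  have h3 : T * (4 * h * (2 ^ h * 256 ^ h)) * 4 ≤ 256 ^ h * 256 ^ h := by
    rw [← e2]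
    exact Nat.mul_le_mul_right _ ((Nat.mul_le_mul_left _ h2).trans h1)
  have h4 : (16 * h * T * 2 ^ h) * 256 ^ h ≤ 256 ^ h * 256 ^ h := by
    refine le_trans (le_of_eq ?_) h3
    ring
  have h5 := Nat.le_of_mul_le_mul_right h4 p1
  rw [hm]
  nlinarith

/-- Dense sets contain an undistorted cube of scale `r`. -/
def Good (ι : Type) [Fintype ι] [DecidableEq ι] (r k E : ℕ) : Prop :=
  ∀ D : Finset (ι → Bool), 2 ^ Fintype.card ι ≤ 2 ^ E * D.card →
    ∃ f : (Fin k → Bool) → (ι → Bool), (∀ x, f x ∈ D) ∧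
      ∀ x y, hammingDist (f x) (f y) = r * hammingDist x y

theorem hd_sum {ι : Type} [Fintype ι] (x y : ι → Bool) :
    hammingDist x y = ∑ i, if x i ≠ y i then 1 else 0 := by
  rw [hammingDist, card_filter]

theorem hd_elim {α β : Type} [Fintype α] [Fintype β] (a c : α → Bool) (b d : β → Bool) :
    hammingDist (Sum.elim a b) (Sum.elim c d) = hammingDist a c + hammingDist b d := by
  rw [hd_sum, hd_sum, hd_sum, Fintype.sum_sum_type]
  rfl

theorem hd_succ {k : ℕ} (x y : Fin (k + 1) → Bool) :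
    hammingDist x y = (if x 0 ≠ y 0 then 1 else 0) + hammingDist (Fin.tail x) (Fin.tail y) := by
  rw [hd_sum, hd_sum, Fin.sum_univ_succ]
  rfl

/-- Translated blow-up. -/
def blow {m t : ℕ} (z : Fin m × Fin t → Bool) (x : Finset (Fin m)) (p : Fin m × Fin t) : Bool :=
  xor (z p) (decide (p.1 ∈ x))

theorem hd_blow {m t : ℕ} (z : Fin m × Fin t → Bool) (x y : Finset (Fin m)) :
    hammingDist (blow z x) (blow z y) = ((x \ y).card + (y \ x).card) * t := by
  rw [hd_sum, Fintype.sum_prod_type]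
  have : ∀ i : Fin m, ∑ j : Fin t, (if blow z x (i, j) ≠ blow z y (i, j) then 1 else 0) =
      ((if i ∈ x \ y then 1 else 0) + (if i ∈ y \ x then 1 else 0)) * t := by
    intro i
    by_cases a : i ∈ x <;> by_cases b : i ∈ y <;> simp [blow, a, b]
  simp only [this]
  rw [← sum_mul, sum_add_distrib, sum_boole, sum_boole, filter_mem_eq_inter, filter_mem_eq_inter,
    univ_inter, univ_inter]
  rfl

theorem step (ι : Type) [Fintype ι] [DecidableEq ι] (s m t k E : ℕ) (hm : m < 4 * 2 ^ s)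
    (ha : (m + 1) * (univ.filter (fun T : Finset (Fin m) => T.card < 2 ^ s)).card * 2 ^ (E + 1)
      < 2 ^ m)
    (h : Good ι (2 * 2 ^ s * t) k (E + 1 + 2 * m)) :
    Good ((Fin m × Fin t) ⊕ ι) (2 * 2 ^ s * t) (k + 1) E := by
  intro D hD
  set a := (m + 1) * (univ.filter (fun T : Finset (Fin m) => T.card < 2 ^ s)).card with hadef
  set fib : (Fin m × Fin t → Bool) → (ι → Bool) → Finset (Finset (Fin m)) :=
    fun z y => univ.filter (fun x => Sum.elim (blow z x) y ∈ D) with hfib
  have tot : ∑ z, ∑ y, (fib z y).card = 2 ^ m * D.card := by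
    have e1 : ∀ x : Finset (Fin m), ∑ z : Fin m × Fin t → Bool, ∑ y : ι → Bool,
        (if Sum.elim (blow z x) y ∈ D then 1 else 0) = D.card := by
      intro x
      have hinv : Function.Involutive (fun z : Fin m × Fin t → Bool => blow z x) := by
        intro z; funext p; simp [blow]
      refine (Fintype.sum_equiv hinv.toPerm _
        (fun z => ∑ y : ι → Bool, if Sum.elim z y ∈ D then 1 else 0) (fun _ => rfl)).trans ?_
      rw [← Fintype.sum_prod_type']
      refine (Fintype.sum_equiv (Equiv.sumArrowEquivProdArrow (Fin m × Fin t) ι Bool).symm _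
          (fun w => if w ∈ D then 1 else 0) (fun _ => rfl)).trans ?_
      rw [sum_boole]
      simp
    simp only [hfib, card_filter]
    rw [sum_congr rfl (fun z _ => sum_comm), sum_comm]
    simp only [e1]
    simp
  obtain ⟨z, hz⟩ : ∃ z, 2 ^ m * 2 ^ Fintype.card ι ≤ 2 ^ E * ∑ y, (fib z y).card := by
    by_contra hc
    push Not at hc
    have := sum_lt_sum_of_nonempty (s := univ) univ_nonempty (fun z _ => hc z)
    rw [← mul_sum, tot] at this
    simp only [sum_const, card_univ, Fintype.card_fun, Fintype.card_bool, smul_eq_mul] at this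
    rw [Fintype.card_sum, pow_add] at hD
    have h2 := Nat.mul_le_mul_left (2 ^ m) hD
    nlinarith
  set Y := univ.filter (fun y => a < (fib z y).card) with hY
  have hYc : 2 ^ Fintype.card ι ≤ 2 ^ (E + 1) * Y.card := by
    have b1 : ∑ y, (fib z y).card ≤ Y.card * 2 ^ m + 2 ^ Fintype.card ι * a := by
      rw [← sum_filter_add_sum_filter_not univ (fun y => a < (fib z y).card)]
      apply add_le_add
      · rw [← smul_eq_mul]
        refine sum_le_card_nsmul _ _ _ fun y _ => ?_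
        simpa using card_le_univ (fib z y)
      · refine le_trans (sum_le_card_nsmul _ _ a fun y hy => not_lt.1 (mem_filter.1 hy).2) ?_
        rw [smul_eq_mul]
        apply Nat.mul_le_mul_right
        simpa using card_le_univ (univ.filter (fun y => ¬ a < (fib z y).card))
    have b2 := hz.trans (Nat.mul_le_mul_left _ b1)
    have b3 := Nat.mul_le_mul_left (2 ^ Fintype.card ι) ha.le
    have p : 0 < 2 ^ m := by positivity
    refine Nat.le_of_mul_le_mul_left ?_ p
    rw [pow_succ] at b3 ⊢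
    nlinarith
  have hp : ∀ y ∈ Y, ∃ p : Finset (Fin m) × Finset (Fin m), p.1 ∈ fib z y ∧ p.2 ∈ fib z y ∧
      (p.1 \ p.2).card = 2 ^ s ∧ (p.2 \ p.1).card = 2 ^ s := by
    intro y hy
    obtain ⟨u, hu, v, hv, e⟩ := fw s (by simpa using hm) (fib z y)
      (by simpa using (mem_filter.1 hy).2)
    exact ⟨(u, v), hu, hv, e⟩
  choose! g hg using hp
  obtain ⟨p, hp⟩ : ∃ p, 2 ^ Fintype.card ι ≤
      2 ^ (E + 1 + 2 * m) * (Y.filter (fun y => g y = p)).card := by
    by_contra hc
    push Not at hc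
    have := sum_lt_sum_of_nonempty (s := univ) univ_nonempty (fun p _ => hc p)
    rw [← mul_sum, ← card_eq_sum_card_fiberwise (fun _ _ => mem_univ _)] at this
    simp only [sum_const, card_univ, Fintype.card_prod, Fintype.card_finset, Fintype.card_fin,
      smul_eq_mul] at this
    rw [pow_add _ (E + 1), two_mul, pow_add _ m m] at this
    have h2 := Nat.mul_le_mul_left (2 ^ m * 2 ^ m) hYc
    nlinarith
  obtain ⟨f, hf1, hf2⟩ := h _ hp
  refine ⟨fun x => Sum.elim (blow z (if x 0 then p.1 else p.2)) (f (Fin.tail x)), ?_, ?_⟩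
  · intro x
    obtain ⟨c1, c2⟩ := mem_filter.1 (hf1 (Fin.tail x))
    obtain ⟨d1, d2, _⟩ := hg _ c1
    rw [c2] at d1 d2
    dsimp only
    split_ifs
    · exact (mem_filter.1 d1).2
    · exact (mem_filter.1 d2).2
  · intro x y
    obtain ⟨c1, c2⟩ := mem_filter.1 (hf1 (Fin.tail x))
    obtain ⟨_, _, d3, d4⟩ := hg _ c1
    rw [c2] at d3 d4
    dsimp only
    rw [hd_elim, hd_succ x y, hf2, hd_blow, mul_add]
    congr 1
    cases x 0 <;> cases y 0 <;> simp [d3, d4, two_mul]

theorem good_all (k : ℕ) : ∀ s E : ℕ, 5 ≤ s → 2 * (E + 2) ≤ 2 ^ s →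
    ∃ (ι : Type) (_ : Fintype ι) (_ : DecidableEq ι), k ≤ Fintype.card ι ∧
      Fintype.card ι ≤ 4 * k * 2 ^ (s + 5 * k) ∧ Good ι (2 * 2 ^ (s + 5 * k)) k E := by
  induction k with
  | zero =>
    intro s E _ _
    refine ⟨Empty, inferInstance, inferInstance, by simp, by simp, fun D hD => ?_⟩
    have : 0 < D.card := by
      by_contra hc
      rw [Nat.eq_zero_of_not_pos hc] at hD
      simp at hD
    obtain ⟨d, hd⟩ := card_pos.1 this
    exact ⟨fun _ => d, fun _ => hd, fun x y => by simp [Subsingleton.elim x y]⟩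
  | succ k ih =>
    intro s E hs hE
    obtain ⟨s, rfl⟩ : ∃ u, s = u + 1 := ⟨s - 1, by omega⟩
    have h16 : 16 ≤ 2 ^ s := by
      calc 16 = 2 ^ 4 := rfl
        _ ≤ 2 ^ s := Nat.pow_le_pow_right (by norm_num) (by omega)
    have e0 : 2 ^ (s + 1) = 2 * 2 ^ s := by rw [pow_succ, mul_comm]
    have e1 : 2 ^ (s + 1 + 5) = 64 * 2 ^ s := by ring
    obtain ⟨ι, i1, i2, c0, c1, c2⟩ := ih (s + 1 + 5) (E + 1 + 2 * (8 * 2 ^ s - 1)) (by omega)
      (by omega)
    have e2 : s + 1 + 5 + 5 * k = s + 1 + 5 * (k + 1) := by ring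
    have e3 : 2 ^ (s + 1 + 5 * (k + 1)) = 2 ^ (s + 1) * 2 ^ (5 * (k + 1)) := pow_add _ _ _
    rw [e2] at c1 c2
    refine ⟨(Fin (8 * 2 ^ s - 1) × Fin (2 ^ (5 * (k + 1)))) ⊕ ι, inferInstance, inferInstance,
      ?_, ?_, ?_⟩
    · simp only [Fintype.card_sum, Fintype.card_prod, Fintype.card_fin]
      have : 0 < (8 * 2 ^ s - 1) * 2 ^ (5 * (k + 1)) := Nat.mul_pos (by omega) (by positivity)
      omega
    · simp only [Fintype.card_sum, Fintype.card_prod, Fintype.card_fin]
      have : (8 * 2 ^ s - 1) * 2 ^ (5 * (k + 1)) ≤ 4 * 2 ^ (s + 1 + 5 * (k + 1)) := by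
        rw [e3, ← mul_assoc]
        exact Nat.mul_le_mul_right _ (by omega)
      nlinarith
    · rw [e3, ← mul_assoc] at c2 ⊢
      refine step ι (s + 1) _ _ k E (by omega) ?_ c2
      have := small (2 ^ s) (8 * 2 ^ s - 1) h16 (by omega)
      rw [← e0] at this
      refine lt_of_lt_of_le ?_ this
      refine Nat.mul_lt_mul_of_pos_left (Nat.pow_lt_pow_right (by norm_num) (by omega)) ?_
      refine Nat.mul_pos (by omega) (card_pos.2 ⟨∅, ?_⟩)
      simp

theorem good_fin {ι : Type} [Fintype ι] [DecidableEq ι] {r k E : ℕ} (h : Good ι r k E) :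
    Good (Fin (Fintype.card ι)) r k E := by
  intro D hD
  set e := Fintype.equivFin ι
  have hinj : Function.Injective (fun d : Fin (Fintype.card ι) → Bool => d ∘ e) :=
    e.surjective.injective_comp_right
  obtain ⟨f, hf1, hf2⟩ := h (D.image (fun d => d ∘ e))
    (by rw [card_image_of_injective _ hinj]; rwa [Fintype.card_fin] at hD)
  refine ⟨fun x => f x ∘ e.symm, fun x => ?_, fun x y => ?_⟩
  · obtain ⟨d, hd, e1⟩ := mem_image.1 (hf1 x)
    dsimp only
    rw [← e1]
    convert hd using 1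
    funext i
    simp
  · rw [← hf2, hd_sum, hd_sum]
    exact Fintype.sum_equiv e.symm _ _ (fun _ => rfl)

theorem main (k : ℕ) (hk : 1 ≤ k) (δ : ℝ) (h0 : 0 < δ) (h1 : δ ≤ 1 / 2) :
    ∃ N r : ℕ, 0 < N ∧ 0 < r ∧ (N : ℝ) ≤ Real.exp (11 * k) * Real.log (1 / δ) ∧
      ∀ D : Finset (Fin N → Bool), δ * 2 ^ N ≤ D.card →
        ∃ f : (Fin k → Bool) → (Fin N → Bool), (∀ x, f x ∈ D) ∧
          ∀ x y, hammingDist (f x) (f y) = r * hammingDist x y := by
  have hl2 : (0.69 : ℝ) < Real.log 2 := lt_trans (by norm_num) Real.log_two_gt_d9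
  have h2 : (2 : ℝ) ≤ 1 / δ := by rw [le_div_iff₀ h0]; linarith
  have hL : Real.log 2 ≤ Real.log (1 / δ) := Real.log_le_log (by norm_num) h2
  set L := Real.log (1 / δ) with hLdef
  set E := ⌈L / Real.log 2⌉₊ with hE
  have hE1 : L / Real.log 2 ≤ E := Nat.le_ceil _
  have hE2 : (E : ℝ) < L / Real.log 2 + 1 := Nat.ceil_lt_add_one (div_nonneg (by linarith) (by linarith))
  have hE3 : (E : ℝ) ≤ 3 * L := by
    have : L / Real.log 2 ≤ 3 / 2 * L := by
      rw [div_le_iff₀ (by linarith)]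
      nlinarith
    linarith
  have hE4 : 1 ≤ E := by
    have : (1 : ℝ) ≤ L / Real.log 2 := by rw [le_div_iff₀ (by linarith)]; linarith
    exact_mod_cast this.trans hE1
  have hE5 : 1 / δ ≤ 2 ^ E := by
    rw [← Real.log_le_log_iff (by positivity) (by positivity), Real.log_pow]
    rwa [div_le_iff₀ (by linarith)] at hE1
  have hs1 : E < 2 ^ (Nat.log 2 E + 1) := Nat.lt_pow_succ_log_self (by norm_num) E
  have hs2 : 2 ^ Nat.log 2 E ≤ E := Nat.pow_log_le_self 2 (by omega)
  obtain ⟨ι, i1, i2, c0, c1, c2⟩ := good_all k (Nat.log 2 E + 5) E (by omega)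
    (by rw [pow_add] at hs1 ⊢; omega)
  refine ⟨Fintype.card ι, 2 * 2 ^ (Nat.log 2 E + 5 + 5 * k), by omega, by positivity, ?_, ?_⟩
  · have a1 : Fintype.card ι ≤ 128 * E * 64 ^ k := by
      refine c1.trans ?_
      have : k ≤ 2 ^ k := Nat.lt_two_pow_self.le
      rw [pow_add, pow_add, pow_mul, show 64 ^ k = 2 ^ k * 32 ^ k from mul_pow 2 32 k]
      calc 4 * k * (2 ^ Nat.log 2 E * 2 ^ 5 * (2 ^ 5) ^ k)
          = 128 * (2 ^ Nat.log 2 E * (k * 32 ^ k)) := by ring
        _ ≤ 128 * (E * (2 ^ k * 32 ^ k)) := by gcongr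
        _ = 128 * E * (2 ^ k * 32 ^ k) := by ring
    have a2 : (24576 : ℝ) ≤ Real.exp 11 := by
      have := Real.exp_one_gt_d9
      rw [show (11 : ℝ) = (11 : ℕ) * 1 by norm_num, Real.exp_nat_mul]
      calc (24576 : ℝ) ≤ 2.7 ^ 11 := by norm_num
        _ ≤ Real.exp 1 ^ 11 := by gcongr; linarith
    have a3 : (384 : ℝ) * 64 ^ k ≤ Real.exp (11 * k) := by
      rw [mul_comm (11 : ℝ), Real.exp_nat_mul]
      calc (384 : ℝ) * 64 ^ k ≤ 384 ^ k * 64 ^ k := by
            gcongr
            exact le_self_pow₀ (by norm_num) (by omega)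
        _ = 24576 ^ k := by rw [← mul_pow]; norm_num
        _ ≤ Real.exp 11 ^ k := by gcongr
    have a4 : (Fintype.card ι : ℝ) ≤ 128 * E * 64 ^ k := by exact_mod_cast a1
    have a5 : (0 : ℝ) < 64 ^ k := by positivity
    calc (Fintype.card ι : ℝ) ≤ 128 * (3 * L) * 64 ^ k := a4.trans (by gcongr)
      _ = 384 * 64 ^ k * L := by ring
      _ ≤ Real.exp (11 * k) * L := by gcongr; linarith
  · intro D hD
    refine good_fin c2 D ?_
    rw [Fintype.card_fin]
    have : (2 : ℝ) ^ Fintype.card ι ≤ 2 ^ E * D.card := by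
      rw [div_le_iff₀ h0] at hE5
      have p : (0 : ℝ) < 2 ^ Fintype.card ι := by positivity
      have p2 : (0 : ℝ) < 2 ^ E := by positivity
      nlinarith
    exact_mod_cast this

end Pool.Agent.H7.CubeEmb
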