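import Mathlib

set_option autoImplicit false

namespace Pool.Agent.H7.Heffter

/-- Solution of Heffter's difference problem: triples `(a, b a, a + b a)` for `1 ≤ a ≤ k`. -/
def Sol (n k : ℕ) (b : ℕ → ℕ) : Prop :=
  (∀ a, 1 ≤ a → a ≤ k → k < b a ∧ a + b a + k < n ∧ 3 * b a ≠ n ∧ 3 * b a ≠ 2 * n ∧
      3 * (a + b a) ≠ n ∧ 3 * (a + b a) ≠ 2 * n ∧ a + b a + b a ≠ n) ∧
  (∀ a a', 1 ≤ a → a ≤ k → 1 ≤ a' → a' ≤ k → a ≠ a' →
      b a ≠ b a' ∧ b a + b a' ≠ n ∧ b a ≠ a' + b a' ∧ b a + (a' + b a') ≠ n ∧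
      a + b a ≠ a' + b a' ∧ a + b a + (a' + b a') ≠ n)

theorem sol1 (s : ℕ) (hs : 4 ≤ s) : ∃ b, Sol (18 * s + 1) (3 * s) b := by
  refine ⟨fun a => if a % 3 = 1 then 4 * s + 1 - a / 3 else if a % 3 = 2 then 8 * s - a / 3
    else if a = 3 * s then 3 * s + 1 else 6 * s + 1 - 2 * (a / 3), ?_, ?_⟩
  · intro a h1 h2
    dsimp only
    split_ifs <;> omega
  · intro a a' h1 h2 h3 h4 h5
    dsimp only
    split_ifs <;> omega

theorem sol7 (s : ℕ) (hs : 4 ≤ s) : ∃ b, Sol (18 * s + 7) (3 * s + 1) b := by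
  refine ⟨fun a => if a % 3 = 1 then (if a = 3 * s + 1 then 4 * s + 2 else 8 * s + 3 - a / 3)
    else if a % 3 = 2 then 6 * s + 1 - 2 * (a / 3) else 4 * s + 2 - a / 3, ?_, ?_⟩
  · intro a h1 h2
    dsimp only
    split_ifs <;> omega
  · intro a a' h1 h2 h3 h4 h5
    dsimp only
    split_ifs <;> omega

theorem sol13 (s : ℕ) (hs : 4 ≤ s) : ∃ b, Sol (18 * s + 13) (3 * s + 2) b := by
  refine ⟨fun a => if a % 3 = 1 then 4 * s + 3 - a / 3
    else if a % 3 = 2 then (if a = 3 * s + 2 then 7 * s + 5 else 6 * s + 3 - 2 * (a / 3))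
    else 8 * s + 6 - a / 3, ?_, ?_⟩
  · intro a h1 h2
    dsimp only
    split_ifs <;> omega
  · intro a a' h1 h2 h3 h4 h5
    dsimp only
    split_ifs <;> omega

theorem sol3 (s : ℕ) (hs : 4 ≤ s) : ∃ b, Sol (18 * s + 3) (3 * s) b := by
  refine ⟨fun a => if a % 3 = 1 then 8 * s + 1 - a / 3
    else if a % 3 = 2 then 4 * s - a / 3 else 6 * s + 1 - 2 * (a / 3), ?_, ?_⟩
  · intro a h1 h2
    dsimp only
    split_ifs <;> omega
  · intro a a' h1 h2 h3 h4 h5
    dsimp only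
    split_ifs <;> omega

theorem sol9 (s : ℕ) (hs : 4 ≤ s) : ∃ b, Sol (18 * s + 9) (3 * s + 1) b := by
  refine ⟨fun a => if a % 3 = 1 then 4 * s + 3 - a / 3
    else if a % 3 = 2 then (if a = 2 then 8 * s + 3 else if a = 5 then 8 * s + 2
      else if a + 1 = 3 * s then 3 * s + 2 else 8 * s + 2 - a / 3)
    else (if a = 3 then 8 * s + 1 else if a = 3 * s then 7 * s + 3
      else 6 * s + 3 - 2 * (a / 3)), ?_, ?_⟩
  · intro a h1 h2
    dsimp only
    split_ifs <;> omega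
  · intro a a' h1 h2 h3 h4 h5
    dsimp only
    split_ifs <;> omega

theorem sol15 (s : ℕ) (hs : 4 ≤ s) : ∃ b, Sol (18 * s + 15) (3 * s + 2) b := by
  refine ⟨fun a => if a % 3 = 1 then 4 * s + 3 - a / 3
    else if a % 3 = 2 then 8 * s + 6 - a / 3 else 6 * s + 5 - 2 * (a / 3), ?_, ?_⟩
  · intro a h1 h2
    dsimp only
    split_ifs <;> omega
  · intro a a' h1 h2 h3 h4 h5
    dsimp only
    split_ifs <;> omega

theorem sol (n : ℕ) (hn : 72 ≤ n) (h : n % 6 = 1 ∨ n % 6 = 3) : ∃ b, Sol n (n / 6) b := by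
  have hs : 4 ≤ n / 18 := by omega
  have : n % 18 = 1 ∨ n % 18 = 7 ∨ n % 18 = 13 ∨ n % 18 = 3 ∨ n % 18 = 9 ∨ n % 18 = 15 := by
    omega
  rcases this with h | h | h | h | h | h
  · have := sol1 _ hs
    rwa [show 18 * (n / 18) + 1 = n by omega, show 3 * (n / 18) = n / 6 by omega] at this
  · have := sol7 _ hs
    rwa [show 18 * (n / 18) + 7 = n by omega, show 3 * (n / 18) + 1 = n / 6 by omega] at this
  · have := sol13 _ hs
    rwa [show 18 * (n / 18) + 13 = n by omega, show 3 * (n / 18) + 2 = n / 6 by omega] at this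
  · have := sol3 _ hs
    rwa [show 18 * (n / 18) + 3 = n by omega, show 3 * (n / 18) = n / 6 by omega] at this
  · have := sol9 _ hs
    rwa [show 18 * (n / 18) + 9 = n by omega, show 3 * (n / 18) + 1 = n / 6 by omega] at this
  · have := sol15 _ hs
    rwa [show 18 * (n / 18) + 15 = n by omega, show 3 * (n / 18) + 2 = n / 6 by omega] at this

end Pool.Agent.H7.Heffter
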