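import Mathlib
import Pool.Agent.H7.Heffter

set_option autoImplicit false

namespace Pool.Agent.H7.CyclicSTS

open Finset

section General
variable {G : Type} [AddCommGroup G]

/-- `R x y` says that `{0, x, y}` is a block. -/
structure Cyc (R : G → G → Prop) : Prop where
  tot : ∀ x, x ≠ 0 → ∃ y, R x y
  uniq : ∀ x y y', R x y → R x y' → y = y'
  ne0 : ∀ x y, x ≠ 0 → R x y → y ≠ 0 ∧ y ≠ x
  symm : ∀ x y, R x y → R y x
  neg : ∀ x y, R x y → R (-x) (y - x)

variable [Fintype G] [DecidableEq G]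

open Classical in
/-- All translates of the blocks through `0`. -/
noncomputable def blocks (R : G → G → Prop) : Finset (Finset G) :=
  univ.filter (fun b => ∃ t x y, x ≠ 0 ∧ R x y ∧ b = {t, t + x, t + y})

theorem mem_blocks (R : G → G → Prop) (b : Finset G) :
    b ∈ blocks R ↔ ∃ t x y, x ≠ 0 ∧ R x y ∧ b = {t, t + x, t + y} := by
  simp [blocks]

theorem blocks_card {R : G → G → Prop} (h : Cyc R) (b : Finset G) (hb : b ∈ blocks R) :
    b.card = 3 := by
  obtain ⟨t, x, y, hx, hR, rfl⟩ := (mem_blocks R b).1 hb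
  obtain ⟨h1, h2⟩ := h.ne0 x y hx hR
  rw [Finset.card_eq_three]
  refine ⟨t, t + x, t + y, ?_, ?_, ?_, rfl⟩
  · simpa using hx
  · simpa using h1
  · simpa using h2.symm

theorem blocks_through {R : G → G → Prop} (h : Cyc R) (b : Finset G) (hb : b ∈ blocks R)
    (u v : G) (huv : u ≠ v) (hu : u ∈ b) (hv : v ∈ b) :
    ∃ w, R (v - u) w ∧ b = {u, v, u + w} := by
  obtain ⟨t, x, y, hx, hR, rfl⟩ := (mem_blocks R b).1 hb
  have r1 := h.symm _ _ hR
  have r2 := h.neg _ _ hR
  have r3 := h.symm _ _ r2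
  have r4 := h.neg _ _ r1
  have r5 := h.symm _ _ r4
  simp only [Finset.mem_insert, Finset.mem_singleton] at hu hv
  rcases hu with rfl | rfl | rfl <;> rcases hv with rfl | rfl | rfl
  · exact absurd rfl huv
  · exact ⟨y, by simpa using hR, rfl⟩
  · refine ⟨x, by simpa using r1, ?_⟩
    ext z; simp only [Finset.mem_insert, Finset.mem_singleton]; tauto
  · refine ⟨y - x, by simpa using r2, ?_⟩
    rw [show v + x + (y - x) = v + y by abel]
    ext z; simp only [Finset.mem_insert, Finset.mem_singleton]; tauto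
  · exact absurd rfl huv
  · refine ⟨-x, by simpa using r3, ?_⟩
    rw [show t + x + -x = t by abel]
    ext z; simp only [Finset.mem_insert, Finset.mem_singleton]; tauto
  · refine ⟨x - y, by simpa using r4, ?_⟩
    rw [show v + y + (x - y) = v + x by abel]
    ext z; simp only [Finset.mem_insert, Finset.mem_singleton]; tauto
  · refine ⟨-y, by simpa using r5, ?_⟩
    rw [show t + y + -y = t by abel]
    ext z; simp only [Finset.mem_insert, Finset.mem_singleton]; tauto
  · exact absurd rfl huv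

theorem blocks_pair {R : G → G → Prop} (h : Cyc R) (u v : G) (huv : u ≠ v) :
    ∃! b : Finset G, b ∈ blocks R ∧ u ∈ b ∧ v ∈ b := by
  have h0 : v - u ≠ 0 := sub_ne_zero.2 huv.symm
  obtain ⟨w, hw⟩ := h.tot _ h0
  refine ⟨{u, v, u + w}, ⟨(mem_blocks R _).2 ⟨u, v - u, w, h0, hw, by simp⟩, by simp, by simp⟩, ?_⟩
  rintro b ⟨hb, hu, hv⟩
  obtain ⟨w', hw', rfl⟩ := blocks_through h b hb u v huv hu hv
  rw [h.uniq _ _ _ hw hw']

theorem blocks_shift (R : G → G → Prop) (c : G) (b : Finset G) (hb : b ∈ blocks R) :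
    b.image (fun x => x + c) ∈ blocks R := by
  obtain ⟨t, x, y, hx, hR, rfl⟩ := (mem_blocks R b).1 hb
  refine (mem_blocks R _).2 ⟨t + c, x, y, hx, hR, ?_⟩
  simp only [Finset.image_insert, Finset.image_singleton]
  rw [show t + x + c = t + c + x by abel, show t + y + c = t + c + y by abel]

theorem rel_of_blocks_eq {R R' : G → G → Prop} (h : Cyc R) (h' : Cyc R')
    (e : blocks R = blocks R') (x y : G) (hx : x ≠ 0) (hR : R x y) : R' x y := by
  have hb : ({0, x, y} : Finset G) ∈ blocks R' := by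
    rw [← e]
    exact (mem_blocks R _).2 ⟨0, x, y, hx, hR, by simp⟩
  obtain ⟨w, hw, hbw⟩ := blocks_through h' _ hb 0 x hx.symm (by simp) (by simp)
  obtain ⟨h1, h2⟩ := h.ne0 x y hx hR
  have : y ∈ ({0, x, 0 + w} : Finset G) := by rw [← hbw]; simp
  simp only [Finset.mem_insert, Finset.mem_singleton, zero_add] at this
  rcases this with h3 | h3 | h3
  · exact absurd h3 h1
  · exact absurd h3 h2
  · rw [h3]; simpa using hw

end General

section Family
variable {G : Type} [AddCommGroup G] {I : Type}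

/-- The six differences of the base block `{0, A, A + B}`. -/
def dd (A B : I → G) (p : I × Fin 6) : G :=
  ![A p.1, A p.1 + B p.1, -A p.1, B p.1, -(A p.1 + B p.1), -B p.1] p.2

/-- The corresponding third points. -/
def ee (A B : I → G) (p : I × Fin 6) : G :=
  ![A p.1 + B p.1, A p.1, B p.1, -A p.1, -B p.1, -(A p.1 + B p.1)] p.2

/-- Difference family (relative to the 3-torsion). -/
structure Fam (A B : I → G) : Prop where
  inj : Function.Injective (dd A B)
  tors : ∀ p, 3 • dd A B p ≠ 0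
  surj : ∀ x, 3 • x ≠ 0 → ∃ p, dd A B p = x

/-- The relation defined by a family. -/
def rel (A B : I → G) (x y : G) : Prop :=
  (3 • x = 0 ∧ y = -x) ∨ ∃ p, x = dd A B p ∧ y = ee A B p

theorem ee_eq (A B : I → G) (i : I) (j : Fin 6) :
    ee A B (i, j) = dd A B (i, ![1, 0, 3, 2, 5, 4] j) ∧
    dd A B (i, j) = ee A B (i, ![1, 0, 3, 2, 5, 4] j) := by
  fin_cases j <;> simp [dd, ee]

theorem neg_eq (A B : I → G) (i : I) (j : Fin 6) :
    -dd A B (i, j) = dd A B (i, ![2, 4, 0, 5, 1, 3] j) ∧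
    ee A B (i, j) - dd A B (i, j) = ee A B (i, ![2, 4, 0, 5, 1, 3] j) := by
  fin_cases j <;> simp [dd, ee] <;> abel

theorem Fam.cyc {A B : I → G} (h : Fam A B) : Cyc (rel A B) where
  tot x _ := by
    by_cases h3 : 3 • x = 0
    · exact ⟨-x, Or.inl ⟨h3, rfl⟩⟩
    · obtain ⟨p, hp⟩ := h.surj x h3
      exact ⟨_, Or.inr ⟨p, hp.symm, rfl⟩⟩
  uniq x y y' h1 h2 := by
    rcases h1 with ⟨h1, rfl⟩ | ⟨p, rfl, rfl⟩
    · rcases h2 with ⟨_, rfl⟩ | ⟨p, rfl, rfl⟩
      · rfl
      · exact absurd h1 (h.tors p)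
    · rcases h2 with ⟨h2, rfl⟩ | ⟨q, hq, rfl⟩
      · exact absurd h2 (h.tors p)
      · rw [h.inj hq]
  ne0 x y hx h1 := by
    rcases h1 with ⟨h1, rfl⟩ | ⟨⟨i, j⟩, rfl, rfl⟩
    · refine ⟨neg_ne_zero.2 hx, fun h2 => hx ?_⟩
      have : x = 3 • x + (-x - x) := by
        rw [show (3 : ℕ) = 1 + 1 + 1 from rfl, add_nsmul, add_nsmul, one_nsmul]; abel
      rw [this, h1, h2]; simp
    · rw [(ee_eq A B i j).1]
      refine ⟨fun h2 => h.tors _ (by rw [h2]; simp), fun h2 => ?_⟩
      have := congrArg Prod.snd (h.inj h2)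
      revert this
      fin_cases j <;> simp
  symm x y h1 := by
    rcases h1 with ⟨h1, rfl⟩ | ⟨⟨i, j⟩, rfl, rfl⟩
    · exact Or.inl ⟨by rw [smul_neg, h1, neg_zero], by simp⟩
    · exact Or.inr ⟨_, (ee_eq A B i j).1, (ee_eq A B i j).2⟩
  neg x y h1 := by
    rcases h1 with ⟨h1, rfl⟩ | ⟨⟨i, j⟩, rfl, rfl⟩
    · refine Or.inl ⟨by rw [smul_neg, h1, neg_zero], ?_⟩
      have : -x - x = - -x - 3 • x := by
        rw [show (3 : ℕ) = 1 + 1 + 1 from rfl, add_nsmul, add_nsmul, one_nsmul]; abel
      rw [this, h1, sub_zero]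
    · exact Or.inr ⟨_, (neg_eq A B i j).1, (neg_eq A B i j).2⟩

/-- Swap the two functions at the indices selected by `ε`. -/
def sw (ε : I → Bool) (A B : I → G) (i : I) : G := if ε i then B i else A i

/-- The induced permutation of the six differences. -/
def pm (c : Bool) (j : Fin 6) : Fin 6 := if c then ![3, 1, 5, 0, 4, 2] j else j

theorem pm_pm (c : Bool) (j : Fin 6) : pm c (pm c j) = j := by
  cases c <;> fin_cases j <;> rfl

theorem dd_sw (ε : I → Bool) (A B : I → G) (i : I) (j : Fin 6) :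
    dd (sw ε A B) (sw ε B A) (i, j) = dd A B (i, pm (ε i) j) := by
  cases hi : ε i
  · simp [dd, sw, pm, hi]
  · fin_cases j <;> simp [dd, sw, pm, hi, add_comm]

theorem Fam.sw {A B : I → G} (h : Fam A B) (ε : I → Bool) : Fam (sw ε A B) (sw ε B A) where
  inj := by
    rintro ⟨i, j⟩ ⟨i', j'⟩ e
    rw [dd_sw, dd_sw] at e
    have := h.inj e
    simp only [Prod.mk.injEq] at this
    obtain ⟨rfl, h2⟩ := this
    have := congrArg (pm (ε i)) h2
    rw [pm_pm, pm_pm] at this
    rw [this]
  tors := by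
    rintro ⟨i, j⟩
    rw [dd_sw]
    exact h.tors _
  surj x hx := by
    obtain ⟨⟨i, j⟩, hp⟩ := h.surj x hx
    exact ⟨(i, pm (ε i) j), by rw [dd_sw, pm_pm, hp]⟩

theorem Fam.sw_ne [Fintype G] [DecidableEq G] {A B : I → G} (h : Fam A B) (ε ε' : I → Bool)
    (i : I) (h1 : ε i = false) (h2 : ε' i = true) :
    blocks (rel (CyclicSTS.sw ε A B) (CyclicSTS.sw ε B A)) ≠
      blocks (rel (CyclicSTS.sw ε' A B) (CyclicSTS.sw ε' B A)) := by
  intro e
  have hA : A i ≠ 0 := by
    intro h0
    apply h.tors (i, 0)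
    simp [dd, h0]
  have r1 : rel (CyclicSTS.sw ε A B) (CyclicSTS.sw ε B A) (A i) (A i + B i) :=
    Or.inr ⟨(i, 0), by simp [dd, CyclicSTS.sw, h1], by simp [ee, CyclicSTS.sw, h1]⟩
  have r2 : rel (CyclicSTS.sw ε' A B) (CyclicSTS.sw ε' B A) (A i) (-B i) :=
    Or.inr ⟨(i, 3), by simp [dd, CyclicSTS.sw, h2], by simp [ee, CyclicSTS.sw, h2]⟩
  have r3 := rel_of_blocks_eq (h.sw ε).cyc (h.sw ε').cyc e _ _ hA r1
  have r4 := (h.sw ε').cyc.uniq _ _ _ r3 r2
  have : dd A B (i, 1) = dd A B (i, 5) := by simpa [dd] using r4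
  have := congrArg Prod.snd (h.inj this)
  simp at this

theorem Fam.sw_inj [Fintype G] [DecidableEq G] {A B : I → G} (h : Fam A B) :
    Function.Injective (fun ε : I → Bool =>
      blocks (rel (CyclicSTS.sw ε A B) (CyclicSTS.sw ε B A))) := by
  intro ε ε' e
  funext i
  cases h1 : ε i <;> cases h2 : ε' i
  · rfl
  · exact absurd e (h.sw_ne ε ε' i h1 h2)
  · exact absurd e.symm (h.sw_ne ε' ε i h2 h1)
  · rfl

end Family

section Numeric

theorem dvd_cases (n z : ℤ) (hn : 0 < n) (h : n ∣ z) (h1 : -(3 * n) < z) (h2 : z < 3 * n) :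
    z = -(2 * n) ∨ z = -n ∨ z = 0 ∨ z = n ∨ z = 2 * n := by
  obtain ⟨c, rfl⟩ := h
  have c1 : -3 < c := by nlinarith
  have c2 : c < 3 := by nlinarith
  interval_cases c <;> omega

/-- Integer differences. -/
def dz (a b : ℤ) (j : Fin 6) : ℤ := ![a, a + b, -a, b, -(a + b), -b] j

theorem fam_of_sol (n : ℕ) [NeZero n] (hn : n % 6 = 1 ∨ n % 6 = 3) (b : ℕ → ℕ)
    (hb : Heffter.Sol n (n / 6) b) :
    Fam (fun i : Fin (n / 6) => ((i.val + 1 : ℕ) : ZMod n))
      (fun i : Fin (n / 6) => ((b (i.val + 1) : ℕ) : ZMod n)) := by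
  have hpos : (0 : ℤ) < n := by have := NeZero.pos n; omega
  set A := (fun i : Fin (n / 6) => ((i.val + 1 : ℕ) : ZMod n)) with hA
  set B := (fun i : Fin (n / 6) => ((b (i.val + 1) : ℕ) : ZMod n)) with hB
  have hd : ∀ i j, dd A B (i, j) = ((dz (i.val + 1 : ℕ) (b (i.val + 1)) j : ℤ) : ZMod n) := by
    intro i j
    fin_cases j <;> simp [dd, dz, hA, hB]
  have hinj : Function.Injective (dd A B) := by
    rintro ⟨i, j⟩ ⟨i', j'⟩ e
    rw [hd, hd, ZMod.intCast_eq_intCast_iff_dvd_sub] at e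
    have hi := i.2
    have hi' := i'.2
    have s1 := hb.1 (i.val + 1) (by omega) (by omega)
    have s2 := hb.1 (i'.val + 1) (by omega) (by omega)
    by_cases hii : i = i'
    · subst hii
      have hc := dvd_cases n _ hpos e
      generalize b (i.val + 1) = β at *
      have : j = j' := by
        revert hc
        fin_cases j <;> fin_cases j' <;> simp [dz] <;> omega
      rw [this]
    · exfalso
      have hv : i.val + 1 ≠ i'.val + 1 := fun h => hii (Fin.ext (by omega))
      have s3 := hb.2 (i.val + 1) (i'.val + 1) (by omega) (by omega) (by omega) (by omega) hv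
      have s4 := hb.2 (i'.val + 1) (i.val + 1) (by omega) (by omega) (by omega) (by omega) hv.symm
      have hc := dvd_cases n _ hpos e
      generalize b (i.val + 1) = β at *
      generalize b (i'.val + 1) = β' at *
      revert hc
      fin_cases j <;> fin_cases j' <;> simp [dz] <;> omega
  have htors : ∀ p, 3 • dd A B p ≠ 0 := by
    rintro ⟨i, j⟩ e
    rw [hd] at e
    have e' : ((3 * dz (i.val + 1 : ℕ) (b (i.val + 1)) j : ℤ) : ZMod n) = 0 := by
      rw [← e]; simp
    rw [ZMod.intCast_zmod_eq_zero_iff_dvd] at e'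
    have hi := i.2
    have s1 := hb.1 (i.val + 1) (by omega) (by omega)
    have hc := dvd_cases n _ hpos e'
    generalize b (i.val + 1) = β at *
    revert hc
    fin_cases j <;> simp [dz] <;> omega
  refine ⟨hinj, htors, ?_⟩
  classical
  have hsub : univ.image (dd A B) ⊆ univ.filter (fun x : ZMod n => 3 • x ≠ 0) := by
    intro x hx
    obtain ⟨p, _, rfl⟩ := Finset.mem_image.1 hx
    exact Finset.mem_filter.2 ⟨mem_univ _, htors p⟩
  have hc1 : (univ.image (dd A B)).card = 6 * (n / 6) := by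
    rw [Finset.card_image_of_injective _ hinj]
    simp [mul_comm]
  have hc2 : n - 6 * (n / 6) ≤ (univ.filter (fun x : ZMod n => ¬ (3 • x ≠ 0))).card := by
    rcases hn with hn | hn
    · rw [show n - 6 * (n / 6) = 1 by omega]
      exact Finset.card_pos.2 ⟨0, by simp⟩
    · rw [show n - 6 * (n / 6) = 3 by omega]
      have h3 : 3 • (((n / 3 : ℕ)) : ZMod n) = 0 := by
        rw [nsmul_eq_mul, ← Nat.cast_mul, show 3 * (n / 3) = n by omega]
        simp
      have hne : (((n / 3 : ℕ)) : ZMod n) ≠ 0 := by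
        rw [Ne, ZMod.natCast_eq_zero_iff]
        intro hdv
        have := Nat.le_of_dvd (by omega) hdv
        omega
      set c := (((n / 3 : ℕ)) : ZMod n)
      have hcc : c ≠ -c := by
        intro h2
        apply hne
        have : c = 3 • c + (-c - c) := by
          rw [show (3 : ℕ) = 1 + 1 + 1 from rfl, add_nsmul, add_nsmul, one_nsmul]; abel
        rw [this, h3, ← h2]; simp
      have : ({0, c, -c} : Finset (ZMod n)).card = 3 :=
        Finset.card_eq_three.2 ⟨0, c, -c, hne.symm, (neg_ne_zero.2 hne).symm, hcc, rfl⟩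
      refine this.symm.le.trans ?_
      apply Finset.card_le_card
      intro x hx
      simp only [Finset.mem_insert, Finset.mem_singleton] at hx
      rcases hx with rfl | rfl | rfl
      · simp
      · simpa using h3
      · simpa using h3
  have hc3 := Finset.card_filter_add_card_filter_not (s := (univ : Finset (ZMod n)))
    (fun x : ZMod n => 3 • x ≠ 0)
  rw [Finset.card_univ, ZMod.card] at hc3
  have heq := Finset.eq_of_subset_of_card_le hsub (by omega)
  intro x hx
  have : x ∈ univ.image (dd A B) := by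
    rw [heq]; exact Finset.mem_filter.2 ⟨mem_univ _, hx⟩
  obtain ⟨p, _, hp⟩ := Finset.mem_image.1 this
  exact ⟨p, hp⟩

end Numeric

section Iso
variable {V : Type}

/-- `σ` is an isomorphism of block sets. -/
def Iso (σ : Equiv.Perm V) (B B' : Finset (Finset V)) : Prop :=
  ∀ b : Finset V, b ∈ B ↔ b.map σ.toEmbedding ∈ B'

theorem Iso.trans {σ ρ : Equiv.Perm V} {B B' B'' : Finset (Finset V)} (h : Iso σ B B')
    (h' : Iso ρ B' B'') : Iso (ρ * σ) B B'' := by
  intro b
  rw [h b, h' _, Finset.map_map]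
  rfl

theorem Iso.symm {σ : Equiv.Perm V} {B B' : Finset (Finset V)} (h : Iso σ B B') :
    Iso σ⁻¹ B' B := by
  intro b
  rw [h, Finset.map_map]
  have : (σ⁻¹ : Equiv.Perm V).toEmbedding.trans σ.toEmbedding = Function.Embedding.refl V := by
    ext x; simp
  rw [this, Finset.map_refl]

theorem Iso.unique {σ : Equiv.Perm V} {B B' B'' : Finset (Finset V)} (h : Iso σ B B')
    (h' : Iso σ B B'') : B' = B'' := by
  ext b
  rw [h.symm b, h'.symm b]

theorem class_le (n : ℕ) [NeZero n] (B0 : Finset (Finset (ZMod n)))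
    (C : Finset (Finset (Finset (ZMod n))))
    (h1 : ∀ B ∈ C, Iso (Equiv.addRight (1 : ZMod n)) B B)
    (h2 : ∀ B ∈ C, ∃ σ, Iso σ B0 B) : C.card ≤ n := by
  classical
  choose! s hs using h2
  set A : Finset (Equiv.Perm (ZMod n)) := univ.filter (fun α => Iso α B0 B0) with hA
  have memA : ∀ α, α ∈ A ↔ Iso α B0 B0 := by intro α; simp [hA]
  have hApos : 0 < A.card := Finset.card_pos.2 ⟨1, (memA 1).2 (fun b => by
    rw [show (1 : Equiv.Perm (ZMod n)).toEmbedding = Function.Embedding.refl _ from rfl,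
      Finset.map_refl])⟩
  have key : (C ×ˢ A).card ≤ (A ×ˢ (univ : Finset (ZMod n))).card := by
    apply Finset.card_le_card_of_injOn (fun p => ((s p.1 * p.2)⁻¹ *
      (Equiv.addRight (1 : ZMod n) * (s p.1 * p.2)), (s p.1 * p.2)⁻¹ 0))
    · rintro ⟨B, α⟩ hp
      obtain ⟨hB, hα⟩ := Finset.mem_product.1 hp
      have i1 : Iso (s B * α) B0 B := ((memA α).1 hα).trans (hs B hB)
      exact Finset.mem_product.2 ⟨(memA _).2 ((i1.trans (h1 B hB)).trans i1.symm), mem_univ _⟩
    · rintro ⟨B, α⟩ hp ⟨B', α'⟩ hp' e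
      obtain ⟨hB, hα⟩ := Finset.mem_product.1 hp
      obtain ⟨hB', hα'⟩ := Finset.mem_product.1 hp'
      have i1 : Iso (s B * α) B0 B := ((memA α).1 hα).trans (hs B hB)
      have i2 : Iso (s B' * α') B0 B' := ((memA α').1 hα').trans (hs B' hB')
      simp only [Prod.mk.injEq] at e
      obtain ⟨e1, e2⟩ := e
      have hσ : s B * α = s B' * α' := by
        generalize s B * α = σ at *
        generalize s B' * α' = ρ at *
        have : ∀ k : ℕ, σ⁻¹ (k : ZMod n) = ρ⁻¹ (k : ZMod n) := by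
          intro k
          induction k with
          | zero => simpa using e2
          | succ k ih =>
            have a1 := congrArg (fun f : Equiv.Perm (ZMod n) => f (σ⁻¹ (k : ZMod n))) e1
            simp only [Equiv.Perm.coe_mul, Function.comp_apply, Equiv.coe_addRight] at a1
            rw [show σ (σ⁻¹ (k : ZMod n)) = k by simp, ih,
              show ρ (ρ⁻¹ (k : ZMod n)) = k by simp] at a1
            push_cast
            exact a1
        have h3 : σ⁻¹ = ρ⁻¹ := by
          ext x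
          rw [← ZMod.natCast_zmod_val x]
          exact this _
        exact inv_injective h3
      have hBB : B = B' := i1.unique (hσ ▸ i2)
      subst hBB
      rw [mul_left_cancel hσ]
  rw [Finset.card_product, Finset.card_product, Finset.card_univ, ZMod.card, mul_comm] at key
  exact Nat.le_of_mul_le_mul_left key hApos

theorem pick (n : ℕ) [NeZero n] (M : ℕ) : ∀ S : Finset (Finset (Finset (ZMod n))),
    (∀ B ∈ S, Iso (Equiv.addRight (1 : ZMod n)) B B) → M * n ≤ S.card →
    ∃ f : Fin M → Finset (Finset (ZMod n)), (∀ i, f i ∈ S) ∧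
      ∀ i j, i ≠ j → ¬ ∃ σ, Iso σ (f i) (f j) := by
  classical
  induction M with
  | zero => intro S _ _; exact ⟨Fin.elim0, fun i => i.elim0, fun i => i.elim0⟩
  | succ M ih =>
    intro S h1 h2
    have hn := NeZero.pos n
    have hS : 0 < S.card := by nlinarith
    obtain ⟨B0, hB0⟩ := Finset.card_pos.1 hS
    have c1 := class_le n B0 (S.filter (fun B => ∃ σ, Iso σ B0 B))
      (fun B hB => h1 B (Finset.mem_filter.1 hB).1) (fun B hB => (Finset.mem_filter.1 hB).2)
    have c2 := Finset.card_filter_add_card_filter_not (s := S) (fun B => ∃ σ, Iso σ B0 B)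
    obtain ⟨f, hf1, hf2⟩ := ih (S.filter (fun B => ¬ ∃ σ, Iso σ B0 B))
      (fun B hB => h1 B (Finset.mem_filter.1 hB).1) (by rw [add_mul] at h2; omega)
    refine ⟨Fin.cons B0 f, ?_, ?_⟩
    · intro i
      refine Fin.cases ?_ (fun i => ?_) i
      · simpa using hB0
      · simpa using (Finset.mem_filter.1 (hf1 i)).1
    · intro i j
      refine Fin.cases ?_ (fun i => ?_) i <;> refine Fin.cases ?_ (fun j => ?_) j
      · intro h; exact absurd rfl h
      · intro _
        simpa using (Finset.mem_filter.1 (hf1 j)).2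
      · intro _
        rintro ⟨σ, hσ⟩
        simp only [Fin.cons_succ, Fin.cons_zero] at hσ
        exact (Finset.mem_filter.1 (hf1 i)).2 ⟨_, hσ.symm⟩
      · intro h
        simpa using hf2 i j (fun e => h (by rw [e]))

end Iso

theorem growth (M k : ℕ) (hk : 30 * M ≤ k) : M * (6 * k + 5) ≤ 2 ^ k := by
  have h1 : k / 2 < 2 ^ (k / 2) := Nat.lt_two_pow_self
  have h2 : 2 ^ (k / 2) * 2 ^ (k / 2) ≤ 2 ^ k := by
    rw [← pow_add]
    exact Nat.pow_le_pow_right (by norm_num) (by omega)
  have h3 : 15 * M ≤ k / 2 + 1 := by omega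
  have h4 : 6 * k + 5 ≤ 15 * (k / 2 + 1) := by omega
  calc M * (6 * k + 5) ≤ M * (15 * (k / 2 + 1)) := Nat.mul_le_mul_left _ h4
    _ = (15 * M) * (k / 2 + 1) := by ring
    _ ≤ (k / 2 + 1) * (k / 2 + 1) := Nat.mul_le_mul_right _ h3
    _ ≤ 2 ^ (k / 2) * 2 ^ (k / 2) := Nat.mul_le_mul h1 h1
    _ ≤ 2 ^ k := h2

theorem iso_shift {G : Type} [AddCommGroup G] [Fintype G] [DecidableEq G] (R : G → G → Prop)
    (c : G) : Iso (Equiv.addRight c) (blocks R) (blocks R) := by
  intro b
  rw [Finset.map_eq_image]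
  constructor
  · exact blocks_shift R c b
  · intro h
    have := blocks_shift R (-c) _ h
    rw [Finset.image_image] at this
    convert this using 1
    ext x
    simp

end Pool.Agent.H7.CyclicSTS
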