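import Pool.Agent.H7.FactData

set_option autoImplicit false

namespace Pool.Agent.H7.Fact

/-- Checks that `x` has exactly `k` one bits. -/
def pcN : Nat → Nat → Bool
  | 0, x => Nat.beq x 0
  | k + 1, x => !(Nat.beq x 0) && pcN k (Nat.land x (Nat.sub x 1))

/-- All ordered pairs. -/
def all2 {α : Type} (Q : α → α → Bool) : List α → Bool
  | [] => true
  | a :: l => l.all (Q a) && all2 Q l

/-- All ordered triples. -/
def all3 {α : Type} (R : α → α → α → Bool) : List α → Bool
  | [] => true
  | a :: l => all2 (R a) l && all3 R l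

/-- The triple condition. -/
def tri (a b c : Nat × Nat) : Bool :=
  !(a.1 &&& b.1 == 0) || !(a.1 &&& c.1 == 0) || !(b.1 &&& c.1 == 0) ||
    pcN 12 (a.2 &&& b.2 &&& c.2)

/-- Mask of the pair `u, v`. -/
def M (u v : Fin 14) : Nat := (tbl.getD u []).getD v 0

theorem M_symm : ∀ u v, M u v = M v u := by decide +kernel

theorem M_diag : ∀ u, M u u = 0 := by decide +kernel

theorem M_disj : ∀ u v w, v = w ∨ M u v &&& M u w = 0 := by decide +kernel

theorem M_cover : ∀ u, (List.finRange 14).foldr (fun v x => M u v ||| x) 0 = 2 ^ 15444 - 1 := by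
  decide +kernel

theorem edges_spec : ∀ u v : Fin 14, u = v ∨ (2 ^ u.val + 2 ^ v.val, M u v) ∈ edges := by
  decide +kernel

/-- Bit `i` says that matchings `i` and `i + 1` agree at `u`. -/
def eqm (u : Fin 14) : Nat := (List.finRange 14).foldr (fun v x => (M u v &&& M u v >>> 1) ||| x) 0

/-- Bit `i` says that the partner of `u` increases from matching `i` to `i + 1`. -/
def ltm (u : Fin 14) : Nat := (List.finRange 14).foldr (fun v x =>
  (List.finRange 14).foldr (fun w y => (if v < w then M u v &&& M u w >>> 1 else 0) ||| y) x) 0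

/-- Lexicographic comparison. -/
def lexm : List (Fin 14) → Nat
  | [] => 0
  | u :: us => ltm u ||| (eqm u &&& lexm us)

theorem lex_ok : lexm (List.finRange 14) = 2 ^ 15443 - 1 := by decide +kernel

theorem tri_ok : all3 tri edges = true := by decide +kernel

theorem miss : M 0 1 &&& M 2 3 &&& M 4 5 &&& M 6 7 &&& M 8 9 &&& M 10 12 = 0 := by decide +kernel

end Pool.Agent.H7.Fact
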