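import Pool.Agent.H7.FactCheck

set_option autoImplicit false

namespace Pool.Agent.H7.Fact

open Finset

theorem low_bit (x : ℕ) (hx : x ≠ 0) : ∃ j, x.testBit j = true ∧
    ∀ i, (x &&& (x - 1)).testBit i = (x.testBit i && decide (i ≠ j)) := by
  induction x using Nat.strong_induction_on with
  | _ x ih =>
    rcases Nat.mod_two_eq_zero_or_one x with h | h
    · obtain ⟨j, h1, h2⟩ := ih (x / 2) (by omega) (by omega)
      refine ⟨j + 1, by rw [Nat.testBit_succ]; exact h1, fun i => ?_⟩
      cases i with
      | zero => simp [Nat.testBit_zero, h]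
      | succ i =>
        have := h2 i
        rw [Nat.testBit_and] at this ⊢
        rw [Nat.testBit_succ, Nat.testBit_succ, show (x - 1) / 2 = x / 2 - 1 by omega, this]
        simp
    · refine ⟨0, by simp [Nat.testBit_zero, h], fun i => ?_⟩
      cases i with
      | zero =>
        rw [Nat.testBit_and, Nat.testBit_zero, Nat.testBit_zero]
        have : (x - 1) % 2 = 0 := by omega
        simp [this]
      | succ i =>
        rw [Nat.testBit_and, Nat.testBit_succ, Nat.testBit_succ,
          show (x - 1) / 2 = x / 2 by omega]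
        simp

theorem pcN_sound (N k : ℕ) : ∀ x : ℕ, pcN k x = true → (∀ i, x.testBit i = true → i < N) →
    ((range N).filter (fun i => x.testBit i = true)).card = k := by
  induction k with
  | zero =>
    intro x h _
    have : x = 0 := Nat.eq_of_beq_eq_true h
    subst this
    simp
  | succ k ih =>
    intro x h hb
    simp only [pcN, Bool.and_eq_true, Bool.not_eq_true'] at h
    have hx : x ≠ 0 := Nat.ne_of_beq_eq_false h.1
    obtain ⟨j, h1, h2⟩ := low_bit x hx
    have h3 := ih (x &&& (x - 1)) h.2 (fun i hi => hb i (by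
      rw [h2] at hi; exact (Bool.and_eq_true_iff.1 hi).1))
    have : (range N).filter (fun i => x.testBit i = true) =
        insert j ((range N).filter (fun i => (x &&& (x - 1)).testBit i = true)) := by
      ext i
      simp only [mem_filter, mem_insert, h2, Bool.and_eq_true, decide_eq_true_eq]
      constructor
      · rintro ⟨a, b⟩
        by_cases e : i = j
        · exact Or.inl e
        · exact Or.inr ⟨a, b, e⟩
      · rintro (rfl | ⟨a, b, _⟩)
        · exact ⟨mem_range.2 (hb _ h1), h1⟩
        · exact ⟨a, b⟩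
    rw [this, card_insert_of_notMem (by simp [h2]), h3]

theorem all2_sound {α : Type} (Q : α → α → Bool) (l : List α) (h : all2 Q l = true) :
    ∀ a ∈ l, ∀ b ∈ l, a ≠ b → Q a b = true ∨ Q b a = true := by
  induction l with
  | nil => simp
  | cons c l ih =>
    simp only [all2, Bool.and_eq_true, List.all_eq_true] at h
    intro a ha b hb hab
    rcases List.mem_cons.1 ha with rfl | ha' <;> rcases List.mem_cons.1 hb with rfl | hb'
    · exact absurd rfl hab
    · exact Or.inl (h.1 b hb')
    · exact Or.inr (h.1 a ha')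
    · exact ih h.2 a ha' b hb' hab

theorem all3_sound {α : Type} (R : α → α → α → Bool) (l : List α) (h : all3 R l = true) :
    ∀ a ∈ l, ∀ b ∈ l, ∀ c ∈ l, a ≠ b → a ≠ c → b ≠ c →
      (R a b c = true ∨ R a c b = true) ∨ (R b a c = true ∨ R b c a = true) ∨
      (R c a b = true ∨ R c b a = true) := by
  induction l with
  | nil => simp
  | cons d l ih =>
    simp only [all3, Bool.and_eq_true] at h
    have h1 := all2_sound _ _ h.1
    intro a ha b hb c hc hab hac hbc
    rcases List.mem_cons.1 ha with rfl | ha' <;> rcases List.mem_cons.1 hb with rfl | hb' <;>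
      rcases List.mem_cons.1 hc with rfl | hc'
    · exact absurd rfl hab
    · exact absurd rfl hab
    · exact absurd rfl hac
    · exact Or.inl (h1 b hb' c hc' hbc)
    · exact absurd rfl hbc
    · exact Or.inr (Or.inl (h1 a ha' c hc' hac))
    · exact Or.inr (Or.inr (h1 a ha' b hb' hab))
    · exact ih h.2 a ha' b hb' c hc' hab hac hbc

theorem testBit_foldr_or {α : Type} (g : α → ℕ) (l : List α) (x0 i : ℕ) :
    (l.foldr (fun v x => g v ||| x) x0).testBit i = true ↔
      (∃ v ∈ l, (g v).testBit i = true) ∨ x0.testBit i = true := by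
  induction l with
  | nil => simp
  | cons a l ih => simp [Nat.testBit_or, ih, or_assoc]

theorem testBit_foldr_and {α : Type} (g : α → ℕ) (l : List α) (x0 i : ℕ) :
    (l.foldr (fun v x => g v &&& x) x0).testBit i = true ↔
      (∀ v ∈ l, (g v).testBit i = true) ∧ x0.testBit i = true := by
  induction l with
  | nil => simp
  | cons a l ih => simp [Nat.testBit_and, ih, and_assoc]

theorem tb_of_eq {x N : ℕ} (i : ℕ) (h : x = 2 ^ N - 1) : x.testBit i = decide (i < N) := by
  subst h
  exact Nat.testBit_two_pow_sub_one N i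

theorem cover_iff (u : Fin 14) (i : ℕ) : (∃ v, (M u v).testBit i = true) ↔ i < 15444 := by
  have h1 := testBit_foldr_or (M u) (List.finRange 14) 0 i
  have h2 := tb_of_eq i (M_cover u)
  rw [h2] at h1
  simpa using h1.symm

/-- The `i`-th matching as a partner function. -/
noncomputable def f (i : ℕ) (u : Fin 14) : Fin 14 :=
  if h : ∃ v, (M u v).testBit i = true then h.choose else u

theorem f_eq_iff {i : ℕ} (hi : i < 15444) (u v : Fin 14) :
    f i u = v ↔ (M u v).testBit i = true := by
  have h := (cover_iff u i).2 hi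
  have h1 : (M u (f i u)).testBit i = true := by
    unfold f
    rw [dif_pos h]
    exact h.choose_spec
  constructor
  · rintro rfl
    exact h1
  · intro h2
    rcases M_disj u (f i u) v with e | e
    · exact e
    · have := congrArg (fun x => Nat.testBit x i) e
      simp [Nat.testBit_and, h1, h2] at this

theorem f_pm {i : ℕ} (hi : i < 15444) (u : Fin 14) : f i (f i u) = u ∧ f i u ≠ u := by
  constructor
  · rw [f_eq_iff hi, M_symm, ← f_eq_iff hi]
  · intro h
    rw [f_eq_iff hi, M_diag] at h
    simp at h

theorem lexm_sound (i : ℕ) (hi : i + 1 < 15444) (us : List (Fin 14))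
    (h : (lexm us).testBit i = true) : us.map (f i) < us.map (f (i + 1)) := by
  have sh : ∀ u v w, (M u v &&& M u w >>> 1).testBit i = true → f i u = v ∧ f (i + 1) u = w := by
    intro u v w h
    rw [Nat.testBit_and, Nat.testBit_shiftRight, Bool.and_eq_true, add_comm] at h
    exact ⟨(f_eq_iff (by omega) _ _).2 h.1, (f_eq_iff hi _ _).2 h.2⟩
  induction us with
  | nil => simp [lexm] at h
  | cons u us ih =>
    simp only [lexm, Nat.testBit_or, Nat.testBit_and, Bool.or_eq_true, Bool.and_eq_true] at h
    rw [List.map_cons, List.map_cons, List.cons_lt_cons_iff]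
    rcases h with h | ⟨h1, h2⟩
    · left
      have gen : ∀ l : List (Fin 14), (l.foldr (fun v x => (List.finRange 14).foldr
          (fun w y => (if v < w then M u v &&& M u w >>> 1 else 0) ||| y) x) 0).testBit i = true →
          f i u < f (i + 1) u := by
        intro l
        induction l with
        | nil => simp
        | cons v l ihl =>
          intro h
          rw [List.foldr_cons, testBit_foldr_or] at h
          rcases h with ⟨w, _, hw⟩ | h
          · split_ifs at hw with hvw
            · obtain ⟨a, b⟩ := sh u v w hw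
              rw [a, b]; exact hvw
            · simp at hw
          · exact ihl h
      exact gen _ h
    · right
      refine ⟨?_, ih h2⟩
      rw [eqm, testBit_foldr_or] at h1
      rcases h1 with ⟨v, _, hv⟩ | h1
      · obtain ⟨a, b⟩ := sh u v v hv
        rw [a, b]
      · simp at h1

theorem f_inj : Set.InjOn f (range 15444 : Finset ℕ) := by
  have step : ∀ i j, i < j → j < 15444 →
      (List.finRange 14).map (f i) < (List.finRange 14).map (f j) := by
    intro i j hij
    induction j, hij using Nat.le_induction with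
    | base =>
      intro h
      exact lexm_sound i h _ (by rw [lex_ok, Nat.testBit_two_pow_sub_one]; simp; omega)
    | succ j hj ih =>
      intro h
      exact lt_trans (ih (by omega))
        (lexm_sound j h _ (by rw [lex_ok, Nat.testBit_two_pow_sub_one]; simp; omega))
  intro i hi j hj e
  have hi' : i < 15444 := by simpa using hi
  have hj' : j < 15444 := by simpa using hj
  rcases lt_trichotomy i j with h | h | h
  · have := step i j h hj'
    rw [e] at this
    exact absurd this (lt_irrefl _)
  · exact h
  · have := step j i h hi'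
    rw [e] at this
    exact absurd this (lt_irrefl _)

/-- The factorisation. -/
noncomputable def D : Finset (Fin 14 → Fin 14) := (range 15444).image f

theorem D_pm : ∀ g ∈ D, ∀ u, g (g u) = u ∧ g u ≠ u := by
  intro g hg
  obtain ⟨i, hi, rfl⟩ := mem_image.1 hg
  exact f_pm (mem_range.1 hi)

theorem D_card (P : (Fin 14 → Fin 14) → Prop) [DecidablePred P] (x k : ℕ) (hx : pcN k x = true)
    (hb : ∀ i, x.testBit i = true → i < 15444)
    (h : ∀ i < 15444, P (f i) ↔ x.testBit i = true) : (D.filter P).card = k := by
  have e := pcN_sound 15444 k x hx hb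
  have hinj := f_inj
  unfold D
  generalize 15444 = N at *
  rw [filter_image, card_image_of_injOn (hinj.mono (by
    intro i hi; exact mem_coe.2 (mem_filter.1 (mem_coe.1 hi)).1)), ← e]
  congr 1
  exact filter_congr fun i hi => h i (mem_range.1 hi)

theorem D_miss : (∀ u, (![1, 0, 3, 2, 5, 4, 7, 6, 9, 8, 12, 13, 10, 11] : Fin 14 → Fin 14)
      ((![1, 0, 3, 2, 5, 4, 7, 6, 9, 8, 12, 13, 10, 11] : Fin 14 → Fin 14) u) = u ∧
      (![1, 0, 3, 2, 5, 4, 7, 6, 9, 8, 12, 13, 10, 11] : Fin 14 → Fin 14) u ≠ u) ∧
    (![1, 0, 3, 2, 5, 4, 7, 6, 9, 8, 12, 13, 10, 11] : Fin 14 → Fin 14) ∉ D := by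
  refine ⟨by decide, fun h => ?_⟩
  obtain ⟨i, hi, e⟩ := mem_image.1 h
  have hi' := mem_range.1 hi
  have := congrArg (fun x => Nat.testBit x i) miss
  simp only [Nat.testBit_and, ← Bool.not_eq_true, Nat.zero_testBit, Bool.and_eq_true,
    ← f_eq_iff hi', e] at this
  exact this (by decide)

theorem vm_disj : ∀ a b c d : Fin 14, a ≠ b → a ≠ c → a ≠ d → b ≠ c → b ≠ d → c ≠ d →
    (2 ^ a.val + 2 ^ b.val) &&& (2 ^ c.val + 2 ^ d.val) = 0 ∧
    2 ^ a.val + 2 ^ b.val ≠ 2 ^ c.val + 2 ^ d.val := by decide +kernel

theorem D_tri (a b c d e g : Fin 14) (h : [a, b, c, d, e, g].Nodup) :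
    (D.filter (fun m => m a = b ∧ m c = d ∧ m e = g)).card = 12 := by
  simp only [List.nodup_cons, List.mem_cons, List.not_mem_nil, or_false, not_or,
    List.nodup_nil, and_true, not_false_eq_true] at h
  obtain ⟨⟨h1, h2, h3, h4, h5⟩, ⟨h6, h7, h8, h9⟩, ⟨h10, h11, h12⟩, ⟨h13, h14⟩, h15⟩ := h
  obtain ⟨p1, q1⟩ := vm_disj a b c d h1 h2 h3 h6 h7 h10
  obtain ⟨p2, q2⟩ := vm_disj a b e g h1 h4 h5 h8 h9 h15
  obtain ⟨p3, q3⟩ := vm_disj c d e g h10 h11 h12 h13 h14 h15
  have key := all3_sound tri edges tri_ok _ ((edges_spec a b).resolve_left h1) _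
    ((edges_spec c d).resolve_left h10) _ ((edges_spec e g).resolve_left h15)
    (fun k => q1 (congrArg Prod.fst k)) (fun k => q2 (congrArg Prod.fst k))
    (fun k => q3 (congrArg Prod.fst k))
  have p1' := (Nat.and_comm _ _).trans p1
  have p2' := (Nat.and_comm _ _).trans p2
  have p3' := (Nat.and_comm _ _).trans p3
  simp only [tri, p1, p2, p3, p1', p2', p3', beq_self_eq_true, Bool.not_true,
    Bool.false_or] at key
  have hx : pcN 12 (M a b &&& M c d &&& M e g) = true := by
    rcases key with (k | k) | (k | k) | (k | k)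
    · exact k
    · rwa [Nat.and_assoc, Nat.and_comm (M e g), ← Nat.and_assoc] at k
    · rwa [Nat.and_comm (M c d)] at k
    · rwa [Nat.and_comm, ← Nat.and_assoc] at k
    · rwa [Nat.and_assoc, Nat.and_comm] at k
    · rwa [Nat.and_assoc, Nat.and_comm, Nat.and_comm (M c d)] at k
  refine D_card _ _ _ hx (fun i hi => ?_) (fun i hi => ?_)
  · simp only [Nat.testBit_and, Bool.and_eq_true] at hi
    exact (cover_iff e i).1 ⟨g, hi.2⟩
  · simp only [Nat.testBit_and, Bool.and_eq_true, f_eq_iff hi, and_assoc]

end Pool.Agent.H7.Fact
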