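import Pool.Agent.H7.FactCheck

set_option autoImplicit false

namespace Pool.Agent.H7.Fact

/-- Bit `i` says that matching `i` maps `u` into `l`. -/
def rowm (l : List (Fin 14)) (u : Fin 14) : Nat := l.foldr (fun v x => M u v ||| x) 0

/-- Bit `i` says that matching `i` maps `l` into `l`. -/
def setm (l : List (Fin 14)) : Nat := l.foldr (fun u x => rowm l u &&& x) (2 ^ 15444 - 1)

theorem six_ok : ((List.finRange 14).sublistsLen 6).all (fun l => pcN 180 (setm l)) = true := by
  decide +kernel

end Pool.Agent.H7.Fact
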