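import Mathlib
import Pool.Agent.H84.GirCol

set_option autoImplicit false

namespace H7.Fd
open Finset Pool.Agent.H84.GirCol

/-- signs with small one-sided discrepancy for a finite family of bounded functions -/
theorem disc {ι κ : Type*} [Fintype ι] [DecidableEq ι] (F : Finset κ) (f : κ → ι → ℝ) (m l : ℝ)
    (hl : 0 < l) (hf : ∀ k ∈ F, ∑ e, f k e ^ 2 ≤ m) :
    ∃ σ : ι → Bool, ∀ k ∈ F, ∑ e, f k e * (if σ e then 1 else -1) ≤
      Real.log F.card / l + l * m / 2 := by
  classical
  have h1 : ∀ k ∈ F, ∑ σ : ι → Bool, Real.exp (l * ∑ e, f k e * (if σ e then 1 else -1)) ≤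
      (Fintype.card (ι → Bool) : ℝ) * Real.exp (l ^ 2 * m / 2) := by
    intro k hk
    have a : ∑ σ : ι → Bool, Real.exp (l * ∑ e, f k e * (if σ e then 1 else -1)) =
        ∏ e, ∑ b : Bool, Real.exp (l * (f k e * (if b then 1 else -1))) := by
      rw [Finset.prod_univ_sum]
      simp only [Fintype.piFinset_univ, mul_sum, Real.exp_sum]
    rw [a]
    have b : ∀ e, ∑ b : Bool, Real.exp (l * (f k e * (if b then 1 else -1))) ≤
        2 * Real.exp ((l * f k e) ^ 2 / 2) := by
      intro e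
      have := Real.cosh_le_exp_half_sq (l * f k e)
      rw [Real.cosh_eq] at this
      simp only [Fintype.sum_bool, if_true, Bool.false_eq_true, if_false, mul_one, mul_neg]
      linarith
    refine (prod_le_prod (fun e _ => sum_nonneg fun _ _ => (Real.exp_pos _).le)
      (fun e _ => b e)).trans ?_
    rw [prod_mul_distrib, ← Real.exp_sum, prod_const, card_univ]
    simp only [Fintype.card_pi, Fintype.card_bool, prod_const, card_univ, Nat.cast_pow,
      Nat.cast_ofNat]
    gcongr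
    simp only [mul_pow, ← sum_div, ← mul_sum]
    have := hf k hk
    gcongr
  have h2 : ∑ σ : ι → Bool, ∑ k ∈ F, Real.exp (l * ∑ e, f k e * (if σ e then 1 else -1)) ≤
      ∑ _σ : ι → Bool, (F.card : ℝ) * Real.exp (l ^ 2 * m / 2) := by
    rw [sum_comm]
    refine (sum_le_sum h1).trans (le_of_eq ?_)
    simp only [sum_const, card_univ, nsmul_eq_mul]
    ring
  obtain ⟨σ, -, hσ⟩ := exists_le_of_sum_le univ_nonempty h2
  refine ⟨σ, fun k hk => ?_⟩
  have h3 := (single_le_sum (f := fun k => Real.exp (l * ∑ e, f k e * (if σ e then 1 else -1)))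
    (fun _ _ => (Real.exp_pos _).le) hk).trans hσ
  have hp : (0 : ℝ) < F.card := by exact_mod_cast card_pos.2 ⟨k, hk⟩
  rw [← Real.exp_log hp, ← Real.exp_add, Real.exp_le_exp] at h3
  rw [div_add' _ _ _ hl.ne', le_div_iff₀ hl]
  nlinarith

/-- large girth and large minimum degree -/
theorem exists_dense (K L : ℕ) : ∃ (n : ℕ) (U : Finset (Fin n)) (E : Finset (Fin n × Fin n)),
    U.Nonempty ∧ Gir (E : Set (Fin n × Fin n)) L ∧ (∀ e ∈ E, e.1 ∈ U ∧ e.2 ∈ U) ∧
    ∀ v ∈ U, K + 1 ≤ dg E v := by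
  classical
  obtain ⟨n, E0, -, hG, hc⟩ := exists_graph K L
  let P : Finset (Fin n) → Prop := fun U =>
    ∀ c : Fin n → Fin (K + 1), ∃ e ∈ E0, e.1 ∈ U ∧ e.2 ∈ U ∧ c e.1 = c e.2
  obtain ⟨U, hU, hmin⟩ := exists_min_image (univ.filter P) card
    ⟨univ, mem_filter.2 ⟨mem_univ _, fun c => by simpa using hc c⟩⟩
  have hP := (mem_filter.1 hU).2
  refine ⟨n, U, univ.filter fun e => e ∈ E0 ∧ e.1 ∈ U ∧ e.2 ∈ U, ?_, ?_, ?_, ?_⟩
  · obtain ⟨e, -, h, -⟩ := hP fun _ => 0
    exact ⟨_, h⟩
  · intro e he hw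
    have he' := (mem_filter.1 he).2
    refine hG e he'.1 (hw.sub ?_)
    rintro x ⟨hx, hx'⟩
    exact ⟨(mem_filter.1 hx).2.1, hx'⟩
  · intro e he
    exact (mem_filter.1 he).2.2
  · intro v hv
    by_contra hlt
    have hn : ¬ P (U.erase v) := fun h => by
      have := hmin _ (mem_filter.2 ⟨mem_univ _, h⟩)
      have := card_erase_lt_of_mem hv
      omega
    simp only [P, not_forall, not_exists, not_and] at hn
    obtain ⟨c, hc⟩ := hn
    set T := (univ.filter fun e : Fin n × Fin n => e ∈ E0 ∧ e.1 ∈ U ∧ e.2 ∈ U).filter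
      fun e => e.1 = v ∨ e.2 = v with hT
    have hcard : (T.image fun e => if e.1 = v then c e.2 else c e.1).card < Fintype.card (Fin (K + 1)) := by
      refine lt_of_le_of_lt card_image_le ?_
      simp only [Fintype.card_fin]
      exact not_le.1 hlt
    obtain ⟨j, hj⟩ : ∃ j, j ∉ T.image fun e => if e.1 = v then c e.2 else c e.1 := by
      by_contra h
      push Not at h
      rw [eq_univ_of_forall h, card_univ] at hcard
      exact lt_irrefl _ hcard
    obtain ⟨e, he, h1, h2, h3⟩ := hP (Function.update c v j)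
    have hne : e.1 ≠ e.2 := fun h => hG e he (h ▸ Wk.refl _ _)
    have hm : ∀ (_ : e.1 = v ∨ e.2 = v), e ∈ T := fun h =>
      mem_filter.2 ⟨mem_filter.2 ⟨mem_univ _, he, h1, h2⟩, h⟩
    by_cases a : e.1 = v
    · have b : e.2 ≠ v := fun b => hne (a.trans b.symm)
      rw [a, Function.update_self, Function.update_of_ne b] at h3
      exact hj (mem_image.2 ⟨e, hm (Or.inl a), by rw [if_pos a, h3]⟩)
    · by_cases b : e.2 = v
      · rw [b, Function.update_self, Function.update_of_ne a] at h3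
        exact hj (mem_image.2 ⟨e, hm (Or.inr b), by rw [if_neg a, h3]⟩)
      · rw [Function.update_of_ne a, Function.update_of_ne b] at h3
        exact hc e he (mem_erase.2 ⟨a, h1⟩) (mem_erase.2 ⟨b, h2⟩) h3

set_option linter.unusedSectionVars false

variable {V : Type} [DecidableEq V]

/-- adjacency of the mixed subdivision: `σ e = true` one new vertex, else two -/
def A (E : Finset (V × V)) (σ : V × V → Bool) :
    V ⊕ (V × V) × Bool → V ⊕ (V × V) × Bool → Prop
  | .inl _, .inl _ => False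
  | .inl v, .inr (e, b) => e ∈ E ∧ (σ e = true → b = false) ∧
      ((b = false ∧ v = e.1) ∨ (b = !σ e ∧ v = e.2))
  | .inr (e, b), .inl v => e ∈ E ∧ (σ e = true → b = false) ∧
      ((b = false ∧ v = e.1) ∨ (b = !σ e ∧ v = e.2))
  | .inr (e, b), .inr (e', b') => e ∈ E ∧ σ e = false ∧ e = e' ∧ b ≠ b'

def G0 (E : Finset (V × V)) (σ : V × V → Bool) : SimpleGraph (V ⊕ (V × V) × Bool) where
  Adj := A E σ
  symm := ⟨by
    rintro (u | ⟨e, b⟩) (v | ⟨e', b'⟩) h
    · exact h
    · exact h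
    · exact h
    · obtain ⟨h1, h2, rfl, h4⟩ := h
      exact ⟨h1, h2, rfl, h4.symm⟩⟩
  loopless := ⟨by
    rintro (u | ⟨e, b⟩) h
    · exact h
    · exact h.2.2.2 rfl⟩

def pr : V ⊕ (V × V) × Bool → V
  | .inl v => v
  | .inr (e, b) => if b then e.2 else e.1

def kap (σ : V × V → Bool) (e : V × V) : Sym2 (V ⊕ (V × V) × Bool) :=
  s(.inr (e, false), if σ e then .inl e.2 else .inr (e, true))

theorem adj_cases (E : Finset (V × V)) (σ : V × V → Bool) (u v : V ⊕ (V × V) × Bool)
    (h : (G0 E σ).Adj u v) : pr u = pr v ∨ ∃ e ∈ E, s(u, v) = kap σ e ∧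
      ((pr u, pr v) = e ∨ (pr v, pr u) = e) := by
  rcases u with u | ⟨e, b⟩ <;> rcases v with v | ⟨e', b'⟩
  · exact h.elim
  · obtain ⟨h1, h2, ⟨rfl, rfl⟩ | ⟨rfl, rfl⟩⟩ := h
    · left; rfl
    · cases hs : σ e'
      · left; simp [pr]
      · right; exact ⟨e', h1, by simp [kap, hs], Or.inr (by simp [pr])⟩
  · obtain ⟨h1, h2, ⟨rfl, rfl⟩ | ⟨rfl, rfl⟩⟩ := h
    · left; rfl
    · cases hs : σ e
      · left; simp [pr]
      · right; exact ⟨e, h1, by simp [kap, hs], Or.inl (by simp [pr])⟩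
  · obtain ⟨h1, h2, rfl, h4⟩ := h
    right
    refine ⟨e, h1, ?_, ?_⟩
    · cases b <;> cases b' <;> simp_all [kap]
    · cases b <;> cases b' <;> simp_all [pr]

theorem proj (E : Finset (V × V)) (σ : V × V → Bool) (e0 : V × V) {u v : V ⊕ (V × V) × Bool}
    (p : (G0 E σ).Walk u v) (hp : kap σ e0 ∉ p.edges) :
    Wk ((E : Set (V × V)) \ {e0}) p.length (pr u) (pr v) := by
  induction p with
  | nil => exact .refl _ _
  | cons h p ih =>
    simp only [SimpleGraph.Walk.edges_cons, List.mem_cons, not_or] at hp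
    rcases adj_cases E σ _ _ h with h1 | ⟨e, he, h1, h2⟩
    · rw [h1]; exact (ih hp.2).mono (by simp)
    · have hne : e ≠ e0 := fun a => hp.1 (by rw [h1, a])
      refine Wk.step ?_ (ih hp.2)
      rcases h2 with h2 | h2
      · left; rw [h2]; exact ⟨he, hne⟩
      · right; rw [h2]; exact ⟨he, hne⟩

theorem cyc1 (E : Finset (V × V)) (σ : V × V → Bool) (L : ℕ) (hG : Gir (E : Set (V × V)) L)
    {x : V ⊕ (V × V) × Bool} (w : (G0 E σ).Walk x x) (hw : w.IsCycle) (hx : pr x ≠ pr w.snd) :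
    L ≤ w.length := by
  cases w with
  | nil => exact absurd rfl hw.ne_nil
  | cons h p =>
    rw [SimpleGraph.Walk.snd_cons] at hx
    rcases adj_cases E σ _ _ h with h1 | ⟨e, he, h1, h2⟩
    · exact absurd h1 hx
    · have hn := ((SimpleGraph.Walk.cons_isCycle_iff p h).1 hw).2
      rw [h1] at hn
      have := proj E σ e p hn
      by_contra hlt
      simp only [SimpleGraph.Walk.length_cons] at hlt
      have := this.mono (show p.length ≤ L by omega)
      apply hG e he
      rcases h2 with h2 | h2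
      · rw [← h2]; rw [← h2] at this; exact this.symm
      · rw [← h2]; rw [← h2] at this; exact this

theorem home (E : Finset (V × V)) (σ : V × V → Bool) (hE : ∀ e ∈ E, e.1 ≠ e.2) (x : (V × V) × Bool)
    (y : V ⊕ (V × V) × Bool) (h : (G0 E σ).Adj (.inr x) y) (hp : pr (.inr x) = pr y) :
    y = .inl (pr (.inr x)) := by
  obtain ⟨e, b⟩ := x
  rcases y with v | ⟨e', b'⟩
  · rw [hp]; rfl
  · obtain ⟨h1, h2, rfl, h4⟩ := h
    have := hE e h1
    have := this.symm
    clear hE
    cases b <;> cases b' <;> simp_all [pr]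

theorem girth0 (E : Finset (V × V)) (σ : V × V → Bool) (L : ℕ) (hG : Gir (E : Set (V × V)) L)
    {a : V ⊕ (V × V) × Bool} (w : (G0 E σ).Walk a a) (hw : w.IsCycle) : L ≤ w.length := by
  have hE : ∀ e ∈ E, e.1 ≠ e.2 := fun e he h => hG e he (h ▸ Wk.refl _ _)
  have main : ∀ (x : (V × V) × Bool) (w : (G0 E σ).Walk (.inr x) (.inr x)), w.IsCycle →
      L ≤ w.length := by
    intro x w hw
    by_cases h1 : pr (.inr x) = pr w.snd
    · have h2 : pr (.inr x) ≠ pr w.reverse.snd := by
        intro h2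
        have a1 := home E σ hE x _ (w.adj_snd hw.not_nil) h1
        have a2 := home E σ hE x _ (w.reverse.adj_snd hw.reverse.not_nil) h2
        rw [SimpleGraph.Walk.snd_reverse] at a2
        exact hw.snd_ne_penultimate (a1.trans a2.symm)
      simpa using cyc1 E σ L hG _ hw.reverse h2
    · exact cyc1 E σ L hG _ hw h1
  have : ∃ x, Sum.inr x ∈ w.support := by
    have h := w.adj_snd hw.not_nil
    rcases a with v | x
    · have hs : w.snd ∈ w.support := w.getVert_mem_support 1
      generalize w.snd = y at h hs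
      rcases y with v' | y
      · exact h.elim
      · exact ⟨y, hs⟩
    · exact ⟨x, w.start_mem_support⟩
  obtain ⟨x, hx⟩ := this
  have := main x (w.rotate _ hx) (hw.rotate hx)
  rwa [SimpleGraph.Walk.length_rotate] at this

end H7.Fd
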