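import Pool.Agent.H7.FldimDefs

set_option autoImplicit false

namespace Pool.Agent.H7.Fldim

open Finset Real

/-- `x log x`. -/
noncomputable def g (x : ℝ) : ℝ := x * log x

/-- First difference. -/
noncomputable def h (x : ℝ) : ℝ := g (x + 1) - g x

/-- Second difference. -/
noncomputable def Y (d : ℕ) : ℝ := h d - h (d - 1)

theorem h_concave : ConcaveOn ℝ (Set.Ici 0) h := by
  have hd : ∀ x : ℝ, 0 < x → HasDerivAt h (log (x + 1) - log x) x := by
    intro x hx
    have h1 := (Real.hasDerivAt_mul_log (x := x + 1) (by linarith)).comp_add_const x 1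
    have h2 := Real.hasDerivAt_mul_log (x := x) hx.ne'
    have h3 := h1.sub h2
    have e : log (x + 1) - log x = log (x + 1) + 1 - (log x + 1) := by ring
    rw [e]
    exact h3
  apply AntitoneOn.concaveOn_of_deriv (convex_Ici 0)
  · have : Continuous h := (Real.continuous_mul_log.comp (continuous_add_const 1)).sub
      Real.continuous_mul_log
    exact this.continuousOn
  · intro x hx
    rw [interior_Ici] at hx
    exact (hd x hx).differentiableAt.differentiableWithinAt
  · intro x hx y hy hxy
    rw [interior_Ici] at hx hy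
    have hx' : (0 : ℝ) < x := hx
    have hy' : (0 : ℝ) < y := hy
    rw [(hd x hx).deriv, (hd y hy).deriv, ← log_div (by linarith) hx'.ne',
      ← log_div (by linarith) hy'.ne']
    apply log_le_log (by positivity)
    rw [div_le_div_iff₀ hy' hx']
    nlinarith

theorem Y_succ_le (d : ℕ) (hd : 1 ≤ d) : Y (d + 1) ≤ Y d := by
  have hd' : (1 : ℝ) ≤ d := by exact_mod_cast hd
  have := h_concave.2 (show (d : ℝ) - 1 ∈ Set.Ici 0 by simp only [Set.mem_Ici]; linarith)
    (show (d : ℝ) + 1 ∈ Set.Ici 0 by simp only [Set.mem_Ici]; linarith)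
    (show (0 : ℝ) ≤ 1 / 2 by norm_num) (show (0 : ℝ) ≤ 1 / 2 by norm_num) (by norm_num)
  simp only [smul_eq_mul] at this
  rw [show 1 / 2 * ((d : ℝ) - 1) + 1 / 2 * (d + 1) = d by ring] at this
  unfold Y
  push_cast
  rw [add_sub_cancel_right]
  linarith

theorem Y_anti (d e : ℕ) (hd : 1 ≤ d) (hde : d ≤ e) : Y e ≤ Y d := by
  induction e, hde using Nat.le_induction with
  | base => exact le_rfl
  | succ e he ih => exact (Y_succ_le e (by omega)).trans ih

theorem Y_nonneg (d : ℕ) (hd : 1 ≤ d) : 0 ≤ Y d := by
  have hd' : (1 : ℝ) ≤ d := by exact_mod_cast hd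
  have := Real.convexOn_mul_log.2
    (show (d : ℝ) - 1 ∈ Set.Ici 0 by simp only [Set.mem_Ici]; linarith)
    (show (d : ℝ) + 1 ∈ Set.Ici 0 by simp only [Set.mem_Ici]; linarith)
    (show (0 : ℝ) ≤ 1 / 2 by norm_num) (show (0 : ℝ) ≤ 1 / 2 by norm_num) (by norm_num)
  simp only [smul_eq_mul] at this
  rw [show 1 / 2 * ((d : ℝ) - 1) + 1 / 2 * (d + 1) = d by ring] at this
  unfold Y h g
  rw [sub_add_cancel]
  linarith

theorem sum_Y_le (a : ℕ) (E : Finset ℕ) : (∀ e ∈ E, a + 1 ≤ e) →
    ∑ e ∈ E, Y e ≤ h ((a + E.card : ℕ) : ℝ) - h a := by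
  induction E using Finset.induction_on_max with
  | empty => simp
  | insert z E hz ih =>
    intro hE
    have hzE : z ∉ E := fun hh => lt_irrefl _ (hz z hh)
    have h1 := ih (fun e he => hE e (mem_insert_of_mem he))
    have h2 : E.card ≤ z - (a + 1) := by
      rw [← Nat.card_Ico]
      exact card_le_card fun e he => mem_Ico.2 ⟨hE e (mem_insert_of_mem he), hz e he⟩
    have h3 := hE z (mem_insert_self _ _)
    have h4 := Y_anti (a + E.card + 1) z (by omega) (by omega)
    rw [sum_insert hzE, card_insert_of_notMem hzE]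
    unfold Y at h4 ⊢
    unfold Y at h1
    push_cast at *
    rw [add_sub_cancel_right] at h4
    rw [← add_assoc]
    linarith

theorem sep_le {t : ℕ} (c : ℕ → Fin t) (D : Finset ℕ) :
    (∀ x ∈ D, ∀ y ∈ D, x ≤ y → c x ≤ c y) →
    ∑ y ∈ D, ∑ x ∈ D with c x < c y, Y (y - x) ≤
      g D.card - ∑ i, g ((D.filter (fun x => c x = i)).card) := by
  induction D using Finset.induction_on_max with
  | empty => simp [g]
  | insert z D hz ih =>
    intro hm
    have hzD : z ∉ D := fun hh => lt_irrefl _ (hz z hh)
    have h1 := ih (fun x hx y hy => hm x (mem_insert_of_mem hx) y (mem_insert_of_mem hy))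
    have hle : ∀ x ∈ D, c x ≤ c z := fun x hx =>
      hm x (mem_insert_of_mem hx) z (mem_insert_self _ _) (hz x hx).le
    rw [sum_insert hzD, card_insert_of_notMem hzD]
    have e1 : ∑ y ∈ D, ∑ x ∈ insert z D with c x < c y, Y (y - x) =
        ∑ y ∈ D, ∑ x ∈ D with c x < c y, Y (y - x) := by
      refine sum_congr rfl fun y hy => ?_
      rw [filter_insert, if_neg (not_lt.2 (hle y hy))]
    have e2 : (insert z D).filter (fun x => c x < c z) = D.filter (fun x => c x < c z) := by
      rw [filter_insert, if_neg (lt_irrefl _)]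
    set s := (D.filter (fun x => c x = c z)).card with hs
    have e3 : ∑ i, g (((insert z D).filter (fun x => c x = i)).card) =
        ∑ i, g ((D.filter (fun x => c x = i)).card) + h s := by
      rw [← add_sum_erase _ _ (mem_univ (c z)), ← add_sum_erase univ
        (fun i => g ((D.filter (fun x => c x = i)).card)) (mem_univ (c z))]
      have : ∑ i ∈ univ.erase (c z), g (((insert z D).filter (fun x => c x = i)).card) =
          ∑ i ∈ univ.erase (c z), g ((D.filter (fun x => c x = i)).card) := by
        refine sum_congr rfl fun i hi => ?_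
        rw [filter_insert, if_neg (ne_of_mem_erase hi).symm]
      rw [this, filter_insert, if_pos rfl,
        card_insert_of_notMem (fun hh => hzD (mem_filter.1 hh).1), ← hs]
      unfold h
      push_cast
      ring
    have e4 : s + (D.filter (fun x => c x < c z)).card = D.card := by
      rw [← card_filter_add_card_filter_not (s := D) (fun x => c x = c z), hs]
      congr 2
      exact filter_congr fun x hx => ⟨fun hh => hh.ne, fun hh => lt_of_le_of_ne (hle x hx) hh⟩
    have hinj : Set.InjOn (fun x => z - x) (D.filter (fun x => c x < c z) : Set ℕ) := by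
      intro x hx y hy e
      have := hz x (mem_filter.1 hx).1
      have := hz y (mem_filter.1 hy).1
      dsimp only at e
      omega
    have e5 := sum_Y_le s ((D.filter (fun x => c x < c z)).image (fun x => z - x)) (by
      intro e he
      obtain ⟨x, hx, rfl⟩ := mem_image.1 he
      obtain ⟨hx1, hx2⟩ := mem_filter.1 hx
      have : s ≤ z - x - 1 := by
        rw [← Nat.card_Ioo]
        refine card_le_card fun u hu => mem_Ioo.2 ⟨?_, hz u (mem_filter.1 hu).1⟩
        by_contra hc
        have := hm u (mem_insert_of_mem (mem_filter.1 hu).1) x (mem_insert_of_mem hx1)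
          (not_lt.1 hc)
        rw [(mem_filter.1 hu).2] at this
        exact absurd hx2 (not_lt.2 this)
      have := hz x hx1
      omega)
    rw [sum_image hinj, card_image_of_injOn hinj, e4] at e5
    rw [e1, e2, e3]
    unfold h at e5 ⊢
    push_cast
    linarith

theorem entropy {t : ℕ} (ht : 0 < t) (s : Fin t → ℕ) :
    g ((∑ i, s i : ℕ) : ℝ) - ∑ i, g (s i) ≤ ((∑ i, s i : ℕ) : ℝ) * log t := by
  set S : ℝ := ((∑ i, s i : ℕ) : ℝ) with hS
  have ht' : (0 : ℝ) < t := by exact_mod_cast ht
  have hS0 : 0 ≤ S := Nat.cast_nonneg _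
  have key : ∀ i, (s i : ℝ) * log S - g (s i) - s i * log t ≤ S / t - s i := by
    intro i
    rcases Nat.eq_zero_or_pos (s i) with h0 | h0
    · rw [h0]; simp [g]; positivity
    · have hs : (0 : ℝ) < s i := by exact_mod_cast h0
      have hS1 : 0 < S := by
        have : s i ≤ ∑ i, s i := single_le_sum (f := s) (fun _ _ => Nat.zero_le _) (mem_univ i)
        have : (s i : ℝ) ≤ S := by rw [hS]; exact_mod_cast this
        linarith
      have h1 := Real.log_le_sub_one_of_pos (x := S / (t * s i)) (by positivity)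
      rw [log_div hS1.ne' (by positivity), log_mul ht'.ne' hs.ne'] at h1
      have h2 := mul_le_mul_of_nonneg_left h1 hs.le
      have h3 : (s i : ℝ) * (S / (t * s i) - 1) = S / t - s i := by field_simp
      unfold g
      linarith
  have := sum_le_sum (s := univ) (fun i _ => key i)
  simp only [sum_sub_distrib, ← sum_mul, sum_const, card_univ, Fintype.card_fin,
    nsmul_eq_mul] at this
  have e : ∑ i, (s i : ℝ) = S := by rw [hS]; push_cast; rfl
  rw [e, mul_div_cancel₀ _ ht'.ne'] at this
  unfold g at this ⊢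
  linarith

theorem inner_total (y : ℕ) : ∑ x ∈ range y, Y (y - x) = h y - h 0 := by
  have : ∀ y : ℕ, ∑ x ∈ range y, Y (x + 1) = h y - h 0 := by
    intro y
    induction y with
    | zero => simp
    | succ y ih =>
      rw [sum_range_succ, ih]
      unfold Y
      push_cast
      rw [add_sub_cancel_right]
      ring
  rw [← this, ← sum_range_reflect]
  refine sum_congr rfl fun x hx => ?_
  have := mem_range.1 hx
  congr 1
  omega

theorem total (m : ℕ) : ∑ y ∈ range m, ∑ x ∈ range y, Y (y - x) = g m := by
  induction m with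
  | zero => simp [g]
  | succ m ih =>
    rw [sum_range_succ, ih, inner_total]
    unfold h
    simp [g]

open Classical in
theorem pf_le {m t : ℕ} (ht : 0 < t) (f : PF m t) :
    ∑ y : Fin m, ∑ x : Fin m with Sep f x y, Y (y.val - x.val) ≤
      ((univ.filter (fun x => f.1 x ≠ none)).card : ℝ) * log t := by
  set D0 : Finset (Fin m) := univ.filter (fun x => f.1 x ≠ none) with hD0
  set c : ℕ → Fin t := fun x => if hx : x < m then (f.1 ⟨x, hx⟩).getD ⟨0, ht⟩ else ⟨0, ht⟩ with hc
  have hcv : ∀ (x : Fin m) (a : Fin t), f.1 x = some a → c x.val = a := by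
    intro x a e
    simp [hc, e]
  have hdom : ∀ x : Fin m, x ∈ D0 ↔ ∃ a, f.1 x = some a := by
    intro x
    simp [hD0, Option.ne_none_iff_exists']
  have h1 := sep_le c (D0.map Fin.valEmbedding) (by
    intro x hx y hy hxy
    obtain ⟨x, hx', rfl⟩ := mem_map.1 hx
    obtain ⟨y, hy', rfl⟩ := mem_map.1 hy
    obtain ⟨a, ha⟩ := (hdom x).1 hx'
    obtain ⟨b, hb⟩ := (hdom y).1 hy'
    simp only [Fin.valEmbedding_apply] at hxy ⊢
    rw [hcv x a ha, hcv y b hb]
    exact f.2 x y a b hxy ha hb)
  have h2 := entropy ht (fun i => ((D0.map Fin.valEmbedding).filter (fun x => c x = i)).card)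
  rw [← card_eq_sum_card_fiberwise (s := D0.map Fin.valEmbedding) (t := univ) (f := c)
    (fun _ _ => mem_univ _)] at h2
  rw [card_map] at h1 h2
  refine le_trans (le_of_eq ?_) (h1.trans h2)
  rw [sum_map, ← sum_subset (subset_univ D0)]
  · refine sum_congr rfl fun y hy => ?_
    obtain ⟨b, hb⟩ := (hdom y).1 hy
    rw [filter_map, sum_map]
    refine sum_congr ?_ fun _ _ => rfl
    ext x
    simp only [mem_filter, mem_univ, true_and, Function.comp_apply, Fin.valEmbedding_apply]
    constructor
    · rintro ⟨a, b', ha, hb', hab⟩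
      exact ⟨(hdom x).2 ⟨a, ha⟩, by rw [hcv x a ha, hcv y b' hb']; exact hab⟩
    · rintro ⟨hx, hlt⟩
      obtain ⟨a, ha⟩ := (hdom x).1 hx
      rw [hcv x a ha, hcv y b hb] at hlt
      exact ⟨a, b, ha, hb, hlt⟩
  · intro y _ hy
    refine sum_eq_zero fun x hx => ?_
    obtain ⟨a, b, _, hb, _⟩ := (mem_filter.1 hx).2
    exact absurd ((hdom y).2 ⟨b, hb⟩) hy

theorem sep_lt {m t : ℕ} (f : PF m t) (x y : Fin m) (hs : Sep f x y) : x < y := by
  obtain ⟨a, b, ha, hb, hab⟩ := hs
  by_contra hc
  exact absurd (f.2 y x b a (not_lt.1 hc) hb ha) (not_le.2 hab)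

theorem lower {m t : ℕ} (ht : 2 ≤ t) (hm : 1 ≤ m) (w : PF m t → ℝ) (hw : IsRealiser w) :
    ∃ x, logb t m ≤ localWeight w x := by
  classical
  by_contra hcon
  push Not at hcon
  have hlog : 0 < log t := log_pos (by exact_mod_cast ht)
  have hm' : (0 : ℝ) < m := by exact_mod_cast hm
  have : Nonempty (Fin m) := ⟨⟨0, hm⟩⟩
  have h1 : ∑ x, localWeight w x < m * logb t m := by
    have := sum_lt_sum_of_nonempty (s := (univ : Finset (Fin m))) univ_nonempty
      (fun x _ => hcon x)
    simpa using this
  have h2 : ∑ x, localWeight w x =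
      ∑ f, w f * ((univ.filter (fun x => f.1 x ≠ none)).card : ℝ) := by
    unfold localWeight
    simp only [sum_filter, card_filter]
    rw [sum_comm]
    refine sum_congr rfl fun f _ => ?_
    push_cast
    rw [mul_sum]
    refine sum_congr rfl fun x _ => ?_
    split_ifs <;> simp
  have h3 : g m = ∑ y : Fin m, ∑ x : Fin m with x < y, Y (y.val - x.val) := by
    rw [← total, ← Fin.sum_univ_eq_sum_range (fun y => ∑ x ∈ range y, Y (y - x))]
    refine sum_congr rfl fun y _ => ?_
    rw [sum_filter]
    have := Fin.sum_univ_eq_sum_range (fun x => if x < y.val then Y (y.val - x) else 0) m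
    simp only [Fin.lt_def]
    rw [this, ← sum_filter]
    congr 1
    ext x
    have := y.2
    simp only [mem_range, mem_filter]
    omega
  have h4 : g m ≤ ∑ f, w f * ∑ y : Fin m, ∑ x : Fin m with Sep f x y, Y (y.val - x.val) := by
    rw [h3]
    calc ∑ y : Fin m, ∑ x : Fin m with x < y, Y (y.val - x.val)
        ≤ ∑ y : Fin m, ∑ x : Fin m with x < y, (∑ f with Sep f x y, w f) * Y (y.val - x.val) := by
          refine sum_le_sum fun y _ => sum_le_sum fun x hx => ?_
          have hxy := (mem_filter.1 hx).2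
          have := Y_nonneg (y.val - x.val) (by have := Fin.lt_def.1 hxy; omega)
          nlinarith [hw.2 x y hxy]
      _ = ∑ y : Fin m, ∑ x : Fin m, ∑ f, if Sep f x y then w f * Y (y.val - x.val) else 0 := by
          refine sum_congr rfl fun y _ => ?_
          rw [sum_filter]
          refine sum_congr rfl fun x _ => ?_
          split_ifs with hxy
          · rw [sum_mul, sum_filter]
          · symm
            refine sum_eq_zero fun f _ => if_neg fun hs => hxy (sep_lt f x y hs)
      _ = ∑ f, w f * ∑ y : Fin m, ∑ x : Fin m with Sep f x y, Y (y.val - x.val) := by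
          simp only [sum_filter, mul_sum, mul_ite, mul_zero]
          rw [sum_comm (s := (univ : Finset (PF m t)))]
          refine sum_congr rfl fun y _ => ?_
          rw [sum_comm]
  have h5 : ∑ f, w f * ∑ y : Fin m, ∑ x : Fin m with Sep f x y, Y (y.val - x.val) ≤
      (∑ f, w f * ((univ.filter (fun x => f.1 x ≠ none)).card : ℝ)) * log t := by
    rw [sum_mul]
    refine sum_le_sum fun f _ => ?_
    rw [mul_assoc]
    exact mul_le_mul_of_nonneg_left (pf_le (by omega) f) (hw.1 f)
  rw [← h2] at h5
  have h6 := mul_lt_mul_of_pos_right h1 hlog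
  rw [logb, mul_assoc, div_mul_cancel₀ _ hlog.ne'] at h6
  unfold g at h4
  linarith

end Pool.Agent.H7.Fldim
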