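import Mathlib

set_option autoImplicit false

namespace Pool.Agent.H7.Fldim

/-- Monotone partially defined functions from the chain `Fin m` to the chain `Fin t`
(`none` means undefined). -/
def PF (m t : ℕ) : Type :=
  {f : Fin m → Option (Fin t) // ∀ x y a b, x ≤ y → f x = some a → f y = some b → a ≤ b}

noncomputable instance (m t : ℕ) : Fintype (PF m t) := by
  classical
  unfold PF
  infer_instance

/-- `x, y` lie in the domain of `f` and `f x < f y`. -/
def Sep {m t : ℕ} (f : PF m t) (x y : Fin m) : Prop :=
  ∃ a b, f.1 x = some a ∧ f.1 y = some b ∧ a < b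

open Classical in
/-- Fractional local `t`-realiser of the chain with `m` elements. -/
def IsRealiser {m t : ℕ} (w : PF m t → ℝ) : Prop :=
  (∀ f, 0 ≤ w f) ∧ ∀ x y : Fin m, x < y → 1 ≤ ∑ f with Sep f x y, w f

/-- Total weight of the functions defined at `x`. -/
noncomputable def localWeight {m t : ℕ} (w : PF m t → ℝ) (x : Fin m) : ℝ :=
  ∑ f with f.1 x ≠ none, w f

end Pool.Agent.H7.Fldim
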