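import Pool.Agent.H7.Fldim

set_option autoImplicit false

namespace Pool.Agent.H7.Fldim

open Finset

/-- The `j`-th digit on the block of numbers with higher digits `p`. -/
def dig (m t : ℕ) (ht : 0 < t) (j p : ℕ) : PF m t :=
  ⟨fun x => if x.val / t ^ (j + 1) = p then some ⟨x.val / t ^ j % t, Nat.mod_lt _ ht⟩ else none, by
    intro x y a b hxy ha hb
    dsimp only at ha hb
    split_ifs at ha hb with h1 h2
    obtain rfl := Option.some_injective _ ha
    obtain rfl := Option.some_injective _ hb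
    rw [Fin.mk_le_mk]
    have h3 : x.val / t ^ j ≤ y.val / t ^ j := Nat.div_le_div_right hxy
    rw [pow_succ, ← Nat.div_div_eq_div_mul] at h1 h2
    have e1 := Nat.div_add_mod (x.val / t ^ j) t
    have e2 := Nat.div_add_mod (y.val / t ^ j) t
    rw [h1] at e1
    rw [h2] at e2
    omega⟩

theorem exists_level (t k x y : ℕ) (hxy : x < y) (hy : y < t ^ k) :
    ∃ j < k, x / t ^ (j + 1) = y / t ^ (j + 1) ∧ x / t ^ j < y / t ^ j := by
  induction k with
  | zero => simp at hy; omega
  | succ k ih =>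
    classical
    have hex : ∃ i, x / t ^ i = y / t ^ i :=
      ⟨k + 1, by rw [Nat.div_eq_of_lt hy, Nat.div_eq_of_lt (hxy.trans hy)]⟩
    have h0 : Nat.find hex ≠ 0 := by
      intro h
      have := Nat.find_spec hex
      rw [h] at this
      simp at this
      omega
    obtain ⟨j, hj⟩ := Nat.exists_eq_succ_of_ne_zero h0
    have h1 : Nat.find hex ≤ k + 1 :=
      Nat.find_min' hex (by rw [Nat.div_eq_of_lt hy, Nat.div_eq_of_lt (hxy.trans hy)])
    refine ⟨j, by omega, ?_, ?_⟩
    · have := Nat.find_spec hex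
      rwa [hj] at this
    · exact lt_of_le_of_ne (Nat.div_le_div_right hxy.le) (Nat.find_min hex (by omega))

theorem upper {m t : ℕ} (ht : 2 ≤ t) (k : ℕ) (hm : m ≤ t ^ k) :
    ∃ w : PF m t → ℝ, IsRealiser w ∧ ∀ x, localWeight w x ≤ k := by
  classical
  have ht0 : 0 < t := by omega
  set I : Finset (ℕ × ℕ) := range k ×ˢ range m with hI
  have key : ∀ (P : PF m t → Prop) [DecidablePred P],
      ∑ f with P f, ((I.filter (fun q => dig m t ht0 q.1 q.2 = f)).card : ℝ) =
        ((I.filter (fun q => P (dig m t ht0 q.1 q.2))).card : ℝ) := by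
    intro P _
    rw [card_eq_sum_card_fiberwise (s := I.filter (fun q => P (dig m t ht0 q.1 q.2)))
      (t := univ.filter P) (f := fun q => dig m t ht0 q.1 q.2)
      (fun q hq => mem_filter.2 ⟨mem_univ _, (mem_filter.1 hq).2⟩)]
    push_cast
    refine sum_congr rfl fun f hf => ?_
    congr 2
    ext q
    simp only [mem_filter]
    constructor
    · rintro ⟨h1, h2⟩
      exact ⟨⟨h1, h2 ▸ (mem_filter.1 hf).2⟩, h2⟩
    · rintro ⟨⟨h1, _⟩, h2⟩
      exact ⟨h1, h2⟩
  refine ⟨fun f => ((I.filter (fun q => dig m t ht0 q.1 q.2 = f)).card : ℝ),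
    ⟨fun f => Nat.cast_nonneg _, fun x y hxy => ?_⟩, fun x => ?_⟩
  · rw [key (fun f => Sep f x y)]
    obtain ⟨j, hj, h1, h2⟩ := exists_level t k x.val y.val hxy (lt_of_lt_of_le y.2 hm)
    have : 0 < (I.filter (fun q => Sep (dig m t ht0 q.1 q.2) x y)).card := by
      refine card_pos.2 ⟨(j, y.val / t ^ (j + 1)), mem_filter.2 ⟨mem_product.2
        ⟨mem_range.2 hj, mem_range.2 (lt_of_le_of_lt (Nat.div_le_self _ _) y.2)⟩, ?_⟩⟩
      refine ⟨⟨x.val / t ^ j % t, Nat.mod_lt _ ht0⟩, ⟨y.val / t ^ j % t, Nat.mod_lt _ ht0⟩,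
        by simp [dig, h1], by simp [dig], ?_⟩
      rw [Fin.mk_lt_mk]
      rw [pow_succ, ← Nat.div_div_eq_div_mul, ← Nat.div_div_eq_div_mul] at h1
      have e1 := Nat.div_add_mod (x.val / t ^ j) t
      have e2 := Nat.div_add_mod (y.val / t ^ j) t
      rw [h1] at e1
      omega
    exact_mod_cast this
  · unfold localWeight
    rw [key (fun f => f.1 x ≠ none)]
    have : (I.filter (fun q => (dig m t ht0 q.1 q.2).1 x ≠ none)).card ≤ (range k).card := by
      refine card_le_card_of_injOn Prod.fst (fun q hq => (mem_product.1 (mem_filter.1 hq).1).1) ?_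
      have aux : ∀ q : ℕ × ℕ, (dig m t ht0 q.1 q.2).1 x ≠ none → x.val / t ^ (q.1 + 1) = q.2 := by
        intro q hq
        by_contra hc
        exact hq (by simp [dig, hc])
      intro q hq q' hq' e
      have a1 := aux q (mem_filter.1 hq).2
      have a2 := aux q' (mem_filter.1 hq').2
      exact Prod.ext e (by rw [← a1, ← a2, e])
    rw [card_range] at this
    exact_mod_cast this

end Pool.Agent.H7.Fldim
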