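import Mathlib

set_option autoImplicit false

namespace Pool.Agent.H7.Flip

open Finset

/-- Goodman-type local bound. -/
theorem loc {V : Type} [Fintype V] (h : V → V → ℝ) (β : V → ℝ) (a : ℝ)
    (hs : ∀ x y, h x y = h y x) (h0 : ∀ x y, 0 ≤ h x y) (h1 : ∀ x y, h x y ≤ 1)
    (hβ : ∀ x, 0 ≤ β x) (ha : ∑ x, β x = a) :
    a * ∑ x, ∑ y, β x * β y * h x y - ∑ x, ∑ y, ∑ z, β x * β y * β z * (h x y * h x z * h y z)
      ≤ a ^ 3 / 2 := by
  obtain ⟨D, hD⟩ : ∃ D : V → ℝ, D = fun x => ∑ y, β y * h x y := ⟨_, rfl⟩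
  have hD' : ∀ x, ∑ y, β y * h x y = D x := fun x => by rw [hD]
  have e1 : ∑ x, ∑ y, β x * β y * h x y = ∑ x, β x * D x :=
    sum_congr rfl fun x _ => by rw [← hD', mul_sum]; exact sum_congr rfl fun y _ => by ring
  have e2 : ∑ x, ∑ y, β x * β y * h x y * D x = ∑ x, β x * D x ^ 2 :=
    sum_congr rfl fun x _ => by
      rw [sq, ← mul_assoc, ← hD' x, mul_sum]
      conv_rhs => rw [hD']
      exact sum_congr rfl fun y _ => by rw [hD']; ring
  have e3 : ∑ x, ∑ y, β x * β y * h x y * D y = ∑ x, β x * D x ^ 2 := by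
    rw [sum_comm, ← e2]
    exact sum_congr rfl fun x _ => sum_congr rfl fun y _ => by rw [hs y x]; ring
  have e4 : ∑ x, ∑ y, β x * β y * h x y * (D x + D y - a) ≤
      ∑ x, ∑ y, ∑ z, β x * β y * β z * (h x y * h x z * h y z) := by
    refine sum_le_sum fun x _ => sum_le_sum fun y _ => ?_
    rw [← hD', ← hD', ← ha, ← sum_add_distrib, ← sum_sub_distrib, mul_sum]
    refine sum_le_sum fun z _ => ?_
    have p1 : 0 ≤ β x * β y * β z * h x y :=
      mul_nonneg (mul_nonneg (mul_nonneg (hβ x) (hβ y)) (hβ z)) (h0 x y)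
    have p2 : 0 ≤ (1 - h x z) * (1 - h y z) :=
      mul_nonneg (sub_nonneg.2 (h1 x z)) (sub_nonneg.2 (h1 y z))
    nlinarith [mul_nonneg p1 p2]
  have e5 : ∑ x, ∑ y, β x * β y * h x y * (D x + D y - a) =
      2 * ∑ x, β x * D x ^ 2 - a * ∑ x, β x * D x := by
    rw [two_mul, ← e1]
    nth_rewrite 1 [← e2]
    rw [← e3, mul_sum, ← sum_add_distrib, ← sum_sub_distrib]
    refine sum_congr rfl fun x _ => ?_
    rw [mul_sum, ← sum_add_distrib, ← sum_sub_distrib]
    exact sum_congr rfl fun y _ => by ring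
  have e6 : a * ∑ x, β x * D x - ∑ x, β x * D x ^ 2 ≤ a ^ 3 / 4 := by
    rw [mul_sum, ← sum_sub_distrib, show a ^ 3 / 4 = ∑ x, β x * (a ^ 2 / 4) by
      rw [← sum_mul, ha]; ring]
    refine sum_le_sum fun x _ => ?_
    nlinarith [mul_nonneg (hβ x) (sq_nonneg (D x - a / 2))]
  rw [e1]; linarith

def T {V : Type} [Fintype V] (p q r : V → V → ℝ) : ℝ := ∑ v, ∑ x, ∑ y, p v x * q v y * r x y

theorem T_sw {V : Type} [Fintype V] (p q r : V → V → ℝ) (hr : ∀ x y, r x y = r y x) :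
    T p q r = T q p r := by
  unfold T
  refine sum_congr rfl fun v _ => ?_
  rw [sum_comm]
  exact sum_congr rfl fun x _ => sum_congr rfl fun y _ => by rw [hr y x]; ring

theorem T_sw' {V : Type} [Fintype V] (p q r : V → V → ℝ) (hp : ∀ x y, p x y = p y x) :
    T p q r = T p r q := by
  unfold T
  rw [sum_comm]
  exact sum_congr rfl fun x _ => sum_congr rfl fun v _ => sum_congr rfl fun y _ => by
    rw [hp v x]; ring

theorem glob {V : Type} [Fintype V] (b h : V → V → ℝ) (a : ℝ) (ha0 : 0 < a)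
    (bs : ∀ x y, b x y = b y x) (hs : ∀ x y, h x y = h y x) (b0 : ∀ x y, 0 ≤ b x y)
    (h0 : ∀ x y, 0 ≤ h x y) (h1 : ∀ x y, b x y + h x y ≤ 1) (ha : ∀ v, ∑ x, b v x = a) :
    2 * T (b + h) (b + h) b - T (b + h) (b + h) h ≤ Fintype.card V * (5 / 2 * a ^ 2) := by
  have ex : ∀ r : V → V → ℝ, T (b + h) (b + h) r = T b b r + T b h r + T h b r + T h h r := by
    intro r
    unfold T
    simp only [← sum_add_distrib, Pi.add_apply]
    exact sum_congr rfl fun v _ => sum_congr rfl fun x _ => sum_congr rfl fun y _ => by ring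
  have s1 : T b h b = T b b h := T_sw' b h b bs
  have s2 : T h b b = T b h b := T_sw h b b bs
  have s3 : T h b h = T b h h := T_sw h b h hs
  have s4 : T h h b = T h b h := T_sw' h h b hs
  have c1 : T b b b + T b b h ≤ Fintype.card V * a ^ 2 := by
    unfold T
    rw [← sum_add_distrib, ← card_univ, ← nsmul_eq_mul]
    refine sum_le_card_nsmul _ _ _ fun v _ => ?_
    rw [sq]
    nth_rewrite 1 [← ha v]
    rw [← ha v, sum_mul_sum, ← sum_add_distrib]
    refine sum_le_sum fun x _ => ?_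
    rw [← sum_add_distrib]
    refine sum_le_sum fun y _ => ?_
    nlinarith [mul_nonneg (mul_nonneg (b0 v x) (b0 v y)) (sub_nonneg.2 (h1 x y))]
  have hb1 : ∀ x y, b x y ≤ 1 := fun x y => by linarith [h1 x y, h0 x y]
  have hh1 : ∀ x y, h x y ≤ 1 := fun x y => by linarith [h1 x y, b0 x y]
  have c2 : ∑ w, ∑ x, ∑ y, ∑ z, b w x * b w y * b w z * (h x y * h x z * h y z) ≤ a * T h h h := by
    unfold T
    rw [sum_comm, mul_sum]
    refine sum_le_sum fun x _ => ?_
    rw [sum_comm, mul_sum]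
    refine sum_le_sum fun y _ => ?_
    rw [sum_comm, mul_sum]
    refine sum_le_sum fun z _ => ?_
    rw [← sum_mul, ← ha x]
    refine mul_le_mul_of_nonneg_right (sum_le_sum fun w _ => ?_)
      (mul_nonneg (mul_nonneg (h0 _ _) (h0 _ _)) (h0 _ _))
    rw [bs x w, mul_assoc]
    exact mul_le_of_le_one_right (b0 _ _) (mul_le_one₀ (hb1 _ _) (b0 _ _) (hb1 _ _))
  have c3 : a * T b b h - ∑ w, ∑ x, ∑ y, ∑ z, b w x * b w y * b w z * (h x y * h x z * h y z)
      ≤ Fintype.card V * (a ^ 3 / 2) := by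
    unfold T
    rw [mul_sum, ← sum_sub_distrib, ← card_univ, ← nsmul_eq_mul]
    exact sum_le_card_nsmul _ _ _ fun w _ => loc h (b w) a hs h0 hh1 (b0 w) (ha w)
  have c4 : T b b h - T h h h ≤ Fintype.card V * (a ^ 2 / 2) := by
    refine le_of_mul_le_mul_left ?_ ha0
    nlinarith
  rw [ex, ex]
  linarith

end Pool.Agent.H7.Flip
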