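import Mathlib

set_option autoImplicit false

namespace Pool.Agent.H7.Flip

open Finset Function

abbrev X (r : ℕ) := (Fin (r + 1) → Fin (r + 1)) × Fin (r + 1)

def near {r : ℕ} (x y : X r) : Prop :=
  (∀ k, k ≠ x.2 → x.1 k = y.1 k) ∨ (∀ k, k ≠ y.2 → x.1 k = y.1 k)

def bee {r : ℕ} (x y : X r) : Prop := x.1 = y.1 ∨ (x.2 = y.2 ∧ ∀ k, k ≠ x.2 → x.1 k = y.1 k)

instance {r : ℕ} (x y : X r) : Decidable (near x y) := by unfold near; infer_instance
instance {r : ℕ} (x y : X r) : Decidable (bee x y) := by unfold bee; infer_instance

theorem near_symm {r : ℕ} {x y : X r} (h : near x y) : near y x :=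
  h.elim (fun h => Or.inr fun k hk => (h k hk).symm) fun h => Or.inl fun k hk => (h k hk).symm

theorem bee_symm {r : ℕ} {x y : X r} (h : bee x y) : bee y x :=
  h.elim (fun h => Or.inl h.symm) fun h => Or.inr ⟨h.1.symm, fun k hk => (h.2 k (h.1 ▸ hk)).symm⟩

theorem bee_near {r : ℕ} {x y : X r} (h : bee x y) : near x y :=
  h.elim (fun h => Or.inl fun k _ => congrFun h k) fun h => Or.inl h.2

theorem bee_rfl {r : ℕ} (x : X r) : bee x x := Or.inl rfl

theorem sum_near {r : ℕ} (u : Fin (r + 1) → Fin (r + 1)) (i : Fin (r + 1)) (F : X r → ℕ) :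
    ∑ x, (if near (u, i) x then F x else 0) = ∑ c, ∑ j, F (update u i c, j) +
      ∑ j, ∑ c, if j = i ∨ c = u j then 0 else F (update u j c, j) := by
  have e1 : ∀ j, ∑ w : Fin (r + 1) → Fin (r + 1), (if ∀ k, k ≠ i → u k = w k then F (w, j) else 0)
      = ∑ c, F (update u i c, j) := by
    intro j
    rw [← sum_filter]
    symm
    refine sum_bij (fun c _ => update u i c) (fun c _ => ?_) (fun c _ d _ h => ?_) (fun w hw => ?_)
      fun _ _ => rfl
    · simp only [mem_filter, mem_univ, true_and]
      intro k hk; rw [update_of_ne hk]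
    · simpa using congrFun h i
    · refine ⟨w i, mem_univ _, funext fun k => ?_⟩
      by_cases hk : k = i
      · subst hk; simp
      · rw [update_of_ne hk]; exact (mem_filter.1 hw).2 k hk
  have e2 : ∀ j, ∑ w : Fin (r + 1) → Fin (r + 1),
      (if ¬ (∀ k, k ≠ i → u k = w k) ∧ ∀ k, k ≠ j → u k = w k then F (w, j) else 0)
      = ∑ c, if j = i ∨ c = u j then 0 else F (update u j c, j) := by
    intro j
    rw [← sum_filter]
    simp only [← ite_not (j = i ∨ _), ← sum_filter]
    symm
    refine sum_bij (fun c _ => update u j c) (fun c hc => ?_) (fun c _ d _ h => ?_) (fun w hw => ?_)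
      fun _ _ => rfl
    · simp only [mem_filter, mem_univ, true_and, not_or] at hc ⊢
      refine ⟨fun h => hc.2 ?_, fun k hk => by rw [update_of_ne hk]⟩
      simpa using (h j hc.1).symm
    · simpa using congrFun h j
    · simp only [mem_filter, mem_univ, true_and, not_or] at hw ⊢
      refine ⟨w j, ⟨fun h => hw.1 (h ▸ hw.2), fun h => hw.1 fun k _ => ?_⟩, funext fun k => ?_⟩
      · by_cases hk : k = j
        · rw [hk, h]
        · exact hw.2 k hk
      · by_cases hk : k = j
        · subst hk; simp
        · rw [update_of_ne hk]; exact hw.2 k hk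
  rw [Fintype.sum_prod_type_right, sum_comm (f := fun c j => F (update u i c, j)), ← sum_add_distrib]
  refine sum_congr rfl fun j _ => ?_
  rw [← e1, ← e2, ← sum_add_distrib]
  refine sum_congr rfl fun w _ => ?_
  have : near (u, i) (w, j) ↔ (∀ k, k ≠ i → u k = w k) ∨ ∀ k, k ≠ j → u k = w k := Iff.rfl
  simp only [this]
  split_ifs <;> first | rfl | (exfalso; tauto) | simp

variable {r : ℕ} (u : Fin (r + 1) → Fin (r + 1)) (i : Fin (r + 1))

theorem agree (c c' j : Fin (r + 1)) :
    (∀ k, k ≠ j → update u i c k = update u i c' k) ↔ c = c' ∨ j = i := by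
  constructor
  · intro h
    by_contra hn
    push Not at hn
    exact hn.1 (by simpa using h i (Ne.symm hn.2))
  · rintro (rfl | rfl) k hk
    · rfl
    · rw [update_of_ne hk, update_of_ne hk]

theorem nAA (c c' j j' : Fin (r + 1)) :
    near (update u i c, j) (update u i c', j') ↔ c = c' ∨ j = i ∨ j' = i := by
  unfold near; simp only [agree]; tauto

theorem bAA (c c' j j' : Fin (r + 1)) :
    bee (update u i c, j) (update u i c', j') ↔ c = c' ∨ (j = i ∧ j' = i) := by
  unfold bee
  simp only [agree, (update_injective u i).eq_iff]
  constructor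
  · rintro (h | ⟨rfl, h | h⟩) <;> tauto
  · rintro (h | ⟨rfl, rfl⟩) <;> tauto

theorem agree2 {c c' j' : Fin (r + 1)} (j : Fin (r + 1)) (h1 : j' ≠ i) (h2 : c' ≠ u j') :
    (∀ k, k ≠ j → update u i c k = update u j' c' k) ↔ c = u i ∧ j = j' := by
  constructor
  · intro h
    have : j = j' := by
      by_contra hn
      have := h j' (Ne.symm hn)
      rw [update_of_ne h1, update_self] at this
      exact h2 this.symm
    subst this
    have := h i h1.symm
    rw [update_of_ne h1.symm, update_self] at this
    exact ⟨this, rfl⟩
  · rintro ⟨rfl, rfl⟩ k hk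
    rw [update_of_ne hk, update_eq_self]

theorem nAG {c c' j j' : Fin (r + 1)} (h1 : j' ≠ i) (h2 : c' ≠ u j') :
    near (update u i c, j) (update u j' c', j') ↔ c = u i := by
  unfold near; simp only [agree2 u i _ h1 h2]; tauto

theorem bAG {c c' j j' : Fin (r + 1)} (h1 : j' ≠ i) (h2 : c' ≠ u j') :
    bee (update u i c, j) (update u j' c', j') ↔ c = u i ∧ j = j' := by
  unfold bee
  simp only [agree2 u i _ h1 h2]
  have : update u i c ≠ update u j' c' := fun h => h2 (by
    have := congrFun h j'
    rw [update_of_ne h1, update_self] at this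
    exact this.symm)
  tauto

theorem bGG {c c' j j' : Fin (r + 1)} (h1 : c ≠ u j) (h2 : c' ≠ u j') :
    (bee (update u j c, j) (update u j' c', j') ↔ j = j') ∧
      (near (update u j c, j) (update u j' c', j') ↔ j = j') := by
  by_cases h : j = j'
  · subst h; simp [nAA, bAA]
  · have := nAG u j (c := c) (j := j) (Ne.symm h) h2
    have := bAG u j (c := c) (j := j) (Ne.symm h) h2
    tauto

theorem piv (p : Fin (r + 1)) (a b : ℕ) : ∑ j, (if j = p then a else b) = a + r * b := by
  rw [sum_ite, sum_const, sum_const, filter_eq', filter_ne']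
  simp [card_erase_of_mem]

theorem piv' (p : Fin (r + 1)) (a b : ℕ) : ∑ j, (if p = j then a else b) = a + r * b := by
  simp only [eq_comm (a := p), piv]

/-- one-step sums -/
theorem deg (v : X r) (a b : ℕ) :
    ∑ x, (if near v x then (if bee v x then a else b) else 0) = (2 * r + 1) * a + 2 * r ^ 2 * b := by
  obtain ⟨u, i⟩ := v
  rw [sum_near]
  have e1 : ∀ c j, (if bee (u, i) (update u i c, j) then a else b) =
      if c = u i then a else if j = i then a else b := by
    intro c j
    have := bAA u i (u i) c i j
    rw [update_eq_self] at this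
    simp only [this]
    by_cases h1 : c = u i <;> by_cases h2 : j = i <;> simp [h1, h2, eq_comm]
  have e2 : ∀ j c, (if j = i ∨ c = u j then 0 else if bee (u, i) (update u j c, j) then a else b) =
      if j = i then 0 else if c = u j then 0 else b := by
    intro j c
    by_cases h1 : j = i
    · simp [h1]
    by_cases h2 : c = u j
    · simp [h2]
    have := bAG u i (c := u i) (j := i) h1 h2
    rw [update_eq_self] at this
    simp [h1, h2, this, Ne.symm h1]
  simp only [e1, e2, sum_ite_irrel, piv, sum_const, card_univ, Fintype.card_fin, smul_eq_mul]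
  ring

/-- two-step sums -/
theorem two (v : X r) (a b : ℕ) :
    ∑ x, (if near v x then ∑ y, (if near v y then
      (if near x y then (if bee x y then a else b) else 0) else 0) else 0) =
      (2 * r ^ 3 + 6 * r ^ 2 + 4 * r + 1) * a + (4 * r ^ 3 + 2 * r ^ 2) * b := by
  obtain ⟨u, i⟩ := v
  simp only [sum_near]
  have e1 : ∀ c j c' j', (if near (update u i c, j) (update u i c', j') then
      (if bee (update u i c, j) (update u i c', j') then a else b) else 0) =
      if c = c' then a else if j = i then (if j' = i then a else b) else if j' = i then b else 0 := by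
    intro c j c' j'
    simp only [nAA, bAA]
    by_cases h1 : c = c' <;> by_cases h2 : j = i <;> by_cases h3 : j' = i <;> simp [h1, h2, h3]
  have e2 : ∀ c j j' c', (if j' = i ∨ c' = u j' then 0 else
      if near (update u i c, j) (update u j' c', j') then
      (if bee (update u i c, j) (update u j' c', j') then a else b) else 0) =
      if c = u i then (if j' = i then 0 else if c' = u j' then 0 else if j = j' then a else b)
      else 0 := by
    intro c j j' c'
    by_cases h1 : j' = i
    · simp [h1]
    by_cases h2 : c' = u j'
    · simp [h2]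
    simp only [nAG u i h1 h2, bAG u i h1 h2]
    by_cases h3 : c = u i <;> simp [h1, h2, h3]
  have e3 : ∀ j c, (if j = i ∨ c = u j then 0 else
      (∑ c', ∑ j', (if near (update u j c, j) (update u i c', j') then
      (if bee (update u j c, j) (update u i c', j') then a else b) else 0)) +
      ∑ j', ∑ c', if j' = i ∨ c' = u j' then 0 else
      if near (update u j c, j) (update u j' c', j') then
      (if bee (update u j c, j) (update u j' c', j') then a else b) else 0) =
      if j = i then 0 else if c = u j then 0 else a + r * b + r * a := by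
    intro j c
    by_cases h1 : j = i
    · simp [h1]
    by_cases h2 : c = u j
    · simp [h2]
    rw [if_neg (by tauto), if_neg h1, if_neg h2]
    have f1 : ∀ c' j', (if near (update u j c, j) (update u i c', j') then
        (if bee (update u j c, j) (update u i c', j') then a else b) else 0) =
        if c' = u i then (if j' = j then a else b) else 0 := by
      intro c' j'
      have p1 : near (update u j c, j) (update u i c', j') ↔ c' = u i :=
        ⟨fun h => (nAG u i h1 h2).1 (near_symm h), fun h => near_symm ((nAG u i h1 h2).2 h)⟩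
      have p2 : bee (update u j c, j) (update u i c', j') ↔ c' = u i ∧ j' = j :=
        ⟨fun h => (bAG u i h1 h2).1 (bee_symm h), fun h => bee_symm ((bAG u i h1 h2).2 h)⟩
      simp only [p1, p2]
      by_cases h3 : c' = u i <;> simp [h3]
    have f2 : ∀ j' c', (if j' = i ∨ c' = u j' then 0 else
        if near (update u j c, j) (update u j' c', j') then
        (if bee (update u j c, j) (update u j' c', j') then a else b) else 0) =
        if j' = j then (if c' = u j' then 0 else a) else 0 := by
      intro j' c'
      by_cases h4 : c' = u j'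
      · simp [h4]
      simp only [(bGG u h2 h4).1, (bGG u h2 h4).2]
      by_cases h3 : j' = j
      · simp [h3, h1, h3 ▸ h4]
      · simp [h3, Ne.symm h3]
    simp only [f1, f2, sum_ite_irrel, piv, sum_const_zero]
    ring
  have e4 : ∀ j, ∑ j', (if j' = i then 0 else r * if j = j' then a else b) =
      if j = i then r * r * b else r * a + r * r * b - r * b := by
    intro j
    by_cases h : j = i
    · subst h
      rw [if_pos rfl, mul_comm r r, mul_assoc, ← zero_add (r * (r * b)), ← piv j]
      exact sum_congr rfl fun j' _ => by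
        by_cases h : j' = j
        · simp [h]
        · simp [h, Ne.symm h]
    · rw [if_neg h]
      refine Nat.eq_sub_of_add_eq ?_
      have p1 := piv' j (r * a) (r * b)
      have p2 := piv i (r * b) 0
      rw [mul_zero, add_zero] at p2
      rw [← p2, ← sum_add_distrib, mul_assoc, ← p1]
      exact sum_congr rfl fun j' _ => by
        by_cases h' : j' = i
        · simp [h', h]
        · simp [h']
  simp only [e1, e2, e3, sum_ite_irrel, piv, piv', sum_const, card_univ, Fintype.card_fin,
    smul_eq_mul, zero_add, mul_zero, add_zero, e4, sum_add_distrib, ← mul_sum]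
  rcases r with _ | r
  · simp
  · rw [show (r + 1) * a + (r + 1) * (r + 1) * b - (r + 1) * b = (r + 1) * a + (r + 1) * r * b from
      Nat.sub_eq_of_eq_add (by ring)]
    ring

end Pool.Agent.H7.Flip
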