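import Pool.Agent.H7.Flip2

set_option autoImplicit false

namespace Pool.Agent.H7.Flip

open Finset Function

abbrev V (r t m : ℕ) := X r × Fin (t + 1) × (Bool × Fin m)

variable {r t m : ℕ}

def adj (p q : V r t m) : Prop :=
  (p.2.2 = q.2.2 ∧ near p.1 q.1 ∧ p ≠ q) ∨ (p.1 = q.1 ∧ p.2.1 = q.2.1 ∧ p.2.2.1 ≠ q.2.2.1)

instance (p q : V r t m) : Decidable (adj p q) := by unfold adj; infer_instance

def col (δ : ℕ) (p q : V r t m) : Fin 3 :=
  if p.2.2 = q.2.2 then (if bee p.1 q.1 then 0 else if (p.2.1 + q.2.1).val < δ then 1 else 2) else 2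

theorem adj_symm {p q : V r t m} (h : adj p q) : adj q p :=
  h.elim (fun h => Or.inl ⟨h.1.symm, near_symm h.2.1, h.2.2.symm⟩)
    fun h => Or.inr ⟨h.1.symm, h.2.1.symm, h.2.2.symm⟩

theorem adj_irrefl (p : V r t m) : ¬ adj p p := by simp [adj]

theorem col_symm (δ : ℕ) (p q : V r t m) : col δ p q = col δ q p := by
  unfold col
  simp only [eq_comm (a := p.2.2), add_comm p.2.1,
    show bee p.1 q.1 ↔ bee q.1 p.1 from ⟨bee_symm, bee_symm⟩]

def W (δ : ℕ) (g : Fin 3 → ℕ) (p q : V r t m) : ℕ := if adj p q then g (col δ p q) else 0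

theorem W_symm (δ : ℕ) (g : Fin 3 → ℕ) (p q : V r t m) : W δ g p q = W δ g q p := by
  unfold W
  simp only [col_symm δ p q, show adj p q ↔ adj q p from ⟨adj_symm, adj_symm⟩]

theorem sumN (x : X r) (s : Fin (t + 1)) (b : Bool) (k : Fin m) (F : V r t m → ℕ) :
    ∑ w : V r t m, (if w = (x, s, b, k) ∨ adj (x, s, b, k) w then F w else 0) =
      ∑ y, (if near x y then ∑ s', F (y, s', b, k) else 0) + ∑ k', F (x, s, !b, k') := by
  have e : ∀ w : V r t m, (if w = (x, s, b, k) ∨ adj (x, s, b, k) w then F w else 0) =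
      (if near x w.1 then (if w.2.2 = (b, k) then F w else 0) else 0) +
      (if w.1 = x then (if w.2.1 = s then (if w.2.2.1 = !b then F w else 0) else 0) else 0) := by
    rintro ⟨y, s', b', k'⟩
    have := bee_near (bee_rfl x)
    simp only [adj, Prod.mk.injEq, ne_eq]
    by_cases h1 : y = x <;> by_cases h2 : s' = s <;> by_cases h3 : k' = k <;> cases b <;> cases b' <;>
      by_cases h4 : near x y <;> simp_all [eq_comm]
  simp only [e, sum_add_distrib]
  congr 1
  · rw [Fintype.sum_prod_type]
    refine sum_congr rfl fun y _ => ?_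
    simp only [sum_ite_irrel, sum_const_zero]
    rw [Fintype.sum_prod_type]
    simp
  · cases b <;> simp [Fintype.sum_prod_type, sum_ite_irrel]

theorem cnt {δ ε : ℕ} (h : δ + ε = t + 1) (s : Fin (t + 1)) (a b : ℕ) :
    ∑ s', (if (s + s').val < δ then a else b) = δ * a + ε * b := by
  rw [Equiv.sum_comp (Equiv.addLeft s) (fun z : Fin (t + 1) => if z.val < δ then a else b) |>.symm.symm
    |>.symm.symm |> fun e => (show ∑ s', (if (s + s').val < δ then a else b) = _ from e)]
  rw [Fin.sum_univ_eq_sum_range (fun z => if z < δ then a else b), ← h, sum_range_add,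
    sum_congr rfl fun z hz => if_pos (mem_range.1 hz)]
  simp

theorem rowW {δ ε : ℕ} (h : δ + ε = t + 1) (g : Fin 3 → ℕ) (x y : X r) (s : Fin (t + 1))
    (z : Bool × Fin m) :
    ∑ s', W δ g (x, s, z) (y, s', z) + (if y = x then g 0 else 0) =
      if near x y then (if bee x y then (t + 1) * g 0 else δ * g 1 + ε * g 2) else 0 := by
  have e : ∀ s', W δ g (x, s, z) (y, s', z) + (if y = x then (if s' = s then g 0 else 0) else 0) =
      if near x y then (if bee x y then g 0 else if (s + s').val < δ then g 1 else g 2) else 0 := by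
    intro s'
    have := bee_near (bee_rfl x)
    have := bee_rfl x
    simp only [W, adj, col, Prod.mk.injEq, ne_eq, apply_ite g]
    by_cases h1 : y = x <;> by_cases h2 : s' = s <;> by_cases h4 : near x y <;> simp_all [eq_comm]
  have := sum_congr (rfl : (univ : Finset (Fin (t + 1))) = univ) fun s' _ => e s'
  simpa [sum_add_distrib, sum_ite_irrel, cnt h] using this

theorem crossW (δ : ℕ) (g : Fin 3 → ℕ) (x y : X r) (s s' : Fin (t + 1)) (b : Bool) (k k' : Fin m) :
    W δ g (y, s', b, k) (x, s, !b, k') = if y = x then (if s' = s then g 2 else 0) else 0 := by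
  simp only [W, adj, col, Prod.mk.injEq, ne_eq]
  by_cases h1 : y = x <;> by_cases h2 : s' = s <;> cases b <;> simp_all

theorem degW {δ ε : ℕ} (h : δ + ε = t + 1) (g : Fin 3 → ℕ) (v : V r t m) :
    ∑ w, W δ g v w + g 0 =
      (2 * r + 1) * ((t + 1) * g 0) + 2 * r ^ 2 * (δ * g 1 + ε * g 2) + m * g 2 := by
  obtain ⟨x, s, b, k⟩ := v
  have e : ∀ w, W δ g (x, s, b, k) w =
      if w = (x, s, b, k) ∨ adj (x, s, b, k) w then W δ g (x, s, b, k) w else 0 := by
    intro w; unfold W; split_ifs <;> tauto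
  rw [sum_congr rfl fun w _ => e w, sumN, ← deg x, add_right_comm]
  congr 1
  · have : g 0 = ∑ y, if y = x then g 0 else 0 := by simp
    rw [this, ← sum_add_distrib, ← this]
    refine sum_congr rfl fun y _ => ?_
    have := rowW h g x y s (b, k)
    by_cases h4 : near x y
    · simpa [h4] using this
    · have : y ≠ x := fun e => h4 (e ▸ bee_near (bee_rfl _))
      simp [h4, this]
  · simp [crossW]

theorem twoW {δ ε : ℕ} (h : δ + ε = t + 1) (g : Fin 3 → ℕ) (v : V r t m) :
    ∑ w, (if w = v ∨ adj v w then ∑ w', (if w' = v ∨ adj v w' then W δ g w w' else 0) else 0) +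
      (2 * r + 1 + 2 * r ^ 2) * ((t + 1) * g 0) =
      (2 * r ^ 3 + 6 * r ^ 2 + 4 * r + 1) * ((t + 1) * ((t + 1) * g 0)) +
        (4 * r ^ 3 + 2 * r ^ 2) * ((t + 1) * (δ * g 1 + ε * g 2)) + 2 * m * g 2 := by
  obtain ⟨x, s, b, k⟩ := v
  have hx := bee_near (bee_rfl x)
  simp only [sumN]
  have e1 : ∀ k', (∑ y, if near x y then ∑ s', W δ g (x, s, !b, k') (y, s', b, k) else 0) = g 2 := by
    intro k'
    simp only [W_symm δ g (x, s, !b, k'), crossW, sum_ite_irrel, sum_const_zero, sum_ite_eq',
      mem_univ, if_true]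
    rw [sum_eq_single x] <;> simp +contextual [hx]
  have e2 : ∀ k' k'' : Fin m, W δ g (x, s, !b, k') (x, s, !b, k'') = 0 := by
    intro k' k''
    unfold W adj
    rw [if_neg]
    rintro (⟨h1, -, h2⟩ | h)
    · exact h2 (Prod.ext rfl (Prod.ext rfl h1))
    · exact h.2.2 rfl
  have e3 : (∑ y, if near x y then ∑ s', ∑ k', W δ g (y, s', b, k) (x, s, !b, k') else 0) = m * g 2 := by
    simp only [crossW, sum_ite_irrel, sum_const_zero, sum_const, card_univ, Fintype.card_fin,
      smul_eq_mul, sum_ite_eq', mem_univ, if_true]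
    rw [sum_eq_single x] <;> simp +contextual [hx]
  have e4 : (2 * r + 1 + 2 * r ^ 2) * ((t + 1) * g 0) =
      ∑ y, if near x y then (t + 1) * g 0 else 0 := by
    have := deg x ((t + 1) * g 0) ((t + 1) * g 0)
    simp only [ite_self] at this
    rw [this]; ring
  have e5 : ∀ y, near x y → ∑ s' : Fin (t + 1), (∑ y', if near x y' then ∑ s'', W δ g (y, s', b, k) (y', s'', b, k)
      else 0) + (t + 1) * g 0 = ∑ y', (if near x y' then (if near y y' then (if bee y y' then
        (t + 1) * ((t + 1) * g 0) else (t + 1) * (δ * g 1 + ε * g 2)) else 0) else 0) := by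
    intro y hy
    have : (t + 1) * g 0 = ∑ y', if y' = y then (t + 1) * g 0 else 0 := by simp
    rw [sum_comm]
    nth_rewrite 1 [this]
    rw [← sum_add_distrib]
    refine sum_congr rfl fun y' _ => ?_
    by_cases h4 : near x y'
    · have := sum_congr (rfl : (univ : Finset (Fin (t + 1))) = univ)
        fun s' _ => rowW h g y y' s' (b, k)
      simpa [h4, sum_add_distrib, sum_ite_irrel] using this
    · have : y' ≠ y := fun e => h4 (e ▸ hy)
      simp [h4, this]
  have e6 : (∑ y, if near x y then ∑ s', ((∑ y', if near x y' then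
      ∑ s'', W δ g (y, s', b, k) (y', s'', b, k) else 0) + ∑ k', W δ g (y, s', b, k) (x, s, !b, k'))
      else 0) + (∑ y, if near x y then (t + 1) * g 0 else 0) =
      (∑ y, if near x y then ∑ y', (if near x y' then (if near y y' then (if bee y y' then
        (t + 1) * ((t + 1) * g 0) else (t + 1) * (δ * g 1 + ε * g 2)) else 0) else 0) else 0) +
        m * g 2 := by
    rw [← e3, ← sum_add_distrib, ← sum_add_distrib]
    refine sum_congr rfl fun y _ => ?_
    by_cases hy : near x y
    · simp only [if_pos hy, ← e5 y hy, sum_add_distrib]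
      ring
    · simp [hy]
  rw [two x] at e6
  simp only [e1, e2, sum_const_zero, add_zero, sum_const, card_univ, Fintype.card_fin, smul_eq_mul]
  rw [e4]
  linarith

end Pool.Agent.H7.Flip
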