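import Mathlib

set_option autoImplicit false

namespace Pool.Agent.H7.Game

/-- Payoffs of the row player. -/
def a1 : Fin 4 → Fin 5 → ℕ := ![![1, 0, 3, 2, 1], ![3, 2, 1, 0, 0], ![2, 1, 0, 3, 2], ![0, 3, 2, 1, 3]]

/-- Payoffs of the column player. -/
def a2 : Fin 4 → Fin 5 → ℕ := ![![1, 2, 3, 4, 0], ![3, 4, 0, 1, 2], ![4, 0, 1, 2, 3], ![2, 3, 4, 0, 1]]

/-- Arcs. -/
def arcN (p q : Fin 4 × Fin 5) : Prop :=
  (p.1 ≠ q.1 ∧ p.2 = q.2 ∧ a1 p.1 p.2 < a1 q.1 q.2) ∨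
  (p.1 = q.1 ∧ p.2 ≠ q.2 ∧ a2 p.1 p.2 < a2 q.1 q.2)

instance (p q : Fin 4 × Fin 5) : Decidable (arcN p q) := by unfold arcN; infer_instance

/-- Next vertex towards the root. -/
def nx (p : Fin 4 × Fin 5) : Fin 4 × Fin 5 :=
  (![![(0, 0), (2, 1), (0, 3), (2, 3), (0, 0)], ![(1, 1), (3, 1), (1, 4), (1, 4), (0, 4)], ![(1, 0), (2, 4), (1, 2), (2, 4), (3, 4)], ![(0, 0), (3, 2), (0, 2), (3, 0), (3, 0)]] : Fin 4 → Fin 5 → Fin 4 × Fin 5) p.1 p.2

/-- Previous vertex from the root. -/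
def pv (p : Fin 4 × Fin 5) : Fin 4 × Fin 5 :=
  (![![(0, 0), (0, 0), (0, 0), (0, 0), (1, 4)], ![(0, 0), (0, 1), (2, 2), (1, 2), (1, 2)], ![(0, 0), (0, 1), (2, 1), (0, 3), (2, 1)], ![(3, 4), (0, 1), (3, 1), (1, 3), (2, 4)]] : Fin 4 → Fin 5 → Fin 4 × Fin 5) p.1 p.2

theorem nx_spec : ∀ p, (nx p = p ∨ arcN p (nx p)) ∧ nx^[20] p = (0, 0) := by decide +kernel

theorem pv_spec : ∀ p, (pv p = p ∨ arcN (pv p) p) ∧ pv^[20] p = (0, 0) := by decide +kernel

theorem strong (p q : Fin 4 × Fin 5) : Relation.ReflTransGen arcN p q := by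
  have h1 : ∀ (k : ℕ) (p : Fin 4 × Fin 5), Relation.ReflTransGen arcN p (nx^[k] p) := by
    intro k
    induction k with
    | zero => exact fun p => Relation.ReflTransGen.refl
    | succ k ih =>
      intro p
      rw [Function.iterate_succ_apply]
      rcases (nx_spec p).1 with h | h
      · rw [h]; exact ih p
      · exact Relation.ReflTransGen.head h (ih _)
  have h2 : ∀ (k : ℕ) (p : Fin 4 × Fin 5), Relation.ReflTransGen arcN (pv^[k] p) p := by
    intro k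
    induction k with
    | zero => exact fun p => Relation.ReflTransGen.refl
    | succ k ih =>
      intro p
      rw [Function.iterate_succ_apply]
      rcases (pv_spec p).1 with h | h
      · rw [h]; exact ih p
      · exact Relation.ReflTransGen.tail (ih _) h
  have a := h1 20 p
  have b := h2 20 q
  rw [(nx_spec p).2] at a
  rw [(pv_spec q).2] at b
  exact a.trans b

theorem no4 : ∀ a b, arcN a b → ∀ c, arcN b c → ∀ d, arcN c d → ¬ arcN d a := by decide +kernel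

theorem strict1 : ∀ s s' t, s ≠ s' → a1 s t ≠ a1 s' t := by decide +kernel

theorem strict2 : ∀ s t t', t ≠ t' → a2 s t ≠ a2 s t' := by decide +kernel

end Pool.Agent.H7.Game
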