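import Mathlib

set_option autoImplicit false

namespace Pool.Agent.H7.Isc

open Finset

abbrev W (k : ℕ) := Fin k → ZMod 2

theorem z2 (a : ZMod 2) : a = 0 ∨ a = 1 := by revert a; decide

theorem card_W (k : ℕ) : Fintype.card (W k) = 2 ^ k := by simp [W]

theorem exists_one {k : ℕ} {φ : W k} (h : φ ≠ 0) : ∃ w : W k, φ ⬝ᵥ w = 1 := by
  obtain ⟨j, hj⟩ := Function.ne_iff.1 h
  refine ⟨Pi.single j 1, ?_⟩
  rw [dotProduct_single, mul_one]
  exact (z2 _).resolve_left hj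

theorem exists_both {k : ℕ} {φ ψ : W k} (h : φ ≠ 0) (h' : ψ ≠ 0) :
    ∃ w : W k, φ ⬝ᵥ w = 1 ∧ ψ ⬝ᵥ w = 1 := by
  obtain ⟨a, ha⟩ := exists_one h
  obtain ⟨b, hb⟩ := exists_one h'
  rcases z2 (ψ ⬝ᵥ a) with h1 | h1
  · rcases z2 (φ ⬝ᵥ b) with h2 | h2
    · exact ⟨a + b, by rw [dotProduct_add, ha, h2, add_zero], by rw [dotProduct_add, h1, hb, zero_add]⟩
    · exact ⟨b, h2, hb⟩
  · exact ⟨a, ha, h1⟩

theorem card_good {k : ℕ} {φ ψ : W k} (h : φ ≠ 0) (h' : ψ ≠ 0) :
    4 * (univ.filter fun w : W k => ¬ (φ ⬝ᵥ w = 1 ∧ ψ ⬝ᵥ w = 1)).card ≤ 3 * 2 ^ k := by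
  obtain ⟨w0, h0, h0'⟩ := exists_both h h'
  have h1 : (univ : Finset (W k)).card ≤
      (univ.filter fun w : W k => φ ⬝ᵥ w = 1 ∧ ψ ⬝ᵥ w = 1).card *
        (univ : Finset (ZMod 2 × ZMod 2)).card := by
    refine card_le_mul_card_image_of_maps_to (f := fun w => (φ ⬝ᵥ w, ψ ⬝ᵥ w)) (by simp) _ ?_
    intro b _
    rcases (univ.filter fun w : W k => (φ ⬝ᵥ w, ψ ⬝ᵥ w) = b).eq_empty_or_nonempty with e | ⟨w1, hw1⟩
    · rw [e]; simp
    · refine card_le_card_of_injOn (fun w => w - w1 + w0) ?_ ?_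
      · intro w hw
        simp only [coe_filter, mem_univ, true_and, Set.mem_ofPred_eq, mem_filter] at hw hw1 ⊢
        rw [← hw1, Prod.mk.injEq] at hw
        simp [dotProduct_add, dotProduct_sub, hw.1, hw.2, h0, h0']
      · intro a _ c _ e
        simpa using e
  have h2 := card_filter_add_card_filter_not (s := (univ : Finset (W k)))
    (fun w : W k => φ ⬝ᵥ w = 1 ∧ ψ ⬝ᵥ w = 1)
  have h3 : (univ : Finset (ZMod 2 × ZMod 2)).card = 4 := by simp
  rw [h3] at h1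
  rw [card_univ, card_W] at h1 h2
  omega

theorem card_sum {k n : ℕ} (S : Finset (Fin n)) (hS : S.Nonempty) :
    2 ^ k * (univ.filter fun x : Fin n → W k => ∑ i ∈ S, x i = 0).card ≤ (2 ^ k) ^ n := by
  obtain ⟨i0, hi0⟩ := hS
  have h1 : ((univ : Finset (W k)) ×ˢ (univ.filter fun x : Fin n → W k => ∑ i ∈ S, x i = 0)).card
      ≤ (univ : Finset (Fin n → W k)).card := by
    refine card_le_card_of_injOn (fun p => p.2 + Pi.single i0 p.1) (by simp) ?_
    rintro ⟨w, x⟩ hx ⟨w', x'⟩ hx' e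
    simp only [coe_product, coe_univ, coe_filter, mem_univ, true_and, Set.mem_prod,
      Set.mem_univ, Set.mem_ofPred_eq] at hx hx'
    have key : ∀ (w : W k) (x : Fin n → W k), ∑ i ∈ S, x i = 0 →
        ∑ i ∈ S, (x + Pi.single i0 w : Fin n → W k) i = w := by
      intro w x hx
      simp only [Pi.add_apply, sum_add_distrib, hx, zero_add]
      rw [sum_eq_single i0]
      · simp
      · intro b _ hb; simp [hb]
      · intro h; exact (h hi0).elim
    have e1 : w = w' := by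
      rw [← key w x hx, ← key w' x' hx']
      simp only at e
      rw [e]
    subst e1
    simp only [add_left_inj] at e
    rw [e]
  rw [card_product, card_univ, card_W, card_univ, Fintype.card_fun, card_W, Fintype.card_fin] at h1
  exact h1

theorem exists_k (t : ℕ) : ∃ k, 3 ≤ k ∧ 2 * (t * (10 * k) ^ t) < 2 ^ k := by
  have h := tendsto_pow_const_div_const_pow_of_one_lt t (r := 2) one_lt_two
  have hpos : (0 : ℝ) < 1 / (2 * (t + 1) * 10 ^ t) := by positivity
  obtain ⟨k, hk, hk3⟩ := ((h.eventually (gt_mem_nhds hpos)).and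
    (Filter.eventually_ge_atTop 3)).exists
  refine ⟨k, hk3, ?_⟩
  rw [div_lt_div_iff₀ (by positivity) (by positivity)] at hk
  have : (2 : ℝ) * (t * (10 * k) ^ t) < 2 ^ k := by
    rw [mul_pow]
    have : (0 : ℝ) ≤ (k : ℝ) ^ t * 10 ^ t := by positivity
    nlinarith
  exact_mod_cast this

theorem exists_code (t : ℕ) : ∃ (k n : ℕ) (x : Fin n → W k), 3 ≤ k ∧
    (∀ S : Finset (Fin n), S.Nonempty → S.card < t → ∑ i ∈ S, x i ≠ 0) ∧
    ∀ φ ψ : W k, φ ≠ 0 → ψ ≠ 0 → ∃ i, φ ⬝ᵥ x i = 1 ∧ ψ ⬝ᵥ x i = 1 := by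
  obtain ⟨k, hk3, hk⟩ := exists_k t
  refine ⟨k, 10 * k, ?_⟩
  by_contra hn
  push Not at hn
  set n := 10 * k with hn10
  let F : Finset (Finset (Fin n)) := univ.filter fun S => S.Nonempty ∧ S.card < t
  let P : Finset (W k × W k) := univ.filter fun p => p.1 ≠ 0 ∧ p.2 ≠ 0
  let A : Finset (Fin n) → Finset (Fin n → W k) := fun S => univ.filter fun x => ∑ i ∈ S, x i = 0
  let B : W k × W k → Finset (Fin n → W k) := fun p =>
    Fintype.piFinset fun _ => univ.filter fun w : W k => ¬ (p.1 ⬝ᵥ w = 1 ∧ p.2 ⬝ᵥ w = 1)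
  have cover : (univ : Finset (Fin n → W k)) ⊆ F.biUnion A ∪ P.biUnion B := by
    intro x _
    by_cases h : ∀ S : Finset (Fin n), S.Nonempty → S.card < t → ∑ i ∈ S, x i ≠ 0
    · obtain ⟨φ, ψ, h1, h2, h3⟩ := hn x hk3 h
      refine mem_union_right _ (mem_biUnion.2 ⟨(φ, ψ), by simp [P, h1, h2], ?_⟩)
      simp only [B, Fintype.mem_piFinset, mem_filter, mem_univ, true_and, not_and]
      exact h3
    · push Not at h
      obtain ⟨S, h1, h2, h3⟩ := h
      exact mem_union_left _ (mem_biUnion.2 ⟨S, by simp [F, h1, h2], by simp [A, h3]⟩)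
  have hF : F.card ≤ t * n ^ t := by
    have : F ⊆ (range t).biUnion fun s => powersetCard s univ := by
      intro S hS
      simp only [F, mem_filter] at hS
      exact mem_biUnion.2 ⟨S.card, mem_range.2 hS.2.2, by simp⟩
    refine (card_le_card this).trans (card_biUnion_le.trans ?_)
    rw [← card_range t, ← smul_eq_mul, card_range]
    refine (sum_le_card_nsmul _ _ (n ^ t) ?_).trans (by simp)
    intro s hs
    rw [card_powersetCard, card_univ, Fintype.card_fin]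
    exact (Nat.choose_le_pow _ _).trans
      (Nat.pow_le_pow_right (by omega) (mem_range.1 hs).le)
  have hP : P.card ≤ 2 ^ k * 2 ^ k := by
    refine (card_filter_le _ _).trans ?_
    rw [card_univ, Fintype.card_prod, card_W]
  have hA : 2 ^ k * (F.biUnion A).card ≤ t * n ^ t * (2 ^ k) ^ n := by
    calc _ ≤ 2 ^ k * ∑ S ∈ F, (A S).card := Nat.mul_le_mul_left _ card_biUnion_le
      _ = ∑ S ∈ F, 2 ^ k * (A S).card := mul_sum _ _ _
      _ ≤ F.card • (2 ^ k) ^ n := by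
        refine sum_le_card_nsmul _ _ _ fun S hS => card_sum S ?_
        simp only [F, mem_filter] at hS
        exact hS.2.1
      _ ≤ _ := by rw [smul_eq_mul]; exact Nat.mul_le_mul_right _ hF
  have hB : 4 ^ n * (P.biUnion B).card ≤ 2 ^ k * 2 ^ k * (3 ^ n * (2 ^ k) ^ n) := by
    calc _ ≤ 4 ^ n * ∑ p ∈ P, (B p).card := Nat.mul_le_mul_left _ card_biUnion_le
      _ = ∑ p ∈ P, 4 ^ n * (B p).card := mul_sum _ _ _
      _ ≤ P.card • (3 ^ n * (2 ^ k) ^ n) := by
        refine sum_le_card_nsmul _ _ _ fun p hp => ?_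
        simp only [P, mem_filter] at hp
        simp only [B, Fintype.card_piFinset, prod_const, card_univ, Fintype.card_fin]
        rw [← mul_pow, ← mul_pow]
        exact Nat.pow_le_pow_left (card_good hp.2.1 hp.2.2) _
      _ ≤ _ := by rw [smul_eq_mul]; exact Nat.mul_le_mul_right _ hP
  have h4 : 2 * (2 ^ k * 2 ^ k * 3 ^ n) < 4 ^ n := by
    have e1 : 2 ^ k * 2 ^ k * 3 ^ n = 236196 ^ k := by
      rw [hn10, pow_mul, ← mul_pow, ← mul_pow]; norm_num
    have e2 : 4 ^ n = 1048576 ^ k := by rw [hn10, pow_mul]; norm_num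
    rw [e1, e2]
    calc 2 * 236196 ^ k ≤ 2 ^ k * 236196 ^ k := by
          refine Nat.mul_le_mul_right _ ?_
          calc 2 = 2 ^ 1 := rfl
            _ ≤ 2 ^ k := Nat.pow_le_pow_right (by omega) (by omega)
      _ = (2 * 236196) ^ k := (mul_pow _ _ _).symm
      _ < _ := Nat.pow_lt_pow_left (by norm_num) (by omega)
  have hc := (card_le_card cover).trans (card_union_le _ _)
  rw [card_univ, Fintype.card_fun, card_W, Fintype.card_fin] at hc
  have hN : 0 < (2 ^ k) ^ n := by positivity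
  have a1 : 2 * (F.biUnion A).card < (2 ^ k) ^ n := by
    have : 2 ^ k * (2 * (F.biUnion A).card) < 2 ^ k * (2 ^ k) ^ n := by
      calc _ = 2 * (2 ^ k * (F.biUnion A).card) := by ring
        _ ≤ 2 * (t * n ^ t * (2 ^ k) ^ n) := by omega
        _ = 2 * (t * n ^ t) * (2 ^ k) ^ n := by ring
        _ < _ := Nat.mul_lt_mul_of_pos_right hk hN
    exact lt_of_mul_lt_mul_left this (Nat.zero_le _)
  have a2 : 2 * (P.biUnion B).card < (2 ^ k) ^ n := by
    have : 4 ^ n * (2 * (P.biUnion B).card) < 4 ^ n * (2 ^ k) ^ n := by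
      calc _ = 2 * (4 ^ n * (P.biUnion B).card) := by ring
        _ ≤ 2 * (2 ^ k * 2 ^ k * (3 ^ n * (2 ^ k) ^ n)) := by omega
        _ = 2 * (2 ^ k * 2 ^ k * 3 ^ n) * (2 ^ k) ^ n := by ring
        _ < _ := Nat.mul_lt_mul_of_pos_right h4 hN
    exact lt_of_mul_lt_mul_left this (Nat.zero_le _)
  omega

theorem exists_rep {k n : ℕ} (x : Fin n → W k) : ∃ (m : ℕ) (v : Fin n → (Fin m → ZMod 2)),
    ∀ I : Set (Fin n), LinearIndepOn (ZMod 2) v I ↔
      ∀ φ : W k, (∀ i, i ∉ I → φ ⬝ᵥ x i = 0) → ∀ i, φ ⬝ᵥ x i = 0 := by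
  classical
  let c : W k →ₗ[ZMod 2] (Fin n → ZMod 2) :=
    { toFun := fun φ i => φ ⬝ᵥ x i
      map_add' := fun a b => by funext i; simp [add_dotProduct]
      map_smul' := fun a b => by funext i; simp [smul_dotProduct] }
  let D := LinearMap.range c
  let e := (Module.finBasis (ZMod 2) ((Fin n → ZMod 2) ⧸ D)).equivFun
  let π := e.toLinearMap ∘ₗ D.mkQ
  have hπ : ∀ y, π y = 0 ↔ ∃ φ : W k, (fun i => φ ⬝ᵥ x i) = y := by
    intro y
    simp only [π, LinearMap.comp_apply, LinearEquiv.coe_coe, LinearEquiv.map_eq_zero_iff,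
      Submodule.mkQ_apply, Submodule.Quotient.mk_eq_zero, D, LinearMap.mem_range]
    rfl
  refine ⟨_, fun i => π (Pi.single i 1), fun I => ?_⟩
  have lc : ∀ l : Fin n →₀ ZMod 2,
      Finsupp.linearCombination (ZMod 2) (fun i => π (Pi.single i 1)) l = π l := by
    intro l
    rw [Finsupp.linearCombination_apply, Finsupp.sum_fintype _ _ (by simp)]
    simp only [← map_smul, ← map_sum]
    congr 1
    funext j
    simp [Finset.sum_apply, Pi.single_apply]
  rw [linearIndepOn_iff]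
  constructor
  · intro h φ hφ i
    have := h (Finsupp.equivFunOnFinite.symm fun i => φ ⬝ᵥ x i) (by
      rw [Finsupp.mem_supported']; intro j hj; simpa using hφ j hj) (by
      rw [lc, hπ]; exact ⟨φ, by simp⟩)
    simpa using DFunLike.congr_fun this i
  · intro h l hl h0
    rw [lc, hπ] at h0
    obtain ⟨φ, hφ⟩ := h0
    rw [Finsupp.mem_supported'] at hl
    ext i
    have := h φ (fun j hj => (congrFun hφ j).trans (hl j hj)) i
    exact (congrFun hφ i).symm.trans this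

theorem exists_sep {k n t : ℕ} {x : Fin n → W k}
    (hA : ∀ S : Finset (Fin n), S.Nonempty → S.card < t → ∑ i ∈ S, x i ≠ 0)
    (K : Finset (Fin n)) (hK : K.card < t) {e : Fin n} (he : e ∈ K) :
    ∃ φ : W k, φ ⬝ᵥ x e = 1 ∧ ∀ i ∈ K, i ≠ e → φ ⬝ᵥ x i = 0 := by
  classical
  have li : LinearIndepOn (ZMod 2) x (K : Set (Fin n)) := by
    rw [linearIndepOn_iff]
    intro l hl h0
    by_contra hne
    rw [Finsupp.mem_supported] at hl
    refine hA l.support (Finsupp.support_nonempty_iff.2 hne)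
      (lt_of_le_of_lt (card_le_card (by exact_mod_cast hl)) hK) ?_
    rw [← h0, Finsupp.linearCombination_apply, Finsupp.sum]
    refine sum_congr rfl fun i hi => ?_
    rw [(z2 (l i)).resolve_left (Finsupp.mem_support_iff.1 hi), one_smul]
  obtain ⟨f, hf, hf'⟩ := Submodule.exists_dual_map_eq_bot_of_notMem
    (li.notMem_span (by exact_mod_cast he)) inferInstance
  have key : ∀ w : W k, (fun j => f (Pi.single j 1)) ⬝ᵥ w = f w := by
    intro w
    conv_rhs => rw [← Finset.univ_sum_single w]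
    rw [map_sum, dotProduct]
    refine sum_congr rfl fun j _ => ?_
    rw [mul_comm, ← smul_eq_mul, ← map_smul, ← Pi.single_smul, smul_eq_mul, mul_one]
  refine ⟨fun j => f (Pi.single j 1), ?_, fun i hi hie => ?_⟩
  · rw [key]; exact (z2 _).resolve_left hf
  · rw [key, ← Submodule.mem_bot (ZMod 2), ← hf']
    exact Submodule.mem_map_of_mem (Submodule.subset_span ⟨i, ⟨by exact_mod_cast hi, hie⟩, rfl⟩)

theorem two_out {k n : ℕ} (hk : 3 ≤ k) {x : Fin n → W k}
    (hB : ∀ φ ψ : W k, φ ≠ 0 → ψ ≠ 0 → ∃ i, φ ⬝ᵥ x i = 1 ∧ ψ ⬝ᵥ x i = 1) (φ : W k) :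
    ∃ i j, i ≠ j ∧ φ ⬝ᵥ x i = 0 ∧ φ ⬝ᵥ x j = 0 := by
  classical
  have out : ∀ ψ : W k, ψ ≠ 0 → ψ ≠ φ → ∃ i, ψ ⬝ᵥ x i = 1 ∧ φ ⬝ᵥ x i = 0 := by
    intro ψ h1 h2
    obtain ⟨i, h3, h4⟩ := hB ψ (ψ - φ) h1 (sub_ne_zero.2 h2)
    refine ⟨i, h3, ?_⟩
    rw [sub_dotProduct, h3] at h4
    simpa using h4
  have big : ∀ s : Finset (W k), s.card ≤ 4 → ∃ ψ, ψ ∉ s := by
    intro s hs
    have : 2 ^ 3 ≤ 2 ^ k := Nat.pow_le_pow_right (by omega) hk
    obtain ⟨ψ, -, h⟩ := exists_mem_notMem_of_card_lt_card (s := s) (t := univ)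
      (by rw [card_univ, card_W]; omega)
    exact ⟨ψ, h⟩
  obtain ⟨a, ha⟩ := big {0, φ} (card_le_two.trans (by omega))
  obtain ⟨b, hb⟩ := big {0, φ, a, a - φ} card_le_four
  simp only [mem_insert, mem_singleton, not_or] at ha hb
  obtain ⟨i, hi, hi'⟩ := out a ha.1 ha.2
  obtain ⟨j, hj, hj'⟩ := out b hb.1 hb.2.1
  by_cases hij : i = j
  · subst hij
    obtain ⟨l, hl, hl'⟩ := out (a - b) (sub_ne_zero.2 (Ne.symm hb.2.2.1))
      (fun h => hb.2.2.2 (by rw [← h]; abel))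
    refine ⟨i, l, ?_, hi', hl'⟩
    rintro rfl
    rw [sub_dotProduct, hi, hj] at hl
    simp at hl
  · exact ⟨i, j, hij, hi', hj'⟩

end Pool.Agent.H7.Isc
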