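import Pool.Agent.H7.Isc1

set_option autoImplicit false

namespace Pool.Agent.H7.Isc

open Finset

theorem exists_sep' {k n : ℕ} {x : Fin n → W k} (K : Finset (Fin n))
    (hA : ∀ S : Finset (Fin n), S.Nonempty → S ⊆ K → ∑ i ∈ S, x i ≠ 0) {e : Fin n} (he : e ∈ K) :
    ∃ φ : W k, φ ⬝ᵥ x e = 1 ∧ ∀ i ∈ K, i ≠ e → φ ⬝ᵥ x i = 0 := by
  classical
  have li : LinearIndepOn (ZMod 2) x (K : Set (Fin n)) := by
    rw [linearIndepOn_iff]
    intro l hl h0
    by_contra hne
    rw [Finsupp.mem_supported] at hl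
    refine hA l.support (Finsupp.support_nonempty_iff.2 hne) (by exact_mod_cast hl) ?_
    rw [← h0, Finsupp.linearCombination_apply, Finsupp.sum]
    refine sum_congr rfl fun i hi => ?_
    rw [(z2 (l i)).resolve_left (Finsupp.mem_support_iff.1 hi), one_smul]
  obtain ⟨f, hf, hf'⟩ := Submodule.exists_dual_map_eq_bot_of_notMem
    (li.notMem_span (by exact_mod_cast he)) inferInstance
  have key : ∀ w : W k, (fun j => f (Pi.single j 1)) ⬝ᵥ w = f w := by
    intro w
    conv_rhs => rw [← Finset.univ_sum_single w]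
    rw [map_sum, dotProduct]
    refine sum_congr rfl fun j _ => ?_
    rw [mul_comm, ← smul_eq_mul, ← map_smul, ← Pi.single_smul, smul_eq_mul, mul_one]
  refine ⟨fun j => f (Pi.single j 1), ?_, fun i hi hie => ?_⟩
  · rw [key]; exact (z2 _).resolve_left hf
  · rw [key, ← Submodule.mem_bot (ZMod 2), ← hf']
    exact Submodule.mem_map_of_mem (Submodule.subset_span ⟨i, ⟨by exact_mod_cast hi, hie⟩, rfl⟩)

theorem even_of_sum {k n : ℕ} {x : Fin n → W k} (S : Finset (Fin n)) (h : ∑ i ∈ S, x i = 0)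
    (φ : W k) : Even ({i | φ ⬝ᵥ x i = 1} ∩ (S : Set (Fin n))).ncard := by
  classical
  have e : ({i | φ ⬝ᵥ x i = 1} ∩ (S : Set (Fin n))) = (S.filter fun i => φ ⬝ᵥ x i = 1 : Finset _) := by
    ext i; simp [and_comm]
  rw [e, Set.ncard_coe_finset, ← ZMod.natCast_eq_zero_iff_even, card_filter]
  push_cast
  have : φ ⬝ᵥ ∑ i ∈ S, x i = 0 := by rw [h, dotProduct_zero]
  rw [dotProduct_sum] at this
  refine Eq.trans (sum_congr rfl fun i _ => ?_) this
  rcases z2 (φ ⬝ᵥ x i) with h | h <;> simp [h]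

end Pool.Agent.H7.Isc
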