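import Mathlib

set_option autoImplicit false

namespace Pool.Agent.H7.Nest

open Finset

theorem sign_count {J E : Type} [Fintype J] [DecidableEq J] [AddCommGroup E] [Module ℝ E]
    [Module.Finite ℝ E] (l : J → Module.Dual ℝ E) (A : Finset (Finset J))
    (hA : ∀ S ∈ A, ∃ v : E, ∀ j, j ∈ S ↔ 0 ≤ l j v) :
    A.card ≤ (Fintype.card J + 1) ^ Module.finrank ℝ E := by
  set D := Module.finrank ℝ E with hD
  have hvc : A.vcDim ≤ D := by
    refine Finset.sup_le fun S hS => ?_
    have hS := mem_shatterer.1 hS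
    have hli : LinearIndependent ℝ (fun j : S => l j) := by
      rw [Fintype.linearIndependent_iff]
      have key : ∀ g : S → ℝ, (∀ v, ∑ i, g i * l i v = 0) → ∀ i, g i ≤ 0 := by
        intro g hg i
        by_contra hi
        push Not at hi
        obtain ⟨U, hU, hUS⟩ := hS (t := S.filter (fun j => ∀ h : j ∈ S, g ⟨j, h⟩ ≤ 0))
          (filter_subset _ _)
        obtain ⟨v, hv⟩ := hA U hU
        have hm : ∀ j : S, (0 ≤ l j v ↔ g j ≤ 0) := by
          intro j
          rw [← hv]
          have := Finset.ext_iff.1 hUS j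
          simp only [mem_inter, mem_filter, j.2, true_and, forall_true_left] at this
          exact this
        have h1 : ∑ j, g j * l j v < ∑ _j : S, (0 : ℝ) := by
          refine sum_lt_sum (fun j _ => ?_) ⟨i, mem_univ _, ?_⟩
          · by_cases h : g j ≤ 0
            · exact mul_nonpos_of_nonpos_of_nonneg h ((hm j).2 h)
            · exact mul_nonpos_of_nonneg_of_nonpos (not_le.1 h).le
                (not_le.1 (mt (hm j).1 h)).le
          · exact mul_neg_of_pos_of_neg hi (not_le.1 (mt (hm i).1 (not_le.2 hi)))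
        rw [hg v] at h1
        simp at h1
      intro g hg i
      have hg' : ∀ v, ∑ i, g i * l i v = 0 := fun v => by
        have h2 := congrArg (fun f : Module.Dual ℝ E => f v) hg
        simpa only [LinearMap.sum_apply, LinearMap.smul_apply, smul_eq_mul,
          LinearMap.zero_apply] using h2
      have h1 := key g hg' i
      have h2 := key (-g) (fun v => by
        simp only [Pi.neg_apply, neg_mul, sum_neg_distrib, hg' v, neg_zero]) i
      simp only [Pi.neg_apply] at h2
      linarith
    have := hli.fintype_card_le_finrank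
    rwa [Fintype.card_coe, Subspace.dual_finrank_eq] at this
  refine (card_le_card_shatterer A).trans (card_shatterer_le_sum_vcDim.trans ?_)
  refine (sum_le_sum_of_subset (t := range (D + 1)) fun k hk => ?_).trans ?_
  · have := mem_Iic.1 hk
    exact mem_range.2 (by omega)
  · rw [add_pow]
    refine sum_le_sum fun k hk => ?_
    have h1 : 0 < D.choose k := Nat.choose_pos (by have := mem_range.1 hk; omega)
    have h2 := Nat.choose_le_pow (Fintype.card J) k
    simp only [one_pow, mul_one, Nat.cast_id]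
    exact h2.trans (Nat.le_mul_of_pos_right _ h1)

/-- The recursion satisfied by an ultrametric-type kernel along a parent map. -/
def Rec {V : Type} (ρ : V → ℕ) (p : V → V) (W : V → V → ℝ) : Prop :=
  (∀ x y, W x y = W y x) ∧
    ∀ x y, ρ y < ρ x → ρ (p x) < ρ x ∧ (y ≠ p x → W x y = min (W x (p x)) (W (p x) y))

theorem exists_rec {V : Type} [Fintype V] (ρ : V → ℕ) (W : V → V → ℝ) (hs : ∀ x y, W x y = W y x)
    (hu : ∀ x y z, min (W x y) (W y z) ≤ W x z) : ∃ p, Rec ρ p W := by
  have : ∀ x, ∃ q, ∀ y, ρ y < ρ x → ρ q < ρ x ∧ W x y ≤ W x q := by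
    intro x
    by_cases h : (univ.filter (fun y => ρ y < ρ x)).Nonempty
    · obtain ⟨q, hq, hm⟩ := exists_max_image _ (W x) h
      exact ⟨q, fun y hy => ⟨(mem_filter.1 hq).2, hm y (by simpa using hy)⟩⟩
    · exact ⟨x, fun y hy => absurd ⟨y, by simpa using hy⟩ h⟩
  choose p hp using this
  refine ⟨p, hs, fun x y hy => ⟨(hp x y hy).1, fun _ => le_antisymm (le_min (hp x y hy).2 ?_)
    (hu _ _ _)⟩⟩
  refine le_trans (le_min ?_ le_rfl) (hu (p x) x y)
  rw [hs (p x)]
  exact (hp x y hy).2

theorem rec_iff {V : Type} (ρ : V → ℕ) (hρ : Function.Injective ρ) (p : V → V)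
    (W W' : V → V → ℝ) (h : Rec ρ p W) (h' : Rec ρ p W') (θ θ' : ℝ)
    (hθ : ∀ l, θ ≤ W l (p l) ↔ θ' ≤ W' l (p l)) :
    ∀ (s : ℕ) (x y : V), ρ x + ρ y = s → x ≠ y → (θ ≤ W x y ↔ θ' ≤ W' x y) := by
  intro s
  induction s using Nat.strong_induction_on with
  | _ s ih =>
    have key : ∀ x y : V, ρ x + ρ y = s → ρ y < ρ x → (θ ≤ W x y ↔ θ' ≤ W' x y) := by
      intro x y e hy
      by_cases hp : y = p x
      · rw [hp]
        exact hθ x
      · have a := h.2 x y hy
        rw [a.2 hp, (h'.2 x y hy).2 hp, le_min_iff, le_min_iff, hθ x,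
          ih (ρ (p x) + ρ y) (by omega) (p x) y rfl (Ne.symm hp)]
    intro x y e hxy
    rcases lt_or_gt_of_ne (hρ.ne hxy) with hlt | hlt
    · rw [h.1, h'.1]
      exact key y x (by omega) hlt
    · exact key x y e hlt

/-- A Boolean relation given by the tolerance formula on a tree metric. -/
def Form {V : Type} (R : V → V → Prop) : Prop :=
  ∃ (d : V → V → ℝ) (D r t : V → ℝ), (∀ x y, d x y = d y x) ∧
    (∀ x y z, d x z + D y ≤ max (d x y + D z) (d y z + D x)) ∧
    ∀ x y, x ≠ y → (R x y ↔ min (t x) (t y) ≤ min (min (2 * r x) (2 * r y)) (r x + r y - d x y))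

theorem form_count {V I : Type} [Fintype V] [DecidableEq V] (B : Finset I) (R : I → V → V → Prop)
    (hR : ∀ i ∈ B, Form (R i))
    (hinj : ∀ i ∈ B, ∀ j ∈ B, (∀ x y, x ≠ y → (R i x y ↔ R j x y)) → i = j) :
    B.card ≤ Fintype.card V ^ Fintype.card V *
      (Fintype.card V ^ 4 + Fintype.card V ^ 2 + 1) ^ (4 * Fintype.card V) := by
  classical
  let ρ : V → ℕ := fun x => Fintype.equivFin V x
  have hρ : Function.Injective ρ := fun x y h => (Fintype.equivFin V).injective (Fin.ext h)
  let π : Fin 4 → V → Module.Dual ℝ (Fin 4 × V → ℝ) := fun a x => LinearMap.proj (a, x)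
  let l : (V × V × V × V) ⊕ (V × V) → Module.Dual ℝ (Fin 4 × V → ℝ) :=
    Sum.elim (fun q => π 0 q.1 + π 1 q.2.1 + π 1 q.2.2.1 - π 2 q.2.2.2)
      (fun q => π 3 q.1 - π 2 q.2)
  let A := univ.filter (fun S : Finset ((V × V × V × V) ⊕ (V × V)) => ∃ v, ∀ j, j ∈ S ↔ 0 ≤ l j v)
  have hA := sign_count l A (fun S hS => (mem_filter.1 hS).2)
  have hB : ∀ i ∈ B, ∃ (W : V → V → ℝ) (p : V → V) (v : Fin 4 × V → ℝ), Rec ρ p W ∧
      (∀ x, v (0, x) = W x (p x)) ∧ ∀ x y, x ≠ y → (R i x y ↔ min (v (2, x)) (v (2, y)) ≤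
        min (min (v (3, x)) (v (3, y))) (W x y + v (1, x) + v (1, y))) := by
    intro i hi
    obtain ⟨d, D, r, t, h1, h2, h3⟩ := hR i hi
    obtain ⟨p, hp⟩ := exists_rec ρ (fun x y => D x + D y - d x y)
      (fun x y => by rw [h1, add_comm]) (fun x y z => by
        rcases le_max_iff.1 (h2 x y z) with h | h
        · exact (min_le_left _ _).trans (by linarith)
        · exact (min_le_right _ _).trans (by linarith))
    refine ⟨_, p, fun a => ![fun x => D x + D (p x) - d x (p x), fun x => r x - D x, t,
      fun x => 2 * r x] a.1 a.2, hp, fun x => rfl, fun x y hxy => ?_⟩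
    rw [h3 x y hxy]
    have : r x + r y - d x y = D x + D y - d x y + (r x - D x) + (r y - D y) := by ring
    rw [this]
    rfl
  haveI : Nonempty (V → V) := ⟨id⟩
  choose! W p v h1 h2 h3 using hB
  have := card_le_card_of_injOn (s := B) (t := (univ : Finset (V → V)) ×ˢ A)
    (fun i => (p i, univ.filter (fun j => 0 ≤ l j (v i))))
    (fun i _ => by
      simp only [coe_product, coe_univ, Set.mem_prod, Set.mem_univ, true_and, mem_coe, A,
        mem_filter, mem_univ]
      exact ⟨v i, fun j => Iff.rfl⟩)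
    (fun i hi j hj e => by
      obtain ⟨e1, e2⟩ := Prod.mk.inj e
      have e3 : ∀ q, 0 ≤ l q (v i) ↔ 0 ≤ l q (v j) := by
        intro q
        have := Finset.ext_iff.1 e2 q
        simpa using this
      refine hinj i hi j hj fun x y hxy => ?_
      have a : ∀ s, v i (2, s) ≤ W i x y + v i (1, x) + v i (1, y) ↔
          v j (2, s) ≤ W j x y + v j (1, x) + v j (1, y) := by
        intro s
        have := rec_iff ρ hρ (p i) (W i) (W j) (h1 i hi) (e1 ▸ h1 j hj)
          (v i (2, s) - v i (1, x) - v i (1, y)) (v j (2, s) - v j (1, x) - v j (1, y))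
          (fun q => by
            have := e3 (Sum.inl (q, x, y, s))
            simp only [l, π, Sum.elim_inl, LinearMap.sub_apply, LinearMap.add_apply,
              LinearMap.proj_apply, h2 i hi, h2 j hj, ← e1] at this
            constructor
            · intro h
              linarith [this.1 (by linarith)]
            · intro h
              linarith [this.2 (by linarith)]) _ x y rfl hxy
        constructor
        · intro h
          linarith [this.1 (by linarith)]
        · intro h
          linarith [this.2 (by linarith)]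
      have b : ∀ u s, v i (2, s) ≤ v i (3, u) ↔ v j (2, s) ≤ v j (3, u) := by
        intro u s
        have := e3 (Sum.inr (u, s))
        simpa [l, π] using this
      rw [h3 i hi x y hxy, h3 j hj x y hxy, min_le_iff, min_le_iff]
      simp only [le_min_iff, a, b])
  refine this.trans ?_
  rw [card_product, card_univ, Fintype.card_fun]
  refine Nat.mul_le_mul_left _ (hA.trans (le_of_eq ?_))
  simp only [Fintype.card_sum, Fintype.card_prod, Module.finrank_fintype_fun_eq_card,
    Fintype.card_fin]
  ring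

/-- Gamma-free matrices. -/
def GF {N : ℕ} (M : Fin N → Fin N → Bool) : Prop :=
  ∀ x x' y y', x < x' → y < y' → M x y = true → M x y' = true → M x' y = true → M x' y' = true

open Classical in
/-- The set of Gamma-free matrices. -/
noncomputable def gf (N : ℕ) : Finset (Fin N → Fin N → Bool) := univ.filter GF

/-- Block matrix. -/
def glue {N : ℕ} (A B : Fin N → Fin N → Bool) (σ : Equiv.Perm (Fin N)) (x y : Fin (N + N)) :
    Bool :=
  Fin.addCases (fun x => Fin.addCases (fun y => decide (σ x = y)) (fun y => A x y) y)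
    (fun x => Fin.addCases (fun y => B x y) (fun _ => true) y) x

theorem gf_step (N : ℕ) : (gf N).card * (gf N).card * N.factorial ≤ (gf (N + N)).card := by
  classical
  have := card_le_card_of_injOn (s := (gf N ×ˢ gf N) ×ˢ (univ : Finset (Equiv.Perm (Fin N))))
    (t := gf (N + N)) (fun q => glue q.1.1 q.1.2 q.2)
    (fun q hq => by
      simp only [coe_product, coe_univ, Set.mem_prod, Set.mem_univ, and_true, mem_coe, gf,
        mem_filter, mem_univ, true_and] at hq ⊢
      intro x x' y y'
      refine Fin.addCases (fun x => ?_) (fun x => ?_) x <;>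
      refine Fin.addCases (fun x' => ?_) (fun x' => ?_) x' <;>
      refine Fin.addCases (fun y => ?_) (fun y => ?_) y <;>
      refine Fin.addCases (fun y' => ?_) (fun y' => ?_) y' <;>
      simp only [glue, Fin.addCases_left, Fin.addCases_right, Fin.lt_def, Fin.val_castAdd,
        Fin.val_natAdd, decide_eq_true_eq, implies_true, Nat.add_lt_add_iff_left]
      · intro _ h a b
        rw [← a, ← b] at h
        omega
      · intro h _ a _ b
        rw [← b] at a
        rw [q.2.injective a] at h
        omega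
      · intro _ h
        omega
      · exact hq.1 x x' y y'
      · intro _ h a b
        rw [← a, ← b] at h
        omega
      · intro _ h
        omega
      · intro h
        omega
      · intro h
        omega
      · intro h
        omega
      · intro h
        omega
      · exact hq.2 x x' y y'
      · intro _ h
        omega)
    (fun q _ q' _ e => by
      have e1 : ∀ x y, glue q.1.1 q.1.2 q.2 x y = glue q'.1.1 q'.1.2 q'.2 x y :=
        fun x y => congrFun (congrFun e x) y
      refine Prod.ext (Prod.ext ?_ ?_) ?_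
      · funext x y
        simpa only [glue, Fin.addCases_left, Fin.addCases_right] using
          e1 (Fin.castAdd N x) (Fin.natAdd N y)
      · funext x y
        simpa only [glue, Fin.addCases_left, Fin.addCases_right] using
          e1 (Fin.natAdd N x) (Fin.castAdd N y)
      · ext x
        have := e1 (Fin.castAdd N x) (Fin.castAdd N (q.2 x))
        simp [glue] at this
        rw [this])
  simpa [Fintype.card_perm] using this

theorem gf_lower (i : ℕ) : 2 ^ (2 ^ (i + 2) * ((i + 1) * i)) ≤ (gf (2 ^ (i + 2))).card ^ 8 := by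
  induction i with
  | zero =>
    have : 0 < (gf (2 ^ (0 + 2))).card := by
      classical
      exact card_pos.2 ⟨fun _ _ => true, mem_filter.2 ⟨mem_univ _, fun _ _ _ _ _ _ _ _ _ => rfl⟩⟩
    simpa using Nat.one_le_pow 8 _ this
  | succ i ih =>
    have h1 := gf_step (2 ^ (i + 2))
    rw [show 2 ^ (i + 2) + 2 ^ (i + 2) = 2 ^ (i + 1 + 2) by ring] at h1
    have h2 : (2 ^ (i + 1)) ^ 2 ^ (i + 1) ≤ (2 ^ (i + 2)).factorial := by
      have := Nat.factorial_mul_pow_le_factorial (m := 2 ^ (i + 1)) (n := 2 ^ (i + 1))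
      rw [show 2 ^ (i + 1) + 2 ^ (i + 1) = 2 ^ (i + 2) by ring] at this
      refine le_trans ?_ this
      exact (Nat.pow_le_pow_left (Nat.le_succ _) _).trans
        (Nat.le_mul_of_pos_left _ (Nat.factorial_pos _))
    refine le_trans ?_ (Nat.pow_le_pow_left h1 8)
    rw [mul_pow, mul_pow]
    refine le_trans (le_of_eq ?_) (Nat.mul_le_mul (Nat.mul_le_mul ih ih)
      (Nat.pow_le_pow_left h2 8))
    rw [← pow_mul, ← pow_mul, ← pow_add, ← pow_add]
    congr 1
    ring

theorem exists_gf (R : (N : ℕ) → (Fin N → Fin N → Bool) → Fin N ⊕ Fin N → Fin N ⊕ Fin N → Prop)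
    (hR : ∀ N M x y, R N M (Sum.inl x) (Sum.inr y) ↔ M x y = true) :
    ∃ (N : ℕ) (M : Fin N → Fin N → Bool), GF M ∧ ¬ Form (R N M) := by
  classical
  by_contra hc
  push Not at hc
  have key : ∀ i : ℕ, (i + 1) * i ≤ 272 * (i + 2) + 336 := by
    intro i
    have h1 := gf_lower i
    have h2 := form_count (gf (2 ^ (i + 2))) (R _) (fun M hM => hc _ M (mem_filter.1 hM).2)
      (fun M _ M' _ h => by
        funext x y
        have := h (Sum.inl x) (Sum.inr y) (by simp)
        rw [hR, hR] at this
        exact Bool.eq_iff_iff.2 this)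
    have e : Fintype.card (Fin (2 ^ (i + 2)) ⊕ Fin (2 ^ (i + 2))) = 2 ^ (i + 3) := by
      simp only [Fintype.card_sum, Fintype.card_fin]
      ring
    rw [e] at h2
    have h3 : (2 ^ (i + 3)) ^ 4 + (2 ^ (i + 3)) ^ 2 + 1 ≤ 2 ^ (4 * (i + 3) + 1) := by
      have a : 2 ^ (4 * (i + 3) + 1) = 2 * (2 ^ (i + 3)) ^ 4 := by ring
      have b : 1 < 2 ^ (i + 3) := Nat.one_lt_two_pow (by omega)
      have c := Nat.pow_lt_pow_right b (show 2 < 4 by norm_num)
      omega
    have h4 := h1.trans (Nat.pow_le_pow_left (h2.trans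
      (Nat.mul_le_mul_left _ (Nat.pow_le_pow_left h3 _))) 8)
    rw [← pow_mul, ← pow_mul, ← pow_add, ← pow_mul] at h4
    have h5 := (Nat.pow_le_pow_iff_right (by norm_num)).1 h4
    have p : 0 < 2 ^ (i + 2) := by positivity
    refine Nat.le_of_mul_le_mul_left (h5.trans (le_of_eq ?_)) p
    ring
  exact absurd (key 300) (by norm_num)

theorem gf_cycle {N k : ℕ} {M : Fin N → Fin N → Bool} (hM : GF M) (u w : Fin (k + 3) → Fin N)
    (h : ∀ i j, M (u i) (w j) = true ↔ i = j ∨ i = j + 1) : False := by
  have n1 : ∀ j : Fin (k + 3), j ≠ j + 1 := fun j e => by simp at e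
  have n2 : ∀ j : Fin (k + 3), j ≠ j + 1 + 1 := fun j e => by
    rw [add_assoc, left_eq_add] at e
    have := congrArg Fin.val e
    simp [Fin.val_add, Nat.mod_eq_of_lt] at this
  obtain ⟨i, _, hi⟩ := exists_min_image univ u univ_nonempty
  obtain ⟨j, rfl⟩ : ∃ j, i = j + 1 := ⟨i - 1, by simp⟩
  have a1 : M (u (j + 1)) (w j) = true := (h _ _).2 (Or.inr rfl)
  have a2 : M (u (j + 1)) (w (j + 1)) = true := (h _ _).2 (Or.inl rfl)
  have a3 : M (u j) (w j) = true := (h _ _).2 (Or.inl rfl)
  have a4 : M (u (j + 1 + 1)) (w (j + 1)) = true := (h _ _).2 (Or.inr rfl)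
  have b1 : ¬ M (u j) (w (j + 1)) = true := by
    rw [h]
    exact fun e => e.elim (n1 j) (n2 j)
  have b2 : ¬ M (u (j + 1 + 1)) (w j) = true := by
    rw [h]
    exact fun e => e.elim (n2 j).symm (n1 (j + 1)).symm
  rcases lt_trichotomy (w j) (w (j + 1)) with c | c | c
  · refine b1 (hM _ _ _ _ (lt_of_le_of_ne (hi _ (mem_univ _)) fun e => b1 (e ▸ a2)) c a1 a2 a3)
  · exact b1 (c ▸ a3)
  · refine b2 (hM _ _ _ _ (lt_of_le_of_ne (hi _ (mem_univ _)) fun e => b2 (e ▸ a1)) c a2 a1 a4)

section Tree

variable {T : Type} [MetricSpace T]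
  (geo : ∀ (p q : T) (s : ℝ), 0 ≤ s → s ≤ dist p q → ∃ z, dist p z = s ∧ dist z q = dist p q - s)
  (four : ∀ a b c d : T, dist a b + dist c d ≤ max (dist a c + dist b d) (dist a d + dist b c))

open Metric

include geo four in
theorem recenter [CompactSpace T] (c : T) (r : ℝ) (hr : 0 ≤ r) :
    ∃ (e p q : T) (s : ℝ), closedBall c r = closedBall e s ∧ dist p e ≤ s ∧ dist q e ≤ s ∧
      dist p q = 2 * s := by
  have hc : IsCompact (closedBall c r ×ˢ closedBall c r) :=
    isClosed_closedBall.isCompact.prod isClosed_closedBall.isCompact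
  obtain ⟨⟨p, q⟩, ⟨hp, hq⟩, hm⟩ := hc.exists_isMaxOn
    ⟨(c, c), mem_closedBall_self hr, mem_closedBall_self hr⟩
    (f := fun x : T × T => dist x.1 x.2) (by fun_prop)
  obtain ⟨e, h1, h2⟩ := geo p q (dist p q / 2) (by positivity) (by linarith [dist_nonneg (x := p) (y := q)])
  rw [mem_closedBall] at hp hq
  dsimp only at hp hq
  refine ⟨e, p, q, dist p q / 2, ?_, h1.le, by rw [dist_comm]; linarith, by ring⟩
  ext z
  simp only [mem_closedBall]
  constructor
  · intro hz
    have a : dist q z ≤ dist p q := by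
      have : dist q z ≤ dist p q := hm (show (q, z) ∈ closedBall c r ×ˢ closedBall c r from ⟨hq, hz⟩)
      exact this
    have b : dist p z ≤ dist p q :=
      hm (show (p, z) ∈ closedBall c r ×ˢ closedBall c r from ⟨hp, hz⟩)
    rw [dist_comm e q] at h2
    rw [dist_comm]
    rcases le_max_iff.1 (four p q e z) with h | h <;> linarith
  · intro hz
    rw [dist_comm e q] at h2
    have := dist_triangle z e c
    rw [dist_comm e c] at this
    rcases le_max_iff.1 (four p q c e) with h | h <;> linarith

include four in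
theorem far (c e p q : T) (r : ℝ) (hp : dist p c ≤ r) (hq : dist q c ≤ r) (h : dist p q = 2 * r) :
    ∃ a, dist a c = r ∧ dist a e = r + dist c e := by
  have a := dist_triangle p c e
  have b := dist_triangle q c e
  rcases le_max_iff.1 (four p q c e) with k | k
  · exact ⟨q, by linarith, by linarith⟩
  · exact ⟨p, by linarith, by linarith⟩

include geo four in
theorem diam_iff [CompactSpace T] (c e p q u v : T) (r s τ : ℝ) (hτ : 0 < τ)
    (hp : dist p c ≤ r) (hq : dist q c ≤ r) (h : dist p q = 2 * r)
    (hu : dist u e ≤ s) (hv : dist v e ≤ s) (k : dist u v = 2 * s) :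
    ((closedBall c r ∩ closedBall e s).Nonempty ∧ τ ≤ diam (closedBall c r ∩ closedBall e s)) ↔
      τ ≤ min (min (2 * r) (2 * s)) (r + s - dist c e) := by
  constructor
  · rintro ⟨h1, h2⟩
    refine h2.trans (diam_le_of_forall_dist_le_of_nonempty h1 ?_)
    rintro x ⟨x1, x2⟩ y ⟨y1, y2⟩
    rw [mem_closedBall] at x1 x2 y1 y2
    refine le_min (le_min ?_ ?_) ?_
    · linarith [dist_triangle_right x y c]
    · linarith [dist_triangle_right x y e]
    · rcases le_max_iff.1 (four x y c e) with m | m <;> linarith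
  · intro m
    obtain ⟨m1, m3⟩ := le_min_iff.1 m
    obtain ⟨m1, m2⟩ := le_min_iff.1 m1
    have hb : Bornology.IsBounded (closedBall c r ∩ closedBall e s) :=
      isBounded_closedBall.subset Set.inter_subset_left
    suffices ∃ x ∈ closedBall c r ∩ closedBall e s, ∃ y ∈ closedBall c r ∩ closedBall e s,
        τ ≤ dist x y by
      obtain ⟨x, hx, y, hy, m⟩ := this
      exact ⟨⟨x, hx⟩, m.trans (dist_le_diam_of_mem hb hx hy)⟩
    simp only [Set.mem_inter_iff, mem_closedBall]
    by_cases hce : c = e
    · subst hce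
      rcases le_total r s with l | l
      · exact ⟨p, ⟨hp, hp.trans l⟩, q, ⟨hq, hq.trans l⟩, by linarith⟩
      · exact ⟨u, ⟨hu.trans l, hu⟩, v, ⟨hv.trans l, hv⟩, by linarith⟩
    have hD := dist_pos.2 hce
    obtain ⟨a, a1, a2⟩ := far four c e p q r hp hq h
    obtain ⟨b, b1, b2⟩ := far four e c u v s hu hv k
    rw [dist_comm e c] at b2
    have hL : dist a b = r + s + dist c e := by
      have t1 := dist_triangle_right a b e
      have t2 := four a e c b
      rw [dist_comm c b, dist_comm e b, dist_comm e c] at t2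
      rcases le_max_iff.1 t2 with m | m <;> linarith
    have pt : ∀ x, 0 ≤ x → x ≤ 2 * r → r + dist c e - s ≤ x → x ≤ dist a b →
        ∃ z, dist a z = x ∧ dist z c ≤ r ∧ dist z e ≤ s := by
      intro x x0 x1 x2 x3
      obtain ⟨z, z1, z2⟩ := geo a b x x0 x3
      rw [dist_comm z b] at z2
      refine ⟨z, z1, ?_, ?_⟩
      · rcases le_max_iff.1 (four a b z c) with m | m <;> linarith
      · rcases le_max_iff.1 (four a b z e) with m | m <;> linarith
    obtain ⟨x, x1, x2⟩ := pt (max 0 (r + dist c e - s)) (le_max_left _ _)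
      (max_le (by linarith) (by linarith)) (le_max_right _ _) (max_le (by linarith) (by linarith))
    obtain ⟨y, y1, y2⟩ := pt (min (2 * r) (dist a b)) (le_min (by linarith) (by linarith))
      (min_le_left _ _) (le_min (by linarith) (by linarith)) (min_le_right _ _)
    refine ⟨x, x2, y, y2, ?_⟩
    have t := dist_triangle a x y
    rcases max_cases 0 (r + dist c e - s) with m | m <;>
      rcases min_cases (2 * r) (dist a b) with n | n <;> linarith [m.1, n.1]

include four in
theorem form_of {V : Type} (R : V → V → Prop) (c : V → T) (r t : V → ℝ)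
    (h : ∀ x y, x ≠ y → (R x y ↔
      min (t x) (t y) ≤ min (min (2 * r x) (2 * r y)) (r x + r y - dist (c x) (c y)))) :
    Form R := by
  rcases isEmpty_or_nonempty V with hV | ⟨⟨o⟩⟩
  · exact ⟨fun _ _ => 0, r, r, t, fun _ _ => rfl, fun x => isEmptyElim x, fun x => isEmptyElim x⟩
  refine ⟨fun x y => dist (c x) (c y), fun x => dist (c x) (c o), r, t,
    fun x y => dist_comm _ _, fun x y z => ?_, h⟩
  have := four (c x) (c z) (c y) (c o)
  rwa [dist_comm (c z) (c y), add_comm (dist (c x) (c o))] at this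

end Tree

end Pool.Agent.H7.Nest
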