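import Mathlib
import Pool.Agent.H31.HyperRamsey

set_option autoImplicit false

namespace Pool.Agent.H7.Nest2

theorem hex {P : Type} (w : P → P → ℝ) (hs : ∀ x y, w x y = w y x)
    (hu : ∀ x y z, min (w x y) (w y z) ≤ w x z) (x y : Fin 3 → P) (A B : Fin 3 → ℝ)
    (h1 : ∀ i j, i ≠ j → A i + B j ≤ w (x i) (y j)) (h2 : ∀ i, w (x i) (y i) < A i + B i) :
    False := by
  have key : ∀ i j k, i ≠ j → k ≠ j → k ≠ i → B j < B i ∨ A k < A i := by
    intro i j k a b c
    by_contra hc
    push Not at hc
    have e1 := h1 i j a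
    have e2 := h1 k j b
    have e3 := h1 k i c
    have e4 := h2 i
    have e5 := hu (x i) (y j) (x k)
    have e6 := hu (x i) (x k) (y i)
    rw [hs (y j)] at e5
    rcases min_le_iff.1 e5 with f | f <;> rcases min_le_iff.1 e6 with g | g <;> linarith
  have k1 := key 0 1 2 (by decide) (by decide) (by decide)
  have k2 := key 0 2 1 (by decide) (by decide) (by decide)
  have k3 := key 1 0 2 (by decide) (by decide) (by decide)
  have k4 := key 1 2 0 (by decide) (by decide) (by decide)
  have k5 := key 2 0 1 (by decide) (by decide) (by decide)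
  have k6 := key 2 1 0 (by decide) (by decide) (by decide)
  rcases k1 with k1 | k1 <;> rcases k2 with k2 | k2 <;> rcases k3 with k3 | k3 <;>
    rcases k4 with k4 | k4 <;> rcases k5 with k5 | k5 <;> rcases k6 with k6 | k6 <;> linarith

/-- Vertices: points and three-sided rectangles. -/
abbrev Vx (N : ℕ) : Type := (Fin N × Fin N) ⊕ (Fin N × Fin N × Fin N)

/-- Left endpoints. -/
def la (N : ℕ) : Vx N → ℝ
  | Sum.inl y => 2 * N * (y.2 : ℕ) + N
  | Sum.inr x => 2 * N * (x.2.1 : ℕ)

/-- Right endpoints. -/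
def rb (N : ℕ) : Vx N → ℝ
  | Sum.inl y => 2 * N * (y.2 : ℕ) + 2 * N - (y.1 : ℕ)
  | Sum.inr x => max (2 * N * (x.2.1 : ℕ) + 1) (2 * N * (x.2.2 : ℕ) + 2 * N - (x.1 : ℕ))

/-- Tolerances. -/
def tl (N : ℕ) : Vx N → ℝ
  | Sum.inl _ => N + 1
  | Sum.inr x => N - (x.1 : ℕ)

theorem fin_lt {N : ℕ} (i : Fin N) : ((i : ℕ) : ℝ) + 1 ≤ N := by exact_mod_cast i.2

theorem la_lt (N : ℕ) (v : Vx N) : la N v < rb N v := by
  rcases v with y | x
  · simp only [la, rb]
    linarith [fin_lt y.1]
  · simp only [la, rb]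
    exact lt_max_of_lt_left (by linarith)

theorem tl_pos (N : ℕ) (v : Vx N) : 0 < tl N v := by
  rcases v with y | x
  · simp only [tl]
    positivity
  · simp only [tl]
    linarith [fin_lt x.1]

theorem adj_iff (N : ℕ) (α β p l q : Fin N) (h : l ≤ q) :
    min (tl N (Sum.inr (p, l, q))) (tl N (Sum.inl (α, β))) ≤
      min (rb N (Sum.inr (p, l, q))) (rb N (Sum.inl (α, β))) -
        max (la N (Sum.inr (p, l, q))) (la N (Sum.inl (α, β))) ↔ α ≤ p ∧ l ≤ β ∧ β ≤ q := by
  have a1 := fin_lt α
  have a2 := fin_lt p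
  have a3 : (0 : ℝ) ≤ (α : ℕ) := by positivity
  have a4 : (0 : ℝ) ≤ (p : ℕ) := by positivity
  have mono : ∀ u v : Fin N, u ≤ v → (2 * N * (u : ℕ) : ℝ) ≤ 2 * N * (v : ℕ) := fun u v e => by
    have : ((u : ℕ) : ℝ) ≤ (v : ℕ) := by exact_mod_cast e
    gcongr
  have mono' : ∀ u v : Fin N, u < v → (2 * N * (u : ℕ) + 2 * N : ℝ) ≤ 2 * N * (v : ℕ) :=
    fun u v e => by
      have : ((u : ℕ) : ℝ) + 1 ≤ (v : ℕ) := by exact_mod_cast e
      have n : (0 : ℝ) ≤ N := by positivity
      nlinarith
  have b := mono l q h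
  simp only [la, rb, tl]
  rw [min_eq_left (by linarith), max_eq_right (by linarith), le_sub_iff_add_le, le_min_iff,
    ← max_add_add_left, max_le_iff, max_le_iff]
  constructor
  · rintro ⟨⟨-, c1⟩, c2, c3⟩
    refine ⟨?_, not_lt.1 fun e => ?_, not_lt.1 fun e => ?_⟩
    · have : ((α : ℕ) : ℝ) ≤ (p : ℕ) := by linarith
      exact_mod_cast this
    · linarith [mono' _ _ e]
    · linarith [mono' _ _ e]
  · rintro ⟨c1, c2, c3⟩
    have : ((α : ℕ) : ℝ) ≤ (p : ℕ) := by exact_mod_cast c1
    have := mono _ _ c2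
    have := mono _ _ c3
    refine ⟨⟨?_, ?_⟩, ?_, ?_⟩ <;> linarith

theorem core : ∃ N : ℕ, ∀ (d : Vx N → Vx N → ℝ) (D r t : Vx N → ℝ), (∀ x y, d x y = d y x) →
    (∀ x y z, d x z + D y ≤ max (d x y + D z) (d y z + D x)) →
    (∀ x y, x ≠ y → (min (tl N x) (tl N y) ≤ min (rb N x) (rb N y) - max (la N x) (la N y) ↔
      min (t x) (t y) ≤ r x + r y - d x y)) → False := by
  classical
  obtain ⟨R, hR⟩ := Pool.Agent.H31.HyperRamsey.indisc Prop 5 11
  refine ⟨R + 1, fun d D r t h1 h2 h3 => ?_⟩
  obtain ⟨τ, hτ, -, hh⟩ := hR (Fin (R + 1)) Finset.univ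
    (fun f => t (Sum.inr (f 1, f 2, f 4)) ≤ t (Sum.inl (f 0, f 3))) (by simp)
  have hm : ∀ i j, i < 11 → j < 11 → (τ i ≤ τ j ↔ i ≤ j) := fun i j a b => hτ.le_iff_le a b
  have col : ∀ a p l b q : ℕ, a < p → p < l → l < b → b < q → q < 11 →
      (t (Sum.inr (τ p, τ l, τ q)) ≤ t (Sum.inl (τ a, τ b)) ↔
        t (Sum.inr (τ 1, τ 2, τ 4)) ≤ t (Sum.inl (τ 0, τ 3))) := by
    intro a p l b q e1 e2 e3 e4 e5
    have := hh (fun i => if i = 0 then a else if i = 1 then p else if i = 2 then l else
      if i = 3 then b else q + (i - 4)) id (strictMono_nat_of_lt_succ fun i => by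
        split_ifs <;> first | contradiction | omega) strictMono_id (fun i hi => by split_ifs <;> omega)
      (fun i hi => by simp only [id]; omega)
    simpa using this
  let X : Fin 3 → ℕ × ℕ × ℕ := ![(1, 4, 10), (3, 4, 8), (3, 6, 10)]
  let Y : Fin 3 → ℕ × ℕ := ![(2, 7), (0, 9), (0, 5)]
  let x : Fin 3 → Vx (R + 1) := fun i => Sum.inr (τ (X i).1, τ (X i).2.1, τ (X i).2.2)
  let y : Fin 3 → Vx (R + 1) := fun i => Sum.inl (τ (Y i).1, τ (Y i).2)
  have adj : ∀ i j, min (t (x i)) (t (y j)) ≤ r (x i) + r (y j) - d (x i) (y j) ↔ i ≠ j := by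
    intro i j
    rw [← h3 _ _ (by simp [x, y]), adj_iff _ _ _ _ _ _ ((hm _ _ (by revert i; decide)
      (by revert i; decide)).2 (by revert i; decide)),
      hm _ _ (by revert j; decide) (by revert i; decide),
      hm _ _ (by revert i; decide) (by revert j; decide),
      hm _ _ (by revert j; decide) (by revert i; decide)]
    revert i j
    decide
  have col' : ∀ i j, i ≠ j → (t (x i) ≤ t (y j) ↔
      t (Sum.inr (τ 1, τ 2, τ 4)) ≤ t (Sum.inl (τ 0, τ 3))) := by
    intro i j hij
    refine col _ _ _ _ _ ?_ ?_ ?_ ?_ ?_ <;> revert i j <;> decide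
  have hs : ∀ u v, D u + D v - d u v = D v + D u - d v u := fun u v => by rw [h1, add_comm]
  have hu : ∀ u v z, min (D u + D v - d u v) (D v + D z - d v z) ≤ D u + D z - d u z := by
    intro u v z
    rcases le_max_iff.1 (h2 u v z) with h | h
    · exact (min_le_left _ _).trans (by linarith)
    · exact (min_le_right _ _).trans (by linarith)
  by_cases hc : t (Sum.inr (τ 1, τ 2, τ 4)) ≤ t (Sum.inl (τ 0, τ 3))
  · refine hex (fun u v => D u + D v - d u v) hs hu x y
      (fun i => D (x i) - r (x i) + t (x i)) (fun i => D (y i) - r (y i)) (fun i j hij => ?_)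
      (fun i => ?_)
    · have := (adj i j).2 hij
      rw [min_eq_left ((col' i j hij).2 hc)] at this
      linarith
    · have := (not_le.1 (mt (adj i i).1 (by simp))).trans_le (min_le_left _ _)
      linarith
  · refine hex (fun u v => D u + D v - d u v) hs hu x y
      (fun i => D (x i) - r (x i)) (fun i => D (y i) - r (y i) + t (y i)) (fun i j hij => ?_)
      (fun i => ?_)
    · have := (adj i j).2 hij
      rw [min_eq_right (not_le.1 (mt (col' i j hij).1 hc)).le] at this
      linarith
    · have := (not_le.1 (mt (adj i i).1 (by simp))).trans_le (min_le_right _ _)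
      linarith

section Tree

open SimpleGraph

variable {U : Type} [DecidableEq U] {T : SimpleGraph U} (hT : T.IsTree) {w : Sym2 U → ℝ}
  (hw : ∀ e ∈ T.edgeSet, 0 < w e) {d : U → U → ℝ}
  (hd : ∀ (x y : U) (p : T.Walk x y), p.IsPath → d x y = (p.edges.map w).sum)

/-- `c` lies on the side of `a` of the edge `a a'`. -/
def Side (T : SimpleGraph U) (c a a' : U) : Prop := ∃ p : T.Walk c a, p.IsPath ∧ a' ∉ p.support

include hT in
theorem path_edge {a b : U} (h : T.Adj a b) (p : T.Walk a b) : s(a, b) ∈ p.edges := by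
  have := (hT.isAcyclic.subsingleton_path a b).elim p.toPath
    ⟨Walk.cons h Walk.nil, by simp [h.ne]⟩
  refine p.edges_toPath_subset_edges ?_
  rw [this]
  simp

include hT in
theorem side_or {a b : U} (h : T.Adj a b) (c : U) : Side T c a b ∨ Side T c b a := by
  obtain ⟨p, hp⟩ := hT.connected.exists_isPath c a
  by_cases hb : b ∈ p.support
  · refine Or.inr ⟨p.takeUntil b hb, hp.takeUntil hb, fun ha => ?_⟩
    have h1 := hp.support_nodup
    rw [← p.take_spec hb, Walk.support_append, List.nodup_append] at h1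
    exact h1.2.2 a ha a (Walk.end_mem_tail_support
      (Walk.not_nil_of_ne h.ne.symm)) rfl
  · exact Or.inl ⟨p, hp, hb⟩

include hT hd in
theorem side_dist {a b c e : U} (h : T.Adj a b) (h1 : Side T c a b) (h2 : Side T e b a) :
    d c e = d c a + w s(a, b) + d e b := by
  obtain ⟨p, hp, hb⟩ := h1
  obtain ⟨q, hq, ha⟩ := h2
  have : (p.append (Walk.cons h q.reverse)).IsPath := by
    rw [Walk.isPath_def, Walk.support_append, List.nodup_append]
    refine ⟨hp.support_nodup, by simpa using hq.support_nodup, fun v hv v' hv' e' => ?_⟩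
    subst e'
    have hv2 : v ∈ q.support := by simpa using hv'
    have := path_edge hT h ((p.dropUntil v hv).reverse.append (q.dropUntil v hv2))
    rw [Walk.edges_append, List.mem_append, Walk.edges_reverse, List.mem_reverse] at this
    rcases this with m | m
    · exact hb (p.support_dropUntil_subset_support hv (Walk.snd_mem_support_of_mem_edges _ m))
    · exact ha (q.support_dropUntil_subset_support hv2 (Walk.fst_mem_support_of_mem_edges _ m))
  rw [hd _ _ _ this, hd _ _ p hp, hd _ _ q hq]
  simp [add_assoc, List.sum_reverse]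

include hd in
theorem d_self (a : U) : d a a = 0 := by simpa using hd a a Walk.nil Walk.IsPath.nil

include hT hd in
theorem d_comm (a b : U) : d a b = d b a := by
  obtain ⟨p, hp⟩ := hT.connected.exists_isPath a b
  rw [hd _ _ p hp, hd _ _ p.reverse hp.reverse]
  simp [List.sum_reverse]

theorem side_self {a b : U} (h : T.Adj a b) : Side T a a b :=
  ⟨Walk.nil, Walk.IsPath.nil, by simpa using h.ne.symm⟩

include hT hd in
theorem side_step {a b c : U} (h : T.Adj a b) (h1 : Side T c a b) : d c b = d c a + w s(a, b) := by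
  rw [side_dist hT hd h h1 (side_self h.symm), d_self hd, add_zero]

include hT hw hd in
theorem d_nonneg (a b : U) : 0 ≤ d a b := by
  obtain ⟨p, hp⟩ := hT.connected.exists_isPath a b
  rw [hd _ _ p hp]
  refine List.sum_nonneg fun x hx => ?_
  obtain ⟨e, he, rfl⟩ := List.mem_map.1 hx
  exact (hw e (p.edges_subset_edgeSet he)).le

include hT hw hd in
theorem d_tri (a b c : U) : d a b ≤ d c a + d c b := by
  obtain ⟨p, hp⟩ := hT.connected.exists_isPath a b
  induction p with
  | nil => rw [d_self hd]; linarith [d_nonneg hT hw hd c ‹U›]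
  | @cons a a' b h q ih =>
    rw [Walk.cons_isPath_iff] at hp
    have s : Side T b a' a := ⟨q.reverse, hp.1.reverse, by simpa using hp.2⟩
    have e1 := side_step hT hd h.symm s
    have e2 := ih hp.1
    rw [d_comm hT hd a b, d_comm hT hd a' b] at *
    rcases side_or hT h c with m | m
    · have := side_dist hT hd h m s
      rw [Sym2.eq_swap] at this
      linarith [d_nonneg hT hw hd c a]
    · linarith [side_step hT hd h.symm m]

include hT hw hd in
theorem d_four (a b c e : U) : d a b + d c e ≤ max (d c a + d e b) (d e a + d c b) := by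
  obtain ⟨p, hp⟩ := hT.connected.exists_isPath a b
  induction p with
  | @nil u =>
    rw [d_self hd, zero_add]
    refine le_max_of_le_left ?_
    rw [d_comm hT hd c u, d_comm hT hd e u]
    exact d_tri hT hw hd _ _ _
  | @cons a a' b h q ih =>
    rw [Walk.cons_isPath_iff] at hp
    have s : Side T b a' a := ⟨q.reverse, hp.1.reverse, by simpa using hp.2⟩
    have e1 := side_step hT hd h.symm s
    have e2 := ih hp.1
    have e3 := d_tri hT hw hd c e a
    rw [d_comm hT hd a c, d_comm hT hd a e] at e3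
    rw [d_comm hT hd a b, d_comm hT hd a' b] at *
    rcases side_or hT h c with m | m
    · have := side_dist hT hd h m s
      rw [Sym2.eq_swap] at this
      exact le_max_of_le_right (by linarith)
    rcases side_or hT h e with n | n
    · have := side_dist hT hd h n s
      rw [Sym2.eq_swap] at this
      exact le_max_of_le_left (by linarith)
    have := side_step hT hd h.symm m
    have := side_step hT hd h.symm n
    rcases le_max_iff.1 e2 with k | k
    · exact le_max_of_le_left (by linarith)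
    · exact le_max_of_le_right (by linarith)

include hT hd in
theorem next {a b : U} (h : a ≠ b) : ∃ v, T.Adj a v ∧ Side T b v a := by
  obtain ⟨p, hp⟩ := hT.connected.exists_isPath a b
  cases p with
  | nil => exact absurd rfl h
  | cons h q =>
    rw [Walk.cons_isPath_iff] at hp
    exact ⟨_, h, q.reverse, hp.1.reverse, by simpa using hp.2⟩

include hT hw hd in
theorem overlap [Fintype U] (c e : U) (r s : ℝ) (hW : d c e ≤ r + s)
    (hc : ∀ x y, T.Adj x y → d c x < r → d c y ≤ r) (he : ∀ x y, T.Adj x y → d e x < s → d e y ≤ s)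
    (z0 z1 : U) (a0 : d c z0 ≤ r) (b0 : s < d e z0) (a1 : r < d c z1) (b1 : d e z1 ≤ s) :
    ∃ u v, d c u ≤ r ∧ d e u ≤ s ∧ d c v ≤ r ∧ d e v ≤ s ∧ r + s - d c e ≤ d u v := by
  obtain ⟨⟨z, z'⟩, hz, hmin⟩ := Finset.exists_min_image
    (Finset.univ.filter fun p : U × U => d c p.1 ≤ r ∧ s < d e p.1 ∧ r < d c p.2 ∧ d e p.2 ≤ s)
    (fun p => d p.1 p.2) ⟨(z0, z1), by simp [*]⟩
  simp only [Finset.mem_filter, Finset.mem_univ, true_and, Prod.forall] at hz hmin
  obtain ⟨a0, b0, a1, b1⟩ := hz
  have hne : z ≠ z' := fun h => by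
    rw [h] at a0
    linarith
  have cm := d_comm hT hd
  have f0 : d c z' + d e z ≤ d c e + d z z' := by
    have := d_four hT hw hd z' c z e
    rw [cm z' c, cm z e, cm e c, cm z c] at this
    rcases le_max_iff.1 this with k | k <;> linarith
  have mid : ∀ v, d z v + d v z' ≤ d z z' → d c v ≤ r ∨ d e v ≤ s := by
    intro v hv
    by_contra hn
    push Not at hn
    have g1 := d_four hT hw hd z z' c v
    have g2 := d_four hT hw hd z z' e v
    rw [cm v z] at g1 g2
    have := d_nonneg hT hw hd z v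
    have := d_nonneg hT hw hd v z'
    rcases le_max_iff.1 g1 with k | k <;> rcases le_max_iff.1 g2 with k' | k' <;> linarith
  have stp : ∀ x y o ρ, T.Adj x y → (d o y < ρ → d o x ≤ ρ) → ρ < d o x → d o y ≤ ρ →
      d o x = ρ + w s(x, y) := by
    intro x y o ρ h k1 k2 k3
    have k4 : d o y = ρ := le_antisymm k3 (not_lt.1 fun k => absurd (k1 k) (not_le.2 k2))
    have := hw s(x, y) h
    rcases side_or hT h o with m | m
    · linarith [side_step hT hd h m]
    · rw [side_step hT hd h.symm m, k4, Sym2.eq_swap]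
  obtain ⟨u, hu, su⟩ := next hT hd hne
  obtain ⟨v, hv, sv⟩ := next hT hd hne.symm
  have wu := hw s(z, u) hu
  have wv := hw s(z', v) hv
  have du := side_step hT hd hu.symm su
  have dv := side_step hT hd hv.symm sv
  have eu := side_step hT hd hu (side_self hu)
  have ev := side_step hT hd hv (side_self hv)
  rw [d_self hd, zero_add] at eu ev
  rw [Sym2.eq_swap] at du dv
  rw [cm z' z, cm z' u] at du
  have ue : d e u ≤ s := by
    by_contra k
    have := hmin u z' ⟨(mid u (by linarith)).resolve_right k, not_le.1 k, a1, b1⟩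
    linarith
  have vc : d c v ≤ r := by
    by_contra k
    have := hmin z v ⟨a0, b0, not_le.1 k, (mid v (by rw [cm v z']; linarith)).resolve_left k⟩
    linarith
  have p1 := stp z u e s hu (he _ _ hu.symm) b0 ue
  have p2 := stp z' v c r hv (hc _ _ hv.symm) a1 vc
  have uc : d c u ≤ r := by
    by_contra k
    have k1 := hmin z u ⟨a0, b0, not_le.1 k, ue⟩
    have k2 := d_nonneg hT hw hd u z'
    have k3 := d_four hT hw hd u c z e
    have k4 := stp u z c r hu.symm (hc _ _ hu) (not_le.1 k) a0
    rw [cm u c, cm z e, cm e c, cm z c, Sym2.eq_swap] at *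
    rcases le_max_iff.1 k3 with m | m <;> linarith
  have ve : d e v ≤ s := by
    by_contra k
    have k3 := d_four hT hw hd z' c v e
    have k4 := stp v z' e s hv.symm (he _ _ hv) (not_le.1 k) b1
    rw [cm z' c, cm v e, cm e c, cm v c, cm v z'] at k3
    rw [Sym2.eq_swap] at k4
    rcases le_max_iff.1 k3 with m | m <;> linarith
  refine ⟨u, v, uc, ue, vc, ve, ?_⟩
  have t1 := d_tri hT hw hd u z' v
  rw [cm v u, cm v z'] at t1
  linarith

end Tree

end Pool.Agent.H7.Nest2
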