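import Mathlib

set_option autoImplicit false

namespace Pool.Agent.H7.Patt

open Finset

def pat (a l : ℕ) (A B : Finset ℕ) : List Bool :=
  ((List.range' a l).filter fun j => decide (¬ (j ∈ A ↔ j ∈ B))).map fun j => decide (j ∈ A)

def rep (s : ℕ) : List Bool := (List.replicate s [true, false, false, true]).flatten

theorem rep_add (s t : ℕ) : rep (s + t) = rep s ++ rep t := by
  unfold rep; rw [List.replicate_add, List.flatten_append]

theorem pat_add (a l₁ l₂ : ℕ) (A B : Finset ℕ) :
    pat a (l₁ + l₂) A B = pat a l₁ A B ++ pat (a + l₁) l₂ A B := by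
  unfold pat
  rw [← List.range'_append_1, List.filter_append, List.map_append]

theorem pat_congr {a l : ℕ} {A B A' B' : Finset ℕ}
    (hA : ∀ j, a ≤ j → j < a + l → (j ∈ A ↔ j ∈ A')) (hB : ∀ j, a ≤ j → j < a + l → (j ∈ B ↔ j ∈ B')) :
    pat a l A B = pat a l A' B' := by
  unfold pat
  rw [List.filter_congr (q := fun j => decide (¬ (j ∈ A' ↔ j ∈ B')))]
  · refine List.map_congr_left fun j hj => ?_
    have := List.mem_range'_1.1 (List.mem_filter.1 hj).1
    simp [hA j this.1 this.2]
  · intro j hj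
    have := List.mem_range'_1.1 hj
    simp [hA j this.1 this.2, hB j this.1 this.2]

theorem pat_nil {a l : ℕ} {A B : Finset ℕ} (h : ∀ j, a ≤ j → j < a + l → (j ∈ A ↔ j ∈ B)) :
    pat a l A B = [] := by
  unfold pat
  rw [List.map_eq_nil_iff, List.filter_eq_nil_iff]
  intro j hj
  have := List.mem_range'_1.1 hj
  simp [h j this.1 this.2]

theorem filt_eq {a l : ℕ} {A B : Finset ℕ} (s : List ℕ) (hs : s.Pairwise (· < ·))
    (h : ∀ j, j ∈ s ↔ a ≤ j ∧ j < a + l ∧ ¬ (j ∈ A ↔ j ∈ B)) :
    pat a l A B = s.map fun j => decide (j ∈ A) := by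
  unfold pat
  congr 1
  refine List.Pairwise.eq_of_mem_iff (r := (· < ·)) ((List.pairwise_lt_range' 1).filter _) hs fun j => ?_
  rw [h, List.mem_filter, List.mem_range'_1]
  simp [and_assoc]

theorem pat_four {a l : ℕ} {A B : Finset ℕ} {p q r s : ℕ} (h1 : a ≤ p) (h2 : p < q) (h3 : q < r)
    (h4 : r < s) (h5 : s < a + l) (hp : p ∈ A) (hq : q ∉ A) (hr : r ∉ A) (hs : s ∈ A)
    (hp' : p ∉ B) (hq' : q ∈ B) (hr' : r ∈ B) (hs' : s ∉ B)
    (h : ∀ j, a ≤ j → j < a + l → j ≠ p → j ≠ q → j ≠ r → j ≠ s → (j ∈ A ↔ j ∈ B)) :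
    pat a l A B = rep 1 := by
  rw [filt_eq [p, q, r, s] (by simp; omega)]
  · simp [rep, hp, hq, hr, hs]
  · intro j
    simp only [List.mem_cons, List.not_mem_nil, or_false]
    constructor
    · rintro (rfl | rfl | rfl | rfl) <;> refine ⟨by omega, by omega, by tauto⟩
    · rintro ⟨h6, h7, h8⟩
      by_contra hc
      push Not at hc
      exact h8 (h j h6 h7 hc.1 hc.2.1 hc.2.2.1 hc.2.2.2)

/-- `B` arises from `A` by moving at most one element inside each block `β i`. -/
def Nb {c : ℕ} (L : ℕ) (β : Fin c → ℕ) (A B : Finset ℕ) (x y : Fin c → ℕ) : Prop :=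
  (∀ i, x i / L = β i ∧ y i / L = β i ∧ x i ∈ A ∧ y i ∈ B) ∧
    A \ univ.image x = B \ univ.image y ∧ A ≠ B

theorem iso {c n L m : ℕ} (β : Fin c → ℕ) (hβ : Function.Injective β) (F : Finset (Finset ℕ))
    (hF : ∀ A ∈ F, A ⊆ range n) (hm : ∀ A ∈ F, ∀ i, m ≤ (A.filter fun j => j / L = β i).card)
    (h : ∀ A ∈ F, ∀ B ∈ F, ∀ x y, ¬ Nb L β A B x y) : F.card * m ^ c ≤ 2 ^ n := by
  classical
  have he : ∀ A : Finset ℕ, ∀ i, ∃ e : Fin m → ℕ, A ∈ F →
      Function.Injective e ∧ ∀ t, e t ∈ A ∧ e t / L = β i := by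
    intro A i
    by_cases hA : A ∈ F
    · obtain ⟨S, hS, hc⟩ := exists_subset_card_eq (hm A hA i)
      refine ⟨fun t => ((S.equivFinOfCardEq hc).symm t : ℕ), fun _ => ⟨?_, fun t => ?_⟩⟩
      · exact Subtype.val_injective.comp (Equiv.injective _)
      · exact mem_filter.1 (hS ((S.equivFinOfCardEq hc).symm t).2)
    · exact ⟨fun _ => 0, fun h => absurd h hA⟩
  choose e he using he
  have := card_le_card_of_injOn (s := F ×ˢ (univ : Finset (Fin c → Fin m)))
    (t := (range n).powerset) (fun p => p.1 \ univ.image fun i => e p.1 i (p.2 i))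
    (fun p hp => by
      simp only [coe_powerset, Set.mem_preimage, Set.mem_powerset_iff, coe_subset]
      exact sdiff_subset.trans (hF _ (mem_product.1 hp).1))
    (by
      rintro ⟨A, u⟩ hp ⟨B, v⟩ hq hpq
      have hA : A ∈ F := (mem_product.1 hp).1
      have hB : B ∈ F := (mem_product.1 hq).1
      have hAB : A = B := by
        by_contra hne
        exact h A hA B hB _ _ ⟨fun i => ⟨((he A i hA).2 _).2, ((he B i hB).2 _).2,
          ((he A i hA).2 _).1, ((he B i hB).2 _).1⟩, hpq, hne⟩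
      subst hAB
      refine Prod.ext rfl (funext fun i => ?_)
      have h1 : e A i (u i) ∉ A \ univ.image fun i => e A i (v i) := by
        simp only at hpq
        rw [← hpq]; simp only [mem_sdiff, mem_image, mem_univ, true_and, not_and, not_not]
        exact fun _ => ⟨i, rfl⟩
      simp only [mem_sdiff, mem_image, mem_univ, true_and, not_and, not_not] at h1
      obtain ⟨k, hk⟩ := h1 ((he A i hA).2 _).1
      have : k = i := hβ (by rw [← ((he A k hA).2 (v k)).2, hk, ((he A i hA).2 _).2])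
      subst this
      exact ((he A k hA).1 hk).symm)
  simpa using this

theorem nb_mem {c L : ℕ} {β : Fin c → ℕ} {A B : Finset ℕ} {x y : Fin c → ℕ}
    (h : Nb L β A B x y) (j : ℕ) : j ∈ B ↔ (j ∈ A ∧ ∀ i, j ≠ x i) ∨ ∃ i, j = y i := by
  have h1 := Finset.ext_iff.1 h.2.1 j
  simp only [mem_sdiff, mem_image, mem_univ, true_and, not_exists] at h1
  constructor
  · intro hj
    by_cases h2 : ∃ i, j = y i
    · exact Or.inr h2
    · push Not at h2
      have := h1.2 ⟨hj, fun i e => h2 i e.symm⟩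
      exact Or.inl ⟨this.1, fun i e => this.2 i e.symm⟩
  · rintro (⟨h2, h3⟩ | ⟨i, rfl⟩)
    · exact (h1.1 ⟨h2, fun i e => h3 i e.symm⟩).1
    · exact (h.1 i).2.2.2

theorem nb_not {c L : ℕ} {β : Fin c → ℕ} (hβ : Function.Injective β) {A B : Finset ℕ}
    {x y : Fin c → ℕ} (h : Nb L β A B x y) (i : Fin c) (hne : x i ≠ y i) : y i ∉ A := by
  intro hy
  have h1 := Finset.ext_iff.1 h.2.1 (y i)
  simp only [mem_sdiff, mem_image, mem_univ, true_and, not_exists] at h1
  refine (h1.1 ⟨hy, fun k e => ?_⟩).2 i rfl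
  have : k = i := hβ (by rw [← (h.1 k).1, e, (h.1 i).2.1])
  subst this
  exact hne e

theorem exc (n L m b : ℕ) (hL : 0 < L) (hb : (b + 1) * L ≤ n) :
    ((range n).powerset.filter fun A => (A.filter fun j => j / L = b).card < m).card * 2 ^ L
      ≤ m * L ^ m * 2 ^ n := by
  set I := Ico (b * L) (b * L + L) with hI
  have hmem : ∀ j, j / L = b ↔ j ∈ I := fun j => by
    rw [hI, mem_Ico, Nat.div_eq_iff hL]; omega
  have hIc : I.card = L := by simp [hI]
  have hIs : I ⊆ range n := fun j hj => by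
    rw [hI, mem_Ico] at hj; rw [mem_range]; nlinarith
  have h1 := card_le_card_of_injOn
    (s := (range n).powerset.filter fun A => (A.filter fun j => j / L = b).card < m)
    (t := ((range m).biUnion fun i => powersetCard i I) ×ˢ (range n \ I).powerset)
    (fun A => (A.filter (fun j => j / L = b), A \ I))
    (fun A hA => by
      have hA' := mem_filter.1 (mem_coe.1 hA)
      refine mem_coe.2 (mem_product.2 ⟨mem_biUnion.2 ⟨_, mem_range.2 hA'.2, mem_powersetCard.2
        ⟨fun j hj => (hmem j).1 (mem_filter.1 hj).2, rfl⟩⟩, mem_powerset.2 ?_⟩)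
      exact sdiff_subset_sdiff (mem_powerset.1 hA'.1) Subset.rfl)
    (fun A _ B _ e => by
      simp only [Prod.mk.injEq, Finset.ext_iff, mem_filter, mem_sdiff, hmem] at e
      ext j
      have := e.1 j; have := e.2 j; tauto)
  have h2 : ((range m).biUnion fun i => powersetCard i I).card ≤ m * L ^ m := by
    refine card_biUnion_le.trans ?_
    calc ∑ i ∈ range m, (powersetCard i I).card ≤ ∑ i ∈ range m, L ^ m :=
          sum_le_sum fun i hi => by
            rw [card_powersetCard, hIc]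
            exact (Nat.choose_le_pow _ _).trans (Nat.pow_le_pow_right hL (mem_range.1 hi).le)
      _ = m * L ^ m := by simp
  rw [card_product, card_powerset, card_sdiff_of_subset hIs, card_range, hIc] at h1
  have h3 : 2 ^ n = 2 ^ (n - L) * 2 ^ L := by rw [← pow_add]; congr 1; have : L ≤ n := by nlinarith
                                              omega
  rw [h3, ← mul_assoc]
  exact Nat.mul_le_mul_right _ (h1.trans (Nat.mul_le_mul_right _ h2))

end Pool.Agent.H7.Patt
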