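import Pool.Agent.H7.Patt1

set_option autoImplicit false

namespace Pool.Agent.H7.Patt

open Finset

def blk {c M : ℕ} (g : ℕ) (T : Fin c → Fin M) (i : Fin c) : ℕ := (g * c + i) * M + T i

theorem blk_div {c M : ℕ} (g : ℕ) (T : Fin c → Fin M) (i : Fin c) : blk g T i / M = g * c + i := by
  have h := (T i).2
  unfold blk
  rw [Nat.div_eq_iff (by omega)]; omega

theorem blk_inj {c M : ℕ} (g : ℕ) (T : Fin c → Fin M) : Function.Injective (blk g T) := by
  intro i j e
  have h1 := blk_div g T i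
  rw [e, blk_div] at h1
  exact Fin.ext (by omega)

theorem two {c M L g : ℕ} (hL : 0 < L) (hM : 0 < M) {T U : Fin c → Fin M} {Y X Z : Finset ℕ}
    {x y z w : Fin c → ℕ} (hX : Nb L (blk g T) Y X x y) (hZ : Nb L (blk g U) Y Z z w)
    (h1 : ∀ i, x i < y i ↔ z i < w i) (h2 : ∀ i, y i < x i ↔ w i < z i)
    (h3 : ∀ i, x i < y i → U i < T i) (h4 : ∀ i, ¬ x i < y i → T i < U i) :
    ∃ l, 1 ≤ l ∧ l ≤ c ∧ pat (g * (c * (L * M))) (c * (L * M)) X Z = rep l ∧
      ∀ j, (j < g * (c * (L * M)) ∨ (g + 1) * (c * (L * M)) ≤ j) → (j ∈ X ↔ j ∈ Z) := by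
  have hLM : 0 < L * M := Nat.mul_pos hL hM
  have sx : ∀ i, x i / (L * M) = g * c + i := fun i => by
    rw [← Nat.div_div_eq_div_mul, (hX.1 i).1, blk_div]
  have sy : ∀ i, y i / (L * M) = g * c + i := fun i => by
    rw [← Nat.div_div_eq_div_mul, (hX.1 i).2.1, blk_div]
  have sz : ∀ i, z i / (L * M) = g * c + i := fun i => by
    rw [← Nat.div_div_eq_div_mul, (hZ.1 i).1, blk_div]
  have sw : ∀ i, w i / (L * M) = g * c + i := fun i => by
    rw [← Nat.div_div_eq_div_mul, (hZ.1 i).2.1, blk_div]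
  have rng : ∀ j s, j / (L * M) = s ↔ s * (L * M) ≤ j ∧ j < s * (L * M) + L * M := fun j s => by
    rw [Nat.div_eq_iff hLM]; omega
  have mX : ∀ (i : Fin c) j, j / (L * M) = g * c + i → (j ∈ X ↔ (j ∈ Y ∧ j ≠ x i) ∨ j = y i) := by
    intro i j hj
    rw [nb_mem hX]
    have e1 : ∀ k, j = x k → k = i := fun k e => Fin.ext (by have := sx k; rw [← e] at this; omega)
    have e2 : ∀ k, j = y k → k = i := fun k e => Fin.ext (by have := sy k; rw [← e] at this; omega)
    constructor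
    · rintro (⟨h, h'⟩ | ⟨k, hk⟩)
      · exact Or.inl ⟨h, h' i⟩
      · exact Or.inr (e2 k hk ▸ hk)
    · rintro (⟨h, h'⟩ | h)
      · exact Or.inl ⟨h, fun k e => h' (e1 k e ▸ e)⟩
      · exact Or.inr ⟨i, h⟩
  have mZ : ∀ (i : Fin c) j, j / (L * M) = g * c + i → (j ∈ Z ↔ (j ∈ Y ∧ j ≠ z i) ∨ j = w i) := by
    intro i j hj
    rw [nb_mem hZ]
    have e1 : ∀ k, j = z k → k = i := fun k e => Fin.ext (by have := sz k; rw [← e] at this; omega)
    have e2 : ∀ k, j = w k → k = i := fun k e => Fin.ext (by have := sw k; rw [← e] at this; omega)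
    constructor
    · rintro (⟨h, h'⟩ | ⟨k, hk⟩)
      · exact Or.inl ⟨h, h' i⟩
      · exact Or.inr (e2 k hk ▸ hk)
    · rintro (⟨h, h'⟩ | h)
      · exact Or.inl ⟨h, fun k e => h' (e1 k e ▸ e)⟩
      · exact Or.inr ⟨i, h⟩
  have one : ∀ i : Fin c, pat ((g * c + i) * (L * M)) (L * M) X Z = rep (if x i = y i then 0 else 1) := by
    intro i
    have hx := (hX.1 i).2.2.1
    have hz := (hZ.1 i).2.2.1
    have rx := (rng _ _).1 (sx i)
    have ry := (rng _ _).1 (sy i)
    have rz := (rng _ _).1 (sz i)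
    have rw' := (rng _ _).1 (sw i)
    split_ifs with e
    · have e' : z i = w i := by have := h1 i; have := h2 i; omega
      refine pat_nil fun j h5 h6 => ?_
      have hj := (rng j _).2 ⟨h5, h6⟩
      rw [mX i j hj, mZ i j hj, ← e, ← e']
      by_cases a1 : j = x i <;> by_cases a2 : j = z i <;> simp_all
    · have e' : z i ≠ w i := by have := h1 i; have := h2 i; omega
      have hy := nb_not (blk_inj g T) hX i e
      have hw := nb_not (blk_inj g U) hZ i e'
      have b1 := (hX.1 i).1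
      have b2 := (hX.1 i).2.1
      have b3 := (hZ.1 i).1
      have b4 := (hZ.1 i).2.1
      unfold blk at b1 b2 b3 b4
      have oth : ∀ j, (g * c + i) * (L * M) ≤ j → j < (g * c + i) * (L * M) + L * M →
          j ≠ x i → j ≠ y i → j ≠ z i → j ≠ w i → (j ∈ X ↔ j ∈ Z) := by
        intro j h5 h6 a1 a2 a3 a4
        have hj := (rng j _).2 ⟨h5, h6⟩
        rw [mX i j hj, mZ i j hj]; tauto
      by_cases hlt : x i < y i
      · have t1 : (U i : ℕ) < T i := h3 i hlt
        have t2 := (h1 i).1 hlt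
        have t3 : w i < x i := Nat.lt_of_div_lt_div (c := L) (by omega)
        refine pat_four (p := z i) (q := w i) (r := x i) (s := y i) rz.1 t2 t3 hlt ry.2
          ?_ ?_ ?_ ?_ ?_ ?_ ?_ ?_ fun j a b c d e f => oth j a b e f c d
        · rw [mX i _ (sz i)]; exact Or.inl ⟨hz, by omega⟩
        · rw [mX i _ (sw i)]; rintro (h | h); exacts [hw h.1, by omega]
        · rw [mX i _ (sx i)]; rintro (h | h); exacts [h.2 rfl, by omega]
        · rw [mX i _ (sy i)]; exact Or.inr rfl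
        · rw [mZ i _ (sz i)]; rintro (h | h); exacts [h.2 rfl, by omega]
        · rw [mZ i _ (sw i)]; exact Or.inr rfl
        · rw [mZ i _ (sx i)]; exact Or.inl ⟨hx, by omega⟩
        · rw [mZ i _ (sy i)]; rintro (h | h); exacts [hy h.1, by omega]
      · have t1 : (T i : ℕ) < U i := h4 i hlt
        have t0 : y i < x i := by omega
        have t2 := (h2 i).1 t0
        have t3 : x i < w i := Nat.lt_of_div_lt_div (c := L) (by omega)
        refine pat_four (p := y i) (q := x i) (r := w i) (s := z i) ry.1 t0 t3 t2 rz.2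
          ?_ ?_ ?_ ?_ ?_ ?_ ?_ ?_ fun j a b c d e f => oth j a b d c f e
        · rw [mX i _ (sy i)]; exact Or.inr rfl
        · rw [mX i _ (sx i)]; rintro (h | h); exacts [h.2 rfl, by omega]
        · rw [mX i _ (sw i)]; rintro (h | h); exacts [hw h.1, by omega]
        · rw [mX i _ (sz i)]; exact Or.inl ⟨hz, by omega⟩
        · rw [mZ i _ (sy i)]; rintro (h | h); exacts [hy h.1, by omega]
        · rw [mZ i _ (sx i)]; exact Or.inl ⟨hx, by omega⟩
        · rw [mZ i _ (sw i)]; exact Or.inr rfl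
        · rw [mZ i _ (sz i)]; rintro (h | h); exacts [h.2 rfl, by omega]
  have ind : ∀ k ≤ c, ∃ l ≤ k, pat (g * (c * (L * M))) (k * (L * M)) X Z = rep l ∧
      (l = 0 → ∀ i : Fin c, i.val < k → x i = y i) := by
    intro k
    induction k with
    | zero => exact fun _ => ⟨0, le_rfl, by simp [pat, rep], fun _ i h => absurd h (by omega)⟩
    | succ k ih =>
      intro hk
      obtain ⟨l, hl, h5, h6⟩ := ih (by omega)
      have h7 := one ⟨k, hk⟩
      refine ⟨l + (if x ⟨k, hk⟩ = y ⟨k, hk⟩ then 0 else 1), by split_ifs <;> omega, ?_, ?_⟩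
      · rw [Nat.succ_mul, pat_add, h5, rep_add, ← h7]
        congr 2; simp only; ring
      · intro h0 i hi
        by_cases e : i.val = k
        · have : i = ⟨k, hk⟩ := Fin.ext e
          rw [this]; by_contra hc; rw [if_neg hc] at h0; omega
        · exact h6 (by omega) i (by omega)
  obtain ⟨l, hl, h5, h6⟩ := ind c le_rfl
  refine ⟨l, ?_, hl, h5, fun j hj => ?_⟩
  · by_contra h0
    have e : x = y := funext fun i => h6 (by omega) i i.2
    refine hX.2.2 (Finset.ext fun j => ?_)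
    rw [nb_mem hX, ← e]
    constructor
    · intro h
      by_cases h' : ∃ i, j = x i
      · exact Or.inr h'
      · push Not at h'; exact Or.inl ⟨h, h'⟩
    · rintro (h | ⟨i, rfl⟩); exacts [h.1, (hX.1 i).2.2.1]
  · have out : ∀ i : Fin c, j / (L * M) ≠ g * c + i := fun i e => by
      have h7 := (rng _ _).1 e
      have h8 : (i.val + 1) * (L * M) ≤ c * (L * M) := Nat.mul_le_mul_right _ i.2
      have h9 : (g * c + i) * (L * M) = g * (c * (L * M)) + i * (L * M) := by ring
      have h10 : (g + 1) * (c * (L * M)) = g * (c * (L * M)) + c * (L * M) := by ring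
      have h11 : (i.val + 1) * (L * M) = i * (L * M) + L * M := by ring
      omega
    rw [nb_mem hX, nb_mem hZ]
    have a1 : ∀ i, j ≠ x i := fun i e => out i (e ▸ sx i)
    have a2 : ∀ i, j ≠ y i := fun i e => out i (e ▸ sy i)
    have a3 : ∀ i, j ≠ z i := fun i e => out i (e ▸ sz i)
    have a4 : ∀ i, j ≠ w i := fun i e => out i (e ▸ sw i)
    simp [a1, a2, a3, a4]

theorem grp {d M L m n g : ℕ} (hL : 0 < L) (hM : 4 ^ (d + 1) * (3 * M) ^ d < M ^ (d + 1))
    (F : Finset (Finset ℕ)) (hF : ∀ A ∈ F, A ⊆ range n)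
    (hm : ∀ A ∈ F, ∀ b < (g + 1) * ((d + 1) * M), m ≤ (A.filter fun j => j / L = b).card)
    (big : M ^ (d + 1) * 2 ^ n < F.card * m ^ (d + 1)) :
    ∃ X ∈ F, ∃ Z ∈ F, ∃ l, 1 ≤ l ∧ l ≤ d + 1 ∧
      pat (g * ((d + 1) * (L * M))) ((d + 1) * (L * M)) X Z = rep l ∧
      ∀ j, (j < g * ((d + 1) * (L * M)) ∨ (g + 1) * ((d + 1) * (L * M)) ≤ j) → (j ∈ X ↔ j ∈ Z) := by
  classical
  have hM0 : 0 < M := by
    rcases Nat.eq_zero_or_pos M with h | h
    · subst h; simp at hM
    · exact h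
  obtain ⟨Y, hY, hT⟩ : ∃ Y ∈ F, ∀ T : Fin (d + 1) → Fin M, ∃ B ∈ F, ∃ x y, Nb L (blk g T) Y B x y := by
    by_contra hc
    push Not at hc
    have h1 : F ⊆ univ.biUnion fun T : Fin (d + 1) → Fin M =>
        F.filter fun A => ∀ B ∈ F, ∀ x y, ¬ Nb L (blk g T) A B x y := fun A hA => by
      obtain ⟨T, hT⟩ := hc A hA
      exact mem_biUnion.2 ⟨T, mem_univ _, mem_filter.2 ⟨hA, hT⟩⟩
    have h2 := (card_le_card h1).trans card_biUnion_le
    have h3 := Nat.mul_le_mul_right (m ^ (d + 1)) h2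
    rw [sum_mul] at h3
    have h4 := h3.trans (sum_le_sum (g := fun _ => 2 ^ n) fun T _ => iso (blk g T) (blk_inj g T) _
      (fun A hA => hF A (mem_filter.1 hA).1)
      (fun A hA i => hm A (mem_filter.1 hA).1 _ (by
        have h5 := (T i).2
        have h6 : (g * (d + 1) + i + 1) * M ≤ ((g + 1) * (d + 1)) * M :=
          Nat.mul_le_mul_right _ (by have := i.2; nlinarith)
        unfold blk; nlinarith))
      fun A hA B hB => (mem_filter.1 hA).2 B (mem_filter.1 hB).1)
    simp only [sum_const, card_univ, Fintype.card_pi, Fintype.card_fin, prod_const, smul_eq_mul] at h4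
    omega
  choose B hB x y hN using hT
  let s : (Fin (d + 1) → Fin M) → Fin (d + 1) → ℤ := fun T i => if x T i < y T i then 1 else -1
  have hs : ∀ T i, s T i = 1 ∨ s T i = -1 := fun T i => by simp only [s]; split_ifs <;> simp
  obtain ⟨T, -, U, -, hne, he⟩ := exists_ne_map_eq_of_card_lt_of_maps_to
    (s := (univ : Finset (Fin (d + 1) → Fin M)))
    (t := (univ : Finset (Fin (d + 1) → Bool × Bool)) ×ˢ
      Fintype.piFinset fun _ : Fin d => Ico (-(M : ℤ)) (2 * M))
    (by
      have : (2 * (M : ℤ) + M).toNat = 3 * M := by omega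
      simpa [this] using hM)
    (f := fun T => (fun i => (decide (x T i < y T i), decide (y T i < x T i)),
      fun i => ((T i.succ : ℕ) : ℤ) - s T i.succ * s T 0 * (T 0 : ℕ)))
    (fun T _ => by
      simp only [coe_product, Set.mem_prod, coe_univ, Set.mem_univ, true_and, mem_coe,
        Fintype.mem_piFinset, mem_Ico]
      intro i
      have := (T i.succ).2; have := (T 0).2
      rcases hs T i.succ with h | h <;> rcases hs T 0 with h' | h' <;> rw [h, h'] <;> omega)
  simp only [Prod.mk.injEq, funext_iff, decide_eq_decide] at he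
  obtain ⟨e1, e2⟩ := he
  have es : ∀ i, s U i = s T i := fun i => by simp only [s, (e1 i).1]
  have ed : ∀ i, ((T i : ℕ) : ℤ) - (U i : ℕ) = s T i * (s T 0 * ((T 0 : ℕ) - (U 0 : ℕ))) := by
    intro i
    refine Fin.cases ?_ (fun i => ?_) i
    · rcases hs T 0 with h | h <;> rw [h] <;> ring
    · have := e2 i; rw [es, es] at this; linear_combination this
  generalize s T 0 * (((T 0 : ℕ) : ℤ) - (U 0 : ℕ)) = u at ed
  rcases lt_trichotomy u 0 with hu | hu | hu
  · obtain ⟨l, h⟩ := two hL hM0 (hN U) (hN T) (fun i => (e1 i).1.symm) (fun i => (e1 i).2.symm)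
      (fun i hi => by
        have := ed i; simp only [s, if_pos ((e1 i).1.2 hi)] at this
        rw [Fin.lt_def]; omega)
      (fun i hi => by
        have := ed i; simp only [s, if_neg (fun h => hi ((e1 i).1.1 h))] at this
        rw [Fin.lt_def]; omega)
    exact ⟨_, hB U, _, hB T, l, h⟩
  · exact absurd (funext fun i => Fin.ext (by have := ed i; rw [hu] at this; omega)) hne
  · obtain ⟨l, h⟩ := two hL hM0 (hN T) (hN U) (fun i => (e1 i).1) (fun i => (e1 i).2)
      (fun i hi => by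
        have := ed i; simp only [s, if_pos hi] at this
        rw [Fin.lt_def]; omega)
      (fun i hi => by
        have := ed i; simp only [s, if_neg hi] at this
        rw [Fin.lt_def]; omega)
    exact ⟨_, hB T, _, hB U, l, h⟩

theorem chain {d M L m r : ℕ} (hL : 0 < L) (hm0 : 0 < m)
    (hM : 4 ^ (d + 1) * (3 * M) ^ d < M ^ (d + 1)) (hr : ∀ l, 1 ≤ l → l ≤ d + 1 → l ∣ r) (n : ℕ)
    (hn : n = (r + 2) * ((d + 1) * (L * M)))
    (F : Finset (Finset ℕ)) (hF : ∀ A ∈ F, A ⊆ range n)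
    (hm : ∀ A ∈ F, ∀ b < (r + 2) * ((d + 1) * M), m ≤ (A.filter fun j => j / L = b).card)
    (free : ∀ A ∈ F, ∀ B ∈ F, pat 0 n A B ≠ rep r) :
    F.card * m ^ (d + 1) ≤ (2 ^ (r + 1)) ^ (r + 3) * (M ^ (d + 1) * 2 ^ n) := by
  classical
  by_contra hc
  set W := (d + 1) * (L * M) with hW
  let P : Finset ℕ → ℕ → Finset ℕ := fun A g => (range (r + 1)).filter fun s =>
    ∃ B ∈ F, (∀ j < g * W, j ∈ A ↔ j ∈ B) ∧ pat 0 n A B = rep s
  have mono : ∀ A g, P A (g + 1) ⊆ P A g := fun A g s hs => by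
    obtain ⟨h1, B, hB, h2, h3⟩ := mem_filter.1 hs
    exact mem_filter.2 ⟨h1, B, hB, fun j hj => h2 j (by rw [Nat.succ_mul]; omega), h3⟩
  obtain ⟨Q, -, hQ⟩ := exists_lt_card_fiber_of_mul_lt_card_of_maps_to (s := F)
    (t := Fintype.piFinset fun _ : Fin (r + 3) => (range (r + 1)).powerset)
    (f := fun A g => P A g.val) (n := M ^ (d + 1) * 2 ^ n / m ^ (d + 1))
    (fun A _ => Fintype.mem_piFinset.2 fun g => mem_powerset.2 (filter_subset _ _))
    (by
      simp only [Fintype.card_piFinset, card_powerset, card_range, prod_const, card_univ,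
        Fintype.card_fin]
      have h1 := Nat.mul_le_mul_left ((2 ^ (r + 1)) ^ (r + 3))
        (Nat.div_mul_le_self (M ^ (d + 1) * 2 ^ n) (m ^ (d + 1)))
      rw [← mul_assoc] at h1
      exact lt_of_mul_lt_mul_right (lt_of_le_of_lt h1 (not_le.1 hc)) (Nat.zero_le _))
  rw [Nat.div_lt_iff_lt_mul (pow_pos hm0 _)] at hQ
  obtain ⟨A, hA⟩ : (F.filter fun A => (fun g : Fin (r + 3) => P A g.val) = Q).Nonempty := by
    rw [← card_pos]; by_contra h0
    rw [show (F.filter fun A => (fun g : Fin (r + 3) => P A g.val) = Q).card = 0 by omega] at hQ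
    simp at hQ
  obtain ⟨g, hg, hP⟩ : ∃ g < r + 2, P A (g + 1) = P A g := by
    by_contra h0
    push Not at h0
    have h1 : ∀ g ≤ r + 2, (P A g).card + g ≤ r + 1 := by
      intro g
      induction g with
      | zero => exact fun _ => by simpa using card_filter_le (range (r + 1)) _
      | succ g ih =>
        intro hg
        have := card_lt_card (ssubset_of_subset_of_ne (mono A g) (h0 g (by omega)))
        have := ih (by omega); omega
    have := h1 _ le_rfl; omega
  obtain ⟨X, hX, Z, hZ, l, l1, l2, h1, h2⟩ := grp (g := g) hL hM _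
    (fun A hA => hF A (mem_filter.1 hA).1)
    (fun A hA b hb => hm A (mem_filter.1 hA).1 b
      (lt_of_lt_of_le hb (Nat.mul_le_mul_right _ (by omega)))) hQ
  rw [← hW] at h1 h2
  have eq : ∀ Y ∈ F.filter fun A => (fun g : Fin (r + 3) => P A g.val) = Q, ∀ k < r + 3,
      P Y k = P A k := fun Y hY k hk =>
    congrFun ((mem_filter.1 hY).2.trans (mem_filter.1 hA).2.symm) ⟨k, hk⟩
  have hXZ : P X g = P Z (g + 1) := by rw [eq X hX g (by omega), eq Z hZ _ (by omega), hP]
  obtain ⟨e, he⟩ : ∃ e, n = (g + 1) * W + e :=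
    Nat.exists_eq_add_of_le (hn ▸ Nat.mul_le_mul_right _ (by omega))
  have step : ∀ s ∈ P Z (g + 1), l + s ≤ r → l + s ∈ P X g := by
    intro s hs hle
    obtain ⟨-, B, hB, h3, h4⟩ := mem_filter.1 hs
    refine mem_filter.2 ⟨mem_range.2 (by omega), B, hB, fun j hj => ?_, ?_⟩
    · rw [h2 j (Or.inl hj)]; exact h3 j (by rw [Nat.succ_mul]; omega)
    · rw [he, pat_add, pat_nil fun j _ hj => h3 j (by omega), List.nil_append] at h4
      rw [he, pat_add, rep_add, ← h4, ← h1]
      congr 1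
      · rw [pat_congr (A' := X) (B' := Z) (fun _ _ _ => Iff.rfl)
          (fun j _ hj => (h3 j (by omega)).symm), Nat.succ_mul, pat_add,
          pat_nil fun j _ hj => h2 j (Or.inl (by omega)), List.nil_append, Nat.zero_add]
      · exact pat_congr (fun j hj _ => h2 j (Or.inr (by omega))) fun _ _ _ => Iff.rfl
  have all : ∀ t, l * t ≤ r → l * t ∈ P X g := by
    intro t
    induction t with
    | zero => exact fun _ => mem_filter.2 ⟨by simp, X, (mem_filter.1 hX).1, fun _ _ => Iff.rfl,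
        pat_nil fun _ _ _ => Iff.rfl⟩
    | succ t ih =>
      intro h
      rw [Nat.mul_succ, Nat.add_comm] at h ⊢
      exact step _ (hXZ ▸ ih (by omega)) h
  obtain ⟨t, ht⟩ := hr l l1 l2
  obtain ⟨-, B, hB, -, h4⟩ := mem_filter.1 (all t ht.ge)
  exact free X (mem_filter.1 hX).1 B hB (ht ▸ h4)

theorem total {d M L m r : ℕ} (hL : 0 < L) (hm0 : 0 < m)
    (hM : 4 ^ (d + 1) * (3 * M) ^ d < M ^ (d + 1)) (hr : ∀ l, 1 ≤ l → l ≤ d + 1 → l ∣ r) (n : ℕ)
    (hn : n = (r + 2) * ((d + 1) * (L * M))) (D : ℕ)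
    (h1 : 2 * D * ((2 ^ (r + 1)) ^ (r + 3) * M ^ (d + 1)) ≤ m ^ (d + 1))
    (h2 : 2 * D * ((r + 2) * ((d + 1) * M) * (m * L ^ m)) ≤ 2 ^ L)
    (F : Finset (Finset ℕ)) (hF : ∀ A ∈ F, A ⊆ range n)
    (free : ∀ A ∈ F, ∀ B ∈ F, pat 0 n A B ≠ rep r) : F.card * D ≤ 2 ^ n := by
  classical
  set R := (r + 2) * ((d + 1) * M) with hR
  have h3 := chain hL hm0 hM hr n hn
    (F.filter fun A => ∀ b < R, m ≤ (A.filter fun j => j / L = b).card)
    (fun A hA => hF A (mem_filter.1 hA).1) (fun A hA => (mem_filter.1 hA).2)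
    fun A hA B hB => free A (mem_filter.1 hA).1 B (mem_filter.1 hB).1
  have h4 : (F.filter fun A => ¬ ∀ b < R, m ≤ (A.filter fun j => j / L = b).card) ⊆
      (range R).biUnion fun b =>
        (range n).powerset.filter fun A => (A.filter fun j => j / L = b).card < m := fun A hA => by
    obtain ⟨h5, h6⟩ := mem_filter.1 hA
    push Not at h6
    obtain ⟨b, hb, h7⟩ := h6
    exact mem_biUnion.2 ⟨b, mem_range.2 hb, mem_filter.2 ⟨mem_powerset.2 (hF A h5), h7⟩⟩
  have h5 := Nat.mul_le_mul_right (2 ^ L) ((card_le_card h4).trans card_biUnion_le)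
  rw [sum_mul] at h5
  have h6 := h5.trans (sum_le_sum (g := fun _ => m * L ^ m * 2 ^ n) fun b hb => exc n L m b hL (by
    have : (b + 1) * L ≤ R * L := Nat.mul_le_mul_right _ (mem_range.1 hb)
    rw [hn]; rw [hR] at this; nlinarith))
  simp only [sum_const, card_range, smul_eq_mul] at h6
  rw [← card_filter_add_card_filter_not (s := F)
    (fun A => ∀ b < R, m ≤ (A.filter fun j => j / L = b).card)]
  generalize (F.filter fun A => ∀ b < R, m ≤ (A.filter fun j => j / L = b).card).card = a at *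
  generalize (F.filter fun A => ¬ ∀ b < R, m ≤ (A.filter fun j => j / L = b).card).card = b at *
  have a1 : a * (2 * D) ≤ 2 ^ n := by
    refine Nat.le_of_mul_le_mul_right (c := m ^ (d + 1)) ?_ (pow_pos hm0 _)
    calc a * (2 * D) * m ^ (d + 1) = 2 * D * (a * m ^ (d + 1)) := by ring
      _ ≤ 2 * D * ((2 ^ (r + 1)) ^ (r + 3) * (M ^ (d + 1) * 2 ^ n)) := Nat.mul_le_mul_left _ h3
      _ = 2 ^ n * (2 * D * ((2 ^ (r + 1)) ^ (r + 3) * M ^ (d + 1))) := by ring
      _ ≤ _ := Nat.mul_le_mul_left _ h1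
  have a2 : b * (2 * D) ≤ 2 ^ n := by
    refine Nat.le_of_mul_le_mul_right (c := 2 ^ L) ?_ (pow_pos two_pos _)
    calc b * (2 * D) * 2 ^ L = 2 * D * (b * 2 ^ L) := by ring
      _ ≤ 2 * D * (R * (m * L ^ m * 2 ^ n)) := Nat.mul_le_mul_left _ h6
      _ = 2 ^ n * (2 * D * (R * (m * L ^ m))) := by ring
      _ ≤ _ := Nat.mul_le_mul_left _ h2
  nlinarith

end Pool.Agent.H7.Patt
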