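import Mathlib

/-! Vertex boundaries and connected forts in finite graphs. -/

namespace Pool.Agent.H7.Psd

open Finset

variable {V : Type} [Fintype V] [DecidableEq V] (G : SimpleGraph V) [DecidableRel G.Adj]

/-- The vertices outside `Y` with a neighbour in `Y`. -/
def N (Y : Finset V) : Finset V := univ.filter (fun z => z ∉ Y ∧ ∃ y ∈ Y, G.Adj z y)

/-- No vertex outside `Y` has exactly one neighbour in `Y`. -/
def StdFort (Y : Finset V) : Prop := ∀ z, z ∉ Y → (Y.filter (G.Adj z)).card ≠ 1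

/-- Every proper nonempty part of `Y` has an edge to the rest of `Y`. -/
def Conn (Y : Finset V) : Prop :=
  ∀ Z, Z ⊆ Y → Z.Nonempty → Z ≠ Y → ∃ a ∈ Z, ∃ b ∈ Y, b ∉ Z ∧ G.Adj a b

variable {G}

theorem mem_N {Y : Finset V} {z : V} : z ∈ N G Y ↔ z ∉ Y ∧ ∃ y ∈ Y, G.Adj z y := by
  simp [N]

theorem erase_le (Y C : Finset V) (z a : V) (hz : z ∉ Y) (hzC : z ∈ C)
    (h : Y.filter (G.Adj z) = {a}) : (N G (Y.erase a) ∩ C).card ≤ (N G Y ∩ C).card := by
  have ha : a ∈ Y.filter (G.Adj z) := by rw [h]; exact mem_singleton_self a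
  rw [mem_filter] at ha
  have hzm : z ∈ N G Y ∩ C := mem_inter.mpr ⟨mem_N.mpr ⟨hz, a, ha.1, ha.2⟩, hzC⟩
  have hsub : N G (Y.erase a) ∩ C ⊆ insert a ((N G Y ∩ C).erase z) := by
    intro x hx
    obtain ⟨hx1, hx2⟩ := mem_inter.mp hx
    obtain ⟨hxn, y, hy, hxy⟩ := mem_N.mp hx1
    by_cases hxa : x = a
    · exact mem_insert.mpr (Or.inl hxa)
    · refine mem_insert_of_mem (mem_erase.mpr ⟨?_, mem_inter.mpr ⟨mem_N.mpr ⟨?_, y,
        mem_of_mem_erase hy, hxy⟩, hx2⟩⟩)
      · rintro rfl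
        have : y ∈ Y.filter (G.Adj x) := mem_filter.mpr ⟨mem_of_mem_erase hy, hxy⟩
        rw [h, mem_singleton] at this
        exact (mem_erase.mp hy).1 this
      · exact fun hh => hxn (mem_erase.mpr ⟨hxa, hh⟩)
  have := card_le_card hsub
  have h2 := card_insert_le a ((N G Y ∩ C).erase z)
  have h3 := card_erase_add_one hzm
  omega

theorem erase_nonempty (Z : Finset V) (a : V) (ha : a ∈ Z) (h : (N G Z).card < G.degree a) :
    (Z.erase a).Nonempty := by
  rw [nonempty_iff_ne_empty]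
  intro he
  have : G.neighborFinset a ⊆ N G Z := by
    intro x hx
    rw [SimpleGraph.mem_neighborFinset] at hx
    refine mem_N.mpr ⟨fun hxz => ?_, a, ha, hx.symm⟩
    have : x ∈ Z.erase a := mem_erase.mpr ⟨hx.ne', hxz⟩
    rw [he] at this; simp at this
  have := card_le_card this
  rw [SimpleGraph.card_neighborFinset_eq_degree] at this
  omega

theorem submod (Z A : Finset V) :
    (N G (Z ∩ A)).card + (N G (Z ∪ A)).card ≤ (N G Z).card + (N G A).card := by
  rw [← card_union_add_card_inter, ← card_union_add_card_inter (N G Z)]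
  refine add_le_add (card_le_card fun x hx => ?_) (card_le_card fun x hx => ?_)
  · simp only [mem_union, mem_N, mem_inter] at hx ⊢
    rcases hx with ⟨h1, y, ⟨hy1, hy2⟩, hxy⟩ | ⟨h1, y, hy | hy, hxy⟩
    · by_cases h : x ∈ Z
      · exact Or.inr ⟨fun hh => h1 ⟨h, hh⟩, y, hy2, hxy⟩
      · exact Or.inl ⟨h, y, hy1, hxy⟩
    · exact Or.inl ⟨fun hh => h1 (Or.inl hh), y, hy, hxy⟩
    · exact Or.inr ⟨fun hh => h1 (Or.inr hh), y, hy, hxy⟩
  · simp only [mem_union, mem_N, mem_inter] at hx ⊢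
    obtain ⟨⟨_, y, ⟨hy1, hy2⟩, hxy⟩, h1, _⟩ := hx
    exact ⟨⟨fun hh => h1 (Or.inl hh), y, hy1, hxy⟩, ⟨fun hh => h1 (Or.inr hh), y, hy2, hxy⟩⟩

theorem exists_A [Nonempty V] (S : Finset V) (hk : ∀ v, S.card < G.degree v) :
    ∃ A : Finset V, A.Nonempty ∧ Disjoint A S ∧ (N G A).card ≤ S.card ∧
      (∀ Z : Finset V, Z.Nonempty → Disjoint Z S → (N G A).card ≤ (N G Z).card) ∧
      (∀ Z : Finset V, Z ⊆ A → Z.Nonempty → Z ≠ A → (N G A).card < (N G Z).card) := by
  have hc : (Sᶜ).Nonempty := by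
    obtain ⟨v⟩ := ‹Nonempty V›
    have h1 := hk v
    have h2 := G.degree_lt_card_verts v
    rw [← card_pos, card_compl]; omega
  obtain ⟨A0, hA0, hmin0⟩ := exists_min_image
    (univ.filter (fun Z : Finset V => Z.Nonempty ∧ Disjoint Z S)) (fun Z => (N G Z).card)
    ⟨Sᶜ, mem_filter.mpr ⟨mem_univ _, hc, disjoint_compl_left⟩⟩
  obtain ⟨A, hA, hmin⟩ := exists_min_image
    (univ.filter (fun Z : Finset V => (Z.Nonempty ∧ Disjoint Z S) ∧
      (N G Z).card = (N G A0).card)) card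
    ⟨A0, mem_filter.mpr ⟨mem_univ _, (mem_filter.mp hA0).2, rfl⟩⟩
  obtain ⟨⟨h1, h2⟩, h3⟩ := (mem_filter.mp hA).2
  have hall : ∀ Z : Finset V, Z.Nonempty → Disjoint Z S → (N G A).card ≤ (N G Z).card :=
    fun Z a b => h3 ▸ hmin0 Z (mem_filter.mpr ⟨mem_univ _, a, b⟩)
  refine ⟨A, h1, h2, (hall _ hc disjoint_compl_left).trans (card_le_card fun x hx => ?_), hall,
    fun Z hZ hne hna => ?_⟩
  · simpa using (mem_N.mp hx).1
  · have hd : Disjoint Z S := h2.mono_left hZ
    refine lt_of_le_of_ne (hall Z hne hd) fun e => ?_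
    have := hmin Z (mem_filter.mpr ⟨mem_univ _, ⟨hne, hd⟩, by omega⟩)
    exact hna (eq_of_subset_of_card_le hZ this)

section
variable {S A : Finset V} (hk : ∀ v, S.card < G.degree v) (hj : (N G A).card ≤ S.card)
  (hstr : ∀ Z : Finset V, Z ⊆ A → Z.Nonempty → Z ≠ A → (N G A).card < (N G Z).card)
include hk hj hstr

theorem A_fort : StdFort G A := by
  intro z hz h
  obtain ⟨a, ha⟩ := card_eq_one.mp h
  have haA : a ∈ A := mem_of_mem_filter a (by rw [ha]; exact mem_singleton_self a)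
  have h1 := erase_le A univ z a hz (mem_univ _) ha
  rw [inter_univ, inter_univ] at h1
  have h2 := hstr (A.erase a) (erase_subset _ _)
    (erase_nonempty A a haA (lt_of_le_of_lt hj (hk a))) (by simpa using haA)
  omega

omit hk hj in
theorem A_conn : Conn G A := by
  intro Z hZ hne hna
  by_contra hcon
  push Not at hcon
  have : N G Z ⊆ N G A := by
    intro x hx
    obtain ⟨hxn, y, hy, hxy⟩ := mem_N.mp hx
    exact mem_N.mpr ⟨fun hxA => hcon y hy x hxA hxn hxy.symm, y, hZ hy, hxy⟩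
  have h1 := card_le_card this
  have h2 := hstr Z hZ hne hna
  omega

theorem case_eq (hAS : Disjoint A S)
    (hall : ∀ Z : Finset V, Z.Nonempty → Disjoint Z S → (N G A).card ≤ (N G Z).card)
    (hjk : (N G A).card = S.card) (u v : V) (hu : u ∈ S) (hv : v ∈ A) :
    StdFort G (insert v (S.erase u))ᶜ ∧ Conn G (insert v (S.erase u))ᶜ := by
  have hvS : v ∉ S := disjoint_left.mp hAS hv
  have hT : (insert v (S.erase u)).card = S.card := by
    rw [card_insert_of_notMem (fun h => hvS (mem_of_mem_erase h)), card_erase_add_one hu]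
  set T := insert v (S.erase u) with hTdef
  constructor
  · intro z hz h
    have hzT : z ∈ T := by simpa using hz
    have hsub : G.neighborFinset z ⊆ Tᶜ.filter (G.Adj z) ∪ T.erase z := by
      intro x hx
      rw [SimpleGraph.mem_neighborFinset] at hx
      by_cases hxT : x ∈ T
      · exact mem_union_right _ (mem_erase.mpr ⟨hx.ne', hxT⟩)
      · exact mem_union_left _ (mem_filter.mpr ⟨by simpa using hxT, hx⟩)
    have h1 := (card_le_card hsub).trans (card_union_le _ _)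
    have h2 := card_erase_add_one hzT
    have h3 := hk z
    rw [SimpleGraph.card_neighborFinset_eq_degree] at h1
    omega
  · have key : ∀ Z, Z ⊆ Tᶜ → Z.Nonempty → u ∉ Z → ∃ a ∈ Z, ∃ b ∈ Tᶜ, b ∉ Z ∧ G.Adj a b := by
      intro Z hZ hne huZ
      by_contra hcon
      push Not at hcon
      have hZS : Disjoint Z S := by
        rw [disjoint_left]
        intro x hx hxS
        have := hZ hx
        rw [mem_compl] at this
        exact this (mem_insert_of_mem (mem_erase.mpr ⟨fun e => huZ (e ▸ hx), hxS⟩))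
      have hNT : N G Z ⊆ T := by
        intro x hx
        obtain ⟨hxn, y, hy, hxy⟩ := mem_N.mp hx
        by_contra hxT
        exact hcon y hy x (mem_compl.mpr hxT) hxn hxy.symm
      have h1 := hall Z hne hZS
      have hNeq : N G Z = T := eq_of_subset_of_card_le hNT (by omega)
      have hvN : v ∈ N G Z := by rw [hNeq]; exact mem_insert_self _ _
      obtain ⟨hvZ, x, hx, hvx⟩ := mem_N.mp hvN
      have hdis : Z ∩ A = ∅ := by
        by_contra hne'
        have h2 := hstr (Z ∩ A) inter_subset_right (nonempty_iff_ne_empty.mpr hne')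
          (fun e => hvZ (mem_inter.mp (e ▸ hv)).1)
        have h3 := hall (Z ∪ A) (hne.mono subset_union_left) (disjoint_union_left.mpr ⟨hZS, hAS⟩)
        have h4 := submod (G := G) Z A
        rw [hNeq] at h4
        omega
      have hxA : x ∉ A := fun h => by
        have : x ∈ Z ∩ A := mem_inter.mpr ⟨hx, h⟩
        rw [hdis] at this; simp at this
      apply A_fort hk hj hstr x hxA
      rw [card_eq_one]
      refine ⟨v, eq_singleton_iff_unique_mem.mpr ⟨mem_filter.mpr ⟨hv, hvx.symm⟩, fun a ha => ?_⟩⟩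
      obtain ⟨haA, hxa⟩ := mem_filter.mp ha
      by_contra hav
      refine hcon x hx a (mem_compl.mpr fun h => ?_) (fun h => ?_) hxa
      · rcases mem_insert.mp h with e | e
        · exact hav e
        · exact disjoint_left.mp hAS haA (mem_of_mem_erase e)
      · have : a ∈ Z ∩ A := mem_inter.mpr ⟨h, haA⟩
        rw [hdis] at this; simp at this
    intro Z hZ hne hna
    by_cases huZ : u ∈ Z
    · obtain ⟨a, ha, b, hb, hbn, hab⟩ := key (Tᶜ \ Z) sdiff_subset
        (sdiff_nonempty.mpr fun h => hna (Subset.antisymm hZ h)) (by simp [huZ])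
      refine ⟨b, ?_, a, (mem_sdiff.mp ha).1, (mem_sdiff.mp ha).2, hab.symm⟩
      by_contra hh
      exact hbn (mem_sdiff.mpr ⟨hb, hh⟩)
    · exact key Z hZ hne huZ

theorem case_lt (hjk : (N G A).card < S.card) (F : Finset V) (hF : StdFort G F) (hFc : Conn G F)
    (u v : V) (hu : u ∈ F) (huA : u ∉ A) (hv : v ∈ A) (hvF : v ∈ F) :
    ∃ Y : Finset V, u ∈ Y ∧ v ∉ Y ∧ Y ⊆ F ∪ A ∧ StdFort G Y ∧ Conn G Y := by
  set R := F \ A with hR
  set C := A ∪ (N G A \ F) with hC
  have hsplit : (N G A \ F).card + (N G A ∩ F).card = (N G A).card := card_sdiff_add_card_inter _ _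
  have hne0 : (A.erase v).Nonempty := erase_nonempty A v hv (lt_of_le_of_lt hj (hk v))
  have hb0 : (N G (A.erase v ∪ R) ∩ C).card ≤ (N G A \ F).card + 1 := by
    refine le_trans (card_le_card (t := insert v (N G A \ F)) fun x hx => ?_) (card_insert_le _ _)
    obtain ⟨h1, h2⟩ := mem_inter.mp hx
    rcases mem_union.mp h2 with h | h
    · refine mem_insert.mpr (Or.inl ?_)
      by_contra hxv
      exact (mem_N.mp h1).1 (mem_union_left _ (mem_erase.mpr ⟨hxv, h⟩))
    · exact mem_insert_of_mem h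
  obtain ⟨B, hB, hmin⟩ := exists_min_image
    (univ.filter (fun Z : Finset V => Z ⊆ A.erase v ∧ Z.Nonempty ∧
      (N G (Z ∪ R) ∩ C).card ≤ (N G A \ F).card + 1)) card
    ⟨A.erase v, mem_filter.mpr ⟨mem_univ _, Subset.refl _, hne0, hb0⟩⟩
  obtain ⟨hBA, hBne, hBb⟩ := (mem_filter.mp hB).2
  have hBA' : B ⊆ A := hBA.trans (erase_subset _ _)
  have hvB : v ∉ B := fun h => by simpa using hBA h
  have hNB : N G B ⊆ (N G (B ∪ R) ∩ C) ∪ (N G A ∩ F) := by
    intro x hx
    obtain ⟨hxn, y, hy, hxy⟩ := mem_N.mp hx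
    by_cases hxA : x ∈ A
    · refine mem_union_left _ (mem_inter.mpr ⟨mem_N.mpr ⟨fun h => ?_, y, mem_union_left _ hy, hxy⟩,
        mem_union_left _ hxA⟩)
      rcases mem_union.mp h with h | h
      · exact hxn h
      · exact (mem_sdiff.mp h).2 hxA
    · have hxN : x ∈ N G A := mem_N.mpr ⟨hxA, y, hBA' hy, hxy⟩
      by_cases hxF : x ∈ F
      · exact mem_union_right _ (mem_inter.mpr ⟨hxN, hxF⟩)
      · refine mem_union_left _ (mem_inter.mpr ⟨mem_N.mpr ⟨fun h => ?_, y, mem_union_left _ hy,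
          hxy⟩, mem_union_right _ (mem_sdiff.mpr ⟨hxN, hxF⟩)⟩)
        rcases mem_union.mp h with h | h
        · exact hxn h
        · exact hxF (mem_sdiff.mp h).1
  have hcU := card_union_le (N G (B ∪ R) ∩ C) (N G A ∩ F)
  have hsubeq : ∀ Z : Finset V, Z ⊆ B → Z.Nonempty → N G Z ⊆ N G B →
      N G Z = (N G (B ∪ R) ∩ C) ∪ (N G A ∩ F) := by
    intro Z hZ hne hN
    have := hstr Z (hZ.trans hBA') hne (fun e => hvB (hZ (e ▸ hv)))
    exact eq_of_subset_of_card_le (hN.trans hNB) (by omega)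
  have hNBeq := hsubeq B (Subset.refl _) hBne (Subset.refl _)
  have hNBc : (N G B).card ≤ S.card := by
    have := card_le_card hNB
    omega
  refine ⟨B ∪ R, mem_union_right _ (mem_sdiff.mpr ⟨hu, huA⟩), ?_, ?_, ?_, ?_⟩
  · intro h
    rcases mem_union.mp h with h | h
    · exact hvB h
    · exact (mem_sdiff.mp h).2 hv
  · exact union_subset (hBA'.trans subset_union_right) (sdiff_subset.trans subset_union_left)
  · intro z hz h
    obtain ⟨a, ha⟩ := card_eq_one.mp h
    have haY : a ∈ (B ∪ R).filter (G.Adj z) := by rw [ha]; exact mem_singleton_self a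
    rw [mem_filter] at haY
    by_cases hzC : z ∈ C
    · have hzN : z ∈ N G B := by
        rw [hNBeq]
        exact mem_union_left _ (mem_inter.mpr ⟨mem_N.mpr ⟨hz, a, haY.1, haY.2⟩, hzC⟩)
      obtain ⟨_, y, hy, hzy⟩ := mem_N.mp hzN
      have hya : y = a := by
        have : y ∈ (B ∪ R).filter (G.Adj z) := mem_filter.mpr ⟨mem_union_left _ hy, hzy⟩
        rw [ha] at this; exact mem_singleton.mp this
      subst hya
      have h1 := erase_le (B ∪ R) C z y hz hzC ha
      have he : (B ∪ R).erase y = B.erase y ∪ R := by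
        rw [erase_union_distrib, erase_eq_of_notMem (s := R) fun h => (mem_sdiff.mp h).2 (hBA' hy)]
      rw [he] at h1
      have h2 := hmin (B.erase y) (mem_filter.mpr ⟨mem_univ _, (erase_subset _ _).trans hBA,
        erase_nonempty B y hy (lt_of_le_of_lt hNBc (hk y)), h1.trans hBb⟩)
      have h3 := card_erase_add_one hy
      omega
    · have hzA : z ∉ A := fun hh => hzC (mem_union_left _ hh)
      have hzF : z ∉ F := fun hh => hz (mem_union_right _ (mem_sdiff.mpr ⟨hh, hzA⟩))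
      have hzN : ∀ y ∈ A, ¬ G.Adj z y := fun y hy hzy =>
        hzC (mem_union_right _ (mem_sdiff.mpr ⟨mem_N.mpr ⟨hzA, y, hy, hzy⟩, hzF⟩))
      apply hF z hzF
      rw [← h]
      congr 1
      ext y
      simp only [mem_filter, mem_union, hR, mem_sdiff]
      constructor
      · rintro ⟨a1, a2⟩
        exact ⟨Or.inr ⟨a1, fun hh => hzN y hh a2⟩, a2⟩
      · rintro ⟨a1 | a1, a2⟩
        · exact absurd a2 (hzN y (hBA' a1))
        · exact ⟨a1.1, a2⟩
  · -- a part closed under adjacency inside `B ∪ R` that misses `B` is empty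
    have keyR : ∀ Z : Finset V, Z ⊆ B ∪ R → (∀ a ∈ Z, ∀ b ∈ B ∪ R, b ∉ Z → ¬ G.Adj a b) →
        Z.Nonempty → (Z ∩ B).Nonempty := by
      intro Z hZ hcl hne
      by_contra hcon
      have hZR : Z ⊆ R := fun x hx => by
        rcases mem_union.mp (hZ hx) with h | h
        · exact absurd ⟨x, mem_inter.mpr ⟨hx, h⟩⟩ hcon
        · exact h
      obtain ⟨a, ha, b, hb, hbZ, hab⟩ := hFc Z (hZR.trans sdiff_subset) hne
        (fun e => (mem_sdiff.mp (hZR (e ▸ hvF))).2 hv)
      by_cases hbA : b ∈ A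
      · have haN : a ∈ N G B := by
          rw [hNBeq]
          exact mem_union_right _ (mem_inter.mpr ⟨mem_N.mpr ⟨(mem_sdiff.mp (hZR ha)).2, b, hbA,
            hab⟩, (mem_sdiff.mp (hZR ha)).1⟩)
        obtain ⟨_, y, hy, hay⟩ := mem_N.mp haN
        exact hcl a ha y (mem_union_left _ hy)
          (fun hh => hcon ⟨y, mem_inter.mpr ⟨hh, hy⟩⟩) hay
      · exact hcl a ha b (mem_union_right _ (mem_sdiff.mpr ⟨hb, hbA⟩)) hbZ hab
    -- such a part meeting `B` contains every vertex of `N A ∩ F`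
    have keyX : ∀ Z : Finset V, (∀ a ∈ Z, ∀ b ∈ B ∪ R, b ∉ Z → ¬ G.Adj a b) →
        (Z ∩ B).Nonempty → ∀ x ∈ N G A ∩ F, x ∈ Z := by
      intro Z hcl hne x hx
      have hN : N G (Z ∩ B) ⊆ N G B := by
        intro y hy
        obtain ⟨hyn, w, hw, hyw⟩ := mem_N.mp hy
        refine mem_N.mpr ⟨fun hyB => ?_, w, (mem_inter.mp hw).2, hyw⟩
        exact hcl w (mem_inter.mp hw).1 y (mem_union_left _ hyB)
          (fun hh => hyn (mem_inter.mpr ⟨hh, hyB⟩)) hyw.symm
      have he := hsubeq (Z ∩ B) inter_subset_right hne hN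
      have hxN : x ∈ N G (Z ∩ B) := by rw [he]; exact mem_union_right _ hx
      obtain ⟨_, w, hw, hxw⟩ := mem_N.mp hxN
      by_contra hxZ
      exact hcl w (mem_inter.mp hw).1 x (mem_union_right _ (mem_sdiff.mpr
        ⟨(mem_inter.mp hx).2, (mem_N.mp (mem_inter.mp hx).1).1⟩)) hxZ hxw.symm
    have hX : (N G A ∩ F).Nonempty := by
      obtain ⟨a, ha, b, hb, hbZ, hab⟩ := hFc R sdiff_subset ⟨u, mem_sdiff.mpr ⟨hu, huA⟩⟩
        (fun e => (mem_sdiff.mp (e ▸ hvF : v ∈ R)).2 hv)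
      have hbA : b ∈ A := by
        by_contra hh
        exact hbZ (mem_sdiff.mpr ⟨hb, hh⟩)
      exact ⟨a, mem_inter.mpr ⟨mem_N.mpr ⟨(mem_sdiff.mp ha).2, b, hbA, hab⟩, (mem_sdiff.mp ha).1⟩⟩
    intro Z hZ hne hna
    by_contra hcon
    push Not at hcon
    have hcon' : ∀ a ∈ (B ∪ R) \ Z, ∀ b ∈ B ∪ R, b ∉ (B ∪ R) \ Z → ¬ G.Adj a b := by
      intro a ha b hb hbn hab
      have hbZ : b ∈ Z := by
        by_contra hh
        exact hbn (mem_sdiff.mpr ⟨hb, hh⟩)
      exact hcon b hbZ a (mem_sdiff.mp ha).1 (mem_sdiff.mp ha).2 hab.symm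
    obtain ⟨x, hx⟩ := hX
    have a1 := keyX Z hcon (keyR Z hZ hcon hne) x hx
    have a2 := keyX _ hcon' (keyR _ sdiff_subset hcon'
      (sdiff_nonempty.mpr fun h => hna (Subset.antisymm hZ h))) x hx
    exact (mem_sdiff.mp a2).2 a1

end

theorem main [Nonempty V] (S : Finset V) (hk : ∀ v, S.card < G.degree v) :
    ∃ (A : Finset V) (v : V), v ∈ A ∧ Disjoint A S ∧ StdFort G A ∧ Conn G A ∧
      ∀ u ∈ S, ∀ F : Finset V, u ∈ F → (∀ s ∈ S, s ∈ F → s = u) → StdFort G F → Conn G F →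
        ∃ Y : Finset V, u ∈ Y ∧ v ∉ Y ∧ (∀ s ∈ S, s ∈ Y → s = u) ∧ StdFort G Y ∧ Conn G Y := by
  obtain ⟨A, ⟨v, hv⟩, hAS, hj, hall, hstr⟩ := exists_A S hk
  refine ⟨A, v, hv, hAS, A_fort hk hj hstr, A_conn hstr, fun u hu F huF hFS hF hFc => ?_⟩
  have huA : u ∉ A := fun h => disjoint_left.mp hAS h hu
  by_cases hvF : v ∈ F
  · rcases eq_or_lt_of_le hj with h | h
    · obtain ⟨a, b⟩ := case_eq hk hj hstr hAS hall h u v hu hv
      refine ⟨_, ?_, by simp, fun s hs hsY => ?_, a, b⟩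
      · have : u ≠ v := fun e => huA (e ▸ hv)
        simp [this]
      · by_contra hne
        exact (mem_compl.mp hsY) (mem_insert_of_mem (mem_erase.mpr ⟨hne, hs⟩))
    · obtain ⟨Y, a, b, c, d, e⟩ := case_lt hk hj hstr h F hF hFc u v huF huA hv hvF
      refine ⟨Y, a, b, fun s hs hsY => ?_, d, e⟩
      rcases mem_union.mp (c hsY) with h1 | h1
      · exact hFS s hs h1
      · exact absurd hs (disjoint_left.mp hAS h1)
  · exact ⟨F, huF, hvF, hFS, hF, hFc⟩

end Pool.Agent.H7.Psd
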