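import Mathlib

/-! Coefficientwise inequalities between power series over `ℚ`. -/

namespace Pool.Agent.H7.QHook

open PowerSeries Finset

/-- All coefficients are nonnegative. -/
def NN (f : ℚ⟦X⟧) : Prop := ∀ n, 0 ≤ coeff n f

theorem NN.add {f g : ℚ⟦X⟧} (hf : NN f) (hg : NN g) : NN (f + g) := fun n => by
  rw [map_add]; exact add_nonneg (hf n) (hg n)

theorem NN.mul {f g : ℚ⟦X⟧} (hf : NN f) (hg : NN g) : NN (f * g) := fun n => by
  rw [coeff_mul]; exact sum_nonneg fun p _ => mul_nonneg (hf _) (hg _)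

theorem NN_zero : NN 0 := fun n => by simp

theorem NN_one : NN 1 := fun n => by
  rw [coeff_one]; split_ifs <;> norm_num

theorem NN_X_pow (k : ℕ) : NN (X ^ k) := fun n => by
  rw [coeff_X_pow]; split_ifs <;> norm_num

theorem NN_X : NN X := by simpa using NN_X_pow 1

theorem NN_sum {ι : Type} (s : Finset ι) (f : ι → ℚ⟦X⟧) (h : ∀ i ∈ s, NN (f i)) :
    NN (∑ i ∈ s, f i) := fun n => by
  rw [map_sum]; exact sum_nonneg fun i hi => h i hi n

theorem NN_prod {ι : Type} (s : Finset ι) (f : ι → ℚ⟦X⟧) (h : ∀ i ∈ s, NN (f i)) :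
    NN (∏ i ∈ s, f i) :=
  Finset.prod_induction f NN (fun _ _ ha hb => ha.mul hb) NN_one h

theorem NN_prod_sub_one {ι : Type} (s : Finset ι) (f : ι → ℚ⟦X⟧)
    (h : ∀ i ∈ s, NN (f i - 1)) : NN (∏ i ∈ s, f i - 1) := by
  refine Finset.prod_induction f (fun x => NN (x - 1)) (fun a b ha hb => ?_) ?_ h
  · have : a * b - 1 = (a - 1) * (b - 1) + (a - 1) + (b - 1) := by ring
    rw [this]; exact ((ha.mul hb).add ha).add hb
  · simpa using NN_zero

theorem cc_one_sub (e : ℕ) (he : 0 < e) : constantCoeff (1 - X ^ e : ℚ⟦X⟧) = 1 := by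
  simp [he.ne']

theorem one_sub_mul_inv (e : ℕ) (he : 0 < e) : (1 - X ^ e : ℚ⟦X⟧) * (1 - X ^ e)⁻¹ = 1 :=
  PowerSeries.mul_inv_cancel _ (by rw [cc_one_sub e he]; norm_num)

theorem one_sub_ne (e : ℕ) (he : 0 < e) : (1 - X ^ e : ℚ⟦X⟧) ≠ 0 := fun h => by
  have := cc_one_sub e he
  rw [h] at this; simp at this

theorem NN_geo (e : ℕ) (he : 0 < e) : NN ((1 - X ^ e : ℚ⟦X⟧)⁻¹) := by
  have h : (1 - X ^ e : ℚ⟦X⟧)⁻¹ = 1 + X ^ e * (1 - X ^ e)⁻¹ := by
    linear_combination one_sub_mul_inv e he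
  intro n
  induction n using Nat.strong_induction_on with
  | _ n ih =>
    rw [h, map_add, coeff_X_pow_mul']
    refine add_nonneg (NN_one n) ?_
    split_ifs with hn
    · exact ih _ (by omega)
    · exact le_rfl

theorem NN_geo_sub_one (e : ℕ) (he : 0 < e) : NN ((1 - X ^ e : ℚ⟦X⟧)⁻¹ - 1) := by
  have h : (1 - X ^ e : ℚ⟦X⟧)⁻¹ - 1 = X ^ e * (1 - X ^ e)⁻¹ := by
    linear_combination one_sub_mul_inv e he
  rw [h]; exact (NN_X_pow e).mul (NN_geo e he)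

/-- The product of `1 / (1 - X^(2k+1))` over `k < L`. -/
noncomputable def oddGF (L : ℕ) : ℚ⟦X⟧ := ∏ k ∈ range L, (1 - X ^ (2 * k + 1))⁻¹

/-- The product of `1 + X^(k+1)` over `k < m`. -/
noncomputable def distGF (m : ℕ) : ℚ⟦X⟧ := ∏ k ∈ range m, (1 + X ^ (k + 1))

theorem NN_oddGF (L : ℕ) : NN (oddGF L) := NN_prod _ _ fun k _ => NN_geo _ (by omega)

theorem NN_distGF (m : ℕ) : NN (distGF m) := NN_prod _ _ fun _ _ => NN_one.add (NN_X_pow _)

theorem oddGF_mul (L : ℕ) : oddGF L * ∏ k ∈ range L, (1 - X ^ (2 * k + 1)) = 1 := by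
  unfold oddGF
  rw [← prod_mul_distrib]
  exact prod_eq_one fun k _ => by rw [mul_comm]; exact one_sub_mul_inv _ (by omega)

theorem glaisher_id (m : ℕ) :
    (∏ k ∈ range m, (1 - X ^ (2 * k + 1) : ℚ⟦X⟧)) * distGF m * ∏ k ∈ range m, (1 - X ^ (k + 1)) =
      ∏ k ∈ range (m + m), (1 - X ^ (k + 1)) := by
  unfold distGF
  induction m with
  | zero => simp
  | succ m ih =>
    rw [show m + 1 + (m + 1) = m + m + 1 + 1 by ring, prod_range_succ, prod_range_succ,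
      prod_range_succ, prod_range_succ, prod_range_succ, ← ih]
    ring

theorem oddGF_eq (m : ℕ) :
    oddGF m = distGF m * ∏ k ∈ range m, (1 - X ^ (m + k + 1))⁻¹ := by
  have h := glaisher_id m
  rw [prod_range_add] at h
  have hne : (∏ k ∈ range m, (1 - X ^ (k + 1)) : ℚ⟦X⟧) ≠ 0 :=
    prod_ne_zero_iff.mpr fun k _ => one_sub_ne _ (by omega)
  have h2 : (∏ k ∈ range m, (1 - X ^ (2 * k + 1) : ℚ⟦X⟧)) * distGF m =
      ∏ k ∈ range m, (1 - X ^ (m + k + 1)) := by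
    apply mul_right_cancel₀ hne
    rw [h]; ring
  have h3 : (∏ k ∈ range m, (1 - X ^ (m + k + 1) : ℚ⟦X⟧)) *
      ∏ k ∈ range m, (1 - X ^ (m + k + 1))⁻¹ = 1 := by
    rw [← prod_mul_distrib]
    exact prod_eq_one fun k _ => one_sub_mul_inv _ (by omega)
  have h4 := oddGF_mul m
  linear_combination (-(oddGF m)) * h3 -
    (oddGF m * ∏ k ∈ range m, (1 - X ^ (m + k + 1) : ℚ⟦X⟧)⁻¹) * h2 +
    (distGF m * ∏ k ∈ range m, (1 - X ^ (m + k + 1) : ℚ⟦X⟧)⁻¹) * h4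

theorem NN_oddGF_sub (m j : ℕ) : NN (oddGF (m + j) - distGF m) := by
  have h1 : oddGF (m + j) = oddGF m * ∏ k ∈ range j, (1 - X ^ (2 * (m + k) + 1))⁻¹ := by
    unfold oddGF; rw [prod_range_add]
  have a := NN_prod_sub_one (range m) (fun k => (1 - X ^ (m + k + 1) : ℚ⟦X⟧)⁻¹)
    fun k _ => NN_geo_sub_one _ (by omega)
  have b := NN_prod_sub_one (range j) (fun k => (1 - X ^ (2 * (m + k) + 1) : ℚ⟦X⟧)⁻¹)
    fun k _ => NN_geo_sub_one _ (by omega)
  rw [h1, oddGF_eq m]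
  set u := ∏ k ∈ range m, (1 - X ^ (m + k + 1) : ℚ⟦X⟧)⁻¹
  set v := ∏ k ∈ range j, (1 - X ^ (2 * (m + k) + 1) : ℚ⟦X⟧)⁻¹
  have : distGF m * u * v - distGF m =
      distGF m * ((u - 1) * (v - 1) + (u - 1) + (v - 1)) := by ring
  rw [this]
  exact (NN_distGF m).mul (((a.mul b).add a).add b)

/-- The geometric sum of `X^(e i)` over `i < s`. -/
noncomputable def gs (e s : ℕ) : ℚ⟦X⟧ := ∑ i ∈ range s, X ^ (e * i)

theorem NN_gs (e s : ℕ) : NN (gs e s) := NN_sum _ _ fun _ _ => NN_X_pow _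

theorem gs_mul (e s : ℕ) : gs e s * (1 - X ^ e) = 1 - X ^ (e * s) := by
  unfold gs
  induction s with
  | zero => simp
  | succ s ih => rw [sum_range_succ, add_mul, ih]; ring

theorem aux_core (F A B D S T g : ℚ⟦X⟧) (F' : ℚ⟦X⟧) (r : ℕ) (hF : F = g * F')
    (hg : g * (1 - X) = 1) (hgN : NN g) (hF' : NN F') (hS : NN S) (hT : NN T) (hB : NN B)
    (hA : A = S + T) (hC : B * (1 - X ^ 2) = S * (1 - X ^ r)) (hD : NN (F - D)) :
    NN (F * (A + X ^ 3 * B) - X * B * D) := by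
  have key : F * (A + X ^ 3 * B) - X * B * D =
      F' * (g * T + S + g * (X ^ r * X * S)) + X * B * (F - D) := by
    rw [hF, hA]
    linear_combination (-(g * F' * X)) * hC + (F' * S) * hg
  rw [key]
  exact (hF'.mul (((hgN.mul hT).add hS).add (hgN.mul (((NN_X_pow r).mul NN_X).mul hS)))).add
    ((NN_X.mul hB).mul hD)

theorem core (M : ℕ) (A B : ℚ⟦X⟧) (hA : A * (1 - X ^ 2) = 1 - X ^ (2 * M + 6))
    (hB : B * ((1 - X ^ 2) * (1 - X ^ 4)) = (1 - X ^ (2 * M + 4)) * (1 - X ^ (2 * M + 2))) :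
    NN (oddGF (M + 4) * (A + X ^ 3 * B) - X * B * distGF M) := by
  have hF : oddGF (M + 4) = (1 - X ^ 1 : ℚ⟦X⟧)⁻¹ *
      ∏ k ∈ range (M + 3), (1 - X ^ (2 * (k + 1) + 1))⁻¹ := by
    unfold oddGF
    rw [prod_range_succ', mul_comm]
  have hg : (1 - X ^ 1 : ℚ⟦X⟧)⁻¹ * (1 - X) = 1 := by
    have := one_sub_mul_inv 1 (by norm_num)
    rw [mul_comm]; rwa [pow_one] at this ⊢
  have hF' : NN (∏ k ∈ range (M + 3), (1 - X ^ (2 * (k + 1) + 1) : ℚ⟦X⟧)⁻¹) :=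
    NN_prod _ _ fun k _ => NN_geo _ (by omega)
  have n2 := one_sub_ne 2 (by norm_num)
  have n4 := one_sub_ne 4 (by norm_num)
  obtain ⟨s, rfl | rfl⟩ := Nat.even_or_odd' M
  · have h4 := gs_mul 4 (s + 1)
    have h2 := gs_mul 2 (2 * s + 1)
    have hBeq : B = gs 4 (s + 1) * gs 2 (2 * s + 1) := by
      apply mul_right_cancel₀ (mul_ne_zero n2 n4)
      rw [hB]
      linear_combination (-(1 - X ^ (4 * (s + 1)) : ℚ⟦X⟧)) * h2 -
        (gs 2 (2 * s + 1) * (1 - X ^ 2)) * h4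
    refine aux_core _ A B _ (gs 4 (s + 1)) (X ^ 2 * gs 4 (s + 1) + X ^ (4 * (s + 1))) _ _
      (2 * (2 * s + 1)) hF hg (NN_geo 1 (by norm_num)) hF' (NN_gs _ _)
      (((NN_X_pow _).mul (NN_gs _ _)).add (NN_X_pow _)) ?_ ?_ ?_ (NN_oddGF_sub _ _)
    · rw [hBeq]; exact (NN_gs _ _).mul (NN_gs _ _)
    · apply mul_right_cancel₀ n2
      rw [hA]
      linear_combination -h4
    · rw [hBeq]; linear_combination (gs 4 (s + 1)) * h2
  · have h4 := gs_mul 4 (s + 1)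
    have h2 := gs_mul 2 (2 * s + 3)
    have hBeq : B = gs 4 (s + 1) * gs 2 (2 * s + 3) := by
      apply mul_right_cancel₀ (mul_ne_zero n2 n4)
      rw [hB]
      linear_combination (-(1 - X ^ (4 * (s + 1)) : ℚ⟦X⟧)) * h2 -
        (gs 2 (2 * s + 3) * (1 - X ^ 2)) * h4
    refine aux_core _ A B _ (gs 4 (s + 1))
      (X ^ 2 * gs 4 (s + 1) + X ^ (4 * (s + 1)) * (1 + X ^ 2)) _ _
      (2 * (2 * s + 3)) hF hg (NN_geo 1 (by norm_num)) hF' (NN_gs _ _)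
      (((NN_X_pow _).mul (NN_gs _ _)).add ((NN_X_pow _).mul (NN_one.add (NN_X_pow _))))
      ?_ ?_ ?_ (NN_oddGF_sub _ _)
    · rw [hBeq]; exact (NN_gs _ _).mul (NN_gs _ _)
    · apply mul_right_cancel₀ n2
      rw [hA]
      linear_combination -h4
    · rw [hBeq]; linear_combination (gs 4 (s + 1)) * h2

end Pool.Agent.H7.QHook
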