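import Mathlib
import Pool.Agent.H7.QHook

/-! Generating functions for gap statistics of finite sets of positive integers. -/

namespace Pool.Agent.H7.QHook

open PowerSeries Finset

/-- Number of `k ≥ 2` in `S` with `k - 1 ∉ S`. -/
def gaps (S : Finset ℕ) : ℕ := (S.filter (fun k => 2 ≤ k ∧ k - 1 ∉ S)).card

noncomputable def U (r L : ℕ) : ℚ⟦X⟧ :=
  ∑ S ∈ (Icc 1 L).powerset, ((gaps S).choose r : ℚ⟦X⟧) * X ^ (∑ k ∈ S, k)

theorem Icc_succ_eq (L : ℕ) : Icc 1 (L + 1) = insert (L + 1) (Icc 1 L) := by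
  ext x; simp only [mem_Icc, mem_insert]; omega

theorem gaps_insert (L : ℕ) (S : Finset ℕ) (hS : S ⊆ Icc 1 L) :
    gaps (insert (L + 1) S) = gaps S + if 1 ≤ L ∧ L ∉ S then 1 else 0 := by
  have hn : L + 1 ∉ S := fun h => by have := mem_Icc.mp (hS h); omega
  unfold gaps
  rw [filter_insert]
  have hf : S.filter (fun k => 2 ≤ k ∧ k - 1 ∉ insert (L + 1) S) =
      S.filter (fun k => 2 ≤ k ∧ k - 1 ∉ S) := by
    refine filter_congr fun k hk => ?_
    have := mem_Icc.mp (hS hk)
    simp only [mem_insert, not_or]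
    constructor
    · rintro ⟨a, _, c⟩; exact ⟨a, c⟩
    · rintro ⟨a, c⟩; exact ⟨a, by omega, c⟩
  rw [hf]
  by_cases h : 1 ≤ L ∧ L ∉ S
  · rw [if_pos h, if_pos, card_insert_of_notMem (fun hh => hn (mem_filter.mp hh).1)]
    simp only [mem_insert, not_or, add_tsub_cancel_right]
    exact ⟨by omega, by omega, h.2⟩
  · rw [if_neg h, if_neg, add_zero]
    simp only [mem_insert, not_or, add_tsub_cancel_right]
    rintro ⟨a, _, c⟩
    exact h ⟨by omega, c⟩

theorem U_succ (r L : ℕ) : U r (L + 1) = U r L + X ^ (L + 1) *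
    ∑ S ∈ (Icc 1 L).powerset,
      ((gaps S + if 1 ≤ L ∧ L ∉ S then 1 else 0).choose r : ℚ⟦X⟧) * X ^ (∑ k ∈ S, k) := by
  unfold U
  rw [Icc_succ_eq, sum_powerset_insert (by simp), mul_sum]
  congr 1
  refine sum_congr rfl fun S hS => ?_
  have hS' := mem_powerset.mp hS
  have hn : L + 1 ∉ S := fun h => by have := mem_Icc.mp (hS' h); omega
  rw [gaps_insert L S hS', sum_insert hn]
  ring

theorem U_zero (L : ℕ) : U 0 L = distGF L := by
  induction L with
  | zero => simp [U, distGF]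
  | succ L ih =>
    rw [U_succ]
    have : ∑ S ∈ (Icc 1 L).powerset,
      ((gaps S + if 1 ≤ L ∧ L ∉ S then 1 else 0).choose 0 : ℚ⟦X⟧) * X ^ (∑ k ∈ S, k) = U 0 L := by
      unfold U
      simp
    rw [this, ih]
    unfold distGF
    rw [prod_range_succ]; ring

theorem U_rec (r L : ℕ) :
    U (r + 1) (L + 2) = (1 + X ^ (L + 2)) * U (r + 1) (L + 1) + X ^ (L + 2) * U r L := by
  rw [U_succ (r + 1) (L + 1)]
  have : ∑ S ∈ (Icc 1 (L + 1)).powerset,
      ((gaps S + if 1 ≤ L + 1 ∧ L + 1 ∉ S then 1 else 0).choose (r + 1) : ℚ⟦X⟧) *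
        X ^ (∑ k ∈ S, k) = U (r + 1) (L + 1) + U r L := by
    have hn0 : L + 1 ∉ Icc 1 L := by simp
    have e1 : ∑ S ∈ (Icc 1 L).powerset,
        ((gaps S + if 1 ≤ L + 1 ∧ L + 1 ∉ S then 1 else 0).choose (r + 1) : ℚ⟦X⟧) *
          X ^ (∑ k ∈ S, k) = U (r + 1) L + U r L := by
      unfold U
      rw [← sum_add_distrib]
      refine sum_congr rfl fun S hS => ?_
      have hS' := mem_powerset.mp hS
      have hn : L + 1 ∉ S := fun h => hn0 (hS' h)
      rw [if_pos ⟨by omega, hn⟩, Nat.choose_succ_succ']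
      push_cast; ring
    have e2 : ∑ S ∈ (Icc 1 L).powerset,
        ((gaps (insert (L + 1) S) + if 1 ≤ L + 1 ∧ L + 1 ∉ insert (L + 1) S then 1 else 0).choose
          (r + 1) : ℚ⟦X⟧) * X ^ (∑ k ∈ insert (L + 1) S, k) =
        ∑ S ∈ (Icc 1 L).powerset,
        ((gaps (insert (L + 1) S)).choose (r + 1) : ℚ⟦X⟧) * X ^ (∑ k ∈ insert (L + 1) S, k) := by
      refine sum_congr rfl fun S _ => ?_
      rw [if_neg (by simp), add_zero]
    have e3 : U (r + 1) (L + 1) = U (r + 1) L + ∑ S ∈ (Icc 1 L).powerset,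
        ((gaps (insert (L + 1) S)).choose (r + 1) : ℚ⟦X⟧) * X ^ (∑ k ∈ insert (L + 1) S, k) := by
      unfold U
      rw [Icc_succ_eq, sum_powerset_insert hn0]
    rw [Icc_succ_eq, sum_powerset_insert hn0, e1, e2, e3]
    ring
  rw [this]; ring

theorem U_at_zero (r : ℕ) : U (r + 1) 0 = 0 := by
  simp [U, gaps]

theorem U_at_one (r : ℕ) : U (r + 1) 1 = 0 := by
  rw [U_succ, U_at_zero]
  simp [gaps]

theorem U_one (M : ℕ) :
    U 1 (M + 2) * (1 - X ^ 2) = X ^ 2 * (1 - X ^ (2 * M + 2)) * distGF M := by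
  induction M with
  | zero =>
    rw [U_rec 0 0, U_at_one, U_zero]; ring
  | succ M ih =>
    rw [U_rec 0 (M + 1), U_zero]
    have hD : distGF (M + 1) = distGF M * (1 + X ^ (M + 1)) := by
      unfold distGF; rw [prod_range_succ]
    rw [hD]
    linear_combination (1 + X ^ (M + 3) : ℚ⟦X⟧) * ih

theorem U_two_small (L : ℕ) (h : L ≤ 3) : U 2 L = 0 := by
  have h2 : U 2 2 = 0 := by rw [U_rec 1 0, U_at_one, U_at_zero]; simp
  interval_cases L
  · exact U_at_zero 1
  · exact U_at_one 1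
  · exact h2
  · rw [U_rec 1 1, h2, U_at_one]; simp

theorem U_two (M : ℕ) :
    U 2 (M + 4) * ((1 - X ^ 2) * (1 - X ^ 4)) =
      X ^ 6 * ((1 - X ^ (2 * M + 4)) * (1 - X ^ (2 * M + 2))) * distGF M := by
  induction M with
  | zero =>
    rw [U_rec 1 2, U_two_small 3 le_rfl]
    have := U_one 0
    linear_combination (X ^ 4 * (1 - X ^ 4) : ℚ⟦X⟧) * this
  | succ M ih =>
    rw [U_rec 1 (M + 3)]
    have h1 := U_one (M + 1)
    have hD : distGF (M + 1) = distGF M * (1 + X ^ (M + 1)) := by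
      unfold distGF; rw [prod_range_succ]
    rw [hD] at h1 ⊢
    linear_combination (1 + X ^ (M + 5) : ℚ⟦X⟧) * ih + (X ^ (M + 5) * (1 - X ^ 4) : ℚ⟦X⟧) * h1

/-- The double sum equal to a Gaussian binomial in base `X^2`. -/
noncomputable def B2 (N : ℕ) : ℚ⟦X⟧ := ∑ c ∈ range N, ∑ a ∈ range (c + 1), X ^ (2 * a + 2 * c)

theorem B2_mul (N : ℕ) :
    B2 N * ((1 - X ^ 2) * (1 - X ^ 4)) = (1 - X ^ (2 * N + 2)) * (1 - X ^ (2 * N)) := by
  unfold B2
  induction N with
  | zero => simp
  | succ N ih =>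
    rw [sum_range_succ]
    have h := gs_mul 2 (N + 1)
    have e : ∑ a ∈ range (N + 1), (X : ℚ⟦X⟧) ^ (2 * a + 2 * N) = X ^ (2 * N) * gs 2 (N + 1) := by
      unfold gs
      rw [mul_sum]
      exact sum_congr rfl fun a _ => by ring
    rw [e]
    linear_combination ih + (X ^ (2 * N) * (1 - X ^ 4) : ℚ⟦X⟧) * h

theorem final_series (M : ℕ) :
    NN (oddGF (M + 4) * (X ^ 5 * gs 2 (M + 3) + X ^ 8 * B2 (M + 1)) - U 2 (M + 4)) := by
  have hB := B2_mul (M + 1)
  have hc := core M (gs 2 (M + 3)) (B2 (M + 1)) (by linear_combination gs_mul 2 (M + 3))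
    (by linear_combination hB)
  have hU : U 2 (M + 4) = X ^ 6 * B2 (M + 1) * distGF M := by
    apply mul_right_cancel₀ (mul_ne_zero (one_sub_ne 2 (by norm_num)) (one_sub_ne 4 (by norm_num)))
    linear_combination U_two M - (X ^ 6 * distGF M) * hB
  have := (NN_X_pow 5).mul hc
  rw [hU]
  convert this using 1
  ring

theorem choose_two_filter (P : ℕ → Prop) [DecidablePred P] (N : ℕ) :
    ((range N).filter P).card.choose 2 =
      ∑ b ∈ range N, ∑ a ∈ range b, if P a ∧ P b then 1 else 0 := by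
  induction N with
  | zero => simp
  | succ N ih =>
    rw [sum_range_succ, ← ih, range_add_one, filter_insert]
    by_cases h : P N
    · rw [if_pos h, card_insert_of_notMem (by simp), Nat.choose_succ_succ', Nat.choose_one_right,
        add_comm]
      congr 1
      rw [card_filter]
      exact sum_congr rfl fun a _ => by simp [h]
    · rw [if_neg h]; simp [h]

theorem getD_iff (j : ℕ) (hj : 1 ≤ j) : ∀ (l : List ℕ), l.Pairwise (· ≥ ·) → ∀ i : ℕ,
    (j ≤ l.getD i 0 ↔ i < l.countP (fun x => decide (j ≤ x)))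
  | [], _, i => by simp; omega
  | a :: t, h, i => by
    have ht := getD_iff j hj t (List.pairwise_cons.mp h).2
    have ha := (List.pairwise_cons.mp h).1
    by_cases hja : j ≤ a
    · rw [List.countP_cons_of_pos (by simpa using hja)]
      cases i with
      | zero => simpa using hja
      | succ i => rw [List.getD_cons_succ, ht i]; omega
    · have h0 : t.countP (fun x => decide (j ≤ x)) = 0 := by
        rw [List.countP_eq_zero]
        intro x hx
        have := ha x hx
        simp only [decide_eq_true_eq]; omega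
      rw [List.countP_cons_of_neg (by simpa using hja), h0]
      cases i with
      | zero => simpa using hja
      | succ i => rw [List.getD_cons_succ, ht i, h0]; omega

end Pool.Agent.H7.QHook
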