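import Mathlib

set_option autoImplicit false

namespace H7.Rec
open Filter Topology Polynomial

/-- exponential bound -/
def E (s : ℕ → ℂ) (μ : ℝ) : Prop := ∃ C : ℝ, 0 ≤ C ∧ ∀ n, ‖s n‖ ≤ C * μ ^ n

theorem E.mono {s : ℕ → ℂ} {μ ν : ℝ} (h : E s μ) (h0 : 0 ≤ μ) (h1 : μ ≤ ν) : E s ν := by
  obtain ⟨C, c, h⟩ := h
  exact ⟨C, c, fun n => (h n).trans (by gcongr)⟩

theorem step1 (s r : ℕ → ℂ) (a : ℂ) (ν : ℝ) (hν : 1 < ‖a‖ * ν)
    (h : ∀ n, r (n + 1) = s n - a * s (n + 1)) (hr : E r ν) : E s ν := by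
  obtain ⟨C, c, hr⟩ := hr
  have a0 := norm_nonneg a
  have ν0 : 0 < ν := by
    by_contra z
    nlinarith
  have ap : 0 < ‖a‖ := by
    by_contra z
    nlinarith
  obtain ⟨K, k1, k2⟩ : ∃ K : ℝ, ‖s 0‖ ≤ K ∧ C * ν ≤ K * (‖a‖ * ν - 1) :=
    ⟨max ‖s 0‖ (C * ν / (‖a‖ * ν - 1)), le_max_left _ _, by
      rw [← div_le_iff₀ (by linarith)]; exact le_max_right _ _⟩
  refine ⟨K, (norm_nonneg _).trans k1, fun n => ?_⟩
  induction n with
  | zero => simpa using k1
  | succ n ih =>
    have e : a * s (n + 1) = s n - r (n + 1) := by rw [h]; ring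
    have := norm_sub_le (s n) (r (n + 1))
    rw [← e, norm_mul] at this
    have b := hr (n + 1)
    have p : 0 < ν ^ n := by positivity
    refine le_of_mul_le_mul_left ?_ ap
    rw [pow_succ] at b ⊢
    nlinarith [mul_le_mul_of_nonneg_right k2 p.le]

theorem step2 (s r : ℕ → ℂ) (a : ℂ) (μ l : ℝ) (h0 : 0 < μ) (h1 : μ < l) (ha : ‖a‖ * l ≤ 1)
    (h : ∀ n, r (n + 1) = s n - a * s (n + 1)) (hr : E r μ)
    (hs : Tendsto (fun n => ‖s n‖ / l ^ n) atTop (𝓝 0)) : E s μ := by
  obtain ⟨C, c, hr⟩ := hr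
  have a0 := norm_nonneg a
  have l0 : 0 < l := by linarith
  have q : ‖a‖ * μ < 1 := by
    rcases a0.eq_or_lt with z | z
    · rw [← z]; simp
    · nlinarith
  obtain ⟨K, k0, k⟩ : ∃ K : ℝ, 0 ≤ K ∧ C * μ ≤ K * (1 - ‖a‖ * μ) :=
    ⟨C * μ / (1 - ‖a‖ * μ), div_nonneg (by positivity) (by linarith), by
      rw [div_mul_cancel₀ _ (by linarith)]⟩
  have it : ∀ m n, ‖s n‖ ≤ ‖a‖ ^ m * ‖s (m + n)‖ + K * μ ^ n := by
    intro m
    induction m with
    | zero => intro n; simp; positivity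
    | succ m ih =>
      intro n
      have e : s n = a * s (n + 1) + r (n + 1) := by rw [h]; ring
      have b := norm_add_le (a * s (n + 1)) (r (n + 1))
      rw [← e, norm_mul] at b
      have b1 := hr (n + 1)
      have b2 := mul_le_mul_of_nonneg_left (ih (n + 1)) a0
      have p : 0 < μ ^ n := by positivity
      rw [show m + 1 + n = m + (n + 1) by ring]
      rw [pow_succ] at b1 b2 ⊢
      nlinarith [mul_le_mul_of_nonneg_right k p.le]
  refine ⟨K, k0, fun n => ?_⟩
  have t : Tendsto (fun m => l ^ n * (‖s (m + n)‖ / l ^ (m + n)) + K * μ ^ n) atTop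
      (𝓝 (l ^ n * 0 + K * μ ^ n)) :=
    ((hs.comp (tendsto_add_atTop_nat n)).const_mul _).add_const _
  rw [mul_zero, zero_add] at t
  refine ge_of_tendsto' t fun m => (it m n).trans ?_
  have : ‖a‖ ^ m * l ^ m ≤ 1 := by rw [← mul_pow]; exact pow_le_one₀ (by positivity) ha
  have e : l ^ n * (‖s (m + n)‖ / l ^ (m + n)) = ‖s (m + n)‖ / l ^ m := by
    rw [pow_add]; field_simp
  rw [e, add_le_add_iff_right, le_div_iff₀ (by positivity)]
  nlinarith [norm_nonneg (s (m + n))]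

theorem base (s : ℕ → ℂ) (N : ℕ) (h : ∀ n, N < n → s n = 0) (μ : ℝ) (h0 : 0 < μ) : E s μ := by
  refine ⟨∑ i ∈ Finset.range (N + 1), ‖s i‖ / μ ^ i, by positivity, fun n => ?_⟩
  by_cases z : N < n
  · rw [h n z, norm_zero]; positivity
  · rw [← div_le_iff₀ (by positivity)]
    exact Finset.single_le_sum (f := fun i => ‖s i‖ / μ ^ i) (fun _ _ => by positivity)
      (Finset.mem_range.2 (by omega))

theorem main (P : ℂ[X]) : ∀ (d : ℕ) (Q : ℂ[X]), Q.natDegree = d → Q ≠ 0 → ∀ s : ℕ → ℂ,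
    (Q : PowerSeries ℂ) * PowerSeries.mk s = P →
    (∃ μ, 0 < μ ∧ E s μ) ∧ ∀ l, 0 < l → Tendsto (fun n => ‖s n‖ / l ^ n) atTop (𝓝 0) →
      ∃ μ, 0 < μ ∧ μ < l ∧ E s μ := by
  intro d
  induction d with
  | zero =>
    intro Q hd hQ s h
    rw [eq_C_of_natDegree_eq_zero hd] at h hQ
    have c : Q.coeff 0 ≠ 0 := fun z => hQ (by rw [z, C_0])
    have z : ∀ n, P.natDegree < n → s n = 0 := by
      intro n hn
      have := congrArg (PowerSeries.coeff n) h
      simp only [coe_C, PowerSeries.coeff_C_mul, PowerSeries.coeff_mk, coeff_coe,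
        coeff_eq_zero_of_natDegree_lt hn] at this
      exact (mul_eq_zero.1 this).resolve_left c
    exact ⟨⟨1, one_pos, base s _ z 1 one_pos⟩, fun l hl _ =>
      ⟨l / 2, by linarith, by linarith, base s _ z _ (by linarith)⟩⟩
  | succ d ih =>
    intro Q hd hQ s h
    obtain ⟨a, ha⟩ := IsAlgClosed.exists_root Q (by
      rw [degree_eq_natDegree hQ, hd]; exact_mod_cast Nat.succ_ne_zero d)
    obtain ⟨Q', rfl⟩ := dvd_iff_isRoot.2 ha
    have hQ' : Q' ≠ 0 := right_ne_zero_of_mul hQ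
    rw [natDegree_mul (X_sub_C_ne_zero a) hQ', natDegree_X_sub_C] at hd
    let r : ℕ → ℂ := fun n =>
      PowerSeries.coeff n (((X - C a : ℂ[X]) : PowerSeries ℂ) * PowerSeries.mk s)
    have hr : ∀ n, r (n + 1) = s n - a * s (n + 1) := by
      intro n
      simp [r, sub_mul, PowerSeries.coeff_succ_X_mul]
    have e : (Q' : PowerSeries ℂ) * PowerSeries.mk r = P := by
      rw [← h]
      have : PowerSeries.mk r = ((X - C a : ℂ[X]) : PowerSeries ℂ) * PowerSeries.mk s := by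
        ext n; simp only [r, PowerSeries.coeff_mk]
      rw [this, coe_mul]; ring
    obtain ⟨⟨μ, m0, m1⟩, h2⟩ := ih Q' (by omega) hQ' r e
    constructor
    · by_cases z : a = 0
      · obtain ⟨C, c, m1⟩ := m1
        refine ⟨μ, m0, C * μ, by positivity, fun n => ?_⟩
        have := m1 (n + 1)
        rw [hr, z, zero_mul, sub_zero, pow_succ] at this
        linarith
      · have ap : 0 < ‖a‖ := norm_pos_iff.2 z
        refine ⟨μ + 1 / ‖a‖, by positivity, step1 s r a _ ?_ hr (m1.mono m0.le ?_)⟩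
        · rw [mul_add, mul_one_div_cancel ap.ne']
          have := mul_pos ap m0
          linarith
        · simp
    · intro l hl hs
      have t : Tendsto (fun n => ‖r n‖ / l ^ n) atTop (𝓝 0) := by
        rw [← tendsto_add_atTop_iff_nat 1]
        have t1 := (hs.div_const l).add ((hs.comp (tendsto_add_atTop_nat 1)).const_mul ‖a‖)
        simp only [zero_div, mul_zero, add_zero] at t1
        refine squeeze_zero (fun _ => by positivity) (fun n => ?_) t1
        have := norm_sub_le (s n) (a * s (n + 1))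
        rw [hr]
        simp only [Function.comp]
        rw [div_div, ← pow_succ, ← mul_div_assoc, ← add_div, ← norm_mul]
        gcongr
      obtain ⟨ν, n0, n1, n2⟩ := h2 l hl t
      by_cases z : ‖a‖ * l ≤ 1
      · exact ⟨ν, n0, n1, step2 s r a ν l n0 n1 z hr n2 hs⟩
      · have ap : 0 < ‖a‖ := by
          by_contra w
          have := norm_nonneg a
          nlinarith
        have w : 1 / ‖a‖ < l := by rw [div_lt_iff₀ ap]; linarith
        obtain ⟨ρ, r1, r2⟩ := exists_between (max_lt n1 w)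
        have r3 := (le_max_left _ _).trans_lt r1
        have r4 := (le_max_right _ _).trans_lt r1
        refine ⟨ρ, by linarith, r2, step1 s r a ρ ?_ hr (n2.mono n0.le r3.le)⟩
        rw [div_lt_iff₀ ap] at r4
        linarith

/-- a positive sequence with a strong doubling inequality has no rational generating function -/
theorem not_rat (t : ℕ → ℕ) (h1 : ∀ n, 1 ≤ t (n + 1))
    (h2 : ∀ n k, k * k ≤ n → k * t n ^ 2 ≤ 2 * t (2 * n + 1)) (P Q : ℂ[X]) (hQ : Q ≠ 0) :
    (Q : PowerSeries ℂ) * PowerSeries.mk (fun n => (t n : ℂ)) ≠ P := by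
  intro h
  obtain ⟨hne, hlt⟩ := main P _ Q rfl hQ _ h
  set S := {μ | 0 < μ ∧ E (fun n => (t n : ℂ)) μ} with hS
  have ge1 : ∀ μ ∈ S, 1 ≤ μ := by
    rintro μ ⟨m0, C, c, m⟩
    by_contra z
    have t1 := ((tendsto_pow_atTop_nhds_zero_of_lt_one m0.le (not_le.1 z)).comp
      (tendsto_add_atTop_nat 1)).const_mul C
    rw [mul_zero] at t1
    have := ge_of_tendsto' (b := (1 : ℝ)) t1 fun n => by
      have := m (n + 1)
      simp only [Complex.norm_natCast] at this
      have a : (1 : ℝ) ≤ t (n + 1) := by exact_mod_cast h1 n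
      exact a.trans this
    linarith
  have l1 : 1 ≤ sInf S := le_csInf hne ge1
  have key : ∀ μ ∈ S, ∀ n k : ℕ, k * k ≤ n → (k : ℝ) * t n ≤ 2 * μ ^ (n + 1) := by
    rintro μ ⟨m0, C, c, m⟩ n k hk
    simp only [Complex.norm_natCast] at m
    by_contra z
    obtain ⟨δ, d0, d⟩ : ∃ δ : ℝ, 0 < δ ∧ (1 + δ) * (2 * μ ^ (n + 1)) ≤ k * t n :=
      ⟨k * t n / (2 * μ ^ (n + 1)) - 1, by
        rw [sub_pos, lt_div_iff₀ (by positivity)]; linarith, by
        rw [add_sub_cancel, div_mul_cancel₀ _ (by positivity)]⟩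
    have it : ∀ i : ℕ, ∃ N, k * k ≤ N ∧ (1 + (i + 1) * δ) * (2 * μ ^ (N + 1)) ≤ k * t N := by
      intro i
      induction i with
      | zero => exact ⟨n, hk, by simpa using d⟩
      | succ i ih =>
        obtain ⟨N, a, b⟩ := ih
        refine ⟨2 * N + 1, by omega, ?_⟩
        have e : (k : ℝ) * t N ^ 2 ≤ 2 * t (2 * N + 1) := by exact_mod_cast h2 N k a
        have b2 := pow_le_pow_left₀ (by positivity) b 2
        have e2 : μ ^ (2 * N + 1 + 1) = (μ ^ (N + 1)) ^ 2 := by ring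
        have e3 := mul_le_mul_of_nonneg_left e (Nat.cast_nonneg k)
        have e4 : 1 + ((i + 1 : ℕ) + 1) * δ ≤ (1 + (i + 1) * δ) ^ 2 := by
          push_cast
          have : (0 : ℝ) ≤ i := Nat.cast_nonneg i
          nlinarith [mul_nonneg this d0.le, sq_nonneg ((i + 1) * δ)]
        rw [e2]
        have p : 0 ≤ (μ ^ (N + 1)) ^ 2 := by positivity
        nlinarith [mul_le_mul_of_nonneg_right e4 p]
    obtain ⟨i, hi⟩ := exists_nat_gt (k * C / (2 * μ) / δ)
    obtain ⟨N, -, b⟩ := it i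
    have b2 := b.trans (mul_le_mul_of_nonneg_left (m N) (Nat.cast_nonneg k))
    rw [div_lt_iff₀ d0, div_lt_iff₀ (by positivity)] at hi
    have p : 0 < μ ^ N := by positivity
    rw [pow_succ] at b2
    have : (1 + (i + 1) * δ) * (2 * μ) ≤ k * C := by
      refine le_of_mul_le_mul_right ?_ p
      linarith
    nlinarith [mul_pos d0 m0]
  have key2 : ∀ n k : ℕ, k * k ≤ n → (k : ℝ) * t n ≤ 2 * sInf S ^ (n + 1) := by
    intro n k hk
    by_contra z
    have ev : ∀ᶠ y in 𝓝 (sInf S), 2 * y ^ (n + 1) < (k : ℝ) * t n :=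
      ContinuousAt.eventually_lt (by fun_prop) continuousAt_const (not_le.1 z)
    obtain ⟨y, y1, y2⟩ := ev.exists_gt
    obtain ⟨μ, m1, m2⟩ := exists_lt_of_csInf_lt hne y1
    have := key μ m1 n k hk
    have : μ ^ (n + 1) ≤ y ^ (n + 1) := pow_le_pow_left₀ m1.1.le m2.le _
    linarith
  have lim : Tendsto (fun n => ‖(t n : ℂ)‖ / sInf S ^ n) atTop (𝓝 0) := by
    have sq : Tendsto (fun n => (Nat.sqrt n : ℝ)) atTop atTop :=
      tendsto_natCast_atTop_atTop.comp (tendsto_atTop_atTop.2 fun b =>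
        ⟨b * b, fun a ha => Nat.le_sqrt.2 ha⟩)
    have t1 := sq.const_div_atTop (2 * sInf S)
    refine squeeze_zero' (Eventually.of_forall fun _ => by positivity) ?_ t1
    filter_upwards [eventually_ge_atTop 1] with n hn
    have p : (0 : ℝ) < Nat.sqrt n := by exact_mod_cast Nat.sqrt_pos.2 hn
    have := key2 n _ (Nat.sqrt_le n)
    rw [Complex.norm_natCast, div_le_div_iff₀ (by positivity) p]
    rw [pow_succ] at this
    linarith
  obtain ⟨μ, m0, m1, m2⟩ := hlt _ (by linarith) lim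
  exact absurd (csInf_le ⟨1, ge1⟩ ⟨m0, m2⟩) (not_le.2 m1)

end H7.Rec
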