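import Mathlib

set_option autoImplicit false

namespace Pool.Agent.H7.Schein

open Finset Real

variable {ι κ : Type} [Fintype ι] [DecidableEq ι]

/-- uniform probability on `ι → Bool` -/
noncomputable def pr (E : (ι → Bool) → Prop) : ℝ := by
  classical exact ((univ.filter E).card : ℝ) / 2 ^ Fintype.card ι

theorem pr_nonneg (E : (ι → Bool) → Prop) : 0 ≤ pr E := by unfold pr; positivity

theorem pr_mono {E F : (ι → Bool) → Prop} (h : ∀ A, E A → F A) : pr E ≤ pr F := by
  classical
  unfold pr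
  gcongr
  exact h _

theorem pr_or (E F : (ι → Bool) → Prop) : pr (fun A => E A ∨ F A) ≤ pr E + pr F := by
  classical
  unfold pr
  rw [← add_div]
  gcongr
  rw [← Nat.cast_add, Nat.cast_le]
  refine le_trans (card_le_card fun A hA => ?_) (card_union_le _ _)
  simpa using hA

theorem pr_ex {α : Type} (s : Finset α) (E : α → (ι → Bool) → Prop) :
    pr (fun A => ∃ a ∈ s, E a A) ≤ ∑ a ∈ s, pr (E a) := by
  classical
  induction s using Finset.induction_on with
  | empty => simp [pr]
  | insert a s ha ih =>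
    rw [sum_insert ha]
    refine le_trans (pr_mono (F := fun A => E a A ∨ ∃ b ∈ s, E b A) fun A h => by simpa using h) ?_
    exact (pr_or _ _).trans (by linarith)

theorem pr_ex_le {α : Type} [Fintype α] (E : α → (ι → Bool) → Prop) (b : ℝ) (h : ∀ a, pr (E a) ≤ b) :
    pr (fun A => ∃ a, E a A) ≤ Fintype.card α * b := by
  refine le_trans (pr_mono (F := fun A => ∃ a ∈ univ, E a A) fun A h => by simpa using h) ?_
  refine (pr_ex _ _).trans ?_
  rw [← nsmul_eq_mul, ← card_univ]
  exact sum_le_card_nsmul _ _ _ fun a _ => h a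

theorem pr_comp (e : ι ≃ ι) (E : (ι → Bool) → Prop) : pr (fun A => E (A ∘ e)) = pr E := by
  classical
  unfold pr
  congr 2
  refine card_bij (fun A _ => A ∘ e) (fun A h => by simpa using h) (fun A _ B _ h => ?_)
    (fun B h => ⟨B ∘ e.symm, ?_, ?_⟩)
  · funext c
    simpa using congrFun h (e.symm c)
  · simpa [Function.comp_assoc] using h
  · funext c; simp

theorem card_cyl (U : Finset ι) (x : ι → Bool) :
    ((univ.filter fun A : ι → Bool => ∀ c ∈ U, A c = x c).card : ℝ) =
      2 ^ Fintype.card ι / 2 ^ U.card := by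
  have : (univ.filter fun A : ι → Bool => ∀ c ∈ U, A c = x c) =
      Fintype.piFinset fun c => if c ∈ U then {x c} else univ := by
    ext A
    simp only [mem_filter, mem_univ, true_and, Fintype.mem_piFinset]
    refine forall_congr' fun c => ?_
    split_ifs with h <;> simp [h]
  rw [this, Fintype.card_piFinset]
  have e : ∀ c, (if c ∈ U then ({x c} : Finset Bool) else univ).card = if c ∈ U then 1 else 2 := by
    intro c; split_ifs <;> simp
  simp only [e, prod_ite, prod_const, one_pow, one_mul]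
  have h := card_filter_add_card_filter_not (s := (univ : Finset ι)) (fun c => c ∈ U)
  rw [filter_mem_eq_inter, univ_inter, card_univ] at h
  rw [← h, pow_add]
  push_cast
  field_simp

/-- number of blocks on which `A` agrees with the pattern `x` -/
def cnt (I : Finset κ) (S : κ → Finset ι) (x : ι → Bool) (A : ι → Bool) : ℕ :=
  (I.filter fun i => ∀ c ∈ S i, A c = x c).card

theorem mgf (I : Finset κ) (S : κ → Finset ι) (x : ι → Bool)
    (hd : (I : Set κ).PairwiseDisjoint S) (l : ℝ) :
    ∑ A : ι → Bool, l ^ cnt I S x A = 2 ^ Fintype.card ι * ∏ i ∈ I, (1 + (l - 1) / 2 ^ (S i).card) := by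
  have e1 : ∀ A : ι → Bool, l ^ cnt I S x A =
      ∑ T ∈ I.powerset, (l - 1) ^ T.card * if ∀ c ∈ T.biUnion S, A c = x c then 1 else 0 := by
    intro A
    have : l ^ cnt I S x A = ∏ i ∈ I, (1 + (l - 1) * if ∀ c ∈ S i, A c = x c then 1 else 0) := by
      unfold cnt
      rw [← prod_const, prod_filter]
      refine prod_congr rfl fun i _ => ?_
      split_ifs <;> ring
    rw [this, prod_one_add]
    refine sum_congr rfl fun T _ => ?_
    rw [prod_mul_distrib, prod_const, prod_boole]
    congr 2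
    simp only [mem_biUnion, eq_iff_iff]
    exact ⟨fun h c ⟨i, hi, hc⟩ => h i hi c hc, fun h i hi c hc => h c ⟨i, hi, hc⟩⟩
  simp only [e1]
  rw [sum_comm, prod_one_add, mul_sum]
  refine sum_congr rfl fun T hT => ?_
  rw [← mul_sum, sum_boole, card_cyl, card_biUnion fun i hi j hj hij =>
    hd (mem_powerset.mp hT hi) (mem_powerset.mp hT hj) hij, prod_div_distrib, prod_const,
    prod_pow_eq_pow_sum]
  ring

theorem tail (I : Finset κ) (S : κ → Finset ι) (x : ι → Bool)
    (hd : (I : Set κ).PairwiseDisjoint S) (h b t : ℝ) (E : (ι → Bool) → Prop)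
    (hb : ∀ i ∈ I, (exp h - 1) / 2 ^ (S i).card ≤ b) (hE : ∀ A, E A → t ≤ h * cnt I S x A) :
    pr E ≤ exp (b * I.card - t) := by
  classical
  have m := mgf I S x hd (exp h)
  have h1 : ∏ i ∈ I, (1 + (exp h - 1) / 2 ^ (S i).card) ≤ exp (b * I.card) := by
    rw [mul_comm, exp_nat_mul, ← prod_const]
    refine prod_le_prod (fun i _ => ?_) fun i hi => ?_
    · have h2 : (1 : ℝ) ≤ 2 ^ (S i).card := one_le_pow₀ (by norm_num)
      have h3 : (-1 : ℝ) ≤ (exp h - 1) / 2 ^ (S i).card := by
        rw [le_div_iff₀ (by positivity)]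
        have := exp_pos h
        linarith
      linarith
    · have := add_one_le_exp b
      have := hb i hi
      linarith
  have h2 : ((univ.filter E).card : ℝ) * exp t ≤ ∑ A : ι → Bool, exp h ^ cnt I S x A := by
    rw [← nsmul_eq_mul]
    refine le_trans (card_nsmul_le_sum _ (fun A => exp h ^ cnt I S x A) _ fun A hA => ?_)
      (sum_le_sum_of_subset_of_nonneg (subset_univ _) fun _ _ _ => by positivity)
    rw [← exp_nat_mul, mul_comm]
    exact exp_le_exp.mpr (hE A (mem_filter.mp hA).2)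
  unfold pr
  rw [exp_sub, div_le_div_iff₀ (by positivity) (exp_pos _)]
  refine h2.trans ?_
  rw [m, mul_comm]
  gcongr

theorem tail_up (I : Finset κ) (S : κ → Finset ι) (x : ι → Bool)
    (hd : (I : Set κ).PairwiseDisjoint S) (a : ℕ) (ha : ∀ i ∈ I, (S i).card = a) (d M : ℝ)
    (hd0 : 0 ≤ d) (hd1 : d ≤ 1) (hM : (I.card : ℝ) ≤ M) :
    pr (fun A => I.card / 2 ^ a + d * M ≤ (cnt I S x A : ℝ)) ≤ exp (-(d ^ 2 / 4 * M)) := by
  have h1 := abs_exp_sub_one_sub_id_le (x := d / 2) (by rw [abs_of_nonneg] <;> linarith)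
  have h2 : exp (d / 2) - 1 ≤ d / 2 + (d / 2) ^ 2 := by
    have := (abs_le.mp h1).2; linarith
  have h3 : (1 : ℝ) ≤ 2 ^ a := one_le_pow₀ (by norm_num)
  refine (tail I S x hd (d / 2) ((d / 2 + (d / 2) ^ 2) / 2 ^ a) (d / 2 * (I.card / 2 ^ a + d * M)) _
    (fun i hi => by rw [ha i hi]; gcongr) fun A h => by gcongr).trans (exp_le_exp.mpr ?_)
  have h4 : (I.card : ℝ) / 2 ^ a ≤ M := (div_le_self (by positivity) h3).trans hM
  have h5 : (d / 2 + (d / 2) ^ 2) / 2 ^ a * I.card = (d / 2 + (d / 2) ^ 2) * (I.card / 2 ^ a) := by ring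
  rw [h5]
  nlinarith [mul_le_mul_of_nonneg_left h4 (sq_nonneg (d / 2))]

theorem tail_low (I : Finset κ) (S : κ → Finset ι) (x : ι → Bool)
    (hd : (I : Set κ).PairwiseDisjoint S) (ha : ∀ i ∈ I, (S i).card ≤ 3) :
    pr (fun A => (cnt I S x A : ℝ) ≤ I.card / 32) ≤ exp (-(I.card / 32)) := by
  have h1 : exp (-1 : ℝ) ≤ 1 / 2 := by
    rw [exp_neg, one_div]
    have := add_one_le_exp (1 : ℝ)
    exact inv_anti₀ (by norm_num) (by linarith)
  refine (tail I S x hd (-1) (-(1 / 16)) (-(I.card / 32)) _ (fun i hi => ?_)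
    fun A h => by linarith).trans (exp_le_exp.mpr (by linarith))
  have h2 : (2 : ℝ) ^ (S i).card ≤ 2 ^ 3 := pow_le_pow_right₀ (by norm_num) (ha i hi)
  rw [div_le_iff₀ (by positivity)]
  linarith

end Pool.Agent.H7.Schein
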