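import Mathlib
import Pool.Agent.H7.Schein1

set_option autoImplicit false

namespace Pool.Agent.H7.Schein

open Finset Real

variable {n : ℕ}

abbrev Mat (n : ℕ) := Fin n × Fin n → Bool

def rc (A : Mat n) (R : Finset (Fin n)) (x : Fin n → Bool) : ℕ :=
  (univ.filter fun v => ∀ u ∈ R, A (u, v) = x u).card

theorem rc_eq (A : Mat n) (R : Finset (Fin n)) (x : Fin n → Bool) :
    rc A R x = cnt univ (fun v => R ×ˢ {v}) (fun c => x c.1) A := by
  unfold rc cnt
  congr 1
  ext v
  simp only [mem_filter, mem_univ, true_and, mem_product, mem_singleton]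
  exact ⟨fun h c hc => by rw [← h c.1 hc.1, ← hc.2], fun h u hu => h (u, v) ⟨hu, rfl⟩⟩

theorem rc_disj (R : Finset (Fin n)) :
    ((univ : Finset (Fin n)) : Set (Fin n)).PairwiseDisjoint fun v => R ×ˢ ({v} : Finset (Fin n)) := by
  intro v _ v' _ h
  simp only [Function.onFun, disjoint_left, mem_product, mem_singleton]
  exact fun c h1 h2 => h (h1.2.symm.trans h2.2)

def RowGood (d : ℝ) (A : Mat n) : Prop := ∀ (u u' u'' : Fin n) (b : Bool),
  (rc A {u, u', u''} (fun y => if y = u'' then b else true) : ℝ) <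
    n / 2 ^ ({u, u', u''} : Finset (Fin n)).card + d * n

def Rect (A : Mat n) : Prop := ∀ R : Finset (Fin n), 3 ≤ R.card → R.card ≤ rc A R (fun _ => true) →
  (R.card * rc A R (fun _ => true) : ℝ) < 2 * n / 5

def Disc (d : ℝ) (A : Mat n) : Prop := ∀ J K : Finset (Fin n),
  (((J ×ˢ K).filter fun c => A c = false).card : ℝ) < J.card * K.card / 2 + d * n ^ 2

def Blk (A : Mat n) : Prop := ∀ (J K : Finset (Fin n)) (φ ψ : Fin n → Fin n),
  (∀ u, φ (φ u) = u) → (∀ v, ψ (ψ v) = v) → (∀ u ∈ J, u ≤ φ u) → (∀ v ∈ K, v ≤ ψ v) →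
  (n : ℝ) ^ 2 / 100 ≤ J.card * K.card → (J.card * K.card / 32 : ℝ) <
    ((J ×ˢ K).filter fun c => A c = true ∧ (φ c.1 ≠ c.1 → A (φ c.1, c.2) = false) ∧
      (ψ c.2 ≠ c.2 → A (c.1, ψ c.2) = false)).card

theorem pr_row (d : ℝ) (hd0 : 0 ≤ d) (hd1 : d ≤ 1) :
    pr (fun A : Mat n => ¬ RowGood d A) ≤ 2 * n ^ 3 * exp (-(d ^ 2 / 4 * n)) := by
  have := pr_ex_le (fun (t : Fin n × Fin n × Fin n × Bool) (A : Mat n) =>
    (n : ℝ) / 2 ^ ({t.1, t.2.1, t.2.2.1} : Finset (Fin n)).card + d * n ≤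
      rc A {t.1, t.2.1, t.2.2.1} (fun y => if y = t.2.2.1 then t.2.2.2 else true))
    (exp (-(d ^ 2 / 4 * n))) (fun t => by
      have := tail_up univ (fun v => ({t.1, t.2.1, t.2.2.1} : Finset (Fin n)) ×ˢ {v})
        (fun c => if c.1 = t.2.2.1 then t.2.2.2 else true) (rc_disj _)
        ({t.1, t.2.1, t.2.2.1} : Finset (Fin n)).card
        (fun _ _ => by rw [card_product, card_singleton, mul_one]) d n hd0 hd1 (by simp)
      simpa only [rc_eq, card_univ, Fintype.card_fin] using this)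
  refine le_trans (pr_mono fun A h => ?_) (this.trans (le_of_eq ?_))
  · unfold RowGood at h
    push Not at h
    obtain ⟨u, u', u'', b, h⟩ := h
    exact ⟨(u, u', u'', b), h⟩
  · simp only [Fintype.card_prod, Fintype.card_fin, Fintype.card_bool]
    push_cast; ring

theorem aux_pow (a : ℕ) (ha : 3 ≤ a) : (a : ℝ) * (101 / 200) ^ a ≤ 39 / 100 := by
  induction a, ha using Nat.le_induction with
  | base => norm_num
  | succ a ha ih =>
    have h : (3 : ℝ) ≤ a := by exact_mod_cast ha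
    have p : (0 : ℝ) < (101 / 200) ^ a := by positivity
    push_cast
    rw [pow_succ]
    nlinarith

theorem aux_exp (a : ℕ) (ha : 3 ≤ a) : (exp (a / 200) - 1) / 2 ^ a ≤ 39 / 20000 := by
  have h1 : exp (1 / 200 : ℝ) ≤ 101 / 100 := by
    have := abs_exp_sub_one_sub_id_le (x := (1 / 200 : ℝ)) (by rw [abs_of_nonneg] <;> norm_num)
    have := (abs_le.mp this).2
    linarith
  have h2 : exp (a / 200 : ℝ) ≤ (101 / 100) ^ a := by
    rw [show (a / 200 : ℝ) = a * (1 / 200) by ring, exp_nat_mul]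
    gcongr
  have h3 : exp (a / 200 : ℝ) - 1 ≤ a / 200 * exp (a / 200) := by
    have := add_one_le_exp (-(a / 200 : ℝ))
    have e : exp (-(a / 200 : ℝ)) * exp (a / 200) = 1 := by rw [← exp_add]; simp
    nlinarith [exp_pos (a / 200 : ℝ)]
  have h4 := aux_pow a ha
  have e : ((101 : ℝ) / 100) ^ a = (101 / 200) ^ a * 2 ^ a := by rw [← mul_pow]; norm_num
  rw [div_le_iff₀ (by positivity)]
  have h5 : (a : ℝ) / 200 * exp (a / 200) ≤ a / 200 * ((101 / 200) ^ a * 2 ^ a) := by
    rw [← e]; gcongr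
  have p : (0 : ℝ) < 2 ^ a := by positivity
  nlinarith

theorem pr_rect (hn : 1 ≤ n) :
    pr (fun A : Mat n => ¬ Rect A) ≤ 3 * exp (4000 * log n ^ 2 - n / 40000) := by
  have hn' : (0 : ℝ) < n := by exact_mod_cast hn
  have key : ∀ R : Finset (Fin n), pr (fun A : Mat n => 3 ≤ R.card ∧ R.card ≤ rc A R (fun _ => true) ∧
      (2 * n / 5 : ℝ) ≤ R.card * rc A R (fun _ => true)) ≤
      exp (4000 * log n ^ 2 - n / 40000) * (1 / n) ^ R.card := by
    intro R
    by_cases h3 : 3 ≤ R.card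
    · refine (tail univ (fun v => R ×ˢ {v}) (fun _ => true) (rc_disj _) (R.card / 200) (39 / 20000)
        ((79 / 200 * n + R.card ^ 2 / 80) / 200) _ (fun i _ => by simpa using aux_exp _ h3)
        fun A h => ?_).trans ?_
      · rw [← rc_eq A R fun _ => true]
        have h1 : (R.card : ℝ) ≤ rc A R fun _ => true := by exact_mod_cast h.2.1
        have h2 := h.2.2
        have h4 : (0 : ℝ) ≤ R.card := by positivity
        nlinarith [mul_le_mul_of_nonneg_left h1 h4]
      · have e : (1 / n : ℝ) ^ R.card = exp (-(R.card * log n)) := by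
          rw [exp_neg, exp_nat_mul, exp_log hn', one_div, inv_pow]
        rw [e, ← exp_add, card_univ, Fintype.card_fin]
        refine exp_le_exp.mpr ?_
        nlinarith [sq_nonneg (R.card / 8000 - log n)]
    · refine le_trans (le_of_eq ?_) (by positivity : (0 : ℝ) ≤ _)
      simp [pr, h3]
  refine le_trans (pr_mono fun A h => ?_) ((pr_ex univ _).trans ((sum_le_sum fun R _ => key R).trans ?_))
  · unfold Rect at h
    push Not at h
    obtain ⟨R, h⟩ := h
    exact ⟨R, mem_univ _, h⟩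
  · rw [← mul_sum, mul_comm]
    gcongr
    have := prod_one_add (s := (univ : Finset (Fin n))) (f := fun _ => (1 / n : ℝ))
    simp only [prod_const, powerset_univ, card_univ, Fintype.card_fin] at this
    rw [← this]
    have h1 : (1 + 1 / n : ℝ) ^ n ≤ exp (1 / n) ^ n := by
      gcongr
      have := add_one_le_exp (1 / n : ℝ); linarith
    rw [← exp_nat_mul, mul_one_div_cancel hn'.ne'] at h1
    have := exp_one_lt_d9
    linarith

theorem pr_disc (d : ℝ) (hd0 : 0 ≤ d) (hd1 : d ≤ 1) :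
    pr (fun A : Mat n => ¬ Disc d A) ≤ 4 ^ n * exp (-(d ^ 2 / 4 * n ^ 2)) := by
  have := pr_ex_le (fun (t : Finset (Fin n) × Finset (Fin n)) (A : Mat n) =>
    (t.1.card * t.2.card / 2 + d * n ^ 2 : ℝ) ≤ ((t.1 ×ˢ t.2).filter fun c => A c = false).card)
    (exp (-(d ^ 2 / 4 * n ^ 2))) (fun t => by
      have := tail_up (t.1 ×ˢ t.2) (fun c => {c}) (fun _ => false) (fun c _ c' _ h => by simpa using h)
        1 (fun _ _ => by simp) d (n ^ 2) hd0 hd1 (by
          have := card_le_univ (t.1 ×ˢ t.2)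
          simp only [Fintype.card_prod, Fintype.card_fin] at this
          rw [sq]; exact_mod_cast this)
      simpa [cnt] using this)
  refine le_trans (pr_mono fun A h => ?_) (this.trans (le_of_eq ?_))
  · unfold Disc at h
    push Not at h
    obtain ⟨J, K, h⟩ := h
    exact ⟨(J, K), h⟩
  · simp only [Fintype.card_prod, Fintype.card_finset, Fintype.card_fin]
    push_cast
    rw [← mul_pow]; norm_num

theorem pr_blk : pr (fun A : Mat n => ¬ Blk A) ≤ 4 ^ n * (n ^ n * n ^ n) * exp (-(n ^ 2 / 3200)) := by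
  have := pr_ex_le (fun (t : (Finset (Fin n) × Finset (Fin n)) × (Fin n → Fin n) × (Fin n → Fin n))
    (A : Mat n) => (∀ u, t.2.1 (t.2.1 u) = u) ∧ (∀ v, t.2.2 (t.2.2 v) = v) ∧ (∀ u ∈ t.1.1, u ≤ t.2.1 u) ∧
      (∀ v ∈ t.1.2, v ≤ t.2.2 v) ∧ (n : ℝ) ^ 2 / 100 ≤ t.1.1.card * t.1.2.card ∧
      (((t.1.1 ×ˢ t.1.2).filter fun c => A c = true ∧ (t.2.1 c.1 ≠ c.1 → A (t.2.1 c.1, c.2) = false) ∧
      (t.2.2 c.2 ≠ c.2 → A (c.1, t.2.2 c.2) = false)).card : ℝ) ≤ t.1.1.card * t.1.2.card / 32)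
    (exp (-(n ^ 2 / 3200))) (fun ⟨⟨J, K⟩, φ, ψ⟩ => by
      by_cases h : (∀ u, φ (φ u) = u) ∧ (∀ v, ψ (ψ v) = v) ∧ (∀ u ∈ J, u ≤ φ u) ∧
        (∀ v ∈ K, v ≤ ψ v) ∧ (n : ℝ) ^ 2 / 100 ≤ J.card * K.card
      · obtain ⟨h1, h2, h3, h4, h5⟩ := h
        have f1 : ∀ u ∈ J, φ u ∈ J → φ u = u := fun u a b =>
          le_antisymm (by simpa [h1] using h3 _ b) (h3 u a)
        have f2 : ∀ v ∈ K, ψ v ∈ K → ψ v = v := fun u a b =>
          le_antisymm (by simpa [h2] using h4 _ b) (h4 u a)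
        have := tail_low (J ×ˢ K) (fun c => {c, (φ c.1, c.2), (c.1, ψ c.2)})
          (fun c => decide (c.1 ∈ J ∧ c.2 ∈ K)) (by
            rintro ⟨u, v⟩ a ⟨u', v'⟩ b hne
            simp only [coe_product, Set.mem_prod, mem_coe] at a b
            simp only [Function.onFun, disjoint_left, mem_insert, mem_singleton]
            have g1 := f1 u a.1; have g2 := f1 u' b.1; have g3 := f2 v a.2; have g4 := f2 v' b.2
            have := h1 u; have := h1 u'; have := h2 v; have := h2 v'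
            rintro c (rfl | rfl | rfl) <;> simp only [Prod.mk.injEq, ne_eq] at hne ⊢ <;> grind)
          (fun _ _ => card_le_three)
        refine le_trans (pr_mono fun A hA => ?_) (this.trans (exp_le_exp.mpr ?_))
        · rw [card_product, Nat.cast_mul]
          refine le_trans ?_ hA.2.2.2.2.2
          unfold cnt
          refine Nat.cast_le.mpr (card_le_card fun c hc => ?_)
          simp only [mem_filter, mem_product, mem_insert, mem_singleton, forall_eq_or_imp,
            forall_eq] at hc ⊢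
          obtain ⟨⟨a, b⟩, p, q, r⟩ := hc
          refine ⟨⟨a, b⟩, by simp [p, a, b], fun h => ?_, fun h => ?_⟩
          · rw [q]; simpa using fun z => absurd (f1 _ a z) h
          · rw [r]; simpa using fun _ z => absurd (f2 _ b z) h
        · rw [card_product, Nat.cast_mul]; linarith
      · refine le_trans (le_of_eq ?_) (exp_pos _).le
        have : ∀ P : Prop, ¬ ((∀ u, φ (φ u) = u) ∧ (∀ v, ψ (ψ v) = v) ∧ (∀ u ∈ J, u ≤ φ u) ∧
          (∀ v ∈ K, v ≤ ψ v) ∧ (n : ℝ) ^ 2 / 100 ≤ J.card * K.card ∧ P) := fun P z => h (by tauto)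
        simp only [pr, this, filter_false, card_empty, Nat.cast_zero, zero_div])
  refine le_trans (pr_mono fun A h => ?_) (this.trans (le_of_eq ?_))
  · unfold Blk at h
    push Not at h
    obtain ⟨J, K, φ, ψ, h⟩ := h
    exact ⟨((J, K), φ, ψ), h⟩
  · simp only [Fintype.card_prod, Fintype.card_finset, Fintype.card_fin, Fintype.card_fun]
    push_cast
    rw [← mul_pow]; norm_num

end Pool.Agent.H7.Schein
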