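import Mathlib
import Pool.Agent.H7.Schein2

set_option autoImplicit false

namespace Pool.Agent.H7.Schein

open Finset Real

variable {n k : ℕ}

def cov (A : Mat n) (R : Finset (Fin n)) : Finset (Fin n × Fin n) :=
  R ×ˢ univ.filter fun v => ∀ u ∈ R, A (u, v) = true

theorem pair_le {d : ℝ} {A : Mat n} (h : RowGood d A) {a b : Fin n} (hab : a ≠ b) :
    ((univ.filter fun v => A (a, v) = true ∧ A (b, v) = true).card : ℝ) ≤ n / 4 + d * n := by
  have := h a b b true
  rw [show ({a, b, b} : Finset (Fin n)).card = 2 by simp [card_pair hab]] at this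
  refine le_trans (Nat.cast_le.mpr (card_le_card fun v hv => ?_)) (this.le.trans (by norm_num))
  simpa using hv

theorem cov_le {d : ℝ} {A : Mat n} (h : RowGood d A) {R : Finset (Fin n)} (hR : R.card = 2) :
    ((cov A R).card : ℝ) ≤ n / 2 + 2 * d * n := by
  obtain ⟨a, b, hab, rfl⟩ := card_eq_two.mp hR
  have := pair_le h hab
  unfold cov
  rw [card_product, hR]
  simp only [mem_insert, mem_singleton, forall_eq_or_imp, forall_eq]
  push_cast; linarith

theorem zero_le {d : ℝ} {A : Mat n} (h : RowGood d A) (u : Fin n) :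
    ((univ.filter fun v => A (u, v) = false).card : ℝ) ≤ n / 2 + d * n := by
  have := h u u u false
  rw [show ({u, u, u} : Finset (Fin n)).card = 1 by simp] at this
  refine le_trans (Nat.cast_le.mpr (card_le_card fun v hv => ?_)) (this.le.trans (by norm_num))
  simpa using hv

theorem new_le {d : ℝ} (hd0 : 0 ≤ d) (hd : d ≤ 1 / 80) {A : Mat n} (h : RowGood d A)
    {R R' : Finset (Fin n)} (hR : R.card = 2) (hR' : R'.card = 2) (hh : ¬ Disjoint R' R) :
    ((cov A R \ cov A R').card : ℝ) ≤ 2 / 5 * n := by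
  obtain ⟨u, h1, h2⟩ := not_disjoint_iff.mp hh
  have two : ∀ S : Finset (Fin n), S.card = 2 → u ∈ S → ∃ b, u ≠ b ∧ S = {u, b} := by
    intro S hS hu
    obtain ⟨a, b, hab, rfl⟩ := card_eq_two.mp hS
    simp only [mem_insert, mem_singleton] at hu
    rcases hu with rfl | rfl
    · exact ⟨b, hab, rfl⟩
    · exact ⟨a, hab.symm, pair_comm _ _⟩
  obtain ⟨a, ha, rfl⟩ := two R hR h2
  obtain ⟨b, hb, rfl⟩ := two R' hR' h1
  have hn : (0 : ℝ) ≤ n := by positivity
  by_cases hab : a = b
  · subst hab; simp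
  have p := pair_le h ha
  have q := h u a b false
  rw [show ({u, a, b} : Finset (Fin n)).card = 3 from card_eq_three.mpr ⟨u, a, b, ha, hb, hab, rfl⟩] at q
  have sub : cov A {u, a} \ cov A {u, b} ⊆
      (univ.filter fun v => A (u, v) = true ∧ A (a, v) = true).image (fun v => (a, v)) ∪
      (univ.filter fun v => ∀ y ∈ ({u, a, b} : Finset (Fin n)),
        A (y, v) = if y = b then false else true).image (fun v => (u, v)) := by
    rintro ⟨y, v⟩ hc
    simp only [cov, mem_sdiff, mem_product, mem_insert, mem_singleton, mem_filter, mem_univ,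
      true_and, forall_eq_or_imp, forall_eq, mem_union, mem_image, Prod.mk.injEq] at hc ⊢
    obtain ⟨⟨rfl | rfl, g1, g2⟩, g3⟩ := hc
    · refine Or.inr ⟨v, ⟨by simp [hb, g1], by simp [hab, g2], ?_⟩, rfl, rfl⟩
      simpa [g1] using g3
    · exact Or.inl ⟨v, ⟨g1, g2⟩, rfl, rfl⟩
  have c := (card_le_card sub).trans ((card_union_le _ _).trans (add_le_add card_image_le card_image_le))
  have c' := (Nat.cast_le (α := ℝ)).mpr c
  unfold rc at q
  push_cast at c'
  nlinarith

theorem rowcover {d : ℝ} (hd0 : 0 ≤ d) (hd : d ≤ 1 / 80) {A : Mat n} (h : RowGood d A)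
    (R : Fin k → Finset (Fin n)) (T : Finset (Fin k)) (h2 : ∀ l ∈ T, (R l).card = 2) :
    ∃ M ⊆ T, ∃ W : Finset (Fin n × Fin n), (∀ l ∈ M, ∀ l' ∈ M, l ≠ l' → Disjoint (R l) (R l')) ∧
      (W.card : ℝ) ≤ 2 / 5 * n * (T.card - M.card) ∧
      ∀ l ∈ T, ∀ c ∈ cov A (R l), c ∈ W ∨ ∃ l' ∈ M, c ∈ cov A (R l') := by
  induction T using Finset.induction_on with
  | empty => exact ⟨∅, Subset.rfl, ∅, by simp, by simp, by simp⟩
  | insert l T hl ih =>
    obtain ⟨M, hM, W, g1, g2, g3⟩ := ih fun l' hl' => h2 l' (mem_insert_of_mem hl')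
    by_cases hx : ∃ l' ∈ T, ¬ Disjoint (R l') (R l)
    · obtain ⟨l', hl', hx⟩ := hx
      have := new_le hd0 hd h (h2 l (mem_insert_self _ _)) (h2 l' (mem_insert_of_mem hl')) hx
      refine ⟨M, hM.trans (subset_insert _ _), W ∪ (cov A (R l) \ cov A (R l')), g1, ?_, ?_⟩
      · have c := (Nat.cast_le (α := ℝ)).mpr (card_union_le W (cov A (R l) \ cov A (R l')))
        rw [card_insert_of_notMem hl]
        push_cast at c ⊢
        linarith
      · intro j hj c hc
        rcases mem_insert.mp hj with rfl | hj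
        · by_cases hc' : c ∈ cov A (R l')
          · exact (g3 l' hl' c hc').imp_left (mem_union_left _)
          · exact Or.inl (mem_union_right _ (mem_sdiff.mpr ⟨hc, hc'⟩))
        · exact (g3 j hj c hc).imp_left (mem_union_left _)
    · push Not at hx
      refine ⟨insert l M, insert_subset_insert _ hM, W, ?_, ?_, ?_⟩
      · intro a ha b hb hab
        rcases mem_insert.mp ha with ea | ha' <;> rcases mem_insert.mp hb with eb | hb'
        · exact absurd (ea.trans eb.symm) hab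
        · rw [ea]; exact (hx b (hM hb')).symm
        · rw [eb]; exact hx a (hM ha')
        · exact g1 a ha' b hb' hab
      · rw [card_insert_of_notMem hl, card_insert_of_notMem fun z => hl (hM z)]
        push_cast; linarith
      · intro j hj c hc
        rcases mem_insert.mp hj with rfl | hj
        · exact Or.inr ⟨j, mem_insert_self _ _, hc⟩
        · exact (g3 j hj c hc).imp_right fun ⟨a, b, e⟩ => ⟨a, mem_insert_of_mem b, e⟩

theorem invol (R : Fin k → Finset (Fin n)) (M : Finset (Fin k)) (h2 : ∀ l ∈ M, (R l).card = 2)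
    (hd : ∀ l ∈ M, ∀ l' ∈ M, l ≠ l' → Disjoint (R l) (R l')) :
    ∃ φ : Fin n → Fin n, (∀ u, φ (φ u) = u) ∧ (∀ u, (∀ l ∈ M, u ∉ R l) → φ u = u) ∧
      ∀ l ∈ M, ∀ u ∈ R l, φ u ≠ u ∧ φ u ∈ R l := by
  induction M using Finset.induction_on with
  | empty => exact ⟨id, fun _ => rfl, fun _ _ => rfl, by simp⟩
  | insert l M hl ih =>
    obtain ⟨φ, g1, g2, g3⟩ := ih (fun a ha => h2 a (mem_insert_of_mem ha))
      fun a ha b hb => hd a (mem_insert_of_mem ha) b (mem_insert_of_mem hb)
    obtain ⟨a, b, hab, e⟩ := card_eq_two.mp (h2 l (mem_insert_self _ _))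
    have out : ∀ j ∈ M, a ∉ R j ∧ b ∉ R j := fun j hj => by
      have := hd l (mem_insert_self _ _) j (mem_insert_of_mem hj) (fun z => hl (z ▸ hj))
      rw [e] at this
      simpa using this
    have fa : φ a = a := g2 a fun j hj => (out j hj).1
    have fb : φ b = b := g2 b fun j hj => (out j hj).2
    refine ⟨fun u => if u = a then b else if u = b then a else φ u, fun u => ?_, fun u hu => ?_, ?_⟩
    · have := g1 u
      grind
    · have := hu l (mem_insert_self _ _)
      rw [e] at this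
      have := g2 u fun j hj => hu j (mem_insert_of_mem hj)
      grind
    · intro j hj u hu
      rcases mem_insert.mp hj with rfl | hj
      · rw [e] at hu ⊢
        grind
      · have := out j hj
        have := g3 j hj u hu
        grind

theorem half (J : Finset (Fin n)) (φ : Fin n → Fin n) (h1 : ∀ u, φ (φ u) = u) (h2 : ∀ u ∈ J, φ u ∈ J) :
    J.card ≤ 2 * (J.filter fun u => u ≤ φ u).card := by
  have := card_filter_add_card_filter_not (s := J) (fun u => u ≤ φ u)
  have : (J.filter fun u => ¬ u ≤ φ u).card ≤ (J.filter fun u => u ≤ φ u).card := by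
    refine card_le_card_of_injOn φ (fun u hu => ?_) fun a _ b _ e => by rw [← h1 a, e, h1]
    simp only [coe_filter, Set.mem_setOf_eq, h1] at hu ⊢
    exact ⟨h2 u hu.1, (not_le.mp hu.2).le⟩
  omega

theorem two_mul_le (R : Fin k → Finset (Fin n)) (M : Finset (Fin k)) (J : Finset (Fin n))
    (h2 : ∀ l ∈ M, (R l).card = 2) (hJ : ∀ l ∈ M, R l ⊆ J)
    (hd : ∀ l ∈ M, ∀ l' ∈ M, l ≠ l' → Disjoint (R l) (R l')) : 2 * M.card ≤ J.card := by
  have := card_le_card (biUnion_subset.mpr hJ)
  rw [card_biUnion hd, sum_congr rfl h2, sum_const, smul_eq_mul] at this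
  omega

def tr (A : Mat n) : Mat n := A ∘ Equiv.prodComm (Fin n) (Fin n)

theorem big_le {A : Mat n} (h : Rect A) {R C : Finset (Fin n)} (h3 : 3 ≤ R.card) (hle : R.card ≤ C.card)
    (ho : ∀ u ∈ R, ∀ v ∈ C, A (u, v) = true) : (R.card * C.card : ℝ) ≤ 2 / 5 * n := by
  have c : C.card ≤ rc A R fun _ => true :=
    card_le_card fun v hv => mem_filter.mpr ⟨mem_univ _, fun u hu => ho u hu v hv⟩
  have := h R h3 (hle.trans c)
  have c' : (R.card * C.card : ℝ) ≤ R.card * rc A R fun _ => true := by gcongr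
  linarith

theorem cover_bound {d : ℝ} (hd0 : 0 ≤ d) (hd : d ≤ 1 / 80) {A : Mat n} (h1 : RowGood d A)
    (h2 : RowGood d (tr A)) (h3 : Rect A) (h4 : Rect (tr A)) (T : Finset (Fin k))
    (R C : Fin k → Finset (Fin n)) (hR : ∀ l ∈ T, 2 ≤ (R l).card) (hC : ∀ l ∈ T, 2 ≤ (C l).card)
    (ho : ∀ l ∈ T, ∀ u ∈ R l, ∀ v ∈ C l, A (u, v) = true) :
    ∃ M ⊆ T, ∃ N ⊆ T, ∃ W : Finset (Fin n × Fin n), (∀ l ∈ M, (R l).card = 2) ∧
      (∀ l ∈ N, (C l).card = 2) ∧ (∀ l ∈ M, ∀ l' ∈ M, l ≠ l' → Disjoint (R l) (R l')) ∧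
      (∀ l ∈ N, ∀ l' ∈ N, l ≠ l' → Disjoint (C l) (C l')) ∧ M.card + N.card ≤ T.card ∧
      (W.card : ℝ) ≤ 2 / 5 * n * (T.card - M.card - N.card) ∧
      ∀ l ∈ T, ∀ u ∈ R l, ∀ v ∈ C l, (u, v) ∈ W ∨ (∃ l' ∈ M, (u, v) ∈ cov A (R l')) ∨
        ∃ l' ∈ N, (v, u) ∈ cov (tr A) (C l') := by
  set T1 := T.filter fun l => (R l).card = 2
  set T' := T.filter fun l => ¬ (R l).card = 2
  set T2 := T'.filter fun l => (C l).card = 2
  set T3 := T'.filter fun l => ¬ (C l).card = 2
  have c1 : T1.card + T'.card = T.card := card_filter_add_card_filter_not _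
  have c2 : T2.card + T3.card = T'.card := card_filter_add_card_filter_not _
  obtain ⟨M, hM, W1, a1, a2, a3⟩ := rowcover hd0 hd h1 R T1 fun l hl => (mem_filter.mp hl).2
  obtain ⟨N, hN, W2, b1, b2, b3⟩ := rowcover hd0 hd h2 C T2 fun l hl => (mem_filter.mp hl).2
  have m1 := card_le_card hM
  have m2 := card_le_card hN
  refine ⟨M, hM.trans (filter_subset _ _), N, hN.trans ((filter_subset _ _).trans (filter_subset _ _)),
    W1 ∪ W2.image Prod.swap ∪ T3.biUnion fun l => R l ×ˢ C l, fun l hl => (mem_filter.mp (hM hl)).2,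
    fun l hl => (mem_filter.mp (hN hl)).2, a1, b1, by omega, ?_, ?_⟩
  · have e3 : ((T3.biUnion fun l => R l ×ˢ C l).card : ℝ) ≤ T3.card * (2 / 5 * n) := by
      refine le_trans (Nat.cast_le.mpr card_biUnion_le) ?_
      rw [Nat.cast_sum, ← nsmul_eq_mul]
      refine sum_le_card_nsmul _ _ _ fun l hl => ?_
      obtain ⟨hl', g2⟩ := mem_filter.mp hl
      obtain ⟨hl'', g1⟩ := mem_filter.mp hl'
      have := hR l hl''; have := hC l hl''
      rw [card_product, Nat.cast_mul]
      rcases le_total (R l).card (C l).card with g | g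
      · exact big_le h3 (by omega) g (ho l hl'')
      · rw [mul_comm]
        exact big_le h4 (by omega) g fun v hv u hu => ho l hl'' u hu v hv
    have c := (Nat.cast_le (α := ℝ)).mpr ((card_union_le (W1 ∪ W2.image Prod.swap)
      (T3.biUnion fun l => R l ×ˢ C l)).trans (Nat.add_le_add_right ((card_union_le _ _).trans
        (Nat.add_le_add_left card_image_le _)) _))
    rw [← c1, ← c2]
    push_cast at c ⊢
    linarith
  · intro l hl u hu v hv
    by_cases g1 : (R l).card = 2
    · rcases a3 l (mem_filter.mpr ⟨hl, g1⟩) (u, v) (mem_product.mpr ⟨hu, mem_filter.mpr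
        ⟨mem_univ _, fun y hy => ho l hl y hy v hv⟩⟩) with g | g
      · exact Or.inl (mem_union_left _ (mem_union_left _ g))
      · exact Or.inr (Or.inl g)
    by_cases g2 : (C l).card = 2
    · rcases b3 l (mem_filter.mpr ⟨mem_filter.mpr ⟨hl, g1⟩, g2⟩) (v, u) (mem_product.mpr ⟨hv,
        mem_filter.mpr ⟨mem_univ _, fun y hy => ho l hl u hu y hy⟩⟩) with g | g
      · exact Or.inl (mem_union_left _ (mem_union_right _ (mem_image.mpr ⟨_, g, rfl⟩)))
      · exact Or.inr (Or.inr g)
    · exact Or.inl (mem_union_right _ (mem_biUnion.mpr ⟨l, mem_filter.mpr ⟨mem_filter.mpr ⟨hl, g1⟩, g2⟩,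
        mem_product.mpr ⟨hu, hv⟩⟩))

end Pool.Agent.H7.Schein
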