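import Mathlib
import Pool.Agent.H7.Schein3

set_option autoImplicit false

namespace Pool.Agent.H7.Schein

open Finset Real

variable {n k : ℕ}

def Cov (A : Mat n) (R C : Fin k → Finset (Fin n)) (J K : Finset (Fin n)) (T : Finset (Fin k)) : Prop :=
  ∀ u ∈ J, ∀ v ∈ K, A (u, v) = true → ∃ l ∈ T, u ∈ R l ∧ v ∈ C l

theorem minimal (A : Mat n) (R C : Fin k → Finset (Fin n)) (m : ℕ) :
    ∀ (J K : Finset (Fin n)) (T : Finset (Fin k)), T.card = m → Cov A R C J K T →
      T.card + n < J.card + K.card → ∃ (J K : Finset (Fin n)) (T : Finset (Fin k)), Cov A R C J K T ∧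
        T.card + n < J.card + K.card ∧ (∀ l ∈ T, 2 ≤ (R l ∩ J).card) ∧ ∀ l ∈ T, 2 ≤ (C l ∩ K).card := by
  induction m with
  | zero =>
    intro J K T h0 h1 h2
    rw [card_eq_zero] at h0
    subst h0
    exact ⟨J, K, ∅, h1, h2, by simp, by simp⟩
  | succ m ih =>
    intro J K T h0 h1 h2
    by_cases g1 : ∃ l ∈ T, (R l ∩ J).card < 2
    · obtain ⟨l, hl, g⟩ := g1
      have e := card_erase_of_mem hl
      have e2 := card_sdiff_add_card_inter J (R l)
      rw [inter_comm] at e2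
      refine ih (J \ R l) K (T.erase l) (by omega) (fun u hu v hv h => ?_) (by omega)
      obtain ⟨l', a, b, c⟩ := h1 u (mem_sdiff.mp hu).1 v hv h
      exact ⟨l', mem_erase.mpr ⟨fun z => (mem_sdiff.mp hu).2 (z ▸ b), a⟩, b, c⟩
    by_cases g2 : ∃ l ∈ T, (C l ∩ K).card < 2
    · obtain ⟨l, hl, g⟩ := g2
      have e := card_erase_of_mem hl
      have e2 := card_sdiff_add_card_inter K (C l)
      rw [inter_comm] at e2
      refine ih J (K \ C l) (T.erase l) (by omega) (fun u hu v hv h => ?_) (by omega)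
      obtain ⟨l', a, b, c⟩ := h1 u hu v (mem_sdiff.mp hv).1 h
      exact ⟨l', mem_erase.mpr ⟨fun z => (mem_sdiff.mp hv).2 (z ▸ c), a⟩, b, c⟩
    push Not at g1 g2
    exact ⟨J, K, T, h1, h2, g1, g2⟩

structure Good (d : ℝ) (A : Mat n) : Prop where
  r1 : RowGood d A
  r2 : RowGood d (tr A)
  c1 : Rect A
  c2 : Rect (tr A)

theorem Good.tr {d : ℝ} {A : Mat n} (h : Good d A) : Good d (tr A) := ⟨h.r2, h.r1, h.c2, h.c1⟩

theorem bi_le {α : Type} [DecidableEq α] (M : Finset (Fin k)) (f : Fin k → Finset α) (b : ℝ)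
    (h : ∀ l ∈ M, ((f l).card : ℝ) ≤ b) : ((M.biUnion f).card : ℝ) ≤ M.card * b := by
  refine le_trans (Nat.cast_le.mpr card_biUnion_le) ?_
  rw [Nat.cast_sum, ← nsmul_eq_mul]
  exact sum_le_card_nsmul _ _ _ h

theorem small {d : ℝ} (hd0 : 0 ≤ d) (hd : d ≤ 1 / 80) {A : Mat n} (h : Good d A)
    (R C : Fin k → Finset (Fin n)) (ho : ∀ l, ∀ u ∈ R l, ∀ v ∈ C l, A (u, v) = true)
    (J K : Finset (Fin n)) (T : Finset (Fin k)) (h1 : Cov A R C J K T)
    (h2 : T.card + n < J.card + K.card) (hR : ∀ l ∈ T, 2 ≤ (R l ∩ J).card)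
    (hC : ∀ l ∈ T, 2 ≤ (C l ∩ K).card) (hs : 5 * J.card ≤ n) : False := by
  obtain ⟨M, hM, N, hN, W, a1, a2, a3, -, a5, a6, a7⟩ := cover_bound hd0 hd h.r1 h.r2 h.c1 h.c2 T
    (fun l => R l ∩ J) (fun l => C l ∩ K) hR hC
    fun l _ u hu v hv => ho l u (mem_inter.mp hu).1 v (mem_inter.mp hv).1
  have m2 := two_mul_le _ M J a1 (fun l _ => inter_subset_right) a3
  have sub : J ×ˢ K ⊆ (J.biUnion fun u => (univ.filter fun v => A (u, v) = false).image fun v => (u, v)) ∪
      (W ∪ (M.biUnion (fun l => cov A (R l ∩ J)) ∪ N.biUnion fun l => J ×ˢ (C l ∩ K))) := by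
    rintro ⟨u, v⟩ hc
    obtain ⟨hu, hv⟩ := mem_product.mp hc
    simp only [mem_union, mem_biUnion]
    cases e : A (u, v) with
    | false => exact Or.inl ⟨u, hu, mem_image.mpr ⟨v, by simpa using e, rfl⟩⟩
    | true =>
      obtain ⟨l, hl, b, c⟩ := h1 u hu v hv e
      rcases a7 l hl u (mem_inter.mpr ⟨b, hu⟩) v (mem_inter.mpr ⟨c, hv⟩) with g | g | ⟨l', g, g'⟩
      · exact Or.inr (Or.inl g)
      · exact Or.inr (Or.inr (Or.inl g))
      · exact Or.inr (Or.inr (Or.inr ⟨l', g, mem_product.mpr ⟨hu, (mem_product.mp g').1⟩⟩))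
  have c := (Nat.cast_le (α := ℝ)).mpr ((card_le_card sub).trans ((card_union_le _ _).trans
    (Nat.add_le_add_left ((card_union_le _ _).trans (Nat.add_le_add_left (card_union_le _ _) _)) _)))
  have b1 : ((J.biUnion fun u => (univ.filter fun v => A (u, v) = false).image fun v => (u, v)).card : ℝ)
      ≤ J.card * (n / 2 + d * n) := by
    refine le_trans (Nat.cast_le.mpr card_biUnion_le) ?_
    rw [Nat.cast_sum, ← nsmul_eq_mul]
    exact sum_le_card_nsmul _ _ _ fun u _ => (Nat.cast_le.mpr card_image_le).trans (zero_le h.r1 u)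
  have b2 := bi_le M (fun l => cov A (R l ∩ J)) _ fun l hl => cov_le h.r1 (a1 l hl)
  have hs' : (5 * J.card : ℝ) ≤ n := by exact_mod_cast hs
  have b3 := bi_le N (fun l => J ×ˢ (C l ∩ K)) (2 / 5 * n) fun l hl => by
    rw [card_product, a2 l hl]; push_cast; linarith
  rw [card_product] at c
  have k1 : (K.card : ℝ) ≤ n := by exact_mod_cast (card_le_univ K).trans (by simp)
  have h2' : (T.card + n + 1 : ℝ) ≤ J.card + K.card := by exact_mod_cast h2
  have m2' : (2 * M.card : ℝ) ≤ J.card := by exact_mod_cast m2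
  have t0 : (0 : ℝ) ≤ T.card := by positivity
  push_cast at c
  generalize (J.card : ℝ) = s at *
  generalize (K.card : ℝ) = t at *
  generalize (T.card : ℝ) = τ at *
  generalize (M.card : ℝ) = m at *
  generalize (N.card : ℝ) = ν at *
  have n0 : (0 : ℝ) ≤ n := by positivity
  have s1 : 1 ≤ s := by linarith
  have p1 : 0 ≤ (n - t) * (2 / 5 * n - s) := mul_nonneg (by linarith) (by linarith)
  have p2 : 0 ≤ (s + t - n - 1 - τ) * n := mul_nonneg (by linarith) n0
  have p3 : 0 ≤ (s - 2 * m) * (n * (1 / 20 + d)) := mul_nonneg (by linarith) (by positivity)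
  have p4 : 0 ≤ s * n * (1 / 20 - 2 * d) := mul_nonneg (by positivity) (by linarith)
  nlinarith

theorem big {A : Mat n} (h : Good (1 / 40000) A) (hD : Disc (1 / 40000) A) (hB : Blk A)
    (R C : Fin k → Finset (Fin n)) (ho : ∀ l, ∀ u ∈ R l, ∀ v ∈ C l, A (u, v) = true)
    (J K : Finset (Fin n)) (T : Finset (Fin k)) (h1 : Cov A R C J K T)
    (h2 : T.card + n < J.card + K.card) (hR : ∀ l ∈ T, 2 ≤ (R l ∩ J).card)
    (hC : ∀ l ∈ T, 2 ≤ (C l ∩ K).card) (hs : n ≤ 5 * J.card) (ht : n ≤ 5 * K.card) : False := by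
  obtain ⟨M, hM, N, hN, W, a1, a2, a3, a4, a5, a6, a7⟩ := cover_bound (by norm_num) (by norm_num)
    h.r1 h.r2 h.c1 h.c2 T (fun l => R l ∩ J) (fun l => C l ∩ K) hR hC
    fun l _ u hu v hv => ho l u (mem_inter.mp hu).1 v (mem_inter.mp hv).1
  have sub : J ×ˢ K ⊆ ((J ×ˢ K).filter fun c => A c = false) ∪
      (W ∪ (M.biUnion (fun l => cov A (R l ∩ J)) ∪
        N.biUnion fun l => (cov (tr A) (C l ∩ K)).image Prod.swap)) := by
    rintro ⟨u, v⟩ hc
    obtain ⟨hu, hv⟩ := mem_product.mp hc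
    simp only [mem_union, mem_biUnion]
    cases e : A (u, v) with
    | false => exact Or.inl (mem_filter.mpr ⟨hc, e⟩)
    | true =>
      obtain ⟨l, hl, b, c⟩ := h1 u hu v hv e
      rcases a7 l hl u (mem_inter.mpr ⟨b, hu⟩) v (mem_inter.mpr ⟨c, hv⟩) with g | g | ⟨l', g, g'⟩
      · exact Or.inr (Or.inl g)
      · exact Or.inr (Or.inr (Or.inl g))
      · exact Or.inr (Or.inr (Or.inr ⟨l', g, mem_image.mpr ⟨_, g', rfl⟩⟩))
  have c := (Nat.cast_le (α := ℝ)).mpr ((card_le_card sub).trans ((card_union_le _ _).trans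
    (Nat.add_le_add_left ((card_union_le _ _).trans (Nat.add_le_add_left (card_union_le _ _) _)) _)))
  have b1 := hD J K
  have b2 := bi_le M (fun l => cov A (R l ∩ J)) _ fun l hl => cov_le h.r1 (a1 l hl)
  have b3 := bi_le N (fun l => (cov (tr A) (C l ∩ K)).image Prod.swap) _ fun l hl =>
    (Nat.cast_le.mpr card_image_le).trans (cov_le h.r2 (a2 l hl))
  rw [card_product] at c
  obtain ⟨φ, f1, f2, f3⟩ := invol _ M a1 a3
  obtain ⟨ψ, p1, p2, p3⟩ := invol _ N a2 a4
  have j1 := half J φ f1 fun u hu => by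
    by_cases z : ∃ l ∈ M, u ∈ R l ∩ J
    · obtain ⟨l, hl, z⟩ := z
      exact (mem_inter.mp (f3 l hl u z).2).2
    · push Not at z
      rwa [f2 u z]
  have j2 := half K ψ p1 fun u hu => by
    by_cases z : ∃ l ∈ N, u ∈ C l ∩ K
    · obtain ⟨l, hl, z⟩ := z
      exact (mem_inter.mp (p3 l hl u z).2).2
    · push Not at z
      rwa [p2 u z]
  set J1 := J.filter fun u => u ≤ φ u
  set K1 := K.filter fun u => u ≤ ψ u
  have n0 : (0 : ℝ) ≤ n := by positivity
  have q : (n : ℝ) ^ 2 / 100 ≤ J1.card * K1.card := by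
    have x1 : (n : ℝ) / 10 ≤ J1.card := by
      have : (n : ℝ) ≤ 10 * J1.card := by exact_mod_cast (by omega : n ≤ 10 * J1.card)
      linarith
    have x2 : (n : ℝ) / 10 ≤ K1.card := by
      have : (n : ℝ) ≤ 10 * K1.card := by exact_mod_cast (by omega : n ≤ 10 * K1.card)
      linarith
    calc (n : ℝ) ^ 2 / 100 = n / 10 * (n / 10) := by ring
      _ ≤ _ := by gcongr
  have bl := hB J1 K1 φ ψ f1 p1 (fun u hu => (mem_filter.mp hu).2) (fun u hu => (mem_filter.mp hu).2) q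
  have sw : ((J1 ×ˢ K1).filter fun c => A c = true ∧ (φ c.1 ≠ c.1 → A (φ c.1, c.2) = false) ∧
      (ψ c.2 ≠ c.2 → A (c.1, ψ c.2) = false)) ⊆ W := by
    rintro ⟨u, v⟩ hc
    obtain ⟨hc, e, e1, e2⟩ := mem_filter.mp hc
    obtain ⟨hu, hv⟩ := mem_product.mp hc
    have hu := (mem_filter.mp hu).1
    have hv := (mem_filter.mp hv).1
    obtain ⟨l, hl, b, c⟩ := h1 u hu v hv e
    rcases a7 l hl u (mem_inter.mpr ⟨b, hu⟩) v (mem_inter.mpr ⟨c, hv⟩) with g | ⟨l', g, g'⟩ | ⟨l', g, g'⟩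
    · exact g
    · obtain ⟨x, y⟩ := mem_product.mp g'
      have := (mem_filter.mp y).2 _ (f3 l' g u x).2
      rw [e1 (f3 l' g u x).1] at this
      exact absurd this (by simp)
    · obtain ⟨x, y⟩ := mem_product.mp g'
      have : A (u, ψ v) = true := (mem_filter.mp y).2 _ (p3 l' g v x).2
      rw [e2 (p3 l' g v x).1] at this
      exact absurd this (by simp)
  have sw' := (Nat.cast_le (α := ℝ)).mpr (card_le_card sw)
  have k1 : (K.card : ℝ) ≤ n := by exact_mod_cast (card_le_univ K).trans (by simp)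
  have k2 : (J.card : ℝ) ≤ n := by exact_mod_cast (card_le_univ J).trans (by simp)
  have h2' : (T.card + n + 1 : ℝ) ≤ J.card + K.card := by exact_mod_cast h2
  have a5' : (M.card + N.card : ℝ) ≤ T.card := by exact_mod_cast a5
  have w : (n : ℝ) ^ 2 / 3200 < 2 / 5 * n * (T.card - M.card - N.card) := by linarith
  push_cast at c
  have c' : (J.card * K.card : ℝ) < J.card * K.card / 2 + 1 / 40000 * n ^ 2 +
      (2 / 5 * n * (T.card - M.card - N.card) + (M.card + N.card) * (n / 2 + 2 * (1 / 40000) * n)) := by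
    linarith
  clear c bl sw' b1 b2 b3 a6
  generalize (J.card : ℝ) = s at *
  generalize (K.card : ℝ) = t at *
  generalize (T.card : ℝ) = τ at *
  generalize (M.card : ℝ) = m at *
  generalize (N.card : ℝ) = ν at *
  have p1 : 0 ≤ (n - t) * (n - s) := mul_nonneg (by linarith) (by linarith)
  have p2 : 0 ≤ (s + t - n - τ) * n := mul_nonneg (by linarith) n0
  have p3 : 0 ≤ (n - m - ν) * n := mul_nonneg (by linarith) n0
  nlinarith

theorem no_cover {A : Mat n} (h : Good (1 / 40000) A) (hD : Disc (1 / 40000) A) (hB : Blk A)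
    (hk : k < n) (R C : Fin k → Finset (Fin n)) (ho : ∀ l, ∀ u ∈ R l, ∀ v ∈ C l, A (u, v) = true)
    (hc : ∀ u v, A (u, v) = true → ∃ l, u ∈ R l ∧ v ∈ C l) : False := by
  obtain ⟨J, K, T, h1, h2, hR, hC⟩ := minimal A R C _ univ univ univ rfl
    (fun u _ v _ e => by simpa using hc u v e) (by simpa using hk)
  rcases le_total (5 * J.card) n with a | a
  · exact small (by norm_num) (by norm_num) h R C ho J K T h1 h2 hR hC a
  rcases le_total (5 * K.card) n with b | b
  · exact small (by norm_num) (by norm_num) h.tr C R (fun l u hu v hv => ho l v hv u hu) K J T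
      (fun u hu v hv e => by
        obtain ⟨l, x, y, z⟩ := h1 v hv u hu e
        exact ⟨l, x, z, y⟩) (by omega) hC hR b
  exact big h hD hB R C ho J K T h1 h2 hR hC a b

end Pool.Agent.H7.Schein
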