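import Mathlib
import Pool.Agent.H7.Schein4

set_option autoImplicit false

namespace Pool.Agent.H7.Schein

open Finset Real Filter Topology

variable {n : ℕ}

def Low (A : Mat n) : Prop := ∃ k < n, ∃ R C : Fin k → Finset (Fin n),
  (∀ l, ∀ u ∈ R l, ∀ v ∈ C l, A (u, v) = true) ∧ ∀ u v, A (u, v) = true → ∃ l, u ∈ R l ∧ v ∈ C l

theorem pr_low (hn : 1 ≤ n) : pr (Low (n := n)) ≤
    2 * (2 * n ^ 3 * exp (-((1 / 40000) ^ 2 / 4 * n))) + 2 * (3 * exp (4000 * log n ^ 2 - n / 40000)) +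
      4 ^ n * exp (-((1 / 40000) ^ 2 / 4 * n ^ 2)) + 4 ^ n * (n ^ n * n ^ n) * exp (-(n ^ 2 / 3200)) := by
  have a1 := pr_row (n := n) (1 / 40000) (by norm_num) (by norm_num)
  have a2 := pr_rect hn
  have a3 := pr_disc (n := n) (1 / 40000) (by norm_num) (by norm_num)
  have a4 := pr_blk (n := n)
  have b1 := pr_comp (Equiv.prodComm (Fin n) (Fin n)) fun A : Mat n => ¬ RowGood (1 / 40000) A
  have b2 := pr_comp (Equiv.prodComm (Fin n) (Fin n)) fun A : Mat n => ¬ Rect A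
  have m : pr (Low (n := n)) ≤ pr fun A : Mat n => (¬ RowGood (1 / 40000) A ∨ ¬ RowGood (1 / 40000) (tr A)) ∨
      (¬ Rect A ∨ ¬ Rect (tr A)) ∨ (¬ Disc (1 / 40000) A ∨ ¬ Blk A) := pr_mono fun A ⟨k, hk, R, C, h1, h2⟩ => by
    by_contra h
    simp only [not_or, not_not] at h
    exact no_cover ⟨h.1.1, h.1.2, h.2.1.1, h.2.1.2⟩ h.2.2.1 h.2.2.2 hk R C h1 h2
  have o1 := pr_or (fun A : Mat n => ¬ RowGood (1 / 40000) A ∨ ¬ RowGood (1 / 40000) (tr A))
    fun A => (¬ Rect A ∨ ¬ Rect (tr A)) ∨ (¬ Disc (1 / 40000) A ∨ ¬ Blk A)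
  have o2 := pr_or (fun A : Mat n => ¬ Rect A ∨ ¬ Rect (tr A)) fun A => ¬ Disc (1 / 40000) A ∨ ¬ Blk A
  have o3 := pr_or (fun A : Mat n => ¬ RowGood (1 / 40000) A) fun A => ¬ RowGood (1 / 40000) (tr A)
  have o4 := pr_or (fun A : Mat n => ¬ Rect A) fun A => ¬ Rect (tr A)
  have o5 := pr_or (fun A : Mat n => ¬ Disc (1 / 40000) A) fun A => ¬ Blk A
  unfold tr at *
  linarith

theorem ev_log (e : ℝ) (he : 0 < e) : ∀ᶠ n : ℕ in atTop, log n ^ 2 ≤ e * n ∧ log n ≤ e * n ∧ 1 ≤ e * n := by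
  have h1 := ((isLittleO_pow_log_id_atTop (n := 2)).comp_tendsto tendsto_natCast_atTop_atTop).bound he
  have h2 := (isLittleO_log_id_atTop.comp_tendsto (tendsto_natCast_atTop_atTop (R := ℝ))).bound he
  have h3 := ((tendsto_natCast_atTop_atTop (R := ℝ)).const_mul_atTop he).eventually_ge_atTop 1
  filter_upwards [h1, h2, h3] with n a b c
  simp only [Function.comp, id, norm_eq_abs, Nat.abs_cast] at a b
  exact ⟨(le_abs_self _).trans a, (le_abs_self _).trans b, c⟩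

theorem ev_low : ∀ᶠ n : ℕ in atTop, pr (Low (n := n)) ≤ exp (-(1 / 10 ^ 11 * n)) := by
  filter_upwards [ev_log (1 / 10 ^ 11) (by norm_num), eventually_ge_atTop 1] with n ⟨a, b, c⟩ hn
  have hn' : (1 : ℝ) ≤ n := by exact_mod_cast hn
  have en : (n : ℝ) = exp (log n) := (exp_log (by linarith)).symm
  have e4 : (4 : ℝ) ≤ exp 3 := by linarith [add_one_le_exp (3 : ℝ)]
  have e4n : (4 : ℝ) ^ n ≤ exp (n * 3) := by rw [exp_nat_mul]; gcongr
  have nn : (n : ℝ) ^ n = exp (n * log n) := by rw [exp_nat_mul, ← en]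
  have n3 : (n : ℝ) ^ 3 = exp (3 * log n) := by
    rw [show (3 : ℝ) * log n = (3 : ℕ) * log n by norm_num, exp_nat_mul, ← en]
  set E := exp (-(12 / 10 ^ 11 * n))
  have t1 : (n : ℝ) ^ 3 * exp (-((1 / 40000) ^ 2 / 4 * n)) ≤ E := by
    rw [n3, ← exp_add, exp_le_exp]; linarith
  have t2 : exp (4000 * log n ^ 2 - n / 40000) ≤ E := by
    rw [exp_le_exp]; linarith
  have t3 : (4 : ℝ) ^ n * exp (-((1 / 40000) ^ 2 / 4 * n ^ 2)) ≤ E := by
    refine (mul_le_mul_of_nonneg_right e4n (exp_pos _).le).trans ?_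
    rw [← exp_add, exp_le_exp]; nlinarith
  have t4 : (4 : ℝ) ^ n * (n ^ n * n ^ n) * exp (-(n ^ 2 / 3200)) ≤ E := by
    refine (mul_le_mul_of_nonneg_right (mul_le_mul_of_nonneg_right e4n (by positivity))
      (exp_pos _).le).trans ?_
    rw [nn, ← exp_add, ← exp_add, ← exp_add, exp_le_exp]; nlinarith
  have t5 : 12 * E ≤ exp (-(1 / 10 ^ 11 * n)) := by
    have : (12 : ℝ) ≤ exp (11 / 10 ^ 11 * n) := by linarith [add_one_le_exp (11 / 10 ^ 11 * n : ℝ)]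
    refine (mul_le_mul_of_nonneg_right this (exp_pos _).le).trans ?_
    rw [← exp_add, exp_le_exp]; linarith
  have := pr_low hn
  linarith

end Pool.Agent.H7.Schein
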