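import Mathlib

set_option autoImplicit false

namespace Pool.Agent.H7.Sedf

open Finset

variable {G : Type*} [Group G] [Fintype G] [DecidableEq G]

/-- Permutation matrix of right multiplication. -/
def rho (s : G) : Matrix G G ℚ := fun g h => if g * s = h then 1 else 0

theorem rho_mul (s t : G) : rho s * rho t = rho (s * t) := by
  ext g h
  simp only [rho, Matrix.mul_apply, ite_mul, one_mul, zero_mul, Finset.sum_ite_eq, Finset.mem_univ,
    if_true, mul_assoc]

omit [Fintype G] in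
theorem rho_one : rho (1 : G) = 1 := by
  ext g h
  simp [rho, Matrix.one_apply]

omit [Fintype G] in
theorem sum_rho_apply {ι : Type*} (S : Finset ι) (f : ι → G) (g h : G) :
    (∑ p ∈ S, rho (f p)) g h = ((S.filter (fun p => f p = g⁻¹ * h)).card : ℚ) := by
  rw [Matrix.sum_apply, Finset.card_filter]
  push_cast
  refine Finset.sum_congr rfl fun p _ => ?_
  simp only [rho]
  congr 1
  rw [eq_inv_mul_iff_mul_eq]

theorem J_comm (s : G) : rho s * (∑ g, rho g) = (∑ g, rho g) * rho s := by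
  rw [Finset.mul_sum, Finset.sum_mul]
  simp only [rho_mul]
  rw [Fintype.sum_equiv (Equiv.mulLeft s) (fun g => rho (s * g)) rho (fun _ => rfl),
    Fintype.sum_equiv (Equiv.mulRight s) (fun g => rho (g * s)) rho (fun _ => rfl)]

theorem J_sq : (∑ g : G, rho g) * (∑ g : G, rho g) = (Fintype.card G : ℚ) • ∑ g : G, rho g := by
  rw [Finset.sum_mul]
  have : ∀ s : G, rho s * (∑ g : G, rho g) = ∑ g : G, rho g := by
    intro s
    rw [Finset.mul_sum]
    simp only [rho_mul]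
    exact Fintype.sum_equiv (Equiv.mulLeft s) (fun g => rho (s * g)) rho (fun _ => rfl)
  simp only [this, Finset.sum_const, Finset.card_univ]
  rw [Nat.cast_smul_eq_nsmul]

theorem near (A B : Finset G) (hd : Disjoint A B) (hG : 1 < Fintype.card G)
    (h : ∀ g : G, g ≠ 1 → ((A ×ˢ B).filter (fun p => p.1 * p.2⁻¹ = g)).card = 1) :
    ∀ g : G, g ≠ 1 → ((B ×ˢ A).filter (fun p => p.1⁻¹ * p.2 = g)).card = 1 := by
  set J : Matrix G G ℚ := ∑ g : G, rho g with hJ
  set P : Matrix G G ℚ := ∑ a ∈ A, rho a with hP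
  set Q : Matrix G G ℚ := ∑ b ∈ B, rho b⁻¹ with hQ
  have hJa : ∀ g l, J g l = 1 := by
    intro g l
    rw [hJ, sum_rho_apply univ (fun x => x), Finset.filter_eq' univ]
    simp
  have hPQ : P * Q = J - 1 := by
    rw [hP, hQ, Finset.sum_mul_sum, ← Finset.sum_product']
    simp only [rho_mul]
    ext g l
    rw [sum_rho_apply (A ×ˢ B) (fun p => p.1 * p.2⁻¹), Matrix.sub_apply, hJa, Matrix.one_apply]
    by_cases hgl : g = l
    · subst hgl
      rw [if_pos rfl, sub_self, Nat.cast_eq_zero, Finset.card_eq_zero, Finset.filter_eq_empty_iff]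
      rintro ⟨a, b⟩ hp e
      obtain ⟨ha, hb⟩ := Finset.mem_product.1 hp
      simp only [inv_mul_cancel, mul_inv_eq_one] at e
      exact Finset.disjoint_left.1 hd ha (e ▸ hb)
    · rw [if_neg hgl, h _ (fun e => hgl (inv_mul_eq_one.1 e))]
      simp
  have hc : ((Fintype.card G : ℚ) - 1) ≠ 0 := by
    have : (1 : ℚ) < Fintype.card G := by exact_mod_cast hG
    linarith
  set W : Matrix G G ℚ := ((Fintype.card G : ℚ) - 1)⁻¹ • J - 1 with hW
  have hJJ : J * J = (Fintype.card G : ℚ) • J := J_sq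
  have hW1 : (J - 1) * W = 1 := by
    rw [hW, sub_mul, mul_sub, Matrix.mul_smul, hJJ, smul_smul, mul_one, one_mul]
    have : ((Fintype.card G : ℚ) - 1)⁻¹ * (Fintype.card G : ℚ) =
        1 + ((Fintype.card G : ℚ) - 1)⁻¹ := by field_simp; ring
    rw [this, add_smul, one_smul]
    abel
  have hPJ : P * J = J * P := by
    rw [hP, Finset.sum_mul, Finset.mul_sum]
    exact Finset.sum_congr rfl fun a _ => J_comm a
  have hPW : W * P = P * W := by
    rw [hW, sub_mul, mul_sub, Matrix.mul_smul, Matrix.smul_mul, hPJ, mul_one, one_mul]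
  have h1 : P * (Q * W) = 1 := by rw [← mul_assoc, hPQ, hW1]
  have h2 : (Q * W) * P = 1 := mul_eq_one_comm.1 h1
  have h3 : W * (J - 1) = 1 := mul_eq_one_comm.1 hW1
  have hQP : Q * P = J - 1 := by
    calc Q * P = Q * P * (W * (J - 1)) := by rw [h3, mul_one]
      _ = (Q * W) * P * (J - 1) := by rw [mul_assoc Q W P, hPW]; simp only [mul_assoc]
      _ = J - 1 := by rw [h2, one_mul]
  intro g hg
  have h4 := congrFun (congrFun hQP 1) g
  rw [hP, hQ, Finset.sum_mul_sum, ← Finset.sum_product'] at h4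
  simp only [rho_mul] at h4
  rw [sum_rho_apply (B ×ˢ A) (fun p => p.1⁻¹ * p.2), Matrix.sub_apply, hJa, Matrix.one_apply,
    if_neg hg.symm] at h4
  simp only [inv_one, one_mul, sub_zero] at h4
  exact_mod_cast h4

theorem no_sedf (m k : ℕ) (hm : 3 ≤ m) (hk : 2 ≤ k) (A : Fin m → Finset G)
    (hcard : ∀ i, (A i).card = k) (hdisj : ∀ i j, i ≠ j → Disjoint (A i) (A j))
    (h : ∀ i, ∀ g : G, g ≠ 1 →
      ∑ j ∈ univ.erase i, ((A i ×ˢ A j).filter (fun p => p.1 * p.2⁻¹ = g)).card = 1) :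
    False := by
  set B : Fin m → Finset G := fun i => (univ.erase i).biUnion A with hB
  have memB : ∀ i x, x ∈ B i ↔ ∃ j, j ≠ i ∧ x ∈ A j := by
    intro i x
    simp [hB]
  have hAB : ∀ i, Disjoint (A i) (B i) := by
    intro i
    rw [Finset.disjoint_left]
    intro x hx hx'
    obtain ⟨j, hj, hxj⟩ := (memB i x).1 hx'
    exact Finset.disjoint_left.1 (hdisj j i hj) hxj hx
  have hR : ∀ i, ∀ g : G, g ≠ 1 → ((A i ×ˢ B i).filter (fun p => p.1 * p.2⁻¹ = g)).card = 1 := by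
    intro i g hg
    rw [← h i g hg, ← Finset.card_biUnion]
    · congr 1
      ext p
      simp only [Finset.mem_filter, Finset.mem_product, memB, Finset.mem_biUnion, Finset.mem_erase,
        Finset.mem_univ, and_true]
      constructor
      · rintro ⟨⟨h1, j, hj, h2⟩, h3⟩
        exact ⟨j, hj, ⟨h1, h2⟩, h3⟩
      · rintro ⟨j, hj, ⟨h1, h2⟩, h3⟩
        exact ⟨⟨h1, j, hj, h2⟩, h3⟩
    · intro j _ j' _ hjj
      refine Finset.disjoint_left.2 fun p hp hp' => ?_
      exact Finset.disjoint_left.1 (hdisj j j' hjj) (mem_product.1 (mem_filter.1 hp).1).2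
        (mem_product.1 (mem_filter.1 hp').1).2
  set i0 : Fin m := ⟨0, by omega⟩
  set i1 : Fin m := ⟨1, by omega⟩
  set i2 : Fin m := ⟨2, by omega⟩
  have n10 : i1 ≠ i0 := by simp [i0, i1]
  have n20 : i2 ≠ i0 := by simp [i0, i2]
  have n12 : i1 ≠ i2 := by simp [i1, i2]
  obtain ⟨a, ha, a', ha', haa⟩ := Finset.one_lt_card.1 (show 1 < (A i0).card by rw [hcard]; omega)
  have hG : 1 < Fintype.card G := Fintype.one_lt_card_iff.2 ⟨a, a', haa⟩
  have hL := fun i => near (A i) (B i) (hAB i) hG (hR i)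
  have hg : a'⁻¹ * a ≠ 1 := fun e => haa (inv_mul_eq_one.1 e).symm
  have key : ∀ x y, x ∈ B i0 → y ∈ B i0 → x⁻¹ * y = a'⁻¹ * a → False := by
    intro x y hx hy e
    have hne : a * y⁻¹ ≠ 1 := by
      intro e'
      rw [mul_inv_eq_one] at e'
      exact Finset.disjoint_left.1 (hAB i0) ha (e' ▸ hy)
    have e2 : a' * x⁻¹ = a * y⁻¹ := by
      calc a' * x⁻¹ = a' * (x⁻¹ * y) * y⁻¹ := by group
        _ = a * y⁻¹ := by rw [e]; group
    have := Finset.card_le_one.1 (hR i0 _ hne).le (a, y)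
      (mem_filter.2 ⟨mem_product.2 ⟨ha, hy⟩, rfl⟩) (a', x)
      (mem_filter.2 ⟨mem_product.2 ⟨ha', hx⟩, e2⟩)
    exact haa (congrArg Prod.fst this)
  have col : ∀ j, j ≠ i0 → ∃ x ∈ A i0, ∃ y ∈ A j, x⁻¹ * y = a'⁻¹ * a := by
    intro j hj
    obtain ⟨⟨x, y⟩, hp⟩ := Finset.card_pos.1 (show 0 < _ by rw [hL j _ hg]; norm_num)
    obtain ⟨hp1, e⟩ := mem_filter.1 hp
    obtain ⟨hx, hy⟩ := mem_product.1 hp1
    obtain ⟨l, _, hxl⟩ := (memB j x).1 hx
    by_cases hl : l = i0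
    · exact ⟨x, hl ▸ hxl, y, hy, e⟩
    · exact (key x y ((memB _ _).2 ⟨l, hl, hxl⟩) ((memB _ _).2 ⟨j, hj, hy⟩) e).elim
  obtain ⟨x, hx, y, hy, e⟩ := col i1 n10
  obtain ⟨x', hx', y', hy', e'⟩ := col i2 n20
  have hg' : (a'⁻¹ * a)⁻¹ ≠ 1 := inv_ne_one.2 hg
  have := Finset.card_le_one.1 (hL i0 _ hg').le (y, x)
    (mem_filter.2 ⟨mem_product.2 ⟨(memB _ _).2 ⟨i1, n10, hy⟩, hx⟩, by rw [← e]; simp⟩) (y', x')
    (mem_filter.2 ⟨mem_product.2 ⟨(memB _ _).2 ⟨i2, n20, hy'⟩, hx'⟩, by rw [← e']; simp⟩)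
  have hyy : y = y' := congrArg Prod.fst this
  exact Finset.disjoint_left.1 (hdisj i1 i2 n12) hy (hyy ▸ hy')

end Pool.Agent.H7.Sedf
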