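import Mathlib

set_option autoImplicit false
set_option maxHeartbeats 400000

namespace Pool.Agent.H7.Sph

open Finset Matrix

/-- restriction to the coordinates in `F` -/
def res {W : Type} [DecidableEq W] (F : Finset W) : (W → ℝ) →ₗ[ℝ] (W → ℝ) where
  toFun u w := if w ∈ F then u w else 0
  map_add' u v := by ext w; simp only [Pi.add_apply]; split_ifs <;> simp
  map_smul' c u := by ext w; simp

theorem solve {W : Type} [Fintype W] [DecidableEq W] (F : Finset W) {l : ℕ} (u : Fin l → W → ℝ)
    (h : LinearIndependent ℝ fun i => res F (u i)) (c : Fin l → ℝ) :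
    ∃ y : W → ℝ, (∀ w, w ∉ F → y w = 0) ∧ ∀ i, u i ⬝ᵥ y = c i := by
  obtain ⟨φ, hφ⟩ := LinearMap.exists_extend ((Module.Basis.span h).constr ℝ c)
  refine ⟨res F fun w => φ (Pi.single w 1), fun w hw => if_neg hw, fun i => ?_⟩
  have e := congrArg (fun f => f (Module.Basis.span h i)) hφ
  simp only [LinearMap.comp_apply, Module.Basis.constr_basis] at e
  simp only [Submodule.subtype_apply, Module.Basis.span_apply] at e
  rw [← e, LinearMap.pi_apply_eq_sum_univ φ]
  refine sum_congr rfl fun w _ => ?_
  have : (fun j => if w = j then (1 : ℝ) else 0) = Pi.single w 1 := by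
    ext j; simp [Pi.single_apply, eq_comm]
  rw [this]
  by_cases hw : w ∈ F <;> simp [res, hw]

theorem proper {W : Type} [Fintype W] [DecidableEq W] (F : Finset W) {l : ℕ} (hl : l < F.card)
    (v : Fin l → W → ℝ) : (Submodule.span ℝ (Set.range v)).comap (res F) ≠ ⊤ := by
  intro h
  have li : LinearIndependent ℝ fun w : F => (Pi.single (w : W) (1 : ℝ) : W → ℝ) := by
    have := (Pi.basisFun ℝ W).linearIndependent.comp (fun w : F => (w : W)) Subtype.val_injective
    convert this using 1
    ext w j; simp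
  have h1 : Submodule.span ℝ (Set.range fun w : F => (Pi.single (w : W) (1 : ℝ) : W → ℝ)) ≤
      Submodule.span ℝ (Set.range v) := by
    rw [Submodule.span_le]
    rintro _ ⟨w, rfl⟩
    have : (Pi.single (w : W) (1 : ℝ) : W → ℝ) ∈ (Submodule.span ℝ (Set.range v)).comap (res F) :=
      h ▸ Submodule.mem_top
    rw [Submodule.mem_comap] at this
    have e : res F (Pi.single (w : W) (1 : ℝ)) = Pi.single (w : W) (1 : ℝ) := by
      ext j
      by_cases hj : j = w <;> simp [res, hj]
    rw [e] at this
    exact this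
  have h2 := Submodule.finrank_mono h1
  rw [finrank_span_eq_card li] at h2
  have h3 := finrank_range_le_card (R := ℝ) v
  simp only [Fintype.card_coe, Fintype.card_fin, Set.finrank] at h2 h3
  omega

theorem gp {W : Type} [Fintype W] [DecidableEq W] {j : ℕ} (F : ℕ → Finset W)
    (hF : ∀ m, m < j → m ≤ (F m).card) (ρ : ℕ → W → ℝ) (hρ : ∀ m w, ρ m w ≠ 0) (η : ℕ → ℕ → ℝ)
    (hη : ∀ i m, η i m ≠ 0) (l : ℕ) (hl : l ≤ j) :
    ∃ u : Fin l → W → ℝ, (∀ m, l ≤ m → m < j → LinearIndependent ℝ fun i => res (F m) (u i)) ∧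
      (∀ (i : Fin l) w, w ∉ F i → 0 < ρ i w * u i w) ∧
      ∀ i m : Fin l, i < m → 0 < η i m * (u i ⬝ᵥ u m) := by
  induction l with
  | zero => exact ⟨fun i => i.elim0, fun m _ _ => linearIndependent_empty_type, fun i => i.elim0,
      fun i => i.elim0⟩
  | succ l ih =>
    obtain ⟨u, h1, h2, h3⟩ := ih (by omega)
    obtain ⟨y, y0, hy⟩ := solve (F l) u (h1 l le_rfl (by omega))
      fun i => η i l - u i ⬝ᵥ fun w => if w ∈ F l then 0 else ρ l w
    have op : IsOpen {z : W → ℝ | (∀ w, w ∉ F l → 0 < ρ l w * z w) ∧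
        ∀ i : Fin l, 0 < η i l * (u i ⬝ᵥ z)} := by
      simp only [Set.ofPred_and, Set.ofPred_forall]
      refine (isOpen_iInter_of_finite fun w => isOpen_iInter_of_finite fun _ =>
        isOpen_lt continuous_const (by fun_prop)).inter (isOpen_iInter_of_finite fun i =>
        isOpen_lt continuous_const (by fun_prop))
    have de := dense_iInter_of_isOpen (f := fun m : Finset.Ico (l + 1) j => ((((Submodule.span ℝ (Set.range
      fun i => res (F m) (u i))).comap (res (F m)) : Submodule ℝ (W → ℝ)) : Set (W → ℝ))ᶜ))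
      (fun m => (Submodule.closed_of_finiteDimensional _).isOpen_compl) fun m => by
        rw [← interior_eq_empty_iff_dense_compl]
        by_contra hh
        exact proper (F m) (by have := mem_Ico.1 m.2; have := hF m this.2; omega) _
          (Submodule.eq_top_of_nonempty_interior' _ (Set.nonempty_iff_ne_empty.2 hh))
    obtain ⟨z, z1, z2, z3⟩ := de.exists_mem_open op ⟨y + fun w => if w ∈ F l then 0 else ρ l w,
      fun w hw => by simpa [y0 w hw, hw] using hρ l w, fun i => by
        rw [dotProduct_add, hy]; simpa using hη i l⟩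
    refine ⟨Fin.snoc u z, fun m hm' hm => ?_, fun i => ?_, fun i m => ?_⟩
    · have e : (fun i => res (F m) ((Fin.snoc u z : Fin (l + 1) → W → ℝ) i)) =
          Fin.snoc (fun i => res (F m) (u i)) (res (F m) z) := by
        ext1 i
        refine Fin.lastCases ?_ (fun i => ?_) i <;> simp
      rw [e, linearIndependent_finSnoc]
      exact ⟨h1 m (by omega) hm, Set.mem_iInter.1 z1 ⟨m, mem_Ico.2 ⟨hm', hm⟩⟩⟩
    · refine Fin.lastCases ?_ (fun i => ?_) i
      · simpa using z2
      · simpa using h2 i
    · refine Fin.lastCases ?_ (fun m => ?_) m <;> refine Fin.lastCases ?_ (fun i => ?_) i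
      · simp
      · simpa using z3 i
      · intro h; exact absurd h (not_lt.2 (Fin.le_last _))
      · simpa using h3 i m

end Pool.Agent.H7.Sph
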