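import Pool.Agent.H7.Sph2

set_option autoImplicit false
set_option maxHeartbeats 800000

namespace Pool.Agent.H7.Sph

open Finset Matrix Filter Topology Sum

theorem four (g t : Bool → Bool → ℝ) (ht : ∀ b c, t b c = 1 ∨ t b c = -1) (s s' : ℝ)
    (hs : s = 1 ∨ s = -1) (hs' : s' = 1 ∨ s' = -1)
    (h : 0 < t false false * (g false false - s' * g false true - s * g true false +
      s * s' * g true true)) :
    ∃ B C : Bool → ℝ, ∀ b c, 0 < t b c * (g b c + (if b then s else 1) * C c +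
      (if c then s' else 1) * B b) := by
  obtain ⟨d, hd⟩ : ∃ d, d = t false false * (g false false - s' * g false true - s * g true false +
      s * s' * g true true) / 4 := ⟨_, rfl⟩
  refine ⟨fun b => if b then s' * (d * t true true - g true true - s * (d * t false true -
    g false true)) else 0, fun c => if c then d * t false true - g false true else
    s * (d * t true false - g true false - s' * (d * t true true - g true true - s * (d * t false true -
    g false true))), fun b c => ?_⟩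
  rcases ht false false with h1 | h1 <;> rcases ht false true with h2 | h2 <;>
    rcases ht true false with h3 | h3 <;> rcases ht true true with h4 | h4 <;>
    rcases hs with rfl | rfl <;> rcases hs' with rfl | rfl <;> cases b <;> cases c <;>
    simp only [h1, h2, h3, h4, Bool.false_eq_true, if_true, if_false] at h hd ⊢ <;> linarith

theorem split2 (x y s u : ℝ) (hx : x = 1 ∨ x = -1) (hy : y = 1 ∨ y = -1) (hs : s = 1 ∨ s = -1)
    (h : x * y * s ≠ 1 → 0 < x * u) : ∃ X Y : ℝ, 0 < x * X ∧ 0 < y * Y ∧ X - s * Y = u := by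
  have a1 := le_abs_self u
  have a2 := neg_abs_le u
  by_cases c : x * y * s = 1
  · refine ⟨x * (|u| + 1 + x * u), y * (|u| + 1), ?_⟩
    rcases hx with rfl | rfl <;> rcases hy with rfl | rfl <;> rcases hs with rfl | rfl <;>
      first | (exfalso; norm_num at c; done) | exact ⟨by linarith, by linarith, by ring⟩
  · have := h c
    refine ⟨u / 2, y * (x * u / 2), ?_⟩
    rcases hx with rfl | rfl <;> rcases hy with rfl | rfl <;> rcases hs with rfl | rfl <;>
      first | (exfalso; norm_num at c; done) | exact ⟨by linarith, by linarith, by ring⟩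

theorem ev (k : ℕ) (f g : ℝ → ℝ) (hf : Continuous f) (h0 : 0 < f 0) (e : ∀ ε, g ε = ε ^ k * f ε) :
    ∀ᶠ ε in 𝓝[>] (0 : ℝ), 0 < g ε := by
  have := (hf.tendsto 0).eventually (lt_mem_nhds h0)
  filter_upwards [nhdsWithin_le_nhds this, self_mem_nhdsWithin] with ε h1 h2
  rw [e]
  exact mul_pos (pow_pos h2 _) h1

theorem pairs {W : Type} [Fintype W] [DecidableEq W] {j : ℕ}
    (σ : W ⊕ Fin j × Bool → W ⊕ Fin j × Bool → ℝ) (hσ : ∀ u v, σ u v = 1 ∨ σ u v = -1)
    (sy : ∀ u v, σ u v = σ v u) (dg : ∀ u, σ u u = 1)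
    (hF : ∀ i : Fin j, i.1 ≤ (univ.filter fun w => σ (inr (i, false)) (inl w) * σ (inr (i, true)) (inl w) *
      σ (inr (i, false)) (inr (i, true)) = 1).card) :
    ∃ a : W ⊕ Fin j × Bool → W ⊕ Fin j → ℝ, ∀ u v, 0 < σ u v * (a u ⬝ᵥ a v) := by
  have n0 : ∀ u v, σ u v ≠ 0 := fun u v => by rcases hσ u v with h | h <;> simp [h]
  have sq : ∀ u v, σ u v * σ u v = 1 := fun u v => by rcases hσ u v with h | h <;> simp [h]
  obtain ⟨u, -, u1, u2⟩ := gp (j := j) (fun m => if h : m < j then (univ.filter fun w =>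
      σ (inr (⟨m, h⟩, false)) (inl w) * σ (inr (⟨m, h⟩, true)) (inl w) *
      σ (inr (⟨m, h⟩, false)) (inr (⟨m, h⟩, true)) = 1) else ∅)
    (fun m hm => by rw [dif_pos hm]; exact hF ⟨m, hm⟩)
    (fun m w => if h : m < j then σ (inr (⟨m, h⟩, false)) (inl w) else 1)
    (fun m w => by split_ifs <;> simp [n0])
    (fun i m => if h : i < j ∧ m < j then σ (inr (⟨i, h.1⟩, false)) (inr (⟨m, h.2⟩, false)) else 1)
    (fun m w => by split_ifs <;> simp [n0]) j le_rfl
  simp only [Fin.is_lt, dif_pos, Fin.eta, mem_filter, mem_univ, true_and, and_self] at u1 u2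
  choose X Y hX hY hXY using fun i w => split2 _ _ _ (u i w) (hσ _ _) (hσ _ _) (hσ _ _) (u1 i w)
  obtain ⟨α, hα⟩ : ∃ α : Fin j × Bool → W → ℝ, α = fun p => if p.2 then Y p.1 else X p.1 := ⟨_, rfl⟩
  obtain ⟨s, hs⟩ : ∃ s : Fin j × Bool → ℝ,
      s = fun p => if p.2 then σ (inr (p.1, false)) (inr (p.1, true)) else 1 := ⟨_, rfl⟩
  have α1 : ∀ p w, 0 < σ (inr p) (inl w) * α p w := by
    rintro ⟨i, _ | _⟩ w <;> simp [hα, hX, hY]
  have s1 : ∀ p q : Fin j × Bool, p.1 = q.1 → σ (inr p) (inr q) * (s p * s q) = 1 := by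
    rintro ⟨i, _ | _⟩ ⟨m, _ | _⟩ h <;> cases h <;> simp [hs, dg, sq, sy (inr (i, true)) (inr (i, false))]
  choose B C hBC using fun (i m : Fin j) (h : i < m) => four (fun b c => α (i, b) ⬝ᵥ α (m, c))
    (fun b c => σ (inr (i, b)) (inr (m, c))) (fun _ _ => hσ _ _)
    (σ (inr (i, false)) (inr (i, true))) (σ (inr (m, false)) (inr (m, true))) (hσ _ _) (hσ _ _) (by
      convert u2 i m h using 2
      simp only [hα, dotProduct, Bool.false_eq_true, if_true, if_false, ← hXY, mul_sum,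
        ← sum_sub_distrib, ← sum_add_distrib]
      exact sum_congr rfl fun w _ => by ring)
  obtain ⟨A, hA⟩ : ∃ A : Fin j × Bool → Fin j → ℝ, A = fun p l => if h : p.1 < l then B p.1 l h p.2
    else if h : l < p.1 then C l p.1 h p.2 else 0 := ⟨_, rfl⟩
  have A1 : ∀ p q : Fin j × Bool, p.1 < q.1 →
      0 < σ (inr p) (inr q) * (α p ⬝ᵥ α q + s p * A q p.1 + s q * A p q.1) := by
    rintro ⟨i, b⟩ ⟨m, c⟩ h
    have := hBC i m h b c
    simp only [hA, hs, dif_pos h, dif_neg (not_lt.2 h.le)]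
    exact this
  have A2 : ∀ p q : Fin j × Bool, p.1 ≠ q.1 →
      0 < σ (inr p) (inr q) * (α p ⬝ᵥ α q + s p * A q p.1 + s q * A p q.1) := fun p q h => by
    rcases lt_or_gt_of_ne h with h | h
    · exact A1 p q h
    · have := A1 q p h
      rw [sy, dotProduct_comm]
      convert this using 2
      ring
  obtain ⟨a, ha⟩ : ∃ a : ℝ → W ⊕ Fin j × Bool → W ⊕ Fin j → ℝ, a = fun ε => Sum.elim
    (fun w => Sum.elim (Pi.single w 1 + ε • fun w' => σ (inl w) (inl w')) (0 : Fin j → ℝ))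
    (fun p => Sum.elim (ε • α p) (Pi.single p.1 (s p) + ε ^ 2 • A p)) := ⟨_, rfl⟩
  have m1 : ∀ w p, ∀ᶠ ε in 𝓝[>] (0 : ℝ), 0 < σ (inr p) (inl w) * (a ε (inr p) ⬝ᵥ a ε (inl w)) :=
    fun w p => ev 1 (fun ε => σ (inr p) (inl w) * (α p w + ε * (α p ⬝ᵥ fun w' => σ (inl w) (inl w'))))
      _ (by fun_prop) (by simpa using α1 p w) fun ε => by simp [ha]; ring
  refine (Eventually.exists (f := 𝓝[>] (0 : ℝ)) (p := fun ε => ∀ u v, 0 < σ u v * (a ε u ⬝ᵥ a ε v))
    (eventually_all.2 fun u => eventually_all.2 fun v => ?_)).elim fun ε h => ⟨_, h⟩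
  rcases u with w | p <;> rcases v with w' | q
  · by_cases h : w = w'
    · subst h
      exact ev 0 (fun ε => 1 + 2 * ε + ε ^ 2 * ((fun w' => σ (inl w) (inl w')) ⬝ᵥ
        fun w' => σ (inl w) (inl w'))) _ (by fun_prop) (by simp) fun ε => by simp [ha, dg]; ring
    · refine ev 1 (fun ε => 2 + ε * σ (inl w) (inl w') * ((fun v => σ (inl w) (inl v)) ⬝ᵥ
        fun v => σ (inl w') (inl v))) _ (by fun_prop) (by simp) fun ε => ?_
      simp [ha, Pi.single_apply, h, sy (inl w') (inl w)]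
      linear_combination 2 * ε * sq (inl w) (inl w')
  · simpa only [sy (inl w), dotProduct_comm (a _ (inl w))] using m1 w q
  · exact m1 w' p
  · by_cases h : p.1 = q.1
    · refine ev 0 (fun ε => 1 + ε ^ 2 * σ (inr p) (inr q) * (α p ⬝ᵥ α q + s p * A q p.1 +
        s q * A p q.1 + ε ^ 2 * (A p ⬝ᵥ A q))) _ (by fun_prop) (by simp) fun ε => ?_
      simp [ha, Pi.single_apply, h]
      linear_combination s1 p q h
    · refine ev 2 (fun ε => σ (inr p) (inr q) * (α p ⬝ᵥ α q + s p * A q p.1 +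
        s q * A p q.1 + ε ^ 2 * (A p ⬝ᵥ A q))) _ (by fun_prop) (by simpa using A2 p q h) fun ε => ?_
      simp [ha, Pi.single_apply, h]
      ring

end Pool.Agent.H7.Sph
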