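import Pool.Agent.H7.Sph3

set_option autoImplicit false
set_option maxHeartbeats 800000

namespace Pool.Agent.H7.Sph

open Finset Matrix Filter Topology Sum

def UR {V : Type} (adj : V → V → Prop) (ι : Type) [Fintype ι] : Prop :=
  ∃ (a : V → ι → ℝ) (τ : ℝ), 0 ≤ τ ∧ τ < 1 ∧ (∀ u, 0 < a u ⬝ᵥ a u) ∧ ∀ u v, u ≠ v →
    (adj u v → τ * (√(a u ⬝ᵥ a u) * √(a v ⬝ᵥ a v)) < a u ⬝ᵥ a v) ∧
    (¬adj u v → a u ⬝ᵥ a v < τ * (√(a u ⬝ᵥ a u) * √(a v ⬝ᵥ a v)))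

theorem first {V ι : Type} [Fintype V] [Fintype ι] (adj : V → V → Prop) (e g : V → ι → ℝ)
    (h1 : ∀ u, e u ⬝ᵥ e u = 1) (h2 : ∀ u v, u ≠ v → adj u v → e u ⬝ᵥ e v = 0 ∧
      1 ≤ e u ⬝ᵥ g v + g u ⬝ᵥ e v) (h3 : ∀ u v, u ≠ v → ¬adj u v →
      (e u ⬝ᵥ e v = 0 ∧ e u ⬝ᵥ g v + g u ⬝ᵥ e v = 0) ∨ e u ⬝ᵥ e v = -1) : UR adj ι := by
  obtain ⟨N, hN⟩ : ∃ N : V → ℝ → ℝ, N = fun u ε => √((e u + ε • g u) ⬝ᵥ (e u + ε • g u)) := ⟨_, rfl⟩
  have c : ∀ u, Continuous (N u) := fun u => by rw [hN]; fun_prop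
  have N0 : ∀ u, N u 0 = 1 := fun u => by simp [hN, h1]
  have E1 : ∀ᶠ ε in 𝓝[>] (0 : ℝ), 0 < ε ∧ 0 < 1 - ε / 2 := (ev 1 (fun _ => 1) _ (by fun_prop)
    (by simp) (by simp)).and (ev 0 (fun ε => 1 - ε / 2) _ (by fun_prop) (by simp) (by simp))
  have E2 : ∀ᶠ ε in 𝓝[>] (0 : ℝ), ∀ u, 0 < (e u + ε • g u) ⬝ᵥ (e u + ε • g u) :=
    eventually_all.2 fun u => ev 0 (fun ε => (e u + ε • g u) ⬝ᵥ (e u + ε • g u)) _ (by fun_prop)
      (by simp [h1]) (by simp)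
  have E3 : ∀ᶠ ε in 𝓝[>] (0 : ℝ), ∀ u v, u ≠ v →
      (adj u v → 0 < (e u + ε • g u) ⬝ᵥ (e v + ε • g v) - ε / 2 * (N u ε * N v ε)) ∧
      (¬adj u v → 0 < ε / 2 * (N u ε * N v ε) - (e u + ε • g u) ⬝ᵥ (e v + ε • g v)) := by
    refine eventually_all.2 fun u => eventually_all.2 fun v => eventually_all.2 fun h =>
      (eventually_all.2 fun k => ?_).and (eventually_all.2 fun k => ?_)
    · obtain ⟨p, q⟩ := h2 u v h k
      have := c u
      have := c v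
      refine ev 1 (fun ε => e u ⬝ᵥ g v + g u ⬝ᵥ e v + ε * (g u ⬝ᵥ g v) - 1 / 2 * (N u ε * N v ε)) _
        (by fun_prop) (by simp only [N0]; linarith) fun ε => ?_
      simp [p]; ring
    · have := c u
      have := c v
      rcases h3 u v h k with ⟨p, q⟩ | p
      · refine ev 1 (fun ε => 1 / 2 * (N u ε * N v ε) - ε * (g u ⬝ᵥ g v)) _
          (by fun_prop) (by simp [N0]) fun ε => ?_
        simp [p]; linear_combination (-ε) * q
      · exact ev 0 (fun ε => ε / 2 * (N u ε * N v ε) - (e u + ε • g u) ⬝ᵥ (e v + ε • g v)) _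
          (by fun_prop) (by simp [p]) (by simp)
  obtain ⟨ε, ⟨a1, a2⟩, a3, a4⟩ := (E1.and (E2.and E3)).exists
  refine ⟨fun u => e u + ε • g u, ε / 2, by linarith, by linarith, a3, fun u v h => ?_⟩
  have := a4 u v h
  simp only [hN, sub_pos] at this
  exact this

theorem indep {W : Type} [Fintype W] [DecidableEq W] {j : ℕ}
    (G : SimpleGraph (W ⊕ Fin j × Bool)) (hI : ∀ p q, ¬G.Adj (inr p) (inr q)) :
    UR G.Adj (W ⊕ Fin j) := by
  classical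
  refine first _ (Sum.elim (fun w => Pi.single (inl w) 1)
    fun p => Pi.single (inr p.1) (if p.2 then 1 else -1))
    (fun u => Sum.elim (fun w => if G.Adj u (inl w) then 1 else 0) (0 : Fin j → ℝ)) ?_ ?_ ?_
  · rintro (w | ⟨i, _ | _⟩) <;> simp
  · rintro (w | p) (w' | q) h k
    · have : w ≠ w' := fun e => h (e ▸ rfl)
      simp [k, k.symm, this]
    · simp [k.symm]
    · simp [k]
    · exact absurd k (hI _ _)
  · rintro (w | ⟨i, b⟩) (w' | ⟨m, c⟩) h k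
    · have : w ≠ w' := fun e => h (e ▸ rfl)
      simp [k, mt G.adj_symm k, this]
    · simp [mt G.adj_symm k]
    · simp [k]
    · by_cases e : i = m
      · subst e
        cases b <;> cases c <;> simp at h ⊢
      · simp [e]

theorem paired {W : Type} [Fintype W] [DecidableEq W] {j : ℕ}
    (G : SimpleGraph (W ⊕ Fin j × Bool)) (σ : W ⊕ Fin j × Bool → W ⊕ Fin j × Bool → ℝ)
    (h1 : ∀ u v, (u = v ∨ G.Adj u v) → σ u v = 1) (h2 : ∀ u v, ¬(u = v ∨ G.Adj u v) → σ u v = -1)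
    (hF : ∀ i : Fin j, i.1 ≤ (univ.filter fun w => σ (inr (i, false)) (inl w) * σ (inr (i, true)) (inl w) *
      σ (inr (i, false)) (inr (i, true)) = 1).card) : UR G.Adj (W ⊕ Fin j) := by
  obtain ⟨a, ha⟩ := pairs σ (fun u v => (em _).imp (h1 u v) (h2 u v)) (fun u v => by
    by_cases h : u = v ∨ G.Adj u v
    · rw [h1 _ _ h, h1 _ _ (h.imp Eq.symm G.adj_symm)]
    · rw [h2 _ _ h, h2 _ _ fun k => h (k.imp Eq.symm G.adj_symm)]) (fun u => h1 _ _ (Or.inl rfl)) hF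
  refine ⟨a, 0, le_rfl, one_pos, fun u => ?_, fun u v h => ⟨fun k => ?_, fun k => ?_⟩⟩
  · simpa [h1 u u (Or.inl rfl)] using ha u u
  · simpa [h1 u v (Or.inr k)] using ha u v
  · simpa [h2 u v (not_or.2 ⟨h, k⟩)] using ha u v

theorem unit {V ι : Type} [Fintype V] [Fintype ι] {adj : V → V → Prop} (h : UR adj ι) {d : ℕ}
    (hd : Fintype.card ι + 1 = d) : ∃ (c : V → EuclideanSpace ℝ (Fin d)) (τ : ℝ), 0 ≤ τ ∧ τ < 1 ∧
      Function.Injective c ∧ (∀ u, inner ℝ (c u) (c u) = 1) ∧ ∀ u v, u ≠ v →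
      (adj u v → τ < inner ℝ (c u) (c v)) ∧ (¬adj u v → inner ℝ (c u) (c v) < τ) := by
  obtain ⟨a, τ, t0, t1, ha, h⟩ := h
  obtain ⟨b, b1, b2⟩ : ∃ b : V → ι → ℝ, (∀ u, b u ⬝ᵥ b u = 1) ∧ ∀ u v, u ≠ v →
      (adj u v → τ < b u ⬝ᵥ b v) ∧ (¬adj u v → b u ⬝ᵥ b v < τ) := by
    have sp := fun u => Real.sqrt_pos.2 (ha u)
    refine ⟨fun u => (√(a u ⬝ᵥ a u))⁻¹ • a u, fun u => ?_, fun u v k => ?_⟩
    · have := Real.mul_self_sqrt (ha u).le
      have := (sp u).ne'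
      simp only [smul_dotProduct, dotProduct_smul, smul_eq_mul]
      field_simp
      linarith
    · have e : ((√(a u ⬝ᵥ a u))⁻¹ • a u) ⬝ᵥ ((√(a v ⬝ᵥ a v))⁻¹ • a v) =
          (a u ⬝ᵥ a v) / (√(a u ⬝ᵥ a u) * √(a v ⬝ᵥ a v)) := by
        simp only [smul_dotProduct, dotProduct_smul, smul_eq_mul]
        field_simp
      rw [e, lt_div_iff₀ (mul_pos (sp u) (sp v)), div_lt_iff₀ (mul_pos (sp u) (sp v))]
      exact h u v k
  obtain ⟨t, ht⟩ : ∃ t : V → ℝ, Function.Injective t :=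
    ⟨fun v => ((Fintype.equivFin V v : ℕ) : ℝ), fun u v h =>
      (Fintype.equivFin V).injective (Fin.ext (Nat.cast_injective (R := ℝ) h))⟩
  obtain ⟨P, hP⟩ : ∃ P : V → V → ℝ → ℝ, P = fun u v ε =>
    ε * t u * (ε * t v) + √(1 - (ε * t u) ^ 2) * √(1 - (ε * t v) ^ 2) * (b u ⬝ᵥ b v) := ⟨_, rfl⟩
  have c : ∀ u v, Continuous (P u v) := fun u v => by rw [hP]; fun_prop
  have E1 : ∀ᶠ ε in 𝓝[>] (0 : ℝ), 0 < ε := self_mem_nhdsWithin
  have E2 : ∀ᶠ ε in 𝓝[>] (0 : ℝ), ∀ u, 0 < 1 - (ε * t u) ^ 2 :=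
    eventually_all.2 fun u => ev 0 (fun ε => 1 - (ε * t u) ^ 2) _ (by fun_prop) (by simp) (by simp)
  have E3 : ∀ᶠ ε in 𝓝[>] (0 : ℝ), ∀ u v, u ≠ v →
      (adj u v → 0 < P u v ε - τ) ∧ (¬adj u v → 0 < τ - P u v ε) := by
    refine eventually_all.2 fun u => eventually_all.2 fun v => eventually_all.2 fun h =>
      (eventually_all.2 fun k => ?_).and (eventually_all.2 fun k => ?_)
    · exact ev 0 (fun ε => P u v ε - τ) _ ((c u v).sub continuous_const)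
        (by simpa [hP] using (b2 u v h).1 k) (by simp)
    · exact ev 0 (fun ε => τ - P u v ε) _ (continuous_const.sub (c u v))
        (by simpa [hP] using (b2 u v h).2 k) (by simp)
  obtain ⟨ε, a1, a2, a3⟩ := (E1.and (E2.and E3)).exists
  obtain ⟨e⟩ : Nonempty (Fin d ≃ Option ι) := ⟨(Fintype.equivFinOfCardEq (by simpa using hd)).symm⟩
  obtain ⟨z, hz⟩ : ∃ z : V → Option ι → ℝ, z = fun u o =>
    o.elim (ε * t u) fun i => √(1 - (ε * t u) ^ 2) * b u i := ⟨_, rfl⟩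
  have key : ∀ u v, inner ℝ (WithLp.toLp 2 fun k => z u (e k) : EuclideanSpace ℝ (Fin d))
      (WithLp.toLp 2 fun k => z v (e k)) = P u v ε := fun u v => by
    simp only [PiLp.inner_apply, RCLike.inner_apply, conj_trivial]
    rw [e.sum_comp fun o => z v o * z u o, Fintype.sum_option, hz, hP]
    simp only [Option.elim, dotProduct, mul_sum]
    congr 1
    · ring
    · exact sum_congr rfl fun i _ => by ring
  refine ⟨fun u => WithLp.toLp 2 fun k => z u (e k), τ, t0, t1, fun u v h => ?_, fun u => ?_,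
    fun u v h => ?_⟩
  · have := congrArg (fun x : EuclideanSpace ℝ (Fin d) => x (e.symm none)) h
    simp only [hz, Equiv.apply_symm_apply, Option.elim] at this
    exact ht (mul_left_cancel₀ a1.ne' this)
  · rw [key, hP]
    simp only [b1, Real.mul_self_sqrt (a2 u).le]
    ring
  · simpa only [key, sub_pos] using a3 u v h

end Pool.Agent.H7.Sph
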