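import Pool.Agent.H7.Sph4

set_option autoImplicit false
set_option maxHeartbeats 800000

namespace Pool.Agent.H7.Sph

open Finset Matrix Sum

def Good {V : Type} (σ : V → V → ℝ) (R : Finset V) (x y : V) : Prop :=
  R.card ≤ 3 * (R.filter fun w => σ x w * σ y w * σ x y = 1).card

theorem tri {V : Type} [DecidableEq V] (σ : V → V → ℝ)
    (hσ : ∀ u v, σ u v = 1 ∨ σ u v = -1) (R : Finset V) (x y z : V)
    (h : σ x y * σ z x * σ z y = 1) : Good σ R x y ∨ Good σ R z x ∨ Good σ R z y := by
  have : R ⊆ (R.filter fun w => σ x w * σ y w * σ x y = 1) ∪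
      (R.filter fun w => σ z w * σ x w * σ z x = 1) ∪
      (R.filter fun w => σ z w * σ y w * σ z y = 1) := fun w hw => by
    simp only [mem_union, mem_filter, hw, true_and]
    rcases hσ x w with a | a <;> rcases hσ y w with b | b <;> rcases hσ z w with c | c <;>
      rcases hσ x y with p | p <;> rcases hσ z x with q | q <;> rcases hσ z y with r | r <;>
      revert h <;> simp only [a, b, c, p, q, r] <;> norm_num
  have := (card_le_card this).trans ((card_union_le _ _).trans
    (Nat.add_le_add_right (card_union_le _ _) _))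
  unfold Good
  omega

def Rem {V : Type} [Fintype V] [DecidableEq V] (F : ℕ → Bool → V) (i : ℕ) : Finset V :=
  ((range i ×ˢ univ).image fun p : ℕ × Bool => F p.1 p.2)ᶜ

theorem mem_Rem {V : Type} [Fintype V] [DecidableEq V] {F : ℕ → Bool → V} {i : ℕ} {w : V} :
    w ∈ Rem F i ↔ ∀ m, m < i → ∀ b, F m b ≠ w := by
  simp only [Rem, mem_compl, mem_image, mem_product, mem_range, mem_univ, and_true, not_exists,
    not_and, Prod.forall]
  exact ⟨fun h m hm b => h m b hm, fun h m b hm => h m hm b⟩

theorem card_Rem {V : Type} [Fintype V] [DecidableEq V] (F : ℕ → Bool → V) (i : ℕ) :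
    Fintype.card V ≤ (Rem F i).card + 2 * i := by
  have := card_image_le (s := range i ×ˢ univ) (f := fun p : ℕ × Bool => F p.1 p.2)
  rw [Rem, card_compl]
  simp only [card_product, card_range, card_univ, Fintype.card_bool] at this
  omega

theorem select {V : Type} [Fintype V] [DecidableEq V] (G : SimpleGraph V) (σ : V → V → ℝ)
    (h1 : ∀ u v, (u = v ∨ G.Adj u v) → σ u v = 1) (h2 : ∀ u v, ¬(u = v ∨ G.Adj u v) → σ u v = -1)
    {j : ℕ} (hj : 6 * j ≤ Fintype.card V) : ∃ f : Fin j × Bool → V, Function.Injective f ∧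
      ((∀ i : Fin j, ∃ R : Finset V, Fintype.card V ≤ R.card + 2 * i ∧
        (∀ p : Fin j × Bool, f p ∈ R → i ≤ p.1) ∧ Good σ R (f (i, false)) (f (i, true))) ∨
        ∀ p q, ¬G.Adj (f p) (f q)) := by
  classical
  by_cases H : ∃ I : Finset V, 2 * j ≤ I.card ∧ ∀ x ∈ I, ∀ y ∈ I, ¬G.Adj x y
  · obtain ⟨I, hI, hI'⟩ := H
    obtain ⟨g⟩ := Function.Embedding.nonempty_of_card_le (α := Fin j × Bool) (β := I)
      (by simp; omega)
    exact ⟨fun p => g p, Subtype.val_injective.comp g.injective,
      Or.inr fun p q => hI' _ (g p).2 _ (g q).2⟩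
  have hσ : ∀ u v, σ u v = 1 ∨ σ u v = -1 := fun u v => (em _).imp (h1 u v) (h2 u v)
  have ex : ∀ R : Finset V, 4 * j + 1 ≤ R.card → ∃ x ∈ R, ∃ y ∈ R, x ≠ y ∧ Good σ R x y := by
    intro R hR
    by_contra hh
    push Not at hh
    obtain ⟨z, hz⟩ := card_pos.1 (show 0 < R.card by omega)
    have T : ∀ x ∈ R.erase z, ∀ y ∈ R.erase z, G.Adj x y → σ z x * σ z y ≠ 1 := by
      intro x hx y hy a e
      rw [mem_erase] at hx hy
      rcases tri σ hσ R x y z (by rw [h1 x y (Or.inr a), one_mul, e]) with t | t | t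
      · exact hh x hx.2 y hy.2 a.ne t
      · exact hh z hz x hx.2 hx.1.symm t
      · exact hh z hz y hy.2 hy.1.symm t
    have c1 := card_filter_add_card_filter_not (s := R.erase z) fun x => σ z x = 1
    rw [card_erase_of_mem hz] at c1
    refine H ?_
    by_cases c2 : 2 * j ≤ ((R.erase z).filter fun x => σ z x = 1).card
    · refine ⟨_, c2, fun x hx y hy a => ?_⟩
      rw [mem_filter] at hx hy
      exact T x hx.1 y hy.1 a (by rw [hx.2, hy.2, one_mul])
    · refine ⟨(R.erase z).filter fun x => ¬σ z x = 1, by omega, fun x hx y hy a => ?_⟩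
      rw [mem_filter] at hx hy
      exact T x hx.1 y hy.1 a (by
        rw [(hσ z x).resolve_left hx.2, (hσ z y).resolve_left hy.2]; norm_num)
  have j0 : 0 < j := by
    by_contra hh
    exact H ⟨∅, by omega, by simp⟩
  obtain ⟨v0⟩ : Nonempty V := Fintype.card_pos_iff.1 (by omega)
  have ind : ∀ l, l ≤ j → ∃ F : ℕ → Bool → V, ∀ i, i < l → F i false ≠ F i true ∧
      (∀ b, F i b ∈ Rem F i) ∧ Good σ (Rem F i) (F i false) (F i true) := by
    intro l
    induction l with
    | zero => exact fun _ => ⟨fun _ _ => v0, fun i hi => absurd hi (Nat.not_lt_zero _)⟩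
    | succ l ih =>
      intro hl
      obtain ⟨F, f1⟩ := ih (by omega)
      obtain ⟨x, hx, y, hy, hxy, g⟩ := ex (Rem F l) (by have := card_Rem F l; omega)
      have e : ∀ i, i ≤ l → Rem (fun m => if m = l then fun b => if b then y else x else F m) i =
          Rem F i := fun i hi => by
        ext w
        simp only [mem_Rem]
        exact forall₂_congr fun m hm => by simp only [if_neg (show m ≠ l by omega)]
      refine ⟨fun m => if m = l then fun b => if b then y else x else F m, fun i hi => ?_⟩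
      rw [e i (by omega)]
      by_cases c : i = l
      · subst c
        simp [hxy, hx, hy, g]
      · simpa only [if_neg c] using f1 i (by omega)
  obtain ⟨F, f1⟩ := ind j le_rfl
  refine ⟨fun p => F p.1 p.2, ?_, Or.inl fun i => ⟨Rem F i, card_Rem F i, fun p hp => ?_,
    (f1 i i.2).2.2⟩⟩
  · rintro ⟨i, b⟩ ⟨m, c⟩ h
    dsimp only at h
    rcases lt_trichotomy i m with k | rfl | k
    · exact absurd h (mem_Rem.1 ((f1 m m.2).2.1 c) i k b)
    · have := (f1 i i.2).1
      cases b <;> cases c <;> simp_all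
    · exact absurd h.symm (mem_Rem.1 ((f1 i i.2).2.1 b) m k c)
  · by_contra hh
    exact mem_Rem.1 hp p.1 (not_le.1 hh) p.2 rfl

theorem main {V : Type} [Fintype V] (G : SimpleGraph V) {j d : ℕ} (hj : 6 * j ≤ Fintype.card V)
    (hd : d + j = Fintype.card V + 1) : ∃ (c : V → EuclideanSpace ℝ (Fin d)) (τ : ℝ), 0 ≤ τ ∧ τ < 1 ∧
      Function.Injective c ∧ (∀ u, inner ℝ (c u) (c u) = 1) ∧ ∀ u v, u ≠ v →
      (G.Adj u v → τ < inner ℝ (c u) (c v)) ∧ (¬G.Adj u v → inner ℝ (c u) (c v) < τ) := by
  classical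
  obtain ⟨σ, hσ⟩ : ∃ σ : V → V → ℝ, σ = fun u v => if u = v ∨ G.Adj u v then 1 else -1 := ⟨_, rfl⟩
  have h1 : ∀ u v, (u = v ∨ G.Adj u v) → σ u v = 1 := fun u v h => by rw [hσ]; exact if_pos h
  have h2 : ∀ u v, ¬(u = v ∨ G.Adj u v) → σ u v = -1 := fun u v h => by rw [hσ]; exact if_neg h
  obtain ⟨f, fi, hf⟩ := select G σ h1 h2 hj
  obtain ⟨e, e1, e2⟩ : ∃ e : ((Set.range f)ᶜ : Set V) ⊕ Fin j × Bool ≃ V,
      (∀ w, e (inl w) = w) ∧ ∀ p, e (inr p) = f p :=
    ⟨(Equiv.sumComm _ _).trans ((Equiv.sumCongr (Equiv.ofInjective f fi) (Equiv.refl _)).trans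
      (Equiv.Set.sumCompl (Set.range f))), fun _ => rfl, fun _ => rfl⟩
  have ce := Fintype.card_congr e
  have U : UR (G.comap e).Adj (((Set.range f)ᶜ : Set V) ⊕ Fin j) := by
    rcases hf with hf | hf
    · refine paired _ (fun u v => σ (e u) (e v)) (fun u v h => h1 _ _ (h.imp_left (congrArg e)))
        (fun u v h => h2 _ _ fun k => h (k.imp_left fun k => e.injective k)) fun i => ?_
      simp only [e1, e2]
      obtain ⟨R, r1, r2, g⟩ := hf i
      unfold Good at g
      have : (R.filter fun w => σ (f (i, false)) w * σ (f (i, true)) w *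
          σ (f (i, false)) (f (i, true)) = 1) ⊆ (univ.filter fun w : ((Set.range f)ᶜ : Set V) =>
          σ (f (i, false)) w * σ (f (i, true)) w * σ (f (i, false)) (f (i, true)) = 1).image
          Subtype.val ∪ (Ici i ×ˢ univ).image f := fun w hw => by
        rw [mem_filter] at hw
        by_cases c : w ∈ Set.range f
        · obtain ⟨p, rfl⟩ := c
          exact mem_union_right _ (mem_image_of_mem _ (by simpa using r2 p hw.1))
        · exact mem_union_left _ (mem_image.2 ⟨⟨w, c⟩, by simpa using hw.2, rfl⟩)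
      have := (card_le_card this).trans ((card_union_le _ _).trans
        (add_le_add card_image_le card_image_le))
      simp only [card_product, card_univ, Fin.card_Ici, Fintype.card_bool] at this
      have := i.2
      omega
    · exact indep _ fun p q => by simpa [e2] using hf p q
  obtain ⟨c, τ, t0, t1, ci, c1, c2⟩ := unit U (d := d) (by
    simp only [Fintype.card_sum, Fintype.card_prod, Fintype.card_fin, Fintype.card_bool] at ce ⊢
    omega)
  refine ⟨fun v => c (e.symm v), τ, t0, t1, ci.comp e.symm.injective, fun u => c1 _, fun u v h => ?_⟩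
  simpa using c2 (e.symm u) (e.symm v) (e.symm.injective.ne h)

end Pool.Agent.H7.Sph
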