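import Mathlib

set_option autoImplicit false

namespace Pool.Agent.H7.StrictAdd

/-- The group. -/
abbrev G : Type := ZMod 4 × ZMod 2 × ZMod 2

/-- The lines of the affine plane of order four, labelled by `G`. -/
def quad : Fin 20 → G × G × G × G :=
  ![((0, 0, 0), (0, 1, 0), (2, 0, 0), (2, 1, 0)),
   ((0, 0, 1), (0, 1, 1), (2, 0, 1), (2, 1, 1)),
   ((1, 0, 0), (1, 1, 0), (3, 0, 0), (3, 1, 0)),
   ((3, 0, 1), (3, 1, 1), (1, 0, 1), (1, 1, 1)),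
   ((0, 0, 0), (0, 1, 1), (3, 0, 0), (1, 1, 1)),
   ((0, 0, 1), (0, 1, 0), (1, 0, 1), (3, 1, 0)),
   ((1, 0, 0), (3, 1, 1), (2, 0, 0), (2, 1, 1)),
   ((3, 0, 1), (1, 1, 0), (2, 0, 1), (2, 1, 0)),
   ((0, 0, 0), (1, 1, 0), (1, 0, 1), (2, 1, 1)),
   ((0, 0, 1), (3, 1, 1), (3, 0, 0), (2, 1, 0)),
   ((1, 0, 0), (0, 1, 0), (2, 0, 1), (1, 1, 1)),
   ((3, 0, 1), (0, 1, 1), (2, 0, 0), (3, 1, 0)),
   ((0, 0, 0), (3, 1, 1), (2, 0, 1), (3, 1, 0)),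
   ((0, 0, 1), (1, 1, 0), (2, 0, 0), (1, 1, 1)),
   ((1, 0, 0), (0, 1, 1), (1, 0, 1), (2, 1, 0)),
   ((3, 0, 1), (0, 1, 0), (3, 0, 0), (2, 1, 1)),
   ((0, 0, 0), (0, 0, 1), (1, 0, 0), (3, 0, 1)),
   ((0, 1, 0), (0, 1, 1), (1, 1, 0), (3, 1, 1)),
   ((2, 0, 0), (2, 0, 1), (3, 0, 0), (1, 0, 1)),
   ((2, 1, 0), (2, 1, 1), (3, 1, 0), (1, 1, 1))]

/-- Membership in a quadruple. -/
def inq (q : G × G × G × G) (z : G) : Prop := z = q.1 ∨ z = q.2.1 ∨ z = q.2.2.1 ∨ z = q.2.2.2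

instance (q : G × G × G × G) (z : G) : Decidable (inq q z) := by unfold inq; infer_instance

/-- Distinctness of a quadruple. -/
def dist4 (q : G × G × G × G) : Prop := q.1 ≠ q.2.1 ∧ q.1 ≠ q.2.2.1 ∧ q.1 ≠ q.2.2.2 ∧
  q.2.1 ≠ q.2.2.1 ∧ q.2.1 ≠ q.2.2.2 ∧ q.2.2.1 ≠ q.2.2.2

instance (q : G × G × G × G) : Decidable (dist4 q) := by unfold dist4; infer_instance

/-- The underlying set. -/
def qs (q : G × G × G × G) : Finset G := {q.1, q.2.1, q.2.2.1, q.2.2.2}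

theorem mem_qs (q : G × G × G × G) (z : G) : z ∈ qs q ↔ inq q z := by simp [qs, inq]

theorem card_qs (q : G × G × G × G) (h : dist4 q) : (qs q).card = 4 := by
  obtain ⟨h1, h2, h3, h4, h5, h6⟩ := h
  rw [qs, Finset.card_insert_of_notMem (by simp [h1, h2, h3]),
    Finset.card_insert_of_notMem (by simp [h4, h5]), Finset.card_pair h6]

theorem sum_qs (q : G × G × G × G) (h : dist4 q) :
    ∑ x ∈ qs q, x = q.1 + (q.2.1 + (q.2.2.1 + q.2.2.2)) := by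
  obtain ⟨h1, h2, h3, h4, h5, h6⟩ := h
  rw [qs, Finset.sum_insert (by simp [h1, h2, h3]), Finset.sum_insert (by simp [h4, h5]),
    Finset.sum_pair h6]

/-- The block set. -/
def blocks : Finset (Finset G) := Finset.univ.image (fun i => qs (quad i))

theorem quad_dist : ∀ i, dist4 (quad i) := by decide +kernel

theorem quad_sum : ∀ i, (quad i).1 + ((quad i).2.1 + ((quad i).2.2.1 + (quad i).2.2.2)) = 0 := by
  decide +kernel

theorem quad_ex : ∀ x y : G, x ≠ y → ∃ i, inq (quad i) x ∧ inq (quad i) y := by decide +kernel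

theorem quad_un : ∀ i j : Fin 20, i = j ∨ ∀ x : G, inq (quad i) x → inq (quad j) x →
    ∀ y : G, inq (quad i) y → inq (quad j) y → x = y := by decide +kernel

theorem blocks_card : ∀ b ∈ blocks, b.card = 4 := by
  intro b hb
  obtain ⟨i, _, rfl⟩ := Finset.mem_image.1 hb
  exact card_qs _ (quad_dist i)

theorem blocks_sum : ∀ b ∈ blocks, ∑ x ∈ b, x = 0 := by
  intro b hb
  obtain ⟨i, _, rfl⟩ := Finset.mem_image.1 hb
  rw [sum_qs _ (quad_dist i), quad_sum]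

theorem blocks_pair (x y : G) (h : x ≠ y) : ∃! b, b ∈ blocks ∧ x ∈ b ∧ y ∈ b := by
  obtain ⟨i, hx, hy⟩ := quad_ex x y h
  refine ⟨qs (quad i), ⟨Finset.mem_image.2 ⟨i, Finset.mem_univ _, rfl⟩, (mem_qs _ _).2 hx,
    (mem_qs _ _).2 hy⟩, ?_⟩
  rintro c ⟨hc, hx', hy'⟩
  obtain ⟨j, _, rfl⟩ := Finset.mem_image.1 hc
  rcases quad_un i j with e | e
  · rw [e]
  · exact absurd (e x hx ((mem_qs _ _).1 hx') y hy ((mem_qs _ _).1 hy')) h

/-- Auxiliary finite statement. -/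
def aux (x h : G) : Prop := ∀ y : G, y ≠ 0 → y ≠ h → inq (0, h, y, y + h) (y + y) →
  ∃ z : G, z ≠ 0 ∧ inq (0, (0, 1, 0), x, x + (0, 1, 0)) z ∧ inq (0, h, y, y + h) z

instance (x h : G) : Decidable (aux x h) := by unfold aux; infer_instance

theorem fin_check : ∀ x : G, x ≠ 0 → x ≠ (0, 1, 0) →
    inq (0, (0, 1, 0), x, x + (0, 1, 0)) (x + x) →
    ∃ h : G, h ≠ 0 ∧ h + h = 0 ∧ ¬ inq (0, (0, 1, 0), x, x + (0, 1, 0)) h ∧ aux x h := by
  decide +kernel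

theorem card_check : ∀ g x : G, g ≠ 0 → g + g = 0 → x ≠ 0 → x ≠ g →
    dist4 (0, g, x, x + g) := by decide +kernel

theorem no_regular (B : Set (Finset G)) (h1 : ∀ b ∈ B, b.card = 4)
    (h2 : ∀ x y : G, x ≠ y → ∃! b, b ∈ B ∧ x ∈ b ∧ y ∈ b)
    (h3 : ∀ b ∈ B, ∀ g : G, b.image (fun x => x + g) ∈ B) : False := by
  have uniq : ∀ b ∈ B, ∀ c ∈ B, ∀ x y : G, x ≠ y → x ∈ b → y ∈ b → x ∈ c → y ∈ c → b = c := by
    intro b hb c hc x y hxy a1 a2 a3 a4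
    exact (h2 x y hxy).unique ⟨hb, a1, a2⟩ ⟨hc, a3, a4⟩
  have key : ∀ g : G, g ≠ 0 → g + g = 0 → ∃ x : G, x ≠ 0 ∧ x ≠ g ∧
      x + x ∈ qs (0, g, x, x + g) ∧ qs (0, g, x, x + g) ∈ B := by
    intro g hg hgg
    obtain ⟨b, ⟨hb, h0, hgb⟩, _⟩ := h2 0 g hg.symm
    have e1 : b.image (fun x => x + g) = b :=
      uniq _ (h3 b hb g) b hb 0 g hg.symm (Finset.mem_image.2 ⟨g, hgb, hgg⟩)
        (Finset.mem_image.2 ⟨0, h0, zero_add g⟩) h0 hgb
    have addg : ∀ x ∈ b, x + g ∈ b := fun x hx => e1 ▸ Finset.mem_image.2 ⟨x, hx, rfl⟩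
    have e2 : ∀ x ∈ b, b.image (fun y => y + -x) = b := fun x hx =>
      uniq _ (h3 b hb (-x)) b hb 0 g hg.symm (Finset.mem_image.2 ⟨x, hx, by simp⟩)
        (Finset.mem_image.2 ⟨x + g, addg x hx, by abel⟩) h0 hgb
    have hlt : ({0, g} : Finset G).card < b.card := by
      rw [h1 b hb]
      exact lt_of_le_of_lt Finset.card_le_two (by norm_num)
    obtain ⟨x, hx, hx'⟩ := Finset.exists_mem_notMem_of_card_lt_card hlt
    simp only [Finset.mem_insert, Finset.mem_singleton, not_or] at hx'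
    have hxx : x + x ∈ b := by
      have : x ∈ b.image (fun y => y + -x) := by rw [e2 x hx]; exact hx
      obtain ⟨y, hy, e⟩ := Finset.mem_image.1 this
      rwa [show x + x = y by rw [← sub_eq_add_neg, sub_eq_iff_eq_add] at e; exact e.symm]
    have e3 : qs (0, g, x, x + g) = b := by
      apply Finset.eq_of_subset_of_card_le
      · intro z hz
        rcases (mem_qs _ _).1 hz with rfl | rfl | rfl | rfl
        · exact h0
        · exact hgb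
        · exact hx
        · exact addg x hx
      · rw [h1 b hb, card_qs _ (card_check g x hg hgg hx'.1 hx'.2)]
    exact ⟨x, hx'.1, hx'.2, e3 ▸ hxx, e3 ▸ hb⟩
  obtain ⟨x, a1, a2, a3, a4⟩ := key (0, 1, 0) (by decide) (by decide)
  obtain ⟨h, b1, b2, b3, b4⟩ := fin_check x a1 a2 ((mem_qs _ _).1 a3)
  obtain ⟨y, c1, c2, c3, c4⟩ := key h b1 b2
  obtain ⟨z, d1, d2, d3⟩ := b4 y c1 c2 ((mem_qs _ _).1 c3)
  have := uniq _ a4 _ c4 0 z d1.symm ((mem_qs _ _).2 (Or.inl rfl)) ((mem_qs _ _).2 d2)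
    ((mem_qs _ _).2 (Or.inl rfl)) ((mem_qs _ _).2 d3)
  exact b3 ((mem_qs _ _).1 (this ▸ (mem_qs _ _).2 (Or.inr (Or.inl rfl))))

theorem not_regular : ¬ ∃ f : G ≃ G, ∀ b ∈ blocks, ∀ g : G, ∃ c ∈ blocks,
    c.image f = (b.image f).image (fun x => x + g) := by
  rintro ⟨f, hf⟩
  refine no_regular {b | ∃ c ∈ blocks, c.image f = b} ?_ ?_ ?_
  · rintro b ⟨c, hc, rfl⟩
    rw [Finset.card_image_of_injective _ f.injective, blocks_card c hc]
  · intro x y hxy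
    obtain ⟨c, ⟨hc, hx, hy⟩, hu⟩ := blocks_pair (f.symm x) (f.symm y) (f.symm.injective.ne hxy)
    refine ⟨c.image f, ⟨⟨c, hc, rfl⟩, Finset.mem_image.2 ⟨_, hx, by simp⟩,
      Finset.mem_image.2 ⟨_, hy, by simp⟩⟩, ?_⟩
    rintro b ⟨⟨c', hc', rfl⟩, hx', hy'⟩
    obtain ⟨u, hu1, rfl⟩ := Finset.mem_image.1 hx'
    obtain ⟨v, hv1, rfl⟩ := Finset.mem_image.1 hy'
    rw [hu c' ⟨hc', by simpa using hu1, by simpa using hv1⟩]
  · rintro b ⟨c, hc, rfl⟩ g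
    exact hf c hc g

end Pool.Agent.H7.StrictAdd
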