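import Mathlib

set_option autoImplicit false

namespace Pool.Agent.H7.Tri

open Set Submodule

/-- first plane coordinate -/
noncomputable def p (n : ℕ) : ℝ := if n % 3 = 0 then 0 else 1
/-- second plane coordinate -/
noncomputable def q (k n : ℕ) : ℝ :=
  if n % 3 = 0 then 0 else if n % 3 = 1 then ((n / 3 : ℕ) : ℝ) else (((n / 3 + 1) % k : ℕ) : ℝ)

/-- the vectors -/
noncomputable def u (k n : ℕ) : ℕ → ℝ := fun m =>
  if m = 0 then p n else if m = 1 then q k n else if m = n / 3 + 2 then 1 else 0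

theorem u0 (k n : ℕ) : u k n 0 = p n := by simp [u]
theorem u1 (k n : ℕ) : u k n 1 = q k n := by simp [u]
theorem u2 (k n j : ℕ) : u k n (j + 2) = if j = n / 3 then 1 else 0 := by simp [u]

def LI (k : ℕ) (I : Set ℕ) : Prop := LinearIndepOn ℝ (u k) I

theorem LI.mono {k : ℕ} {I J : Set ℕ} (h : LI k J) (hI : I ⊆ J) : LI k I := LinearIndepOn.mono h hI

theorem ins_fun {k : ℕ} {I : Set ℕ} {e : ℕ} (a b c d : ℝ) (i j : ℕ) (hI : LI k I)
    (h0 : ∀ x ∈ I, a * u k x 0 + b * u k x 1 + c * u k x (i + 2) + d * u k x (j + 2) = 0)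
    (h1 : a * u k e 0 + b * u k e 1 + c * u k e (i + 2) + d * u k e (j + 2) ≠ 0) :
    LI k (insert e I) := by
  have he : e ∉ I := fun h => h1 (h0 e h)
  refine (linearIndepOn_insert he).2 ⟨hI, fun hm => h1 ?_⟩
  let φ : (ℕ → ℝ) →ₗ[ℝ] ℝ := a • LinearMap.proj 0 + b • LinearMap.proj 1 +
    c • LinearMap.proj (i + 2) + d • LinearMap.proj (j + 2)
  have hφ : ∀ w : ℕ → ℝ, φ w = a * w 0 + b * w 1 + c * w (i + 2) + d * w (j + 2) := by
    intro w; simp [φ]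
  have : span ℝ (u k '' I) ≤ LinearMap.ker φ := by
    rw [span_le]
    rintro _ ⟨x, hx, rfl⟩
    simp only [SetLike.mem_coe, LinearMap.mem_ker, hφ]
    exact h0 x hx
  have := this hm
  rwa [LinearMap.mem_ker, hφ] at this

theorem ins_free {k : ℕ} {I : Set ℕ} {e : ℕ} (hI : LI k I) (h : ∀ x ∈ I, x / 3 ≠ e / 3) :
    LI k (insert e I) := by
  refine ins_fun 0 0 1 0 (e / 3) 0 hI (fun x hx => ?_) ?_
  · simp [u2, (h x hx).symm]
  · simp [u2]

theorem LI_empty (k : ℕ) : LI k ∅ := linearIndepOn_empty ℝ _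

theorem diff_eq {k : ℕ} {x c : ℕ} (h : x / 3 = c / 3) (m : ℕ) (h0 : m ≠ 0) (h1 : m ≠ 1) :
    u k x m = u k c m := by
  simp [u, h0, h1, h]

theorem dep3 {k : ℕ} {J : Set ℕ} {x1 x2 x3 c1 c2 c3 : ℕ} (a1 a2 a3 : ℝ)
    (t1 : x1 / 3 = c1 / 3) (t2 : x2 / 3 = c2 / 3) (t3 : x3 / 3 = c3 / 3)
    (hp : a1 * (p x1 - p c1) + a2 * (p x2 - p c2) + a3 * (p x3 - p c3) = 0)
    (hq : a1 * (q k x1 - q k c1) + a2 * (q k x2 - q k c2) + a3 * (q k x3 - q k c3) = 0)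
    (ha : a1 ≠ 0) (m1 : x1 ∈ J) (m2 : x2 ∈ J) (m3 : x3 ∈ J) (n1 : c1 ∈ J) (n2 : c2 ∈ J)
    (n3 : c3 ∈ J) (d2 : x2 ≠ x1) (d3 : x3 ≠ x1) (e1 : c1 ≠ x1) (e2 : c2 ≠ x1) (e3 : c3 ≠ x1) :
    ¬ LI k J := by
  intro h
  apply LinearIndepOn.notMem_span h m1
  have key : u k x1 = u k c1 - (a2 / a1) • (u k x2 - u k c2) - (a3 / a1) • (u k x3 - u k c3) := by
    funext m
    simp only [Pi.sub_apply, Pi.smul_apply, smul_eq_mul]
    by_cases h0 : m = 0
    · subst h0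
      simp only [u0]
      field_simp
      linarith
    by_cases h1 : m = 1
    · subst h1
      simp only [u1]
      field_simp
      linarith
    rw [diff_eq t1 m h0 h1, diff_eq t2 m h0 h1, diff_eq t3 m h0 h1]
    ring
  have mem : ∀ y, y ∈ J → y ≠ x1 → u k y ∈ span ℝ (u k '' (J \ {x1})) :=
    fun y hy hn => subset_span ⟨y, ⟨hy, hn⟩, rfl⟩
  rw [key]
  exact sub_mem (sub_mem (mem _ n1 e1) (smul_mem _ _ (sub_mem (mem _ m2 d2) (mem _ n2 e2))))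
    (smul_mem _ _ (sub_mem (mem _ m3 d3) (mem _ n3 e3)))

theorem plane (p1 q1 p2 q2 p3 q3 : ℝ) : ∃ a1 a2 a3 : ℝ, (a1 ≠ 0 ∨ a2 ≠ 0 ∨ a3 ≠ 0) ∧
    a1 * p1 + a2 * p2 + a3 * p3 = 0 ∧ a1 * q1 + a2 * q2 + a3 * q3 = 0 := by
  by_cases h : p1 * q2 - p2 * q1 = 0
  · by_cases h1 : p1 = 0
    · by_cases h2 : q1 = 0
      · exact ⟨1, 0, 0, by simp, by simp [h1], by simp [h2]⟩
      · refine ⟨q2, -q1, 0, Or.inr (Or.inl (by simpa using h2)), by linarith, by ring⟩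
    · refine ⟨p2, -p1, 0, Or.inr (Or.inl (by simpa using h1)), by ring, by linarith⟩
  · exact ⟨p2 * q3 - p3 * q2, p3 * q1 - p1 * q3, p1 * q2 - p2 * q1, Or.inr (Or.inr h), by ring,
      by ring⟩

theorem three_dep {k : ℕ} {J : Set ℕ} {x1 x2 x3 c1 c2 c3 : ℕ}
    (t1 : x1 / 3 = c1 / 3) (t2 : x2 / 3 = c2 / 3) (t3 : x3 / 3 = c3 / 3)
    (m1 : x1 ∈ J) (m2 : x2 ∈ J) (m3 : x3 ∈ J) (n1 : c1 ∈ J) (n2 : c2 ∈ J) (n3 : c3 ∈ J)
    (d12 : x1 ≠ x2) (d13 : x1 ≠ x3) (d23 : x2 ≠ x3)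
    (e1 : c1 ≠ x1 ∧ c1 ≠ x2 ∧ c1 ≠ x3) (e2 : c2 ≠ x1 ∧ c2 ≠ x2 ∧ c2 ≠ x3)
    (e3 : c3 ≠ x1 ∧ c3 ≠ x2 ∧ c3 ≠ x3) : ¬ LI k J := by
  obtain ⟨a1, a2, a3, h, hp, hq⟩ := plane (p x1 - p c1) (q k x1 - q k c1) (p x2 - p c2)
    (q k x2 - q k c2) (p x3 - p c3) (q k x3 - q k c3)
  rcases h with h | h | h
  · exact dep3 a1 a2 a3 t1 t2 t3 hp hq h m1 m2 m3 n1 n2 n3 d12.symm d13.symm e1.1 e2.1 e3.1
  · exact dep3 a2 a1 a3 t2 t1 t3 (by linarith) (by linarith) h m2 m1 m3 n2 n1 n3 d12 d23.symm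
      e2.2.1 e1.2.1 e3.2.1
  · exact dep3 a3 a1 a2 t3 t1 t2 (by linarith) (by linarith) h m3 m1 m2 n3 n1 n2 d13 d23
      e3.2.2 e1.2.2 e2.2.2

theorem pq0 (k j : ℕ) : p (3 * j) = 0 ∧ q k (3 * j) = 0 := by simp [p, q]
theorem pq1 (k j : ℕ) : p (3 * j + 1) = 1 ∧ q k (3 * j + 1) = j := by
  have h1 : (3 * j + 1) % 3 = 1 := by omega
  have h2 : (3 * j + 1) / 3 = j := by omega
  simp [p, q, h1, h2]
theorem pq2 (k j : ℕ) : p (3 * j + 2) = 1 ∧ q k (3 * j + 2) = (((j + 1) % k : ℕ) : ℝ) := by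
  have h1 : (3 * j + 2) % 3 = 2 := by omega
  have h2 : (3 * j + 2) / 3 = j := by omega
  simp only [p, q, h1, h2]
  simp

theorem succ_ne {k j : ℕ} (hk : 2 ≤ k) (hj : j < k) : (j + 1) % k ≠ j := by
  by_cases h : j + 1 < k
  · rw [Nat.mod_eq_of_lt h]; omega
  · have : j + 1 = k := by omega
    rw [this, Nat.mod_self]; omega

theorem succ_inj {k j j' : ℕ} (hj : j < k) (hj' : j' < k) (h : (j + 1) % k = (j' + 1) % k) :
    j = j' := by
  by_cases h1 : j + 1 < k <;> by_cases h2 : j' + 1 < k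
  · rw [Nat.mod_eq_of_lt h1, Nat.mod_eq_of_lt h2] at h; omega
  · have : j' + 1 = k := by omega
    rw [Nat.mod_eq_of_lt h1, this, Nat.mod_self] at h; omega
  · have : j + 1 = k := by omega
    rw [Nat.mod_eq_of_lt h2, this, Nat.mod_self] at h; omega
  · omega

theorem triple {k j : ℕ} (hk : 2 ≤ k) (hj : j < k) : LI k {3 * j + 2, 3 * j + 1, 3 * j} := by
  have hne : (((j + 1) % k : ℕ) : ℝ) ≠ j := by exact_mod_cast succ_ne hk hj
  have h0 : LI k {3 * j} := by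
    have := ins_free (e := 3 * j) (LI_empty k) (by simp)
    simpa using this
  have h1 : LI k {3 * j + 1, 3 * j} := by
    refine ins_fun 1 0 0 0 0 0 h0 ?_ ?_
    · intro x hx; rw [mem_singleton_iff] at hx; subst hx; simp [u0, pq0 k]
    · simp [u0, pq1 k]
  refine ins_fun (-(j : ℝ)) 1 0 0 0 0 h1 ?_ ?_
  · intro x hx
    rcases hx with rfl | hx
    · simp [u0, u1, pq1 k]
    · rw [mem_singleton_iff] at hx; subst hx; simp [u0, u1, pq0 k]
  · simp only [u0, u1, pq2 k]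
    intro h; apply hne; linarith

theorem same_sub {k j : ℕ} (hk : 2 ≤ k) (hj : j < k) {I : Set ℕ} (h : ∀ x ∈ I, x / 3 = j) :
    LI k I := by
  refine (triple hk hj).mono fun x hx => ?_
  have := h x hx
  simp only [mem_insert_iff, mem_singleton_iff]
  omega

theorem four_dep {k : ℕ} (hk : 2 ≤ k) {x y : ℕ} (hx : x < 3 * k) (hxy : x ≠ y)
    (ht : x / 3 = y / 3) : ∃ z w, z < 3 * k ∧ w < 3 * k ∧ z ≠ w ∧ z / 3 = w / 3 ∧ z / 3 ≠ x / 3 ∧
      ¬ LI k {x, y, z, w} := by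
  wlog hlt : y < x generalizing x y
  · obtain ⟨z, w, h1, h2, h3, h4, h5, h6⟩ := this (x := y) (y := x) (by omega) hxy.symm ht.symm
      (by omega)
    refine ⟨z, w, h1, h2, h3, h4, by omega, ?_⟩
    rwa [insert_comm]
  obtain ⟨j, hj⟩ : ∃ j, j = x / 3 := ⟨_, rfl⟩
  have hjk : j < k := by omega
  have hs := succ_ne hk hjk
  have hs' : (j + 1) % k < k := Nat.mod_lt _ (by omega)
  have hc : (x = 3 * j + 1 ∧ y = 3 * j) ∨ (x = 3 * j + 2 ∧ y = 3 * j) ∨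
      (x = 3 * j + 2 ∧ y = 3 * j + 1) := by omega
  rcases hc with ⟨rfl, rfl⟩ | ⟨rfl, rfl⟩ | ⟨rfl, rfl⟩
  · obtain ⟨i, hi, hij, hi2⟩ : ∃ i, i < k ∧ i ≠ j ∧ (i + 1) % k = j := by
      by_cases h0 : j = 0
      · refine ⟨k - 1, by omega, by omega, ?_⟩
        rw [Nat.sub_add_cancel (by omega), Nat.mod_self, h0]
      · refine ⟨j - 1, by omega, by omega, ?_⟩
        rw [Nat.sub_add_cancel (by omega), Nat.mod_eq_of_lt hjk]
    refine ⟨3 * i + 2, 3 * i, by omega, by omega, by omega, by omega, by omega, ?_⟩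
    refine dep3 (x1 := 3 * j + 1) (c1 := 3 * j) (x2 := 3 * i + 2) (c2 := 3 * i) (x3 := 3 * j)
      (c3 := 3 * j) 1 (-1) 0 (by omega) (by omega) rfl ?_ ?_ one_ne_zero (by simp) (by simp)
      (by simp) (by simp) (by simp) (by simp) (by omega) (by omega) (by omega) (by omega)
      (by omega)
    · simp [pq0 k, pq1 k, pq2 k]
    · simp only [pq0 k, pq1 k, pq2 k, hi2]; ring
  · obtain ⟨i, hi⟩ : ∃ i, i = (j + 1) % k := ⟨_, rfl⟩
    refine ⟨3 * i + 1, 3 * i, by omega, by omega, by omega, by omega, by omega, ?_⟩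
    refine dep3 (x1 := 3 * j + 2) (c1 := 3 * j) (x2 := 3 * i + 1) (c2 := 3 * i) (x3 := 3 * j)
      (c3 := 3 * j) 1 (-1) 0 (by omega) (by omega) rfl ?_ ?_ one_ne_zero (by simp) (by simp)
      (by simp) (by simp) (by simp) (by simp) (by omega) (by omega) (by omega) (by omega)
      (by omega)
    · simp [pq0 k, pq1 k, pq2 k]
    · simp only [pq0 k, pq1 k, pq2 k, ← hi]; ring
  · obtain ⟨i, hi⟩ : ∃ i, i = (j + 1) % k := ⟨_, rfl⟩
    have hne : ((((i + 1) % k : ℕ) : ℝ) - i) ≠ 0 := by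
      rw [sub_ne_zero]; exact_mod_cast succ_ne hk (by omega)
    refine ⟨3 * i + 2, 3 * i + 1, by omega, by omega, by omega, by omega, by omega, ?_⟩
    refine dep3 (x1 := 3 * j + 2) (c1 := 3 * j + 1) (x2 := 3 * i + 2) (c2 := 3 * i + 1)
      (x3 := 3 * j + 1) (c3 := 3 * j + 1) ((((i + 1) % k : ℕ) : ℝ) - i) (-((i : ℝ) - j)) 0
      (by omega) (by omega) rfl ?_ ?_ hne (by simp) (by simp)
      (by simp) (by simp) (by simp) (by simp) (by omega) (by omega) (by omega) (by omega)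
      (by omega)
    · simp [pq1 k, pq2 k]
    · simp only [pq1 k, pq2 k, ← hi]; ring

theorem four_indep {k j z w : ℕ} (hk : 2 ≤ k) (hj : j < k) (hz : z < 3 * k) (hzw : z ≠ w)
    (ht : z / 3 = w / 3) (h1 : z / 3 ≠ j) (h2 : z / 3 ≠ (j + 1) % k) :
    LI k {3 * j, 3 * j + 2, z, w} := by
  wlog hlt : w < z generalizing z w
  · have := this (z := w) (w := z) (by omega) hzw.symm ht.symm (by omega) (by omega) (by omega)
    rwa [pair_comm w z] at this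
  obtain ⟨i, hi⟩ : ∃ i, i = z / 3 := ⟨_, rfl⟩
  have hik : i < k := by omega
  have h3 : LI k {3 * j + 2, z, w} := by
    refine ins_free (same_sub hk hik ?_) ?_
    · intro x hx; rcases hx with rfl | rfl <;> omega
    · intro x hx; rcases hx with rfl | rfl <;> omega
  have hij : i ≠ j := by omega
  have e0 : (3 * j) / 3 = j := by omega
  have e2 : (3 * j + 2) / 3 = j := by omega
  have f0 : (3 * i) / 3 = i := by omega
  have f1 : (3 * i + 1) / 3 = i := by omega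
  have f2 : (3 * i + 2) / 3 = i := by omega
  have hc : (z = 3 * i + 1 ∧ w = 3 * i) ∨ (z = 3 * i + 2 ∧ w = 3 * i) ∨
      (z = 3 * i + 2 ∧ w = 3 * i + 1) := by omega
  rcases hc with ⟨rfl, rfl⟩ | ⟨rfl, rfl⟩ | ⟨rfl, rfl⟩
  · refine ins_fun (-(i : ℝ)) 1 ((i : ℝ) - (((j + 1) % k : ℕ) : ℝ)) 0 j j h3 ?_ ?_
    · intro x hx
      rcases hx with rfl | rfl | rfl
      · simp only [u0, u1, u2, pq2 k, e2]; simp
      · simp only [u0, u1, u2, pq1 k, f1]; simp [hij.symm]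
      · simp only [u0, u1, u2, pq0 k, f0]; simp [hij.symm]
    · simp only [u0, u1, u2, pq0 k, e0]
      have : (i : ℝ) ≠ (((j + 1) % k : ℕ) : ℝ) := by
        rw [f1] at h2; exact_mod_cast h2
      intro h; apply this; simp only [if_true] at h; linarith
  · refine ins_fun (-(((i + 1) % k : ℕ) : ℝ)) 1
      ((((i + 1) % k : ℕ) : ℝ) - (((j + 1) % k : ℕ) : ℝ)) 0 j j h3 ?_ ?_
    · intro x hx
      rcases hx with rfl | rfl | rfl
      · simp only [u0, u1, u2, pq2 k, e2]; simp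
      · simp only [u0, u1, u2, pq2 k, f2]; simp [hij.symm]
      · simp only [u0, u1, u2, pq0 k, f0]; simp [hij.symm]
    · simp only [u0, u1, u2, pq0 k, e0]
      have : (((i + 1) % k : ℕ) : ℝ) ≠ (((j + 1) % k : ℕ) : ℝ) := by
        intro h; exact hij (succ_inj hik hj (by exact_mod_cast h))
      intro h; apply this; simp only [if_true] at h; linarith
  · refine ins_fun 1 0 (-1) (-1) j i h3 ?_ ?_
    · intro x hx
      rcases hx with rfl | rfl | rfl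
      · simp only [u0, u1, u2, pq2 k, e2]; simp [hij]
      · simp only [u0, u1, u2, pq2 k, f2]; simp [hij.symm]
      · simp only [u0, u1, u2, pq1 k, f1]; simp [hij.symm]
    · simp only [u0, u1, u2, pq0 k, e0]; simp [hij]

theorem union_free {k : ℕ} {J C : Set ℕ} (hC : C.Finite) (hJ : LI k J)
    (h1 : ∀ c ∈ C, ∀ c' ∈ C, c / 3 = c' / 3 → c = c') (h2 : ∀ c ∈ C, ∀ x ∈ J, x / 3 ≠ c / 3) :
    LI k (J ∪ C) := by
  induction C, hC using Set.Finite.induction_on with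
  | empty => simpa using hJ
  | @insert a s ha _ ih =>
    rw [union_insert]
    refine ins_free (ih (fun c hc c' hc' => h1 c (Or.inr hc) c' (Or.inr hc'))
      (fun c hc => h2 c (Or.inr hc))) ?_
    rintro x (hx | hx)
    · exact h2 a (Or.inl rfl) x hx
    · intro h
      exact ha (h1 x (Or.inr hx) a (Or.inl rfl) h ▸ hx)

end Pool.Agent.H7.Tri
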