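import Pool.Agent.H7.Tri1
import Pool.Agent.H28.VecMat

set_option autoImplicit false

namespace Pool.Agent.H7.Tri

open Set Submodule

theorem no_u36 {k : ℕ} {F C : Set ℕ} (hd : Disjoint F C) (hF : F.encard = 6)
    (h : ∀ I ⊆ F, LI k (I ∪ C) ↔ I.encard ≤ 3) : False := by
  have h1 : ∀ e ∈ F, ∃ c ∈ C, e / 3 = c / 3 := by
    intro e he
    by_contra hn
    push Not at hn
    let T : Set ℕ := {3 * (e / 3), 3 * (e / 3) + 1, 3 * (e / 3) + 2}
    have hT : T.encard ≤ 3 := by
      refine (encard_insert_le _ _).trans ?_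
      have := encard_insert_le ({3 * (e / 3) + 2} : Set ℕ) (3 * (e / 3) + 1)
      rw [encard_singleton] at this
      calc _ ≤ (1 + 1 : ℕ∞) + 1 := by gcongr
        _ = 3 := by norm_num
    have h3 : (3 : ℕ∞) ≤ (F \ T).encard := by
      by_contra hlt
      push Not at hlt
      have h5 : F.encard ≤ (F \ T).encard + T.encard :=
        (encard_le_encard (subset_sdiff_union F T)).trans (encard_union_le _ _)
      have h2 : (F \ T).encard ≤ 2 := Order.le_of_lt_add_one (by
        calc _ < (3 : ℕ∞) := hlt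
          _ = 2 + 1 := by norm_num)
      have : (6 : ℕ∞) ≤ 2 + 3 := hF ▸ h5.trans (add_le_add h2 hT)
      norm_num at this
    obtain ⟨I, hI, hI3⟩ := exists_subset_encard_eq h3
    have hIT : ∀ x ∈ I, x / 3 ≠ e / 3 := by
      intro x hx hxe
      apply (hI hx).2
      simp only [T, mem_insert_iff, mem_singleton_iff]
      omega
    have l1 : LI k (I ∪ C) := (h I (fun x hx => (hI hx).1)).2 hI3.le
    have l2 : LI k (insert e I ∪ C) := by
      rw [insert_union]
      refine ins_free l1 ?_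
      rintro x (hx | hx)
      · exact hIT x hx
      · exact fun h => hn x hx h.symm
    have l3 := (h (insert e I) (insert_subset he fun x hx => (hI hx).1)).1 l2
    rw [encard_insert_of_notMem (fun hx => hIT e hx rfl), hI3] at l3
    norm_num at l3
  obtain ⟨I, hI, hI3⟩ := exists_subset_encard_eq (s := F) (k := 3) (by rw [hF]; norm_num)
  have l1 : LI k (I ∪ C) := (h I hI).2 hI3.le
  obtain ⟨x, y, z, hxy, hxz, hyz, rfl⟩ := encard_eq_three.1 hI3
  have hx : x ∈ F := hI (by simp)
  have hy : y ∈ F := hI (by simp)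
  have hz : z ∈ F := hI (by simp)
  obtain ⟨c1, m1, t1⟩ := h1 x hx
  obtain ⟨c2, m2, t2⟩ := h1 y hy
  obtain ⟨c3, m3, t3⟩ := h1 z hz
  have ne : ∀ c ∈ C, c ≠ x ∧ c ≠ y ∧ c ≠ z := fun c hc =>
    ⟨fun h => disjoint_left.1 hd hx (h ▸ hc), fun h => disjoint_left.1 hd hy (h ▸ hc),
      fun h => disjoint_left.1 hd hz (h ▸ hc)⟩
  exact three_dep t1 t2 t3 (by simp) (by simp) (by simp) (Or.inr m1) (Or.inr m2) (Or.inr m3)
    hxy hxz hyz (ne _ m1) (ne _ m2) (ne _ m3) l1

theorem anti {i k : ℕ} (hi : 4 ≤ i) (hk : 2 ≤ k) {f : ℕ → ℕ} {C : Set ℕ} (hC : C.Finite)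
    (hf : InjOn f (Iio (3 * i))) (hm : ∀ x, x < 3 * i → f x < 3 * k ∧ f x ∉ C)
    (h : ∀ I ⊆ Iio (3 * i), LI i I ↔ LI k (f '' I ∪ C)) : i = k := by
  classical
  have inj : ∀ x y, x < 3 * i → y < 3 * i → x ≠ y → f x ≠ f y :=
    fun x y hx hy hxy e => hxy (hf hx hy e)
  have step1 : ∀ e, e < 3 * i → (∀ c ∈ C, c / 3 ≠ f e / 3) → ∀ e', e' / 3 = e / 3 →
      f e' / 3 = f e / 3 := by
    intro e he hfree e' he'
    by_contra hne
    let S := (Finset.range (3 * i)).filter (fun x => f x / 3 = f e / 3)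
    have hS : S.card ≤ 3 := by
      have : S.card ≤ ({3 * (f e / 3), 3 * (f e / 3) + 1, 3 * (f e / 3) + 2} : Finset ℕ).card := by
        refine Finset.card_le_card_of_injOn f ?_ ?_
        · intro x hx
          simp only [S, Finset.coe_filter, Finset.mem_range, mem_ofPred_eq] at hx
          simp only [Finset.coe_insert, Finset.coe_singleton, mem_insert_iff, mem_singleton_iff]
          omega
        · intro x hx y hy hxy
          simp only [S, Finset.coe_filter, Finset.mem_range, mem_ofPred_eq] at hx hy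
          exact hf hx.1 hy.1 hxy
      exact this.trans Finset.card_le_three
    obtain ⟨j, hj, hjS⟩ := Finset.exists_mem_notMem_of_card_lt_card
      (s := S.image (· / 3)) (t := Finset.range i)
      (by rw [Finset.card_range]; exact lt_of_le_of_lt (Finset.card_image_le.trans hS) (by omega))
    rw [Finset.mem_range] at hj
    have hjS' : ∀ x, x < 3 * i → x / 3 = j → f x / 3 ≠ f e / 3 := by
      intro x hx hxj hfx
      exact hjS (Finset.mem_image.2 ⟨x, by simp [S, hx, hfx], hxj⟩)
    have hje : e / 3 ≠ j := fun h => hjS' e he h rfl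
    have l1 : LI i (insert e' {3 * j + 2, 3 * j + 1, 3 * j}) := by
      refine ins_free (triple (by omega) hj) ?_
      intro x hx; rcases hx with rfl | rfl | rfl <;> omega
    have s1 : (insert e' {3 * j + 2, 3 * j + 1, 3 * j} : Set ℕ) ⊆ Iio (3 * i) := by
      intro x hx; rw [mem_Iio]; rcases hx with rfl | rfl | rfl | rfl <;> omega
    have l2 := (h _ s1).1 l1
    have l3 : LI k (f '' (insert e (insert e' {3 * j + 2, 3 * j + 1, 3 * j})) ∪ C) := by
      rw [image_insert_eq, insert_union]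
      refine ins_free l2 ?_
      rintro x (⟨y, hy, rfl⟩ | hx)
      · rcases hy with rfl | rfl | rfl | rfl
        · exact hne
        · exact hjS' _ (by omega) (by omega)
        · exact hjS' _ (by omega) (by omega)
        · exact hjS' _ (by omega) (by omega)
      · exact hfree x hx
    have l4 := (h _ (insert_subset he s1)).2 l3
    have hee : e' ≠ e := fun h => hne (by rw [h])
    exact three_dep (x1 := e) (c1 := e') (x2 := 3 * j + 1) (c2 := 3 * j) (x3 := 3 * j + 2)
      (c3 := 3 * j) he'.symm (by omega) (by omega) (by simp) (by simp) (by simp) (by simp)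
      (by simp) (by simp) (by omega) (by omega) (by omega) (by omega) (by omega) (by omega) l4
  have trip : ∀ a, a < i → LI k (f '' {3 * a + 2, 3 * a + 1, 3 * a} ∪ C) := by
    intro a ha
    refine (h _ ?_).1 (triple (by omega) ha)
    intro x hx; rw [mem_Iio]; rcases hx with rfl | rfl | rfl <;> omega
  have neC : ∀ c ∈ C, ∀ x, x < 3 * i → c ≠ f x := fun c hc x hx e => (hm x hx).2 (e ▸ hc)
  have step2 : ∀ e, e < 3 * i → ∀ c ∈ C, c / 3 ≠ f e / 3 := by
    intro e he c hc hce
    have nf : ∀ e', e' / 3 = e / 3 → ∃ c' ∈ C, f e' / 3 = c' / 3 := by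
      intro e' he'
      by_contra hn
      push Not at hn
      have := step1 e' (by omega) (fun c' hc' h => hn c' hc' h.symm) e he'.symm
      exact hn c hc (by omega)
    obtain ⟨a, ha⟩ : ∃ a, a = e / 3 := ⟨_, rfl⟩
    obtain ⟨c1, m1, t1⟩ := nf (3 * a) (by omega)
    obtain ⟨c2, m2, t2⟩ := nf (3 * a + 1) (by omega)
    obtain ⟨c3, m3, t3⟩ := nf (3 * a + 2) (by omega)
    have ne : ∀ c ∈ C, c ≠ f (3 * a) ∧ c ≠ f (3 * a + 1) ∧ c ≠ f (3 * a + 2) := fun c hc =>
      ⟨neC c hc _ (by omega), neC c hc _ (by omega), neC c hc _ (by omega)⟩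
    exact three_dep t1 t2 t3 (Or.inl ⟨_, by simp, rfl⟩) (Or.inl ⟨_, by simp, rfl⟩)
      (Or.inl ⟨_, by simp, rfl⟩) (Or.inr m1) (Or.inr m2) (Or.inr m3)
      (inj _ _ (by omega) (by omega) (by omega)) (inj _ _ (by omega) (by omega) (by omega))
      (inj _ _ (by omega) (by omega) (by omega)) (ne _ m1) (ne _ m2) (ne _ m3) (trip a (by omega))
  have pres : ∀ e, e < 3 * i → ∀ e', e' / 3 = e / 3 → f e' / 3 = f e / 3 :=
    fun e he => step1 e he (step2 e he)
  have step3 : ∀ c ∈ C, ∀ c' ∈ C, c / 3 = c' / 3 → c = c' := by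
    intro c hc c' hc' hcc
    by_contra hne
    have n01 := inj 0 1 (by omega) (by omega) (by omega)
    have n02 := inj 0 2 (by omega) (by omega) (by omega)
    have n12 := inj 1 2 (by omega) (by omega) (by omega)
    exact three_dep (x1 := f 1) (c1 := f 0) (x2 := f 2) (c2 := f 0) (x3 := c) (c3 := c')
      (pres 0 (by omega) 1 (by omega)) (pres 0 (by omega) 2 (by omega)) hcc
      (Or.inl ⟨1, by simp, rfl⟩) (Or.inl ⟨2, by simp, rfl⟩) (Or.inr hc)
      (Or.inl ⟨0, by simp, rfl⟩) (Or.inl ⟨0, by simp, rfl⟩) (Or.inr hc') n12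
      (neC c hc 1 (by omega)).symm (neC c hc 2 (by omega)).symm
      ⟨n01, n02, (neC c hc 0 (by omega)).symm⟩ ⟨n01, n02, (neC c hc 0 (by omega)).symm⟩
      ⟨neC c' hc' 1 (by omega), neC c' hc' 2 (by omega), Ne.symm hne⟩ (trip 0 (by omega))
  have back : ∀ I ⊆ Iio (3 * i), LI k (f '' I) → LI i I := by
    intro I hI l
    refine (h I hI).2 (union_free hC l step3 ?_)
    rintro c hc _ ⟨x, hx, rfl⟩
    exact (step2 x (hI hx) c hc).symm
  have onto : ∀ a, a < i → ∀ t, t / 3 = f (3 * a) / 3 → ∃ x, x / 3 = a ∧ f x = t := by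
    intro a ha t ht
    have p1 := pres (3 * a) (by omega) (3 * a + 1) (by omega)
    have p2 := pres (3 * a) (by omega) (3 * a + 2) (by omega)
    have n01 := inj (3 * a) (3 * a + 1) (by omega) (by omega) (by omega)
    have n02 := inj (3 * a) (3 * a + 2) (by omega) (by omega) (by omega)
    have n12 := inj (3 * a + 1) (3 * a + 2) (by omega) (by omega) (by omega)
    have : f (3 * a) = t ∨ f (3 * a + 1) = t ∨ f (3 * a + 2) = t := by omega
    rcases this with e | e | e
    · exact ⟨_, by omega, e⟩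
    · exact ⟨_, by omega, e⟩
    · exact ⟨_, by omega, e⟩
  have sep : ∀ x y, x < 3 * i → y < 3 * i → f x / 3 = f y / 3 → x / 3 = y / 3 := by
    intro x y hx hy e
    have p := pres x hx (3 * (x / 3)) (by omega)
    obtain ⟨z, hz, e'⟩ := onto (x / 3) (by omega) (f y) (by omega)
    have := hf (show z < 3 * i by omega) hy e'
    omega
  have closed : ∀ a, a < i → ∃ b, b < i ∧ f (3 * b) / 3 = (f (3 * a) / 3 + 1) % k := by
    intro a ha
    obtain ⟨j, hj⟩ : ∃ j, j = f (3 * a) / 3 := ⟨_, rfl⟩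
    have hjk : j < k := by have := (hm (3 * a) (by omega)).1; omega
    obtain ⟨x, hx, ex⟩ := onto a ha (3 * j) (by omega)
    obtain ⟨y, hy, ey⟩ := onto a ha (3 * j + 2) (by omega)
    have hxy : x ≠ y := by rintro rfl; omega
    obtain ⟨z, w, hz, hw, hzw, tzw, tzx, hd⟩ := four_dep (k := i) (by omega) (x := x) (y := y)
      (by omega) hxy (by omega)
    refine ⟨z / 3, by omega, ?_⟩
    rw [pres z hz _ (by omega), ← hj]
    by_contra hne
    apply hd
    refine back _ ?_ ?_
    · intro t ht; rw [mem_Iio]; rcases ht with rfl | rfl | rfl | rfl <;> omega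
    · rw [image_insert_eq, image_insert_eq, image_insert_eq, image_singleton, ex, ey]
      refine four_indep hk hjk (hm z hz).1 (inj _ _ hz hw hzw) (pres w hw z tzw) ?_ hne
      intro e
      exact tzx (sep z x hz (by omega) (by omega))
  have all : ∀ n, ∃ b, b < i ∧ f (3 * b) / 3 = (f 0 / 3 + n) % k := by
    intro n
    induction n with
    | zero =>
      refine ⟨0, by omega, ?_⟩
      have := (hm 0 (by omega)).1
      rw [Nat.add_zero, Nat.mod_eq_of_lt (by omega)]
    | succ n ih =>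
      obtain ⟨a, ha, e⟩ := ih
      obtain ⟨b, hb, e'⟩ := closed a ha
      refine ⟨b, hb, ?_⟩
      rw [e', e, Nat.mod_add_mod, Nat.add_assoc]
  have bij : (Finset.range i).card = (Finset.range k).card := by
    refine Finset.card_bij (fun a _ => f (3 * a) / 3) ?_ ?_ ?_
    · intro a ha
      rw [Finset.mem_range] at ha ⊢
      have := (hm (3 * a) (by omega)).1; omega
    · intro a ha b hb e
      rw [Finset.mem_range] at ha hb
      have := sep (3 * a) (3 * b) (by omega) (by omega) e
      omega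
    · intro t ht
      rw [Finset.mem_range] at ht
      have h0 := (hm 0 (by omega)).1
      obtain ⟨b, hb, e⟩ := all (t + k - f 0 / 3)
      refine ⟨b, Finset.mem_range.2 hb, ?_⟩
      rw [e, show f 0 / 3 + (t + k - f 0 / 3) = t + k by omega, Nat.add_mod_right,
        Nat.mod_eq_of_lt ht]
  simpa using bij

/-- the matroids -/
noncomputable def MM (k : ℕ) : Matroid ℕ :=
  Pool.Agent.H28.VecMat.vecOn ℝ (u k) (Iio (3 * k)) (finite_Iio _)

theorem MM_E (k : ℕ) : (MM k).E = Iio (3 * k) := rfl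
theorem MM_indep (k : ℕ) (I : Set ℕ) : (MM k).Indep I ↔ LI k I ∧ I ⊆ Iio (3 * k) := Iff.rfl

theorem minor_struct {M N : Matroid ℕ} (h : N.IsMinor M) : ∃ C, C ⊆ M.E ∧ N.E ⊆ M.E ∧
    Disjoint N.E C ∧ ∀ I ⊆ N.E, N.Indep I ↔ M.Indep (I ∪ C) := by
  have hs := h.subset
  obtain ⟨X, D, rfl⟩ := h
  obtain ⟨C, hC⟩ := M.exists_isBasis' X
  refine ⟨C, hC.indep.subset_ground, hs, ?_, ?_⟩
  · rw [disjoint_left]
    intro x hx hxC
    simp only [Matroid.delete_ground, Matroid.contract_ground, mem_sdiff] at hx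
    exact hx.1.2 (hC.subset hxC)
  · intro I hI
    rw [Matroid.delete_indep_iff, hC.contract_indep_iff]
    simp only [Matroid.delete_ground, Matroid.contract_ground] at hI
    refine ⟨fun h => h.1.1, fun h => ⟨⟨h, ?_⟩, ?_⟩⟩
    · rw [disjoint_right]; exact fun x hx => (hI hx).1.2
    · rw [disjoint_left]; exact fun x hx => (hI hx).2

theorem rep (k : ℕ) : ∃ n : ℕ, ∃ v : ℕ → (Fin n → ℝ),
    ∀ I : Set ℕ, I ⊆ (MM k).E → ((MM k).Indep I ↔ LinearIndepOn ℝ v I) := by
  refine ⟨k + 2, fun x m => u k x m.val, fun I hI => ?_⟩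
  rw [MM_indep, and_iff_left (show I ⊆ Iio (3 * k) from hI)]
  let ext : (Fin (k + 2) → ℝ) →ₗ[ℝ] (ℕ → ℝ) :=
    LinearMap.pi fun m => if h : m < k + 2 then LinearMap.proj (⟨m, h⟩ : Fin (k + 2)) else 0
  have hext : ∀ w m, ext w m = if h : m < k + 2 then w ⟨m, h⟩ else 0 := by
    intro w m
    simp only [ext, LinearMap.pi_apply]
    split_ifs <;> simp
  have hinj : Function.Injective ext := by
    intro w w' e
    funext m
    have := congrFun e m.val
    rw [hext, hext] at this
    simpa using this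
  rw [← ext.linearIndepOn_iff_of_injOn hinj.injOn]
  refine linearIndepOn_congr ?_
  intro x hx
  have hx' : x < 3 * k := hI hx
  funext m
  simp only [Function.comp, hext]
  split_ifs with hm
  · rfl
  · simp only [u]
    rw [if_neg (by omega), if_neg (by omega), if_neg (by omega)]

end Pool.Agent.H7.Tri
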