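import Mathlib

set_option autoImplicit false

namespace Pool.Agent.H7.Trop

open Finset

/-- A configuration of `2h+1` lattice points whose `x`, `y`, `x-y` values fill intervals. -/
structure Cf (h : ℕ) where
  fy : ℤ → ℤ
  fx : ℤ → ℤ
  fz : ℤ → ℤ
  hy : ∀ x : ℤ, 0 ≤ x → x ≤ 2 * h → 0 ≤ fy x ∧ fy x ≤ 2 * h ∧ -h ≤ x - fy x ∧ x - fy x ≤ h ∧
    fx (fy x) = x ∧ fz (x - fy x) = x
  hx : ∀ y : ℤ, 0 ≤ y → y ≤ 2 * h → 0 ≤ fx y ∧ fx y ≤ 2 * h ∧ fy (fx y) = y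
  hz : ∀ z : ℤ, -h ≤ z → z ≤ h → 0 ≤ fz z ∧ fz z ≤ 2 * h ∧ fy (fz z) = fz z - z

def Lf {h : ℕ} (C : Cf h) (a b : ℤ) : Prop := 0 ≤ b ∧ b ≤ 2 * h ∧ C.fx b ≤ a
def Dn {h : ℕ} (C : Cf h) (a b : ℤ) : Prop := 0 ≤ a ∧ a ≤ 2 * h ∧ C.fy a ≤ b
def Up {h : ℕ} (C : Cf h) (a b : ℤ) : Prop := -h ≤ a - b ∧ a - b ≤ h ∧ a ≤ C.fz (a - b)

def Two {h : ℕ} (C : Cf h) (a b : ℤ) : Prop :=
  0 ≤ a ∧ a ≤ 2 * h ∧ 0 ≤ b ∧ b ≤ 2 * h ∧ ((Lf C a b ∧ Dn C a b ∧ ¬ Up C a b) ∨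
    (Lf C a b ∧ ¬ Dn C a b ∧ Up C a b) ∨ (¬ Lf C a b ∧ Dn C a b ∧ Up C a b))

open Classical in
noncomputable def O {h : ℕ} (C : Cf h) : Finset (ℤ × ℤ) :=
  (Icc (0 : ℤ) (2 * h) ×ˢ Icc (0 : ℤ) (2 * h)).filter fun p => Two C p.1 p.2

theorem mem_O {h : ℕ} {C : Cf h} {p : ℤ × ℤ} : p ∈ O C ↔ Two C p.1 p.2 := by
  unfold O
  simp only [mem_filter, mem_product, mem_Icc]
  exact ⟨fun h => h.2, fun h => ⟨⟨⟨h.1, h.2.1⟩, h.2.2.1, h.2.2.2.1⟩, h⟩⟩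

def base (h : ℕ) : Cf h where
  fy x := if x ≤ h then 2 * x else 2 * x - (2 * h + 1)
  fx y := if y % 2 = 0 then y / 2 else (y + (2 * h + 1)) / 2
  fz z := if z ≤ 0 then -z else 2 * h + 1 - z
  hy x h1 h2 := by split_ifs <;> omega
  hx y h1 h2 := by split_ifs <;> omega
  hz z h1 h2 := by split_ifs <;> omega

def step {h : ℕ} (C : Cf h) : Cf (3 * h + 1) where
  fy x := if x ≤ 2 * h then C.fy x + (2 * h + 1) else if x ≤ 4 * h + 1 then C.fy (x - (2 * h + 1))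
    else C.fy (x - (4 * h + 2)) + (4 * h + 2)
  fx y := if y ≤ 2 * h then C.fx y + (2 * h + 1) else if y ≤ 4 * h + 1 then C.fx (y - (2 * h + 1))
    else C.fx (y - (4 * h + 2)) + (4 * h + 2)
  fz z := if z < -h then C.fz (z + (2 * h + 1)) else if z ≤ h then C.fz z + (4 * h + 2)
    else C.fz (z - (2 * h + 1)) + (2 * h + 1)
  hy x h1 h2 := by
    push_cast at *
    by_cases c1 : x ≤ 2 * h
    · have := C.hy x h1 c1
      rw [if_pos c1, if_neg (by omega), if_pos (by omega), if_pos (by omega), add_sub_cancel_right,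
        show x - (C.fy x + (2 * h + 1)) + (2 * h + 1) = x - C.fy x by ring]
      omega
    by_cases c2 : x ≤ 4 * h + 1
    · have := C.hy (x - (2 * h + 1)) (by omega) (by omega)
      rw [if_neg c1, if_pos c2, if_pos (by omega), if_neg (by omega), if_neg (by omega),
        show x - C.fy (x - (2 * h + 1)) - (2 * h + 1) = x - (2 * h + 1) - C.fy (x - (2 * h + 1)) by ring]
      omega
    · have := C.hy (x - (4 * h + 2)) (by omega) (by omega)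
      rw [if_neg c1, if_neg c2, if_neg (by omega), if_neg (by omega), if_neg (by omega),
        if_pos (by omega), add_sub_cancel_right, show x - (C.fy (x - (4 * h + 2)) + (4 * h + 2)) =
          x - (4 * h + 2) - C.fy (x - (4 * h + 2)) by ring]
      omega
  hx y h1 h2 := by
    push_cast at *
    by_cases c1 : y ≤ 2 * h
    · have := C.hx y h1 c1
      rw [if_pos c1, if_neg (by omega), if_pos (by omega), add_sub_cancel_right]
      omega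
    by_cases c2 : y ≤ 4 * h + 1
    · have := C.hx (y - (2 * h + 1)) (by omega) (by omega)
      rw [if_neg c1, if_pos c2, if_pos (by omega)]
      omega
    · have := C.hx (y - (4 * h + 2)) (by omega) (by omega)
      rw [if_neg c1, if_neg c2, if_neg (by omega), if_neg (by omega), add_sub_cancel_right]
      omega
  hz z h1 h2 := by
    push_cast at *
    by_cases c1 : z < -h
    · have := C.hz (z + (2 * h + 1)) (by omega) (by omega)
      rw [if_pos c1, if_pos (by omega)]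
      omega
    by_cases c2 : z ≤ h
    · have := C.hz z (by omega) c2
      rw [if_neg c1, if_pos c2, if_neg (by omega), if_neg (by omega), add_sub_cancel_right]
      omega
    · have := C.hz (z - (2 * h + 1)) (by omega) (by omega)
      rw [if_neg c1, if_neg c2, if_neg (by omega), if_pos (by omega), add_sub_cancel_right]
      omega

noncomputable def cor (h : ℕ) : Finset (ℤ × ℤ) :=
  (Icc (0 : ℤ) (2 * h) ×ˢ Icc (0 : ℤ) (2 * h)).filter fun p => p.2 + h < p.1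

theorem cor_card (h : ℕ) : 2 * (cor h).card ≤ h * (h + 1) := by
  have : cor h ⊆ (range (h + 1)).biUnion fun i : ℕ => (range i).image fun j : ℕ => ((h + i : ℤ), (j : ℤ)) := by
    rintro ⟨a, b⟩ hp
    simp only [cor, mem_filter, mem_product, mem_Icc] at hp
    simp only [mem_biUnion, mem_range, mem_image, Prod.mk.injEq]
    exact ⟨(a - h).toNat, by omega, b.toNat, by omega, by omega, by omega⟩
  have h2 := (card_le_card this).trans (card_biUnion_le.trans (sum_le_sum fun i _ => card_image_le))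
  simp only [card_range] at h2
  have := sum_range_id_mul_two (h + 1)
  simp only [Nat.add_sub_cancel] at this
  nlinarith

def sh (S : Finset (ℤ × ℤ)) (u v : ℤ) : Finset (ℤ × ℤ) := S.image fun p => (p.1 + u, p.2 + v)

theorem mem_sh {S : Finset (ℤ × ℤ)} {u v a b : ℤ} : (a, b) ∈ sh S u v ↔ (a - u, b - v) ∈ S := by
  simp only [sh, mem_image, Prod.mk.injEq]
  exact ⟨fun ⟨p, hp, h1, h2⟩ => by rw [← h1, ← h2]; simpa using hp,
    fun h => ⟨_, h, by ring, by ring⟩⟩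

theorem arith {h m a b i j X Y Z Z0 d e FX FY FZ : ℤ} (hm : m = 2 * h + 1)
    (ha : 0 ≤ a ∧ a ≤ 2 * h) (hb : 0 ≤ b ∧ b ≤ 2 * h) (hX : 0 ≤ X ∧ X ≤ 2 * h)
    (hY : 0 ≤ Y ∧ Y ≤ 2 * h) (hZ : 0 ≤ Z ∧ Z ≤ 2 * h) (hZ' : 0 ≤ Z - d ∧ Z - d ≤ 2 * h)
    (hd : -h ≤ d ∧ d ≤ h) (hab : a - b = d + e * m)
    (he : e = -1 ∨ (e = 0 ∧ Z0 = Z) ∨ e = 1)
    (hi : (i = 0 ∧ FY = Y + m) ∨ (i = 1 ∧ FY = Y) ∨ (i = 2 ∧ FY = Y + 2 * m))
    (hj : (j = 0 ∧ FX = X + m) ∨ (j = 1 ∧ FX = X) ∨ (j = 2 ∧ FX = X + 2 * m))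
    (hk : (e + i - j = -1 → FZ = Z) ∧ (e + i - j = 0 → FZ = Z + 2 * m) ∧ (e + i - j = 1 → FZ = Z + m))
    {L D U : Prop} (hL : L ↔ FX ≤ a + i * m) (hD : D ↔ FY ≤ b + j * m)
    (hU : U ↔ -(3 * h + 1) ≤ a + i * m - (b + j * m) ∧ a + i * m - (b + j * m) ≤ 3 * h + 1 ∧
      a + i * m ≤ FZ)
    (T : (L ∧ D ∧ ¬U) ∨ (L ∧ ¬D ∧ U) ∨ (¬L ∧ D ∧ U)) :
    (((i = 0 ∧ j = 1) ∨ (i = 1 ∧ j = 0) ∨ (i = 2 ∧ j = 2)) ∧
      ((X ≤ a ∧ Y ≤ b ∧ ¬(-h ≤ a - b ∧ a - b ≤ h ∧ a ≤ Z0)) ∨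
      (X ≤ a ∧ ¬Y ≤ b ∧ (-h ≤ a - b ∧ a - b ≤ h ∧ a ≤ Z0)) ∨
      (¬X ≤ a ∧ Y ≤ b ∧ (-h ≤ a - b ∧ a - b ≤ h ∧ a ≤ Z0)))) ∨
    (((i = 0 ∧ j = 1) ∨ (i = 1 ∧ j = 1) ∨ (i = 1 ∧ j = 2)) ∧ b + h < a) ∨
    (((i = 1 ∧ j = 0) ∨ (i = 1 ∧ j = 1) ∨ (i = 2 ∧ j = 1)) ∧ a + h < b) := by
  rw [hL, hD, hU] at T
  clear hL hD hU
  rcases he with rfl | ⟨rfl, rfl⟩ | rfl <;> rcases hi with ⟨rfl, rfl⟩ | ⟨rfl, rfl⟩ | ⟨rfl, rfl⟩ <;>
    rcases hj with ⟨rfl, rfl⟩ | ⟨rfl, rfl⟩ | ⟨rfl, rfl⟩ <;> norm_num at hk ⊢ <;>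
    rcases T with T | T | T <;> omega

theorem key {h : ℕ} (C : Cf h) {m a b i j : ℤ} (hm : m = 2 * h + 1) (ha : 0 ≤ a ∧ a ≤ 2 * h)
    (hb : 0 ≤ b ∧ b ≤ 2 * h) (hi : i = 0 ∨ i = 1 ∨ i = 2) (hj : j = 0 ∨ j = 1 ∨ j = 2)
    (T : Two (step C) (a + i * m) (b + j * m)) :
    (((i = 0 ∧ j = 1) ∨ (i = 1 ∧ j = 0) ∨ (i = 2 ∧ j = 2)) ∧ Two C a b) ∨
    (((i = 0 ∧ j = 1) ∨ (i = 1 ∧ j = 1) ∨ (i = 1 ∧ j = 2)) ∧ b + h < a) ∨
    (((i = 1 ∧ j = 0) ∨ (i = 1 ∧ j = 1) ∨ (i = 2 ∧ j = 1)) ∧ a + h < b) := by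
  obtain ⟨e, d, hab, he, hd⟩ : ∃ e d : ℤ, a - b = d + e * m ∧ (e = -1 ∨ e = 0 ∨ e = 1) ∧
      -h ≤ d ∧ d ≤ h := by
    by_cases c1 : a - b < -h
    · exact ⟨-1, a - b + m, by omega⟩
    by_cases c2 : a - b ≤ h
    · exact ⟨0, a - b, by omega⟩
    · exact ⟨1, a - b - m, by omega⟩
  have y0 := C.hy a ha.1 ha.2
  have x0 := C.hx b hb.1 hb.2
  have z0 := C.hz d hd.1 hd.2
  have z1 := C.hy _ z0.1 z0.2.1
  obtain ⟨t1, t2, t3, t4, T⟩ := T
  have := arith (X := C.fx b) (Y := C.fy a) (Z := C.fz d) (Z0 := C.fz (a - b)) (i := i) (j := j)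
    (FX := (step C).fx (b + j * m)) (FY := (step C).fy (a + i * m))
    (FZ := (step C).fz (a + i * m - (b + j * m))) hm ha hb (by omega) (by omega) (by omega)
    (by omega) hd hab ?_ ?_ ?_ ?_ (L := Lf (step C) (a + i * m) (b + j * m))
    (D := Dn (step C) (a + i * m) (b + j * m)) (U := Up (step C) (a + i * m) (b + j * m))
    ⟨fun h => h.2.2, fun h => ⟨t3, t4, h⟩⟩ ⟨fun h => h.2.2, fun h => ⟨t1, t2, h⟩⟩
    (by simp only [Up]; push_cast; rfl) T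
  · simpa only [Two, Lf, Dn, Up, ha.1, ha.2, hb.1, hb.2, true_and] using this
  · rcases he with rfl | rfl | rfl
    · simp
    · rw [hab]; simp
    · simp
  · rcases hi with rfl | rfl | rfl
    · left; simp only [step]; rw [if_pos (by omega), hm]; simp
    · right; left; simp only [step]; rw [if_neg (by omega), if_pos (by omega), hm]; simp
    · right; right; simp only [step]; rw [if_neg (by omega), if_neg (by omega)]
      rw [show a + 2 * m - (4 * h + 2) = a by omega]; exact ⟨trivial, by omega⟩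
  · rcases hj with rfl | rfl | rfl
    · left; simp only [step]; rw [if_pos (by omega), hm]; simp
    · right; left; simp only [step]; rw [if_neg (by omega), if_pos (by omega), hm]; simp
    · right; right; simp only [step]; rw [if_neg (by omega), if_neg (by omega)]
      rw [show b + 2 * m - (4 * h + 2) = b by omega]; exact ⟨trivial, by omega⟩
  · have e1 : a + i * m - (b + j * m) = d + (e + i - j) * m := by linear_combination hab
    rw [e1]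
    refine ⟨fun k => ?_, fun k => ?_, fun k => ?_⟩ <;> rw [k] <;> simp only [step]
    · rw [if_pos (by omega), show d + -1 * m + (2 * h + 1) = d by omega]
    · rw [if_neg (by omega), if_pos (by omega), show d + 0 * m = d by omega]; omega
    · rw [if_neg (by omega), if_neg (by omega), show d + 1 * m - (2 * h + 1) = d by omega]; omega

theorem step_card {h : ℕ} (C : Cf h) : (O (step C)).card ≤ 3 * (O C).card + 6 * (cor h).card := by
  obtain ⟨m, hm⟩ : ∃ m : ℤ, m = 2 * h + 1 := ⟨_, rfl⟩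
  have hs : ∀ S u v, (sh S u v).card ≤ S.card := fun S u v => card_image_le
  have hc : ((cor h).image Prod.swap).card ≤ (cor h).card := card_image_le
  have sub : O (step C) ⊆ (sh (O C) 0 m ∪ sh (O C) m 0 ∪ sh (O C) (2 * m) (2 * m)) ∪
      ((sh (cor h) 0 m ∪ sh (cor h) m m ∪ sh (cor h) m (2 * m)) ∪
      (sh ((cor h).image Prod.swap) m 0 ∪ sh ((cor h).image Prod.swap) m m ∪
        sh ((cor h).image Prod.swap) (2 * m) m)) := by
    rintro ⟨a, b⟩ hp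
    have sw : ∀ x y : ℤ, (x, y) ∈ (cor h).image Prod.swap ↔ (y, x) ∈ cor h := fun x y => by
      simp only [mem_image, Prod.exists, Prod.swap_prod_mk, Prod.mk.injEq]
      exact ⟨fun ⟨p, q, h1, h2, h3⟩ => h2 ▸ h3 ▸ h1, fun h => ⟨_, _, h, rfl, rfl⟩⟩
    have mc : ∀ x y : ℤ, (x, y) ∈ cor h ↔ ((0 ≤ x ∧ x ≤ 2 * h) ∧ 0 ≤ y ∧ y ≤ 2 * h) ∧ y + h < x :=
      fun x y => by simp only [cor, mem_filter, mem_product, mem_Icc]
    simp only [mem_union, mem_sh, sw, mem_O, mc] at hp ⊢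
    have hp' := hp
    obtain ⟨t1, t2, t3, t4, -⟩ := hp'
    push_cast at t2 t4
    obtain ⟨i, a', rfl, hi, ha⟩ : ∃ i a' : ℤ, a = a' + i * m ∧ (i = 0 ∨ i = 1 ∨ i = 2) ∧
        0 ≤ a' ∧ a' ≤ 2 * h := by
      by_cases c1 : a < m
      · exact ⟨0, a, by omega⟩
      by_cases c2 : a < 2 * m
      · exact ⟨1, a - m, by omega⟩
      · exact ⟨2, a - 2 * m, by omega⟩
    obtain ⟨j, b', rfl, hj, hb⟩ : ∃ j b' : ℤ, b = b' + j * m ∧ (j = 0 ∨ j = 1 ∨ j = 2) ∧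
        0 ≤ b' ∧ b' ≤ 2 * h := by
      by_cases c1 : b < m
      · exact ⟨0, b, by omega⟩
      by_cases c2 : b < 2 * m
      · exact ⟨1, b - m, by omega⟩
      · exact ⟨2, b - 2 * m, by omega⟩
    rcases key C hm ha hb hi hj hp with ⟨⟨rfl, rfl⟩ | ⟨rfl, rfl⟩ | ⟨rfl, rfl⟩, T⟩ |
      ⟨⟨rfl, rfl⟩ | ⟨rfl, rfl⟩ | ⟨rfl, rfl⟩, T⟩ | ⟨⟨rfl, rfl⟩ | ⟨rfl, rfl⟩ | ⟨rfl, rfl⟩, T⟩ <;>
      simp [T, ha, hb]
  have := card_le_card sub
  have u := fun A B : Finset (ℤ × ℤ) => card_union_le A B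
  have v : ∀ A B D : Finset (ℤ × ℤ), (A ∪ B ∪ D).card ≤ A.card + B.card + D.card := fun A B D =>
    (u _ _).trans (Nat.add_le_add_right (u _ _) _)
  have w1 := hs (O C)
  have w2 := hs (cor h)
  have w3 := fun u v => (hs ((cor h).image Prod.swap) u v).trans hc
  refine this.trans ((u _ _).trans ((add_le_add (v _ _ _) ((u _ _).trans
    (add_le_add (v _ _ _) (v _ _ _)))).trans ?_))
  linarith [w1 0 m, w1 m 0, w1 (2 * m) (2 * m), w2 0 m, w2 m m, w2 m (2 * m), w3 m 0, w3 m m,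
    w3 (2 * m) m]

end Pool.Agent.H7.Trop
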