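import Pool.Agent.H7.Trop1

set_option autoImplicit false
set_option maxHeartbeats 400000

namespace Pool.Agent.H7.Trop

open Finset

def On {h : ℕ} (C : Cf h) (a b t : ℤ) : Prop :=
  (C.fy t = b ∧ t ≤ a) ∨ (t = a ∧ C.fy t ≤ b) ∨ (t - C.fy t = a - b ∧ a ≤ t)

noncomputable def bad {h : ℕ} (C : Cf h) (n : ℕ) : Finset (ℤ × ℤ) :=
  (Icc (n : ℤ) (2 * h)).biUnion fun t => (Icc (0 : ℤ) (2 * h)).image (fun y => (t, y)) ∪
    (Icc (0 : ℤ) (2 * h)).image (fun y => (y, C.fy t)) ∪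
    (Icc (0 : ℤ) (2 * h)).image (fun y => (y, y - (t - C.fy t)))

theorem bad_card {h : ℕ} (C : Cf h) (n : ℕ) : (bad C n).card ≤ (2 * h + 1 - n) * (3 * (2 * h + 1)) := by
  have e : (Icc (0 : ℤ) (2 * h)).card = 2 * h + 1 := by rw [Int.card_Icc]; omega
  have e' : (Icc (n : ℤ) (2 * h)).card = 2 * h + 1 - n := by rw [Int.card_Icc]; omega
  rw [← e']
  refine card_biUnion_le_card_mul _ _ _ fun t _ => ?_
  refine (card_union_le _ _).trans ((add_le_add ((card_union_le _ _).trans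
    (add_le_add card_image_le card_image_le)) card_image_le).trans ?_)
  omega

theorem prop3 {L D U : Prop} (c : ¬((L ∧ D ∧ ¬U) ∨ (L ∧ ¬D ∧ U) ∨ (¬L ∧ D ∧ U)))
    (t : (L ∧ D) ∨ (L ∧ U) ∨ (D ∧ U)) : L ∧ D ∧ U := by tauto

theorem int_two {h n : ℕ} (C : Cf h) (hn : n ≤ 2 * h + 1) {a b x x' : ℤ} (hne : x ≠ x')
    (H : ∀ t : ℤ, (0 ≤ t ∧ t < n ∧ On C a b t) ↔ t = x ∨ t = x') : (a, b) ∈ O C ∪ bad C n := by
  have k : ∀ t : ℤ, 0 ≤ t ∧ t < n ∧ On C a b t →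
      (Lf C a b ∧ t = C.fx b) ∨ (Dn C a b ∧ t = a) ∨ (Up C a b ∧ t = C.fz (a - b)) := by
    rintro t ⟨t0, t1, ht⟩
    have := C.hy t t0 (by omega)
    rcases ht with ⟨rfl, h2⟩ | ⟨rfl, h2⟩ | ⟨h1, h2⟩
    · left; unfold Lf; omega
    · right; left; unfold Dn; omega
    · right; right; unfold Up; rw [← h1]; omega
  have k1 := k x ((H x).2 (Or.inl rfl))
  have k2 := k x' ((H x').2 (Or.inr rfl))
  have y0 := C.hy a
  have x0 := C.hx b
  have z0 := C.hz (a - b)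
  have z1 : Up C a b → C.fy (C.fz (a - b)) ≤ 2 * h := fun u => by
    have := C.hz _ u.1 u.2.1
    exact (C.hy _ this.1 this.2.1).2.1
  have r : 0 ≤ a ∧ a ≤ 2 * h ∧ 0 ≤ b ∧ b ≤ 2 * h := by
    unfold Lf Dn Up at *
    rcases k1 with k1 | k1 | k1 <;> rcases k2 with k2 | k2 | k2 <;> omega
  rw [mem_union, mem_O]
  by_contra hc
  rw [not_or] at hc
  obtain ⟨c1, c2⟩ := hc
  have all : Lf C a b ∧ Dn C a b ∧ Up C a b := by
    refine prop3 (fun h => c1 ⟨r.1, r.2.1, r.2.2.1, r.2.2.2, h⟩) ?_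
    rcases k1 with ⟨p, e⟩ | ⟨p, e⟩ | ⟨p, e⟩ <;> rcases k2 with ⟨q, f⟩ | ⟨q, f⟩ | ⟨q, f⟩ <;>
      first | exact absurd (e.trans f.symm) hne | simp only [p, q, and_self, true_or, or_true]
  obtain ⟨l, d, u⟩ := all
  simp only [bad, mem_biUnion, mem_Icc, mem_union, mem_image, Prod.mk.injEq, not_exists, not_and,
    not_or] at c2
  have y1 := y0 r.1 r.2.1
  have x1 := x0 l.1 l.2.1
  have z2 := z0 u.1 u.2.1
  have b1 : a < n := by
    by_contra hh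
    exact (c2 a ⟨by omega, r.2.1⟩).1.1 b ⟨r.2.2.1, r.2.2.2⟩ rfl rfl
  have b2 : C.fx b < n := by
    by_contra hh
    exact (c2 (C.fx b) ⟨by omega, x1.2.1⟩).1.2 a ⟨r.1, r.2.1⟩ rfl x1.2.2
  have b3 : C.fz (a - b) < n := by
    by_contra hh
    exact (c2 (C.fz (a - b)) ⟨by omega, z2.2.1⟩).2 a ⟨r.1, r.2.1⟩ rfl (by omega)
  have m1 := (H a).1 ⟨r.1, b1, Or.inr (Or.inl ⟨rfl, d.2.2⟩)⟩
  have m2 := (H (C.fx b)).1 ⟨x1.1, b2, Or.inl ⟨x1.2.2, l.2.2⟩⟩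
  have m3 := (H (C.fz (a - b))).1 ⟨z2.1, b3, Or.inr (Or.inr ⟨by omega, u.2.2⟩)⟩
  have l2 := l.2.2
  have u2 := u.2.2
  have q : C.fx b = a ∧ C.fz (a - b) = a := by
    have : C.fx b = a ∨ C.fz (a - b) = a := by omega
    have hb : C.fy a = b := by
      rcases this with e | e
      · rw [← e]; exact x1.2.2
      · have := z2.2.2
        rw [e] at this; omega
    rw [← hb]; exact y1.2.2.2.2
  rcases k1 with k1 | k1 | k1 <;> rcases k2 with k2 | k2 | k2 <;> omega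

theorem iter (h0 k : ℕ) : ∃ (h : ℕ) (C : Cf h), 2 * h + 1 = (2 * h0 + 1) * 3 ^ k ∧
    8 * (O C).card ≤ (2 * h + 1) ^ 2 + 7 * (2 * h0 + 1) * (2 * h + 1) := by
  induction k with
  | zero =>
    refine ⟨h0, base h0, by simp, ?_⟩
    have : (O (base h0)).card ≤ (2 * h0 + 1) * (2 * h0 + 1) := by
      have e : (Icc (0 : ℤ) (2 * h0)).card = 2 * h0 + 1 := by rw [Int.card_Icc]; omega
      rw [← e, ← card_product]
      refine card_le_card fun p hp => ?_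
      rw [mem_O] at hp
      simp only [mem_product, mem_Icc]
      exact ⟨⟨hp.1, hp.2.1⟩, hp.2.2.1, hp.2.2.2.1⟩
    nlinarith
  | succ k ih =>
    obtain ⟨h, C, e, hC⟩ := ih
    refine ⟨3 * h + 1, step C, by rw [pow_succ, ← mul_assoc, ← e]; ring, ?_⟩
    have := step_card C
    have := cor_card h
    nlinarith

theorem choice (n : ℕ) (hn : 0 < n) : ∃ (h : ℕ) (C : Cf h), n ≤ 2 * h + 1 ∧
    8 * ((O C).card + (2 * h + 1 - n) * (3 * (2 * h + 1))) ≤ n ^ 2 + 640 * n * Nat.sqrt n := by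
  obtain ⟨k, k1, k2⟩ : ∃ k, 9 ^ k ≤ n ∧ n < 9 ^ (k + 1) :=
    ⟨Nat.log 9 n, Nat.pow_log_le_self 9 hn.ne', Nat.lt_pow_succ_log_self (by norm_num) n⟩
  obtain ⟨t, ht⟩ : ∃ t, t = 3 ^ k := ⟨_, rfl⟩
  have t0 : 0 < t := by rw [ht]; positivity
  have e9 : 9 ^ k = t * t := by rw [ht, ← mul_pow]; norm_num
  rw [pow_succ] at k2
  rw [e9] at k1 k2
  have ts : t ≤ Nat.sqrt n := Nat.le_sqrt.2 k1
  obtain ⟨h, C, e, hC⟩ := iter (n / (2 * t) + 1) k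
  rw [← ht] at e
  have d1 := Nat.div_add_mod n (2 * t)
  have d2 := Nat.mod_lt n (show 0 < 2 * t by omega)
  obtain ⟨q, hq⟩ : ∃ q, q = n / (2 * t) := ⟨_, rfl⟩
  rw [← hq] at e hC d1
  obtain ⟨M, hM⟩ : ∃ M, M = 2 * h + 1 := ⟨_, rfl⟩
  have a0 : M = 2 * t * q + 3 * t := by rw [hM, e]; ring
  have a1 : n ≤ M := by linarith
  have a2 : M ≤ n + 3 * t := by linarith [Nat.zero_le (n % (2 * t))]
  have tn : t ≤ n := by nlinarith
  have a3 : 2 * (q + 1) + 1 ≤ 12 * t := by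
    have : t * (2 * q) < t * (9 * t) := by linarith [Nat.zero_le (n % (2 * t))]
    have := Nat.lt_of_mul_lt_mul_left this
    omega
  refine ⟨h, C, hM ▸ a1, ?_⟩
  rw [← hM] at hC ⊢
  have a4 : M - n ≤ 3 * t := by omega
  have a5 : (M - n) * (3 * M) ≤ 3 * t * (3 * M) := Nat.mul_le_mul_right _ a4
  have a6 : 7 * (2 * (q + 1) + 1) * M ≤ 7 * (12 * t) * M := by gcongr
  have a7 : M ^ 2 ≤ (n + 3 * t) ^ 2 := by gcongr
  have a8 : t * M ≤ t * (4 * n) := Nat.mul_le_mul_left _ (by omega)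
  have a9 : t * t ≤ t * n := Nat.mul_le_mul_left _ tn
  have a10 : n * t ≤ n * Nat.sqrt n := Nat.mul_le_mul_left _ ts
  nlinarith

end Pool.Agent.H7.Trop
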