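import Mathlib

set_option autoImplicit false

namespace Pool.Agent.H7.TwoSided

/-- regular type A sequences: the new end term is the sum of a block adjacent to it -/
inductive RegA : List ℕ → Prop
  | base : RegA [1, 1]
  | front (d : List ℕ) (j : ℕ) : RegA d → 1 ≤ j → j ≤ d.length → RegA ((d.take j).sum :: d)
  | back (d : List ℕ) (j : ℕ) : RegA d → 1 ≤ j → j ≤ d.length →
      RegA (d ++ [(d.drop (d.length - j)).sum])

/-- regular type B sequences: the new end term is the sum of any nonempty block -/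
inductive RegB : List ℕ → Prop
  | base : RegB [1, 1]
  | front (d c : List ℕ) : RegB d → c ≠ [] → c <:+: d → RegB (c.sum :: d)
  | back (d c : List ℕ) : RegB d → c ≠ [] → c <:+: d → RegB (d ++ [c.sum])

/-- least length of a type A sequence having some ordering of `ks` as a subsequence -/
noncomputable def a (ks : List ℕ) : ℕ := sInf {n | ∃ d, RegA d ∧ d.length = n ∧ ks.Subperm d}

/-- least length of a type B sequence having some ordering of `ks` as a subsequence -/
noncomputable def b (ks : List ℕ) : ℕ := sInf {n | ∃ d, RegB d ∧ d.length = n ∧ ks.Subperm d}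

def succ (d : List ℕ) : List (List ℕ) :=
  (List.range d.length).flatMap fun j =>
    [(d.take (j + 1)).sum :: d, d ++ [(d.drop (d.length - (j + 1))).sum]]

theorem succ_spec {d e : List ℕ} (h : e ∈ succ d) :
    ∃ v, v ≤ d.sum ∧ e.sum = d.sum + v ∧ ∀ x, x ∈ e ↔ x = v ∨ x ∈ d := by
  simp only [succ, List.mem_flatMap, List.mem_cons, List.not_mem_nil, or_false] at h
  obtain ⟨j, -, rfl | rfl⟩ := h
  · exact ⟨_, (List.take_sublist (j + 1) d).sum_le_sum (by simp), by simp [add_comm], by simp⟩
  · exact ⟨_, (List.drop_sublist (d.length - (j + 1)) d).sum_le_sum (by simp), by simp, by simp [or_comm]⟩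

def Safe (k l : ℕ) : ℕ → List ℕ → Prop
  | 0, d => ¬ (k ∈ d ∧ l ∈ d)
  | r + 1, d => ¬ (k ∈ d ∧ l ∈ d) ∧ ∀ e ∈ succ d, Safe k l r e

theorem safe_one (k l m : ℕ) (hm : m = k ∨ m = l) : ∀ (r : ℕ) (d : List ℕ), m ∉ d →
    d.sum * 2 ^ r < 2 * m → Safe k l r d
  | 0, d, h, _ => fun c => h (by rcases hm with rfl | rfl; exacts [c.1, c.2])
  | r + 1, d, h, s => ⟨fun c => h (by rcases hm with rfl | rfl; exacts [c.1, c.2]), fun e he => by
      obtain ⟨v, hv, hs, hx⟩ := succ_spec he
      have p : 1 ≤ 2 ^ r := Nat.one_le_two_pow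
      rw [pow_succ] at s
      refine safe_one k l m hm r e (fun c => ?_) (by rw [hs]; nlinarith)
      rcases (hx m).1 c with rfl | c
      · nlinarith
      · exact h c⟩

theorem safe_two (k l : ℕ) (hkl : k < l) : ∀ (r : ℕ) (d : List ℕ), k ∉ d → l ∉ d →
    d.sum * 2 ^ r < 4 * k → Safe k l r d
  | 0, _, h, _, _ => fun c => h c.1
  | 1, d, h, h', _ => ⟨fun c => h c.1, fun e he c => by
      obtain ⟨v, -, -, hx⟩ := succ_spec he
      have h1 := ((hx k).1 c.1).resolve_right h
      have h2 := ((hx l).1 c.2).resolve_right h'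
      omega⟩
  | r + 2, d, h, h', s => ⟨fun c => h c.1, fun e he => by
      obtain ⟨v, hv, hs, hx⟩ := succ_spec he
      have p : 1 ≤ 2 ^ r := Nat.one_le_two_pow
      rw [pow_succ, pow_succ] at s
      refine safe_two k l hkl (r + 1) e (fun c => ?_) (fun c => ?_)
        (by rw [hs, pow_succ]; nlinarith)
      · rcases (hx k).1 c with rfl | c
        · nlinarith
        · exact h c
      · rcases (hx l).1 c with rfl | c
        · nlinarith
        · exact h' c⟩

def ok (k l : ℕ) : ℕ → List ℕ → Bool
  | 0, d => !(d.contains k && d.contains l)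
  | r + 1, d =>
    (!d.contains k && !d.contains l && decide (d.sum * 2 ^ (r + 1) < 4 * k)) ||
    (!d.contains l && decide (d.sum * 2 ^ (r + 1) < 2 * l)) ||
    (!(d.contains k && d.contains l) && (succ d).all (ok k l r))

theorem ok_safe (k l : ℕ) (hkl : k < l) : ∀ (r : ℕ) (d : List ℕ), ok k l r d = true → Safe k l r d
  | 0, d, h => by simpa [ok, Safe, or_iff_not_imp_left] using h
  | r + 1, d, h => by
      simp only [ok, Bool.or_eq_true, Bool.and_eq_true, Bool.not_eq_true', decide_eq_true_eq,
        List.all_eq_true, List.contains_eq_mem, decide_eq_false_iff_not, Bool.and_eq_false_iff] at h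
      rcases h with (⟨⟨h1, h2⟩, h3⟩ | ⟨h1, h2⟩) | ⟨h1, h2⟩
      · exact safe_two k l hkl _ d h1 h2 h3
      · exact safe_one k l l (Or.inr rfl) _ d h1 h2
      · exact ⟨fun c => h1.elim (fun x => x c.1) (fun x => x c.2),
          fun e he => ok_safe k l hkl r e (h2 e he)⟩

theorem reg_safe (k l R : ℕ) (h0 : Safe k l R [1, 1]) (d : List ℕ) (h : RegA d) :
    ∀ r, r + d.length = R + 2 → Safe k l r d := by
  induction h with
  | base => intro r hr; obtain rfl : r = R := by simpa using hr
            exact h0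
  | front d j _ h1 h2 ih =>
    intro r hr
    refine (ih (r + 1) (by simp at hr; omega)).2 _ ?_
    simp only [succ, List.mem_flatMap, List.mem_range]
    exact ⟨j - 1, by omega, by rw [Nat.sub_add_cancel h1]; simp⟩
  | back d j _ h1 h2 ih =>
    intro r hr
    refine (ih (r + 1) (by simp at hr; omega)).2 _ ?_
    simp only [succ, List.mem_flatMap, List.mem_range]
    exact ⟨j - 1, by omega, by rw [Nat.sub_add_cancel h1]; simp⟩

theorem a_gt (k l R : ℕ) (hkl : k < l) (h0 : ok k l R [1, 1] = true) (d : List ℕ) (hd : RegA d)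
    (hs : [k, l].Subperm d) : R + 2 < a [k, l] := by
  refine lt_of_lt_of_le (Nat.lt_succ_self _) (le_csInf ⟨_, d, hd, rfl, hs⟩ ?_)
  rintro n ⟨e, he, rfl, hse⟩
  by_contra c
  have := reg_safe k l R (ok_safe k l hkl _ _ h0) e he (R + 2 - e.length) (by omega)
  have hb : k ∈ e ∧ l ∈ e := ⟨hse.subset (by simp), hse.subset (by simp)⟩
  cases hr : R + 2 - e.length with
  | zero => rw [hr] at this; exact this hb
  | succ r => rw [hr] at this; exact this.1 hb

end Pool.Agent.H7.TwoSided
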